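import Pool.Agent.TC.Cyc.Stmts2

/-!
# CRSA: the boundary of the list chains `eL`, and the lengths of the lists
-/

set_option autoImplicit false

open scoped Topology

noncomputable section

namespace TC

namespace CRSA

theorem add_self {M : Type} [AddCommGroup M] [Module F2 M] (x : M) : x + x = 0 := by
  have h : (2 : F2) = 0 := by decide
  rw [← two_smul F2 x, h, zero_smul]

section lists

variable {K K' K'' : Type}

theorem lmapC_single (f : K → K') (l : List K) (a : F2) :
    lmapC f (Finsupp.single l a) = Finsupp.single (l.map f) a := by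
  rw [lmapC, Finsupp.lmapDomain_apply, Finsupp.mapDomain_single]

theorem lmapC_comp (f : K' → K'') (g : K → K') (c : LCh K) :
    lmapC f (lmapC g c) = lmapC (fun x => f (g x)) c := by
  induction c using Finsupp.induction_linear with
  | zero => simp only [map_zero]
  | add x y hx hy => simp only [map_add, hx, hy]
  | single l a =>
    rw [lmapC_single, lmapC_single, lmapC_single, List.map_map]
    rfl

theorem lcone_single (b : K) (l : List K) (a : F2) :
    lcone b (Finsupp.single l a) = Finsupp.single (b :: l) a := by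
  rw [lcone, Finsupp.lmapDomain_apply, Finsupp.mapDomain_single]

/-- All the lists have length `n`. -/
def Len (n : ℕ) (c : LCh K) : Prop := ∀ l ∈ c.support, l.length = n

theorem Len.add {n : ℕ} {c c' : LCh K} (h : Len n c) (h' : Len n c') : Len n (c + c') := by
  classical
  intro l hl
  rcases Finset.mem_union.mp (Finsupp.support_add hl) with h1 | h1
  · exact h l h1
  · exact h' l h1

theorem Len.cast {n m : ℕ} {c : LCh K} (h : Len n c) (e : n = m) : Len m c := e ▸ h

theorem Len.zero {n : ℕ} : Len n (0 : LCh K) := by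
  intro l hl
  simp at hl

theorem Len.sum {n : ℕ} {ι : Type} (s : Finset ι) (c : ι → LCh K) (h : ∀ i, Len n (c i)) :
    Len n (∑ i ∈ s, c i) := by
  classical
  induction s using Finset.induction_on with
  | empty =>
    rw [Finset.sum_empty]
    exact Len.zero
  | insert a s ha ih =>
    rw [Finset.sum_insert ha]
    exact (h a).add ih

theorem Len.map {n : ℕ} {c : LCh K} (h : Len n c) (f : K → K') : Len n (lmapC f c) := by
  classical
  intro l hl
  rw [lmapC, Finsupp.lmapDomain_apply] at hl
  obtain ⟨l', hl', rfl⟩ := Finset.mem_image.mp (Finsupp.mapDomain_support hl)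
  rw [List.length_map]
  exact h l' hl'

theorem Len.cone {n : ℕ} {c : LCh K} (h : Len n c) (b : K) : Len (n + 1) (lcone b c) := by
  classical
  intro l hl
  rw [lcone, Finsupp.lmapDomain_apply] at hl
  obtain ⟨l', hl', rfl⟩ := Finset.mem_image.mp (Finsupp.mapDomain_support hl)
  rw [List.length_cons, h l' hl']

end lists

/-- A double sum over composites of faces vanishes. -/
theorem double_face {M : Type} [AddCommGroup M] [Module F2 M] (n : ℕ)
    (f : Fin (n + 2) → Fin (n + 1) → M)
    (hf : ∀ i j, f (i.succAbove j) (j.predAbove i) = f i j) : ∑ i, ∑ j, f i j = 0 := by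
  rw [← Fintype.sum_prod_type' f]
  refine Finset.sum_involution (fun a _ => (a.1.succAbove a.2, a.2.predAbove a.1)) ?_ ?_ ?_ ?_
  · rintro ⟨i, j⟩ _
    simp only
    rw [hf i j, add_self]
  · rintro ⟨i, j⟩ _ _ h
    exact Fin.succAbove_ne i j (congrArg Prod.fst h)
  · intro a _
    exact Finset.mem_univ _
  · rintro ⟨i, j⟩ _
    exact Prod.ext (Fin.succAbove_succAbove_predAbove i j)
      (Fin.predAbove_predAbove_succAbove i j)

theorem face_face {n : ℕ} (i : Fin (n + 3)) (j : Fin (n + 2)) (x : Simp n) :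
    face (i.succAbove j) (face (j.predAbove i) x) = face i (face j x) := by
  show stdSimplex.map _ (stdSimplex.map _ x) = stdSimplex.map _ (stdSimplex.map _ x)
  rw [stdSimplex.map_comp_apply, stdSimplex.map_comp_apply]
  congr 1
  funext k
  exact Fin.succAbove_succAbove_succAbove_predAbove i j k

/-- The boundary of the first factor. -/
def DX {p q : ℕ} : LCh (Simp p × Simp q) →ₗ[F2] LCh (Simp (p + 1) × Simp q) :=
  ∑ i : Fin (p + 2), lmapC (fun x => (face i x.1, x.2))

/-- The boundary of the second factor. -/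
def DY {p q : ℕ} : LCh (Simp p × Simp q) →ₗ[F2] LCh (Simp p × Simp (q + 1)) :=
  ∑ i : Fin (q + 2), lmapC (fun x => (x.1, face i x.2))

theorem DX_apply {p q : ℕ} (c : LCh (Simp p × Simp q)) :
    DX c = ∑ i : Fin (p + 2), lmapC (fun x => (face i x.1, x.2)) c := by
  rw [DX, LinearMap.sum_apply]

theorem DY_apply {p q : ℕ} (c : LCh (Simp p × Simp q)) :
    DY c = ∑ i : Fin (q + 2), lmapC (fun x => (x.1, face i x.2)) c := by
  rw [DY, LinearMap.sum_apply]

theorem comp_zero {K K' K'' : Type} (n : ℕ) (f : Fin (n + 2) → K' → K'')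
    (g : Fin (n + 1) → K → K')
    (h : ∀ i j x, f (i.succAbove j) (g (j.predAbove i) x) = f i (g j x)) (c : LCh K) :
    ∑ i, lmapC (f i) (∑ j, lmapC (g j) c) = 0 := by
  simp only [map_sum, lmapC_comp]
  exact double_face n (fun i j => lmapC (fun x => f i (g j x)) c)
    (fun i j => by simp only [h])

theorem DX_DX {p q : ℕ} (c : LCh (Simp p × Simp q)) : DX (DX c) = 0 := by
  rw [DX_apply, DX_apply]
  exact comp_zero (K := Simp p × Simp q) (K' := Simp (p + 1) × Simp q)
    (K'' := Simp (p + 2) × Simp q) (p + 1) (fun i x => (face i x.1, x.2))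
    (fun j x => (face j x.1, x.2)) (fun i j x => Prod.ext (face_face i j x.1) rfl) c

theorem DY_DY {p q : ℕ} (c : LCh (Simp p × Simp q)) : DY (DY c) = 0 := by
  rw [DY_apply, DY_apply]
  exact comp_zero (K := Simp p × Simp q) (K' := Simp p × Simp (q + 1))
    (K'' := Simp p × Simp (q + 2)) (q + 1) (fun i x => (x.1, face i x.2))
    (fun j x => (x.1, face j x.2)) (fun i j x => Prod.ext rfl (face_face i j x.2)) c

theorem DX_DY {p q : ℕ} (c : LCh (Simp p × Simp q)) : DX (DY c) = DY (DX c) := by
  rw [DX_apply, DY_apply, DY_apply, DX_apply]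
  simp only [map_sum, lmapC_comp]
  exact Finset.sum_comm

theorem eL_00 : eL 0 0 = Finsupp.single [(vtx 0, vtx 0)] 1 := by rw [eL]

theorem eL_s0 (p : ℕ) : eL (p + 1) 0 = lcone (vtx 0, vtx 0) (DX (eL p 0)) := by
  rw [eL, DX_apply]

theorem eL_0s (q : ℕ) : eL 0 (q + 1) = lcone (vtx 0, vtx 0) (DY (eL 0 q)) := by
  rw [eL, DY_apply]

theorem eL_ss (p q : ℕ) : eL (p + 1) (q + 1) =
    lcone (vtx 0, vtx 0) (DX (eL p (q + 1)) + DY (eL (p + 1) q)) := by
  rw [eL, DX_apply, DY_apply]

section

variable (h : Stmt_LCHN)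

include h in
theorem lbd_DX {p q : ℕ} (c : LCh (Simp p × Simp q)) : lbd (DX c) = DX (lbd c) := by
  rw [DX_apply, DX_apply, map_sum]
  exact Finset.sum_congr rfl fun i _ => (h _).2.2.1 _ _ c

include h in
theorem lbd_DY {p q : ℕ} (c : LCh (Simp p × Simp q)) : lbd (DY c) = DY (lbd c) := by
  rw [DY_apply, DY_apply, map_sum]
  exact Finset.sum_congr rfl fun i _ => (h _).2.2.1 _ _ c

theorem lbd_00 : lbd (eL 0 0) = Finsupp.single [] 1 := by
  rw [eL_00, lbd, Finsupp.linearCombination_single, one_smul, lbdS]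
  simp

theorem DX_nil {q : ℕ} : DX (p := 0) (q := q) (Finsupp.single [] 1) = 0 := by
  rw [DX_apply]
  simp only [lmapC_single, List.map_nil]
  rw [Fin.sum_univ_two, add_self]

theorem DY_nil {p : ℕ} : DY (p := p) (q := 0) (Finsupp.single [] 1) = 0 := by
  rw [DY_apply]
  simp only [lmapC_single, List.map_nil]
  rw [Fin.sum_univ_two, add_self]

include h in
theorem lbd_s0 (p : ℕ) : lbd (eL (p + 1) 0) = DX (eL p 0) := by
  induction p with
  | zero =>
    rw [eL_s0, (h _).1, lbd_DX h, lbd_00, DX_nil, map_zero, add_zero]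
  | succ p ih =>
    rw [eL_s0, (h _).1, lbd_DX h, ih, DX_DX, map_zero, add_zero]

include h in
theorem lbd_0s (q : ℕ) : lbd (eL 0 (q + 1)) = DY (eL 0 q) := by
  induction q with
  | zero =>
    rw [eL_0s, (h _).1, lbd_DY h, lbd_00, DY_nil, map_zero, add_zero]
  | succ q ih =>
    rw [eL_0s, (h _).1, lbd_DY h, ih, DY_DY, map_zero, add_zero]

include h in
/-- The induction step. -/
theorem lbd_step (p q : ℕ) (h1 : DX (lbd (eL p (q + 1))) = DX (DY (eL p q)))
    (h2 : DY (lbd (eL (p + 1) q)) = DY (DX (eL p q))) :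
    lbd (eL (p + 1) (q + 1)) = DX (eL p (q + 1)) + DY (eL (p + 1) q) := by
  rw [eL_ss, (h _).1, map_add lbd, lbd_DX h, lbd_DY h, h1, h2, DX_DY, add_self, map_zero,
    add_zero]

include h in
theorem lbd_ss (p q : ℕ) :
    lbd (eL (p + 1) (q + 1)) = DX (eL p (q + 1)) + DY (eL (p + 1) q) := by
  induction p generalizing q with
  | zero =>
    induction q with
    | zero =>
      refine lbd_step h 0 0 ?_ ?_
      · rw [lbd_0s h]
      · rw [lbd_s0 h]
    | succ q ihq =>
      refine lbd_step h 0 (q + 1) ?_ ?_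
      · rw [lbd_0s h]
      · rw [ihq, map_add, DY_DY]
        exact add_zero _
  | succ p ihp =>
    induction q with
    | zero =>
      refine lbd_step h (p + 1) 0 ?_ ?_
      · rw [ihp, map_add, DX_DX]
        exact zero_add _
      · rw [lbd_s0 h]
    | succ q ihq =>
      refine lbd_step h (p + 1) (q + 1) ?_ ?_
      · rw [ihp, map_add, DX_DX]
        exact zero_add _
      · rw [ihq, map_add, DY_DY]
        exact add_zero _

end

theorem Len.DX {p q n : ℕ} {c : LCh (Simp p × Simp q)} (h : Len n c) : Len n (DX c) := by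
  rw [DX_apply]
  exact Len.sum _ _ fun i => h.map _

theorem Len.DY {p q n : ℕ} {c : LCh (Simp p × Simp q)} (h : Len n c) : Len n (DY c) := by
  rw [DY_apply]
  exact Len.sum _ _ fun i => h.map _

theorem len_eL (p q : ℕ) : Len (p + q + 1) (eL p q) := by
  induction p generalizing q with
  | zero =>
    induction q with
    | zero =>
      rw [eL_00]
      intro l hl
      have := Finsupp.support_single_subset hl
      rw [Finset.mem_singleton] at this
      rw [this]
      rfl
    | succ q ihq =>
      rw [eL_0s]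
      exact (Len.DY ihq).cone _
  | succ p ihp =>
    induction q with
    | zero =>
      rw [eL_s0]
      exact ((Len.DX (ihp 0)).cone (vtx 0, vtx 0)).cast (by ring)
    | succ q ihq =>
      rw [eL_ss]
      have h1 := Len.DX (ihp (q + 1))
      have h2 := (Len.DY ihq).cast (show p + 1 + q + 1 = p + (q + 1) + 1 by ring)
      exact ((h1.add h2).cone (vtx 0, vtx 0)).cast (by ring)

end CRSA

open CRSA in
theorem CRSA (h : Stmt_LCHN) : Stmt_CRSA := by
  refine ⟨fun p q => ?_, fun p => ?_, fun q => ?_, fun p q => len_eL p q⟩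
  · rw [lbd_ss h, DX_apply, DY_apply]
  · rw [lbd_s0 h, DX_apply]
  · rw [lbd_0s h, DY_apply]

end TC
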