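import Pool.Agent.TC.Cyc.Stmts2

/-!
# Block CYC: the boundary of the cross product, naturality, support, augmentation
-/

set_option autoImplicit false

open scoped Topology

noncomputable section

namespace TC

namespace CRSBaux

section gen

variable {X Y Z X' Y' : Type} [TopologicalSpace X] [TopologicalSpace Y] [TopologicalSpace Z]
  [TopologicalSpace X'] [TopologicalSpace Y']

theorem tmap_single (f : C(X, Y)) (s : SSx X) (a : F2) :
    tmap f (Finsupp.single s a) = Finsupp.single (mapS f s) a := by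
  simp [tmap, Finsupp.mapDomain_single]

theorem tbd_single (s : SSx X) (a : F2) : tbd (Finsupp.single s a) = a • bdS s := by
  simp [tbd, Finsupp.linearCombination_single]

theorem tbd_tmap (f : C(X, Y)) (z : TCh X) : tbd (tmap f z) = tmap f (tbd z) := by
  induction z using Finsupp.induction_linear with
  | zero => simp
  | add x y hx hy => simp only [map_add, hx, hy]
  | single s a =>
    rw [tmap_single, tbd_single, tbd_single, map_smul]
    congr 1
    obtain ⟨k, σ⟩ := s
    cases k with
    | zero => simp [mapS, bdS]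
    | succ k =>
      simp only [mapS, bdS, map_sum, tmap_single]
      rfl

theorem tmap_comp (g : C(Y, Z)) (f : C(X, Y)) (z : TCh X) :
    tmap g (tmap f z) = tmap (g.comp f) z := by
  induction z using Finsupp.induction_linear with
  | zero => simp
  | add x y hx hy => simp only [map_add, hx, hy]
  | single s a =>
    simp only [tmap_single]
    rfl

theorem cross_single (s : SSx X) (t : SSx Y) :
    cross (Finsupp.single s 1) (Finsupp.single t 1) = crossS s t := by
  simp [cross, Finsupp.linearCombination_single]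

theorem single_eq (s : SSx X) (a : F2) :
    (Finsupp.single s a : TCh X) = a • Finsupp.single s 1 := by
  rw [Finsupp.smul_single, smul_eq_mul, mul_one]

/-- Two bilinear expressions agree if they agree on pairs of simplices. -/
theorem bilin_ext {M : Type} [AddCommGroup M] [Module F2 M]
    (F G : TCh X →ₗ[F2] TCh Y →ₗ[F2] M)
    (h : ∀ s t, F (Finsupp.single s 1) (Finsupp.single t 1) =
      G (Finsupp.single s 1) (Finsupp.single t 1)) (a : TCh X) (b : TCh Y) : F a b = G a b := by
  induction a using Finsupp.induction_linear with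
  | zero => simp
  | add x y hx hy => simp only [map_add, LinearMap.add_apply, hx, hy]
  | single s a =>
    induction b using Finsupp.induction_linear with
    | zero => simp
    | add x y hx hy => simp only [map_add, hx, hy]
    | single t b =>
      rw [single_eq s a, single_eq t b]
      simp only [map_smul, LinearMap.smul_apply, h]

theorem face_comb {p k : ℕ} (i : Fin (p + 2)) (v : Fin (k + 1) → Simp p) :
    (face i).comp (Cvx.comb v) = Cvx.comb (fun j => face i (v j)) := by
  ext t m
  have h : ∀ (x : Simp p), ((face i x : Simp (p + 1)) : Fin (p + 2) → ℝ) m =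
      FunOnFinite.linearMap ℝ ℝ i.succAbove x.1 m := fun _ => rfl
  have h1 : (((face i).comp (Cvx.comb v)) t).1 m =
      FunOnFinite.linearMap ℝ ℝ i.succAbove (∑ j, t.1 j • (v j).1) m := rfl
  have h2 : ((Cvx.comb (fun j => face i (v j)) : C(Simp k, Simp (p + 1))) t).1 m =
      (∑ j, t.1 j • (face i (v j)).1) m := rfl
  refine h1.trans (Eq.trans ?_ h2.symm)
  rw [map_sum, Finset.sum_apply, Finset.sum_apply]
  refine Finset.sum_congr rfl fun j _ => ?_
  rw [map_smul]
  rfl

theorem left_comb {p q k : ℕ} (i : Fin (p + 2)) (v : Fin (k + 1) → Simp p × Simp q) :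
    ((face i).prodMap (ContinuousMap.id (Simp q))).comp (Cvx.comb v) =
      Cvx.comb (fun j => ((face i).prodMap (ContinuousMap.id (Simp q))) (v j)) := by
  have h := face_comb i (fun j => (v j).1)
  ext1 t
  exact Prod.ext (DFunLike.congr_fun h t) rfl

theorem right_comb {p q k : ℕ} (i : Fin (q + 2)) (v : Fin (k + 1) → Simp p × Simp q) :
    ((ContinuousMap.id (Simp p)).prodMap (face i)).comp (Cvx.comb v) =
      Cvx.comb (fun j => ((ContinuousMap.id (Simp p)).prodMap (face i)) (v j)) := by
  have h := face_comb i (fun j => (v j).2)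
  ext1 t
  exact Prod.ext rfl (DFunLike.congr_fun h t)

theorem tmap_left (h2 : Stmt_LNAT) {p q : ℕ} (i : Fin (p + 2)) (σ : C(Simp (p + 1), X))
    (τ : C(Simp q, Y)) :
    tmap (σ.prodMap τ) (lreal (lmapC (fun x => (face i x.1, x.2)) (eL p q))) =
      crossS ⟨p, σ.comp (face i)⟩ ⟨q, τ⟩ := by
  have h := h2 (Simp p × Simp q) (Simp (p + 1) × Simp q)
    ((face i).prodMap (ContinuousMap.id (Simp q))) (fun k v => left_comb i v) (eL p q)
  have h' : lreal (lmapC (fun x => (face i x.1, x.2)) (eL p q)) =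
      tmap ((face i).prodMap (ContinuousMap.id (Simp q))) (lreal (eL p q)) := h.symm
  rw [h', tmap_comp]
  rfl

theorem tmap_right (h2 : Stmt_LNAT) {p q : ℕ} (i : Fin (q + 2)) (σ : C(Simp p, X))
    (τ : C(Simp (q + 1), Y)) :
    tmap (σ.prodMap τ) (lreal (lmapC (fun x => (x.1, face i x.2)) (eL p q))) =
      crossS ⟨p, σ⟩ ⟨q, τ.comp (face i)⟩ := by
  have h := h2 (Simp p × Simp q) (Simp p × Simp (q + 1))
    ((ContinuousMap.id (Simp p)).prodMap (face i)) (fun k v => right_comb i v) (eL p q)
  have h' : lreal (lmapC (fun x => (x.1, face i x.2)) (eL p q)) =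
      tmap ((ContinuousMap.id (Simp p)).prodMap (face i)) (lreal (eL p q)) := h.symm
  rw [h', tmap_comp]
  rfl

theorem cross_bd_left {p : ℕ} (σ : C(Simp (p + 1), X)) (t : SSx Y) :
    cross (tbd (Finsupp.single ⟨p + 1, σ⟩ 1)) (Finsupp.single t 1) =
      ∑ i, crossS ⟨p, σ.comp (face i)⟩ t := by
  rw [tbd_single, one_smul]
  simp only [bdS, map_sum, LinearMap.sum_apply, cross_single]

theorem cross_bd_right {q : ℕ} (s : SSx X) (τ : C(Simp (q + 1), Y)) :
    cross (Finsupp.single s 1) (tbd (Finsupp.single ⟨q + 1, τ⟩ 1)) =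
      ∑ i, crossS s ⟨q, τ.comp (face i)⟩ := by
  rw [tbd_single, one_smul]
  simp only [bdS, map_sum, cross_single]

theorem tbd_zero_simplex (σ : C(Simp 0, X)) : tbd (Finsupp.single (⟨0, σ⟩ : SSx X) 1) = 0 := by
  rw [tbd_single, one_smul]
  rfl

theorem crossS_bd (h1 : Stmt_CRSA) (h2 : Stmt_LNAT) (h3 : Stmt_LCHN) (s : SSx X) (t : SSx Y) :
    tbd (crossS s t) = cross (tbd (Finsupp.single s 1)) (Finsupp.single t 1) +
      cross (Finsupp.single s 1) (tbd (Finsupp.single t 1)) := by
  obtain ⟨p, σ⟩ := s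
  obtain ⟨q, τ⟩ := t
  have h0 : tbd (crossS (⟨p, σ⟩ : SSx X) (⟨q, τ⟩ : SSx Y)) =
      tmap (σ.prodMap τ) (lreal (lbd (eL p q))) := by
    unfold crossS
    rw [tbd_tmap, (h3 (Simp p × Simp q)).2.2.2.1]
  rw [h0]
  cases p with
  | zero =>
    rw [tbd_zero_simplex, map_zero, LinearMap.zero_apply]
    refine Eq.trans ?_ (zero_add _).symm
    cases q with
    | zero =>
      rw [tbd_zero_simplex, map_zero]
      have : lreal (lbd (eL 0 0)) = 0 := by
        simp [eL, lbd, lbdS, lreal, realS, Finsupp.linearCombination_single]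
      rw [this, map_zero]
    | succ q =>
      rw [cross_bd_right, h1.2.2.1 q, map_sum, map_sum]
      exact Finset.sum_congr rfl fun i _ => tmap_right h2 i σ τ
  | succ p =>
    cases q with
    | zero =>
      rw [tbd_zero_simplex, map_zero, add_zero, cross_bd_left, h1.2.1 p, map_sum, map_sum]
      exact Finset.sum_congr rfl fun i _ => tmap_left h2 i σ τ
    | succ q =>
      rw [cross_bd_left, cross_bd_right, h1.1 p q, map_add, map_add, map_sum, map_sum, map_sum,
        map_sum]
      congr 1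
      · exact Finset.sum_congr rfl fun i _ => tmap_left h2 i σ τ
      · exact Finset.sum_congr rfl fun i _ => tmap_right h2 i σ τ

theorem mem_supp_tmap {f : C(X, Y)} {z : TCh X} {s : SSx Y} (h : s ∈ (tmap f z).support) :
    ∃ u ∈ z.support, s = mapS f u := by
  classical
  have h' := Finsupp.mapDomain_support (f := mapS f) (s := z) h
  rw [Finset.mem_image] at h'
  obtain ⟨u, hu, he⟩ := h'
  exact ⟨u, hu, he.symm⟩

theorem crossS_supp (h1 : Stmt_CRSA) (h3 : Stmt_LCHN) (s₁ : SSx X) (s₂ : SSx Y)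
    (s : SSx (X × Y)) (hs : s ∈ (crossS s₁ s₂).support) :
    s.1 = s₁.1 + s₂.1 ∧ ∀ t, ∃ t₁ t₂, s.2 t = (s₁.2 t₁, s₂.2 t₂) := by
  obtain ⟨u, hu, rfl⟩ := mem_supp_tmap hs
  obtain ⟨l, hl, hlen, -⟩ := (h3 (Simp s₁.1 × Simp s₂.1)).2.2.2.2 _ u hu
  have := h1.2.2.2 _ _ l hl
  refine ⟨?_, fun t => ⟨(u.2 t).1, (u.2 t).2, rfl⟩⟩
  show u.1 = _
  omega

theorem mem_supp_cross {a : TCh X} {b : TCh Y} {s : SSx (X × Y)}
    (h : s ∈ (cross a b).support) :
    ∃ s₁ ∈ a.support, ∃ s₂ ∈ b.support, s ∈ (crossS s₁ s₂).support := by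
  classical
  have e1 : cross a b = ∑ s₁ ∈ a.support, ∑ s₂ ∈ b.support, (a s₁ * b s₂) • crossS s₁ s₂ := by
    unfold cross
    rw [Finsupp.linearCombination_apply, Finsupp.sum, LinearMap.sum_apply]
    refine Finset.sum_congr rfl fun s₁ _ => ?_
    rw [LinearMap.smul_apply, Finsupp.linearCombination_apply, Finsupp.sum, Finset.smul_sum]
    refine Finset.sum_congr rfl fun s₂ _ => ?_
    rw [mul_smul]
  rw [Finsupp.mem_support_iff, e1, Finsupp.finsetSum_apply] at h
  obtain ⟨s₁, hs₁, h⟩ := Finset.exists_ne_zero_of_sum_ne_zero h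
  rw [Finsupp.finsetSum_apply] at h
  obtain ⟨s₂, hs₂, h⟩ := Finset.exists_ne_zero_of_sum_ne_zero h
  refine ⟨s₁, hs₁, s₂, hs₂, ?_⟩
  rw [Finsupp.mem_support_iff]
  intro h0
  apply h
  rw [Finsupp.smul_apply, h0, smul_zero]

theorem tpair_single (α : TCo X) (s : SSx X) (a : F2) :
    tpair α (Finsupp.single s a) = a * α s := by
  simp [tpair, Finsupp.linearCombination_single]

theorem tpair_crossS (h1 : Stmt_CRSA) (h3 : Stmt_LCHN) (s₁ : SSx X) (s₂ : SSx Y) :
    tpair oneCo (crossS s₁ s₂) = oneCo s₁ * oneCo s₂ := by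
  by_cases h : s₁.1 + s₂.1 = 0
  · obtain ⟨p, σ⟩ := s₁
    obtain ⟨q, τ⟩ := s₂
    have hp : p = 0 := by simp only at h; omega
    have hq : q = 0 := by simp only at h; omega
    subst hp
    subst hq
    have e : lreal (eL 0 0) = Finsupp.single ⟨0, Cvx.comb (fun i : Fin 1 =>
        [((vtx 0, vtx 0) : Simp 0 × Simp 0)].get i)⟩ 1 := by
      simp [eL, lreal, realS, Finsupp.linearCombination_single]
    unfold crossS
    rw [e, tmap_single, tpair_single]
    simp [oneCo, mapS]
  · have e1 : oneCo s₁ * oneCo s₂ = 0 := by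
      unfold oneCo
      by_cases h' : s₁.1 = 0
      · have : s₂.1 ≠ 0 := by omega
        rw [if_neg this, mul_zero]
      · rw [if_neg h', zero_mul]
    rw [e1]
    unfold tpair
    rw [Finsupp.linearCombination_apply, Finsupp.sum]
    refine Finset.sum_eq_zero fun s hs => ?_
    have := (crossS_supp h1 h3 s₁ s₂ s hs).1
    have h0 : oneCo s = 0 := by
      unfold oneCo
      rw [if_neg (by omega)]
    rw [h0, smul_zero]

end gen

end CRSBaux

open CRSBaux

theorem CRSB (h1 : Stmt_CRSA) (h2 : Stmt_LNAT) (h3 : Stmt_LCHN) : Stmt_CRSB := by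
  intro X Y _ _ a b
  refine bilin_ext (cross.compr₂ tbd) ((cross.comp tbd) + (cross.compl₂ tbd)) ?_ a b
  intro s t
  rw [LinearMap.compr₂_apply, LinearMap.add_apply, LinearMap.add_apply, LinearMap.comp_apply,
    LinearMap.compl₂_apply, cross_single]
  exact crossS_bd h1 h2 h3 s t

theorem CRSC (h1 : Stmt_CRSA) (h3 : Stmt_LCHN) : Stmt_CRSC := by
  intro X Y _ _ a b
  refine ⟨?_, ?_, ?_⟩
  · intro X' Y' _ _ f g
    refine bilin_ext (cross.compr₂ (tmap (f.prodMap g)))
      ((cross.comp (tmap f)).compl₂ (tmap g)) ?_ a b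
    intro s t
    rw [LinearMap.compr₂_apply, LinearMap.compl₂_apply, LinearMap.comp_apply, cross_single,
      tmap_single, tmap_single, cross_single]
    unfold crossS
    rw [tmap_comp]
    rfl
  · intro s hs
    obtain ⟨s₁, hs₁, s₂, hs₂, h⟩ := mem_supp_cross hs
    exact ⟨s₁, hs₁, s₂, hs₂, crossS_supp h1 h3 s₁ s₂ s h⟩
  · refine bilin_ext (cross.compr₂ (tpair oneCo))
      (((LinearMap.mul F2 F2).comp (tpair oneCo)).compl₂ (tpair oneCo)) ?_ a b
    intro s t
    rw [LinearMap.compr₂_apply, LinearMap.compl₂_apply, LinearMap.comp_apply, cross_single,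
      tpair_single, tpair_single, one_mul, one_mul, LinearMap.mul_apply']
    exact tpair_crossS h1 h3 s t

end TC
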