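import Pool.Agent.TC.Cyc.Stmts2

/-!
# Block CYC, module CUE: identities for the cup product with a cochain on the last edge
-/

set_option autoImplicit false

open scoped Topology

namespace TC

namespace CUEaux

variable {X : Type} [TopologicalSpace X]

theorem comp_smap {l m k : ℕ} (σ : C(Simp k, X)) (η : Fin (m + 1) → Fin (k + 1))
    (θ : Fin (l + 1) → Fin (m + 1)) :
    (σ.comp (smap η)).comp (smap θ) = σ.comp (smap (η ∘ θ)) := by
  rw [ContinuousMap.comp_assoc]
  congr 1
  ext1 t
  exact stdSimplex.map_comp_apply θ η t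

theorem tcobd_zero (α : TCo X) (σ : C(Simp 0, X)) : tcobd α ⟨0, σ⟩ = 0 := by
  simp [tcobd, bdS]

theorem tcobd_succ (α : TCo X) (k : ℕ) (σ : C(Simp (k + 1), X)) :
    tcobd α ⟨k + 1, σ⟩ = ∑ i : Fin (k + 2), α ⟨k, σ.comp (face i)⟩ := by
  simp [tcobd, bdS, tpair, map_sum, Finsupp.linearCombination_single]

theorem closed_iff (α : TCo X) : IsClosedCo α ↔ tcobd α = 0 := by
  constructor
  · intro h
    funext s
    have h1 := h (Finsupp.single s 1)
    have h2 : tbd (Finsupp.single s (1 : F2)) = bdS s := by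
      simp [tbd, Finsupp.linearCombination_single]
    rw [h2] at h1
    exact h1
  · intro h z
    induction z using Finsupp.induction_linear with
    | zero => simp
    | add a b ha hb => rw [map_add, map_add, ha, hb, add_zero]
    | single s a =>
      have h2 : tbd (Finsupp.single s a) = a • bdS s := by
        simp [tbd, Finsupp.linearCombination_single]
      rw [h2, map_smul]
      have h3 : tpair α (bdS s) = 0 := congrFun h s
      rw [h3, smul_zero]

theorem cupE_zero (α : TCo X) (u : Coch X 1) (σ : C(Simp 0, X)) : cupE α u ⟨0, σ⟩ = 0 := rfl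

theorem cupE_succ (α : TCo X) (u : Coch X 1) (k : ℕ) (σ : C(Simp (k + 1), X)) :
    cupE α u ⟨k + 1, σ⟩ = α ⟨k, σ.comp (face (Fin.last (k + 1)))⟩ *
      u (res (m := 1) σ ![(Fin.last k).castSucc, Fin.last (k + 1)]) := rfl

theorem face_face (k : ℕ) (σ : C(Simp (k + 2), X)) (i : Fin (k + 2)) :
    (σ.comp (face i.castSucc)).comp (face (Fin.last (k + 1))) =
      (σ.comp (face (Fin.last (k + 2)))).comp (face i) := by
  unfold face
  rw [comp_smap, comp_smap]
  congr 2
  funext j
  simp only [Function.comp_apply, Fin.succAbove_last, Fin.castSucc_succAbove_castSucc]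

theorem res_face {k : ℕ} (σ : C(Simp (k + 1), X)) (i : Fin (k + 2)) (a b : Fin (k + 1)) :
    res (m := 1) (σ.comp (face i)) ![a, b] = res (m := 1) σ ![i.succAbove a, i.succAbove b] := by
  unfold res face
  rw [comp_smap]
  congr 2
  funext j
  fin_cases j <;> rfl

theorem edge1 (k : ℕ) (σ : C(Simp (k + 2), X)) (i : Fin (k + 1)) :
    res (m := 1) (σ.comp (face i.castSucc.castSucc)) ![(Fin.last k).castSucc, Fin.last (k + 1)] =
      res (m := 1) σ ![(Fin.last (k + 1)).castSucc, Fin.last (k + 2)] := by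
  rw [res_face]
  have h1 : i.castSucc.castSucc.succAbove (Fin.last k).castSucc =
      (Fin.last (k + 1)).castSucc := by
    rw [Fin.succAbove_of_le_castSucc _ _ (by
      rw [Fin.le_def]; simp; omega)]
    ext
    simp
  have h2 : i.castSucc.castSucc.succAbove (Fin.last (k + 1)) = Fin.last (k + 2) := by
    rw [Fin.succAbove_of_le_castSucc _ _ (by
      rw [Fin.le_def]; simp)]
    ext
    simp
  rw [h1, h2]

theorem edge2 (k : ℕ) (σ : C(Simp (k + 2), X)) :
    res (m := 1) (σ.comp (face (Fin.last (k + 1)).castSucc))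
        ![(Fin.last k).castSucc, Fin.last (k + 1)] =
      res (m := 1) σ ![(Fin.last k).castSucc.castSucc, Fin.last (k + 2)] := by
  rw [res_face]
  have h1 : (Fin.last (k + 1)).castSucc.succAbove (Fin.last k).castSucc =
      (Fin.last k).castSucc.castSucc := by
    rw [Fin.succAbove_of_castSucc_lt _ _ (by
      simp [Fin.lt_def])]
  have h2 : (Fin.last (k + 1)).castSucc.succAbove (Fin.last (k + 1)) = Fin.last (k + 2) := by
    rw [Fin.succAbove_of_le_castSucc _ _ le_rfl]
    ext
    simp
  rw [h1, h2]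

theorem edge3 (k : ℕ) (σ : C(Simp (k + 2), X)) :
    res (m := 1) (σ.comp (face (Fin.last (k + 2))))
        ![(Fin.last k).castSucc, Fin.last (k + 1)] =
      res (m := 1) σ ![(Fin.last k).castSucc.castSucc, (Fin.last (k + 1)).castSucc] := by
  rw [res_face, Fin.succAbove_last]

theorem cobd_res {k : ℕ} (u : Coch X 1) (σ : C(Simp k, X)) (a b c : Fin (k + 1)) :
    cobd u (res (m := 2) σ ![a, b, c]) =
      u (res (m := 1) σ ![b, c]) + u (res (m := 1) σ ![a, c]) + u (res (m := 1) σ ![a, b]) := by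
  show ∑ i : Fin 3, u ((res (m := 2) σ ![a, b, c]).comp (face i)) = _
  rw [Fin.sum_univ_three]
  have h : ∀ (i : Fin 3) (x y : Fin (k + 1)), ![a, b, c] ∘ i.succAbove = ![x, y] →
      (res (m := 2) σ ![a, b, c]).comp (face i) = res (m := 1) σ ![x, y] := by
    intro i x y hxy
    unfold res face
    rw [comp_smap, hxy]
  rw [h 0 b c (by funext j; fin_cases j <;> rfl), h 1 a c (by funext j; fin_cases j <;> rfl),
    h 2 a b (by funext j; fin_cases j <;> rfl)]

/-- The boundary formula. -/
theorem key (α : TCo X) (u : Coch X 1) (k : ℕ) (σ : C(Simp (k + 2), X)) :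
    tcobd (cupE α u) ⟨k + 2, σ⟩ =
      cupE (tcobd α) u ⟨k + 2, σ⟩ +
      α ⟨k, (σ.comp (face (Fin.last (k + 2)))).comp (face (Fin.last (k + 1)))⟩ *
        cobd u (res (m := 2) σ ![(Fin.last k).castSucc.castSucc, (Fin.last (k + 1)).castSucc,
          Fin.last (k + 2)]) := by
  have h0 : cupE (tcobd α) u ⟨k + 2, σ⟩ =
      ((∑ i : Fin (k + 1), α ⟨k, (σ.comp (face (Fin.last (k + 2)))).comp (face i.castSucc)⟩) +
        α ⟨k, (σ.comp (face (Fin.last (k + 2)))).comp (face (Fin.last (k + 1)))⟩) *
      u (res (m := 1) σ ![(Fin.last (k + 1)).castSucc, Fin.last (k + 2)]) := by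
    rw [cupE_succ, tcobd_succ, Fin.sum_univ_castSucc]
  rw [h0, tcobd_succ, Fin.sum_univ_castSucc, Fin.sum_univ_castSucc, cobd_res]
  have h1 : ∀ i : Fin (k + 1), cupE α u ⟨k + 1, σ.comp (face i.castSucc.castSucc)⟩ =
      α ⟨k, (σ.comp (face (Fin.last (k + 2)))).comp (face i.castSucc)⟩ *
        u (res (m := 1) σ ![(Fin.last (k + 1)).castSucc, Fin.last (k + 2)]) := by
    intro i
    rw [cupE_succ, face_face, edge1]
  have h2 : cupE α u ⟨k + 1, σ.comp (face (Fin.last (k + 1)).castSucc)⟩ =
      α ⟨k, (σ.comp (face (Fin.last (k + 2)))).comp (face (Fin.last (k + 1)))⟩ *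
        u (res (m := 1) σ ![(Fin.last k).castSucc.castSucc, Fin.last (k + 2)]) := by
    rw [cupE_succ, face_face, edge2]
  have h3 : cupE α u ⟨k + 1, σ.comp (face (Fin.last (k + 2)))⟩ =
      α ⟨k, (σ.comp (face (Fin.last (k + 2)))).comp (face (Fin.last (k + 1)))⟩ *
        u (res (m := 1) σ ![(Fin.last k).castSucc.castSucc, (Fin.last (k + 1)).castSucc]) := by
    rw [cupE_succ, edge3]
  rw [h2, h3]
  rw [Finset.sum_congr rfl (fun i _ => h1 i), ← Finset.sum_mul]
  generalize (∑ i : Fin (k + 1),
    α ⟨k, (σ.comp (face (Fin.last (k + 2)))).comp (face i.castSucc)⟩) = S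
  generalize α ⟨k, (σ.comp (face (Fin.last (k + 2)))).comp (face (Fin.last (k + 1)))⟩ = A
  generalize u (res (m := 1) σ ![(Fin.last (k + 1)).castSucc, Fin.last (k + 2)]) = e12
  generalize u (res (m := 1) σ ![(Fin.last k).castSucc.castSucc, Fin.last (k + 2)]) = e02
  generalize u (res (m := 1) σ ![(Fin.last k).castSucc.castSucc, (Fin.last (k + 1)).castSucc]) =
    e01
  have h4 : A * e12 + A * e12 = 0 := CharTwo.add_self_eq_zero _
  linear_combination (-1 : F2) * h4

end CUEaux

open CUEaux in
theorem CUE : Stmt_CUE := by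
  intro X _ v w hv hw
  have two : ∀ (u : Coch X 1), cobd u = 0 → ∀ α : TCo X, cupE (tcobd α) u = tcobd (cupE α u) := by
    intro u hu α
    funext s
    obtain ⟨k, σ⟩ := s
    match k, σ with
    | 0, σ => rw [tcobd_zero, cupE_zero]
    | 1, σ =>
      rw [tcobd_succ, cupE_succ, tcobd_zero, zero_mul]
      exact (Finset.sum_eq_zero fun i _ => cupE_zero α u _).symm
    | k + 2, σ =>
      rw [key, hu]
      simp
  refine ⟨?_, two v hv, ?_⟩
  · intro α hα
    rw [closed_iff] at hα ⊢
    rw [← two v hv, hα]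
    funext s
    obtain ⟨k, σ⟩ := s
    match k, σ with
    | 0, σ => rfl
    | k + 1, σ =>
      rw [cupE_succ]
      exact zero_mul _
  · intro α hα
    rw [closed_iff] at hα
    funext s
    obtain ⟨k, σ⟩ := s
    rw [Pi.add_apply]
    match k, σ with
    | 0, σ => rw [cupE_zero, cupE_zero, tcobd_zero, add_zero]
    | 1, σ =>
      rw [tcobd_succ, cupE_succ, cupE_succ, cupE_zero, cupE_zero, zero_mul, zero_mul, add_zero]
      exact (Finset.sum_eq_zero fun i _ => cupE_zero α _ _).symm
    | k + 2, σ =>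
      rw [key, hα]
      have hz : cupE (0 : TCo X) (fun τ => v τ * w τ) ⟨k + 2, σ⟩ = 0 := by
        rw [cupE_succ]
        exact zero_mul _
      rw [hz, zero_add, cobd_res]
      have h1 : ∀ a b : Coch X 1, cupE (cupE α a) b ⟨k + 2, σ⟩ =
          α ⟨k, (σ.comp (face (Fin.last (k + 2)))).comp (face (Fin.last (k + 1)))⟩ *
            a (res (m := 1) σ ![(Fin.last k).castSucc.castSucc, (Fin.last (k + 1)).castSucc]) *
            b (res (m := 1) σ ![(Fin.last (k + 1)).castSucc, Fin.last (k + 2)]) := by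
        intro a b
        rw [cupE_succ, cupE_succ, edge3]
      rw [h1, h1]
      have hv' := congrFun hv (res (m := 2) σ ![(Fin.last k).castSucc.castSucc,
        (Fin.last (k + 1)).castSucc, Fin.last (k + 2)])
      have hw' := congrFun hw (res (m := 2) σ ![(Fin.last k).castSucc.castSucc,
        (Fin.last (k + 1)).castSucc, Fin.last (k + 2)])
      rw [cobd_res] at hv' hw'
      generalize α ⟨k, (σ.comp (face (Fin.last (k + 2)))).comp (face (Fin.last (k + 1)))⟩ = A
      revert hv' hw'
      generalize v (res (m := 1) σ ![(Fin.last (k + 1)).castSucc, Fin.last (k + 2)]) = v12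
      generalize v (res (m := 1) σ ![(Fin.last k).castSucc.castSucc, Fin.last (k + 2)]) = v02
      generalize v (res (m := 1) σ
        ![(Fin.last k).castSucc.castSucc, (Fin.last (k + 1)).castSucc]) = v01
      generalize w (res (m := 1) σ ![(Fin.last (k + 1)).castSucc, Fin.last (k + 2)]) = w12
      generalize w (res (m := 1) σ ![(Fin.last k).castSucc.castSucc, Fin.last (k + 2)]) = w02
      generalize w (res (m := 1) σ
        ![(Fin.last k).castSucc.castSucc, (Fin.last (k + 1)).castSucc]) = w01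
      have hF : ∀ A v12 v02 v01 w12 w02 w01 : ZMod 2, v12 + v02 + v01 = 0 → w12 + w02 + w01 = 0 →
          A * v01 * w12 + A * w01 * v12 = A * (v12 * w12 + v02 * w02 + v01 * w01) := by decide
      exact hF A v12 v02 v01 w12 w02 w01

end TC
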