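import Pool.Agent.TC.Cyc.Stmts2

/-!
# Block CYC, module DBD: descent and the boundary, the transfer of the image of a chain
-/

set_option autoImplicit false

open scoped Topology

namespace TC

namespace DBDa

/-- The part of degree `k` of a total chain. -/
noncomputable def part {X : Type} [TopologicalSpace X] (k : ℕ) :
    TCh X →ₗ[F2] (C(Simp k, X) →₀ F2) :=
  Finsupp.lcomapDomain (fun σ : C(Simp k, X) => (⟨k, σ⟩ : SSx X))
    (fun a b h => by simpa using h)

theorem part_apply {X : Type} [TopologicalSpace X] (k : ℕ) (w : TCh X) (σ : C(Simp k, X)) :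
    part k w σ = w ⟨k, σ⟩ := rfl

theorem tbd_apply {X : Type} [TopologicalSpace X] (w : TCh X) (k : ℕ) (σ : C(Simp k, X)) :
    tbd w ⟨k, σ⟩ = ∑ i : Fin (k + 2),
      (Finsupp.mapDomain (fun τ : C(Simp (k + 1), X) => τ.comp (face i)) (part (k + 1) w)) σ := by
  classical
  induction w using Finsupp.induction_linear with
  | zero => simp
  | add f g hf hg =>
    simp only [map_add, Finsupp.mapDomain_add, Finset.sum_add_distrib, Finsupp.add_apply, hf, hg]
  | single s a =>
    obtain ⟨m, τ⟩ := s
    rw [tbd, Finsupp.linearCombination_single]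
    rcases m with _ | m
    · have h0 : part (k + 1) (Finsupp.single (⟨0, τ⟩ : SSx X) a) = 0 := by
        ext ρ
        rw [part_apply, Finsupp.single_apply, if_neg]
        · rfl
        · intro h
          have := congrArg Sigma.fst h
          simp at this
      rw [h0]
      simp [bdS]
    · by_cases h : m = k
      · subst h
        have h0 : part (m + 1) (Finsupp.single (⟨m + 1, τ⟩ : SSx X) a) = Finsupp.single τ a := by
          ext ρ
          rw [part_apply, Finsupp.single_apply, Finsupp.single_apply]
          by_cases h1 : τ = ρ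
          · rw [if_pos h1, if_pos (by rw [h1])]
          · rw [if_neg h1, if_neg]
            intro h2
            exact h1 (by simpa using h2)
        rw [h0]
        simp only [bdS, Finsupp.mapDomain_single, Finsupp.smul_apply, Finsupp.finsetSum_apply,
          Finset.smul_sum]
        refine Finset.sum_congr rfl (fun i _ => ?_)
        rw [Finsupp.single_apply, Finsupp.single_apply]
        by_cases h1 : τ.comp (face i) = σ
        · rw [if_pos h1, if_pos (by rw [h1])]
          simp
        · rw [if_neg h1, if_neg]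
          · simp
          · intro h2
            exact h1 (by simpa using h2)
      · have h0 : part (k + 1) (Finsupp.single (⟨m + 1, τ⟩ : SSx X) a) = 0 := by
          ext ρ
          rw [part_apply, Finsupp.single_apply, if_neg]
          · rfl
          · intro h1
            have := congrArg Sigma.fst h1
            simp at this
            exact h this
        rw [h0]
        simp only [bdS, Finsupp.mapDomain_zero, Finsupp.smul_apply, Finsupp.finsetSum_apply,
          Finsupp.coe_zero, Pi.zero_apply, Finset.sum_const_zero]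
        rw [Finset.sum_eq_zero]
        · simp
        · intro i _
          rw [Finsupp.single_apply, if_neg]
          intro h1
          exact h (congrArg Sigma.fst h1)

theorem mapDomain_apply' {α β : Type} [DecidableEq β] (f : α → β) (x : α →₀ F2) (b : β) :
    Finsupp.mapDomain f x b = ∑ a ∈ x.support.filter (fun a => f a = b), x a := by
  rw [Finsupp.mapDomain, Finsupp.sum, Finsupp.finsetSum_apply, Finset.sum_filter]
  refine Finset.sum_congr rfl (fun a _ => ?_)
  rw [Finsupp.single_apply]

variable {Z E : Type} [TopologicalSpace Z] [TopologicalSpace E] {A : Type}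
  [AddCommGroup A] [AddAction A Z]

theorem lift_unique (hB : Stmt_LIFTB) (q : C(Z, E)) (hq : IsAddQuotientCoveringMap q A) (k : ℕ)
    (σ τ : C(Simp k, Z)) (h : q.comp σ = q.comp τ) (t : Simp k) (ht : σ t = τ t) : σ = τ := by
  obtain ⟨g, hg⟩ := hB Z E A q hq k σ τ h
  have hc := hq.isCancelVAdd
  have h1 : g +ᵥ σ t = (0 : A) +ᵥ σ t := by rw [zero_vadd, ← hg t, ht]
  have h2 : g = 0 := IsCancelVAdd.right_cancel _ _ _ h1
  ext s
  rw [hg s, h2, zero_vadd]

end DBDa

open DBDa in
theorem DBD (hA : Stmt_LIFTA) (hB : Stmt_LIFTB) : Stmt_DBD := by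
  classical
  intro Z E _ _ A _ _ q hq w' w hw
  rintro ⟨k, σ⟩
  show tbd w ⟨k, q.comp σ⟩ = tbd w' ⟨k, σ⟩
  rw [tbd_apply, tbd_apply]
  refine Finset.sum_congr rfl (fun i _ => ?_)
  rw [mapDomain_apply', mapDomain_apply']
  symm
  refine Finset.sum_bij (fun τ _ => q.comp τ) ?_ ?_ ?_ ?_
  · intro τ hτ
    rw [Finset.mem_filter, Finsupp.mem_support_iff, part_apply] at hτ ⊢
    refine ⟨?_, ?_⟩
    · have h1 : w ⟨k + 1, q.comp τ⟩ = w' ⟨k + 1, τ⟩ := hw ⟨k + 1, τ⟩
      rw [h1]
      exact hτ.1
    · rw [ContinuousMap.comp_assoc, hτ.2]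
  · intro τ₁ h₁ τ₂ h₂ h
    rw [Finset.mem_filter] at h₁ h₂
    refine lift_unique hB q hq (k + 1) τ₁ τ₂ h (face i (vtx 0)) ?_
    have h3 := DFunLike.congr_fun (h₁.2.trans h₂.2.symm) (vtx 0)
    exact h3
  · intro τ hτ
    rw [Finset.mem_filter, Finsupp.mem_support_iff, part_apply] at hτ
    obtain ⟨τ₀, hτ₀⟩ := hA Z E A q hq (k + 1) τ
    have h1 : q.comp (τ₀.comp (face i)) = q.comp σ := by
      rw [← ContinuousMap.comp_assoc, hτ₀, hτ.2]
    obtain ⟨g, hg⟩ := hB Z E A q hq k _ _ h1
    have := hq.toContinuousConstVAdd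
    set τ₁ : C(Simp (k + 1), Z) := ⟨fun t => g +ᵥ τ₀ t, (continuous_const_vadd g).comp τ₀.continuous⟩
      with hτ₁
    have h2 : q.comp τ₁ = τ := by
      rw [← hτ₀]
      ext t
      exact hq.map_vadd g
    refine ⟨τ₁, ?_, h2⟩
    rw [Finset.mem_filter, Finsupp.mem_support_iff, part_apply]
    refine ⟨?_, ?_⟩
    · have h3 : w ⟨k + 1, q.comp τ₁⟩ = w' ⟨k + 1, τ₁⟩ := hw ⟨k + 1, τ₁⟩
      rw [← h3, h2]
      exact hτ.1
    · ext t
      exact (hg t).symm
  · intro τ _
    rw [part_apply, part_apply]
    exact (hw ⟨k + 1, τ⟩).symm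

open DBDa in
theorem DSUM (hB : Stmt_LIFTB) : Stmt_DSUM := by
  classical
  intro Z E _ _ A _ _ _ _ q hq c s
  induction c using Finsupp.induction_linear with
  | zero => simp
  | add f g hf hg =>
    simp only [map_add, Finset.sum_add_distrib, Finsupp.add_apply, hf, hg]
  | single s₁ a =>
    obtain ⟨k, σ⟩ := s
    obtain ⟨m, τ⟩ := s₁
    have h1 : ∀ h : A, tact h (Finsupp.single (⟨m, τ⟩ : SSx Z) a) =
        Finsupp.single (⟨m, (⟨fun z => h +ᵥ z, continuous_const_vadd h⟩ : C(Z, Z)).comp τ⟩ : SSx Z) a := by
      intro h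
      exact Finsupp.mapDomain_single
    have h2 : tmap q (Finsupp.single (⟨m, τ⟩ : SSx Z) a) =
        Finsupp.single (⟨m, q.comp τ⟩ : SSx E) a := Finsupp.mapDomain_single
    rw [h2, Finsupp.finsetSum_apply]
    simp only [h1]
    show (Finsupp.single (⟨m, q.comp τ⟩ : SSx E) a) ⟨k, q.comp σ⟩ = _
    by_cases hm : m = k
    · subst hm
      by_cases hc : q.comp τ = q.comp σ
      · obtain ⟨g, hg⟩ := hB Z E A q hq m τ σ hc
        rw [hc, Finsupp.single_eq_same, Finset.sum_eq_single g]
        · have : (⟨fun z => g +ᵥ z, continuous_const_vadd g⟩ : C(Z, Z)).comp τ = σ := by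
            ext t
            exact (hg t).symm
          rw [this, Finsupp.single_eq_same]
        · intro h _ hne
          rw [Finsupp.single_apply, if_neg]
          intro h3
          have h4 : (⟨fun z => h +ᵥ z, continuous_const_vadd h⟩ : C(Z, Z)).comp τ = σ := by
            simpa using h3
          have h5 := DFunLike.congr_fun h4 (vtx 0)
          have h6 : h +ᵥ τ (vtx 0) = g +ᵥ τ (vtx 0) := by
            rw [← hg (vtx 0)]
            exact h5
          have hcan := hq.isCancelVAdd
          exact hne (IsCancelVAdd.right_cancel _ _ _ h6)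
        · intro h3
          exact absurd (Finset.mem_univ g) h3
      · rw [Finsupp.single_apply, if_neg, Finset.sum_eq_zero]
        · intro h _
          rw [Finsupp.single_apply, if_neg]
          intro h3
          have h4 : (⟨fun z => h +ᵥ z, continuous_const_vadd h⟩ : C(Z, Z)).comp τ = σ := by
            simpa using h3
          apply hc
          rw [← h4]
          ext t
          exact (hq.map_vadd h).symm
        · intro h3
          exact hc (by simpa using h3)
    · rw [Finsupp.single_apply, if_neg, Finset.sum_eq_zero]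
      · intro h _
        rw [Finsupp.single_apply, if_neg]
        intro h3
        exact hm (congrArg Sigma.fst h3)
      · intro h3
        exact hm (congrArg Sigma.fst h3)

end TC
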