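import Pool.Agent.TC.Cyc.Stmts2

/-!
# Block CYC, module DESE: the total cycle
-/

set_option autoImplicit false

open scoped Topology Manifold ContDiff

noncomputable section

namespace TC

namespace DESE

theorem tmap_comp {X Y W : Type} [TopologicalSpace X] [TopologicalSpace Y] [TopologicalSpace W]
    (g : C(Y, W)) (f : C(X, Y)) (z : TCh X) : tmap (g.comp f) z = tmap g (tmap f z) := by
  unfold tmap
  simp only [Finsupp.lmapDomain_apply]
  rw [← Finsupp.mapDomain_comp]
  rfl

theorem tmap_id {X : Type} [TopologicalSpace X] (z : TCh X) :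
    tmap (ContinuousMap.id X) z = z := by
  unfold tmap
  rw [Finsupp.lmapDomain_apply]
  have h : mapS (ContinuousMap.id X) = id := by
    funext s
    rfl
  rw [h, Finsupp.mapDomain_id]

theorem tact_add {A Z : Type} [TopologicalSpace Z] [AddGroup A] [AddAction A Z]
    [ContinuousConstVAdd A Z] (g h : A) (z : TCh Z) : tact (g + h) z = tact g (tact h z) := by
  unfold tact
  rw [← tmap_comp]
  have e : (⟨fun z => (g + h) +ᵥ z, continuous_const_vadd (g + h)⟩ : C(Z, Z)) =
      (⟨fun z => g +ᵥ z, continuous_const_vadd g⟩ : C(Z, Z)).comp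
        ⟨fun z => h +ᵥ z, continuous_const_vadd h⟩ := by
    ext1 x
    exact add_vadd g h x
  rw [e]

theorem tact_zero {A Z : Type} [TopologicalSpace Z] [AddGroup A] [AddAction A Z]
    [ContinuousConstVAdd A Z] (z : TCh Z) : tact (0 : A) z = z := by
  unfold tact
  have h : (⟨fun z => (0 : A) +ᵥ z, continuous_const_vadd 0⟩ : C(Z, Z)) =
      ContinuousMap.id Z := by
    ext1 x
    exact zero_vadd A x
  rw [h, tmap_id]

/-- The sign change of the coordinate `s`. -/
def e12 (s : ZMod 2) : Fin 12 → ZMod 2 := ![s, s, 0, 0, 0, 0, 0, 0, 0, 0, 0, 0]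

theorem chi12'_snoc (h : H5) (s : ZMod 2) :
    chi12' (Fin.snoc (α := fun _ => ZMod 2) h s) = e12 s + chi12 h := by
  have h0 : (Fin.snoc (α := fun _ => ZMod 2) h s : H6) 0 = h 0 := rfl
  have h1 : (Fin.snoc (α := fun _ => ZMod 2) h s : H6) 1 = h 1 := rfl
  have h2 : (Fin.snoc (α := fun _ => ZMod 2) h s : H6) 2 = h 2 := rfl
  have h3 : (Fin.snoc (α := fun _ => ZMod 2) h s : H6) 3 = h 3 := rfl
  have h4 : (Fin.snoc (α := fun _ => ZMod 2) h s : H6) 4 = h 4 := rfl
  have h5 : (Fin.snoc (α := fun _ => ZMod 2) h s : H6) 5 = s := rfl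
  show ![_, _, _, _, _, _, _, _, _, _, _, _] = _
  rw [h0, h1, h2, h3, h4, h5]
  funext i
  fin_cases i <;> simp [e12, chi12, add_comm]

theorem tact5 (h : H5) (c : TCh Mh) : tact h c = tact (chi12 h) c := rfl

theorem tact6 (H : Stmt_CRSC) (h : H6) (c : TCh Mh) (y : TCh S2) :
    tact h (cross c y) = cross (tact (chi12' h) c) (tact (h 5) y) := by
  have h1 := (H Mh S2 c y).1 Mh S2 ⟨fun z => chi12' h +ᵥ z, continuous_const_vadd _⟩
    ⟨fun z => h 5 +ᵥ z, continuous_const_vadd _⟩
  exact h1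

end DESE

open DESE

theorem DESE (h1 : Stmt_DEC) (h2 : Stmt_DSUM) (h3 : Stmt_CRSC) (h4 : Stmt_SYSF) : Stmt_DESE := by
  intro hM hE S S' z hz y hy
  obtain ⟨c, hc1, hc2, -⟩ := h1 Mh Mq H5 qMc hM (S.full ∅) z hz
  have hE' : IsAddQuotientCoveringMap qEc H6 := hE
  have key := h2 ZZ EE H6 qEc hE' (cross c y)
  have e1 : tmap qEc (cross c y) = tmap totC (cross z y) := by
    unfold qEc
    rw [tmap_comp, (h3 Mh S2 c y).1, tmap_id, hc2]
  have hinv := (h4 Mh (Fin 12) 7 S ∅).1
  have e2 : ∑ h : H6, tact h (cross c y) = cross (S.full ∅) (S'.full ∅) := by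
    have step : ∑ h : H6, tact h (cross c y) =
        ∑ s : ZMod 2, ∑ h : H5, cross (tact (e12 s) (tact h c)) (tact s y) := by
      rw [← (Fin.snocEquiv (fun _ : Fin 6 => ZMod 2)).sum_comp, Fintype.sum_prod_type]
      refine Finset.sum_congr rfl fun s _ => Finset.sum_congr rfl fun h _ => ?_
      have e : (Fin.snocEquiv (fun _ : Fin 6 => ZMod 2)) (s, h) =
          Fin.snoc (α := fun _ => ZMod 2) h s := rfl
      rw [e, tact6 h3, chi12'_snoc, tact_add, tact5]
      rfl
    rw [step, ← hy]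
    have step2 : ∀ s : ZMod 2, ∑ h : H5, cross (tact (e12 s) (tact h c)) (tact s y) =
        cross (S.full ∅) (tact s y) := by
      intro s
      rw [← LinearMap.sum_apply, ← map_sum, ← map_sum, ← hc1, hinv]
    simp only [step2]
    rw [← map_sum]
    congr 1
    have : (Finset.univ : Finset (ZMod 2)) = {0, 1} := by decide
    rw [this, Finset.sum_pair (by decide), tact_zero]
  rw [← e1, ← e2]
  exact key

end TC
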