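import Pool.Agent.TC.Cyc.Stmts2

/-!
# Block CYC, modules DEX, DUN, DEC: descent of chains along quotient coverings
-/

set_option autoImplicit false

open scoped Topology

noncomputable section

namespace TC

namespace DEXaux

variable {Z E : Type} [TopologicalSpace Z] [TopologicalSpace E] {A : Type} [AddCommGroup A]
  [AddAction A Z]

/-- Every simplex of the quotient is the image of a simplex. -/
theorem exists_lift (hA : Stmt_LIFTA) (q : C(Z, E)) (hq : IsAddQuotientCoveringMap q A)
    (s : SSx E) : ∃ s' : SSx Z, mapS q s' = s := by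
  obtain ⟨k, σ⟩ := s
  obtain ⟨σ', hσ'⟩ := hA Z E A q hq k σ
  exact ⟨⟨k, σ'⟩, by show (⟨k, q.comp σ'⟩ : SSx E) = ⟨k, σ⟩; rw [hσ']⟩

section cont

variable [ContinuousConstVAdd A Z]

/-- The continuous map given by a group element. -/
def gC (h : A) : C(Z, Z) := ⟨fun z => h +ᵥ z, continuous_const_vadd h⟩

theorem gC_apply (h : A) (z : Z) : gC h z = h +ᵥ z := rfl

theorem mapS_gC_add (h h' : A) (s : SSx Z) :
    mapS (gC (h + h')) s = mapS (gC h) (mapS (gC h') s) := by
  obtain ⟨k, σ⟩ := s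
  show (⟨k, (gC (h + h')).comp σ⟩ : SSx Z) = ⟨k, (gC h).comp ((gC h').comp σ)⟩
  congr 1
  ext t
  exact add_vadd h h' (σ t)

theorem mapS_gC_zero (s : SSx Z) : mapS (gC (0 : A)) s = s := by
  obtain ⟨k, σ⟩ := s
  show (⟨k, (gC (0 : A)).comp σ⟩ : SSx Z) = ⟨k, σ⟩
  congr 1
  ext t
  exact zero_vadd A (σ t)

theorem mapS_gC_inj (h : A) : Function.Injective (mapS (gC h) : SSx Z → SSx Z) := by
  intro s s' hs
  have h1 := congrArg (mapS (gC (-h))) hs
  rwa [← mapS_gC_add, ← mapS_gC_add, neg_add_cancel, mapS_gC_zero, mapS_gC_zero] at h1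

theorem tact_apply (h : A) (c : TCh Z) (s : SSx Z) : tact h c (mapS (gC h) s) = c s :=
  Finsupp.mapDomain_apply (mapS_gC_inj h) c s

theorem tact_single (h : A) (s : SSx Z) (r : F2) :
    tact h (Finsupp.single s r) = Finsupp.single (mapS (gC h) s) r :=
  Finsupp.mapDomain_single

/-- Two lifts differ by a group element. -/
theorem exists_vadd (hB : Stmt_LIFTB) (q : C(Z, E)) (hq : IsAddQuotientCoveringMap q A)
    (s s' : SSx Z) (hs : mapS q s = mapS q s') : ∃ h : A, mapS (gC h) s = s' := by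
  obtain ⟨k, σ⟩ := s
  obtain ⟨k', τ⟩ := s'
  obtain rfl : k = k' := congrArg Sigma.fst hs
  have h1 : q.comp σ = q.comp τ := by
    have := (Sigma.mk.inj_iff.1 hs).2
    exact eq_of_heq this
  obtain ⟨h, hh⟩ := hB Z E A q hq k σ τ h1
  refine ⟨h, ?_⟩
  show (⟨k, (gC h).comp σ⟩ : SSx Z) = ⟨k, τ⟩
  congr 1
  ext t
  exact (hh t).symm

omit [ContinuousConstVAdd A Z] in
theorem free (q : C(Z, E)) (hq : IsAddQuotientCoveringMap q A) (h : A) (z : Z)
    (hz : h +ᵥ z = z) : h = 0 := by
  obtain ⟨U, hU, hU'⟩ := hq.disjoint z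
  have hzU : z ∈ U := mem_of_mem_nhds hU
  exact hU' h ⟨z, ⟨z, hzU, hz⟩, hzU⟩

theorem vadd_unique (q : C(Z, E)) (hq : IsAddQuotientCoveringMap q A) (h h' : A) (s : SSx Z)
    (hs : mapS (gC h) s = mapS (gC h') s) : h = h' := by
  have h1 := congrArg (mapS (gC (-h'))) hs
  rw [← mapS_gC_add, ← mapS_gC_add, neg_add_cancel, mapS_gC_zero] at h1
  obtain ⟨k, σ⟩ := s
  have h2 : (gC (-h' + h)).comp σ = σ := eq_of_heq (Sigma.mk.inj_iff.1 h1).2
  have h3 := DFunLike.congr_fun h2 (vtx 0)
  have h4 := free q hq (-h' + h) (σ (vtx 0)) h3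
  have h5 : h = h' := by
    have := congrArg (fun x => h' + x) h4
    simpa using this
  exact h5

theorem mapS_q_gC (q : C(Z, E)) (hq : IsAddQuotientCoveringMap q A) (h : A) (s : SSx Z) :
    mapS q (mapS (gC h) s) = mapS q s := by
  obtain ⟨k, σ⟩ := s
  show (⟨k, q.comp ((gC h).comp σ)⟩ : SSx E) = ⟨k, q.comp σ⟩
  congr 1
  ext t
  exact hq.apply_eq_iff_mem_orbit.mpr ⟨h, rfl⟩

end cont

end DEXaux

open DEXaux

theorem DEX (hA : Stmt_LIFTA) (hB : Stmt_LIFTB) : Stmt_DEX := by
  intro Z E _ _ A _ _ _ q hq w' hw'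
  choose lft hlft using exists_lift hA q hq
  have hfin : (Function.support fun s : SSx E => w' (lft s)).Finite := by
    refine (w'.support.finite_toSet.image (mapS q)).subset ?_
    intro s hs
    exact ⟨lft s, Finsupp.mem_support_iff.2 hs, hlft s⟩
  refine ⟨Finsupp.ofSupportFinite (fun s => w' (lft s)) hfin, ?_⟩
  intro s
  show w' (lft (mapS q s)) = w' s
  obtain ⟨h, hh⟩ := exists_vadd hB q hq s (lft (mapS q s)) (hlft (mapS q s)).symm
  rw [← hh]
  have h1 := tact_apply h w' s
  rwa [hw' h] at h1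

theorem DUN (hA : Stmt_LIFTA) : Stmt_DUN := by
  intro Z E _ _ A _ _ q hq w' w₁ w₂ h₁ h₂
  ext s
  obtain ⟨s', rfl⟩ := exists_lift hA q hq s
  rw [h₁ s', h₂ s']

namespace DEXaux

/-- The transfer of the image of a chain is the sum of its translates. -/
theorem desc_sum (hB : Stmt_LIFTB) {Z E : Type} [TopologicalSpace Z] [TopologicalSpace E]
    {A : Type} [AddCommGroup A] [Fintype A] [AddAction A Z] [ContinuousConstVAdd A Z]
    (q : C(Z, E)) (hq : IsAddQuotientCoveringMap q A) (c : TCh Z) :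
    IsDesc q (∑ h : A, tact h c) (tmap q c) := by
  classical
  intro s'
  rw [Finsupp.finsetSum_apply]
  induction c using Finsupp.induction_linear with
  | zero => simp
  | add x y hx hy =>
    rw [map_add, Finsupp.add_apply, hx, hy, ← Finset.sum_add_distrib]
    refine Finset.sum_congr rfl fun h _ => ?_
    rw [map_add, Finsupp.add_apply]
  | single s r =>
    have h1 : tmap q (Finsupp.single s r) = Finsupp.single (mapS q s) r :=
      Finsupp.mapDomain_single
    rw [h1]
    simp only [tact_single, Finsupp.single_apply]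
    by_cases hs : mapS q s = mapS q s'
    · rw [if_pos hs]
      obtain ⟨h, hh⟩ := exists_vadd hB q hq s s' hs
      rw [Finset.sum_eq_single h]
      · rw [if_pos hh]
      · intro h' _ hne
        rw [if_neg]
        intro hh'
        exact hne (vadd_unique q hq h' h s (hh'.trans hh.symm))
      · intro h'
        exact absurd (Finset.mem_univ _) h'
    · rw [if_neg hs]
      refine (Finset.sum_eq_zero fun h _ => ?_).symm
      rw [if_neg]
      intro hh
      apply hs
      rw [← hh, mapS_q_gC q hq]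

end DEXaux

theorem DEC (hA : Stmt_LIFTA) (hB : Stmt_LIFTB) : Stmt_DEC := by
  classical
  intro Z E _ _ A _ _ _ _ q hq w' w hw
  choose lft hlft using exists_lift hA q hq
  have hc : tmap q (Finsupp.mapDomain lft w) = w := by
    show Finsupp.mapDomain (mapS q) (Finsupp.mapDomain lft w) = w
    rw [← Finsupp.mapDomain_comp]
    have : mapS q ∘ lft = id := funext hlft
    rw [this, Finsupp.mapDomain_id]
  refine ⟨Finsupp.mapDomain lft w, ?_, hc.symm, ?_⟩
  · have h1 := desc_sum hB q hq (Finsupp.mapDomain lft w)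
    rw [hc] at h1
    ext s
    rw [← h1 s, hw s]
  · intro s hs
    have h2 := Finsupp.mapDomain_support hs
    obtain ⟨t, ht, rfl⟩ := Finset.mem_image.1 h2
    rw [Finsupp.mem_support_iff] at ht ⊢
    rw [← hw (lft t), hlft t]
    exact ht

end TC
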