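import Pool.Agent.TC.Cyc.Stmts2

/-!
# Block CYC, modules EDGE and VCL: labels of images of paths, the cochains `v_χ` are cocycles
-/

set_option autoImplicit false

open scoped Topology

noncomputable section

namespace TC

theorem EDGE (hB : Stmt_LIFTB) : Stmt_EDGE := by
  intro Z E _ _ A _ _ q hq lab hlab τ
  have hex : ∃ τ' : C(Simp 1, Z), ∀ t, q (τ' t) = (q.comp τ) t := ⟨τ, fun _ => rfl⟩
  unfold edgeLab
  rw [dif_pos hex]
  have hc : ∀ t, q (hex.choose t) = (q.comp τ) t := hex.choose_spec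
  obtain ⟨h, hh⟩ := hB Z E A q hq 1 τ hex.choose (by
    ext1 t
    exact (hc t).symm)
  rw [hh, hh, hlab, hlab]
  abel

/-- The map of simplices given by a map of vertices on the vertices. -/
theorem CEDGE.smap_vtx {m k : ℕ} (θ : Fin (m + 1) → Fin (k + 1)) (i : Fin (m + 1)) :
    smap θ (vtx i) = vtx (θ i) := stdSimplex.map_vertex θ i

theorem CEDGE.face_vtx {k : ℕ} (i : Fin (k + 2)) (j : Fin (k + 1)) :
    face i (vtx j) = vtx (i.succAbove j) := CEDGE.smap_vtx _ _

theorem VCL (hA : Stmt_LIFTA) (hE : Stmt_EDGE) : Stmt_VCL := by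
  intro Z E _ _ A _ _ q hq lab hlab χ
  funext σ
  obtain ⟨σ', hσ'⟩ := hA Z E A q hq 2 σ
  subst hσ'
  show ∑ i : Fin 3, vch q lab χ ((q.comp σ').comp (face i)) = 0
  have key : ∀ i : Fin 3, vch q lab χ ((q.comp σ').comp (face i)) =
      χ (lab (σ' (vtx (i.succAbove 1)))) - χ (lab (σ' (vtx (i.succAbove 0)))) := by
    intro i
    unfold vch
    have h1 := hE Z E A q hq lab hlab (σ'.comp (face i))
    rw [ContinuousMap.comp_assoc, h1, map_sub]
    show χ (lab (σ' (face i (vtx 1)))) - χ (lab (σ' (face i (vtx 0)))) = _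
    rw [CEDGE.face_vtx, CEDGE.face_vtx]
  rw [Fin.sum_univ_three, key, key, key]
  have e0 : ((0 : Fin 3).succAbove (1 : Fin 2)) = 2 := rfl
  have e1 : ((0 : Fin 3).succAbove (0 : Fin 2)) = 1 := rfl
  have e2 : ((1 : Fin 3).succAbove (1 : Fin 2)) = 2 := rfl
  have e3 : ((1 : Fin 3).succAbove (0 : Fin 2)) = 0 := rfl
  have e4 : ((2 : Fin 3).succAbove (1 : Fin 2)) = 1 := rfl
  have e5 : ((2 : Fin 3).succAbove (0 : Fin 2)) = 0 := rfl
  rw [e0, e1, e2, e3, e4, e5]
  generalize χ (lab (σ' (vtx 0))) = a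
  generalize χ (lab (σ' (vtx 1))) = b
  generalize χ (lab (σ' (vtx 2))) = c
  revert a b c
  decide

end TC
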