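import Pool.Agent.TC.Cyc.Stmts2

/-!
# Block CYC: the algebraic evaluation (EVA)
-/

set_option autoImplicit false

open scoped Topology

noncomputable section

namespace TC

namespace EVAx

/-! ### The commutative ring generated by commuting operators -/

theorem exists_comm {M Z : Type} [AddCommGroup M] [Module F2 M] (op : Z → Module.End F2 M)
    (hcomm : ∀ z w, op z * op w = op w * op z) :
    ∃ (S : Type) (_ : CommRing S) (φ : S →+* Module.End F2 M) (a : Z → S),
      (∀ z, φ (a z) = op z) ∧ Function.Injective φ := by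
  refine ⟨Algebra.adjoin F2 (Set.range op), Algebra.adjoinCommRingOfComm F2 ?_,
    (Subalgebra.val (Algebra.adjoin F2 (Set.range op))).toRingHom,
    fun z => ⟨op z, Algebra.subset_adjoin ⟨z, rfl⟩⟩, fun z => rfl, Subtype.val_injective⟩
  rintro _ ⟨z, rfl⟩ _ ⟨w, rfl⟩
  exact hcomm z w

/-! ### Products of double sums -/

theorem dsum {R : Type} [CommRing R] (f : Fin 7 → Fin 7 → R) (x : R) :
    (∑ i, ∑ j ∈ Finset.Iic i, f i j) * x = ∑ i, ∑ j ∈ Finset.Iic i, f i j * x := by
  rw [Finset.sum_mul]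
  refine Finset.sum_congr rfl fun i _ => ?_
  rw [Finset.sum_mul]

theorem msum {R : Type} [CommRing R] (f : Fin 7 → Fin 7 → R) (x : R) :
    x * (∑ i, ∑ j ∈ Finset.Iic i, f i j) = ∑ i, ∑ j ∈ Finset.Iic i, x * f i j := by
  rw [Finset.mul_sum]
  refine Finset.sum_congr rfl fun i _ => ?_
  rw [Finset.mul_sum]

theorem expand {R : Type} [CommRing R] (c : Fin 7 → R) :
    ∑ i₁ : Fin 7, ∑ j₁ ∈ Finset.Iic i₁, ∑ i₂ : Fin 7, ∑ j₂ ∈ Finset.Iic i₂,
    ∑ i₃ : Fin 7, ∑ j₃ ∈ Finset.Iic i₃, ∑ i₄ : Fin 7, ∑ j₄ ∈ Finset.Iic i₄,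
      (([i₄, j₄, j₄, i₃, j₃, i₂, j₂, i₁, j₁].map c).prod +
        ([i₄, i₄, j₄, i₃, j₃, i₂, j₂, i₁, j₁].map c).prod) =
    (∑ i, ∑ j ∈ Finset.Iic i, c i * c j) ^ 3 *
      (∑ i, ∑ j ∈ Finset.Iic i, (c i * c j ^ 2 + c i ^ 2 * c j)) := by
  have h : ∀ w u : R, w ^ 3 * u = w * (w * (w * u)) := fun w u => by ring
  rw [h, dsum]
  refine Finset.sum_congr rfl fun i₁ _ => Finset.sum_congr rfl fun j₁ _ => ?_
  rw [dsum, msum]
  refine Finset.sum_congr rfl fun i₂ _ => Finset.sum_congr rfl fun j₂ _ => ?_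
  rw [← mul_assoc, dsum, msum]
  refine Finset.sum_congr rfl fun i₃ _ => Finset.sum_congr rfl fun j₃ _ => ?_
  rw [← mul_assoc, msum]
  refine Finset.sum_congr rfl fun i₄ _ => Finset.sum_congr rfl fun j₄ _ => ?_
  simp only [List.map_cons, List.map_nil, List.prod_cons, List.prod_nil]
  ring

variable {X : Type} [TopologicalSpace X]

/-! ### Linear maps -/

/-- evaluation on a chain -/
def tpl (T : TCh X) : TCo X →ₗ[F2] F2 where
  toFun α := tpair α T
  map_add' α β := by
    unfold tpair
    simp only [Finsupp.linearCombination_apply, Finsupp.sum, Pi.add_apply, smul_add,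
      Finset.sum_add_distrib]
  map_smul' r α := by
    unfold tpair
    simp only [Finsupp.linearCombination_apply, Finsupp.sum, Pi.smul_apply, RingHom.id_apply,
      Finset.smul_sum]
    exact Finset.sum_congr rfl fun s _ => smul_comm _ _ _

theorem tpair_single' (α : TCo X) (s : SSx X) (r : F2) :
    tpair α (Finsupp.single s r) = r * α s := by
  unfold tpair
  rw [Finsupp.linearCombination_single, smul_eq_mul]

/-- the coboundary -/
def tcl : TCo X →ₗ[F2] TCo X where
  toFun := tcobd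
  map_add' α β := by
    funext s
    exact (tpl (bdS s)).map_add α β
  map_smul' r α := by
    funext s
    exact (tpl (bdS s)).map_smul r α

theorem tpair_tcobd (α : TCo X) (z : TCh X) : tpair (tcobd α) z = tpair α (tbd z) := by
  induction z using Finsupp.induction_linear with
  | zero => simp
  | add x y hx hy => rw [map_add, map_add, map_add, hx, hy]
  | single s r =>
    rw [tpair_single']
    have h : tbd (Finsupp.single s r) = r • bdS s := by
      unfold tbd
      rw [Finsupp.linearCombination_single]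
    rw [h, map_smul, smul_eq_mul]
    rfl

/-- cup product with a one dimensional cochain -/
def cul (v : Coch X 1) : TCo X →ₗ[F2] TCo X where
  toFun α := cupE α v
  map_add' α β := by
    funext s
    rcases s with ⟨_ | k, σ⟩
    · simp [cupE]
    · simp [cupE, add_mul]
  map_smul' r α := by
    funext s
    rcases s with ⟨_ | k, σ⟩
    · simp [cupE]
    · simp [cupE, mul_assoc]

theorem cupE_add (α : TCo X) (v w : Coch X 1) : cupE α (v + w) = cupE α v + cupE α w := by
  funext s
  rcases s with ⟨_ | k, σ⟩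
  · simp [cupE]
  · simp [cupE, mul_add]

variable (X) in
/-- closed cochains -/
def Cl : Submodule F2 (TCo X) where
  carrier := {α | IsClosedCo α}
  zero_mem' := fun z => (tpl (tbd z)).map_zero
  add_mem' {α β} hα hβ := fun z => by
    have h1 : tpair α (tbd z) = 0 := hα z
    have h2 : tpair β (tbd z) = 0 := hβ z
    have h3 : tpair (α + β) (tbd z) = tpair α (tbd z) + tpair β (tbd z) :=
      (tpl (tbd z)).map_add α β
    rw [h3, h1, h2, add_zero]
  smul_mem' r {α} hα := fun z => by
    have h1 : tpair α (tbd z) = 0 := hα z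
    have h3 : tpair (r • α) (tbd z) = r • tpair α (tbd z) := (tpl (tbd z)).map_smul r α
    rw [h3, h1, smul_zero]

variable (X) in
/-- exact cochains -/
def Ex : Submodule F2 (TCo X) := LinearMap.range (tcl (X := X))

variable (X) in
/-- total cohomology -/
abbrev M0 : Type := (Cl X) ⧸ (Ex X).submoduleOf (Cl X)

/-- the class of a closed cochain -/
def cl (α : TCo X) (h : IsClosedCo α) : M0 X := Submodule.Quotient.mk ⟨α, h⟩

theorem cl_eq {α β : TCo X} (hα : IsClosedCo α) (hβ : IsClosedCo β) (γ : TCo X)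
    (h : α + β = tcobd γ) : cl α hα = cl β hβ := by
  unfold cl
  rw [Submodule.Quotient.eq]
  show α - β ∈ Ex X
  refine ⟨γ, ?_⟩
  show tcobd γ = α - β
  rw [← h]
  funext s
  show α s + β s = α s - β s
  generalize α s = a
  generalize β s = b
  revert a b
  decide

/-- the operator on cohomology -/
def opE (hC : Stmt_CUE) (v : Zk X 1) : Module.End F2 (M0 X) :=
  Submodule.mapQ _ _ ((cul v.1).restrict (p := Cl X) (q := Cl X)
    (fun α hα => (hC X v.1 v.1 (LinearMap.mem_ker.mp v.2) (LinearMap.mem_ker.mp v.2)).1 α hα))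
    (by
      intro α hα
      obtain ⟨β, hβ⟩ : (α : TCo X) ∈ Ex X := hα
      show cupE (α : TCo X) v.1 ∈ Ex X
      have h1 : tcobd β = (α : TCo X) := hβ
      rw [← h1, (hC X v.1 v.1 (LinearMap.mem_ker.mp v.2) (LinearMap.mem_ker.mp v.2)).2.1 β]
      exact ⟨cupE β v.1, rfl⟩)

theorem closed_cupE (hC : Stmt_CUE) (v : Zk X 1) {α : TCo X} (h : IsClosedCo α) :
    IsClosedCo (cupE α v.1) :=
  (hC X v.1 v.1 (LinearMap.mem_ker.mp v.2) (LinearMap.mem_ker.mp v.2)).1 α h

theorem opE_cl (hC : Stmt_CUE) (v : Zk X 1) (α : TCo X) (h : IsClosedCo α) :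
    opE hC v (cl α h) = cl (cupE α v.1) (closed_cupE hC v h) := rfl

theorem ind {p : M0 X → Prop} (h : ∀ α hα, p (cl α hα)) (m : M0 X) : p m := by
  induction m using Submodule.Quotient.induction_on with
  | _ x => exact h x.1 x.2

theorem opE_add (hC : Stmt_CUE) (v w : Zk X 1) : opE hC (v + w) = opE hC v + opE hC w := by
  refine LinearMap.ext fun m => ?_
  refine ind (p := fun m => opE hC (v + w) m = (opE hC v + opE hC w) m) (fun α hα => ?_) m
  rw [LinearMap.add_apply, opE_cl, opE_cl, opE_cl]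
  unfold cl
  rw [← Submodule.Quotient.mk_add]
  congr 1
  exact Subtype.ext (cupE_add α v.1 w.1)

theorem opE_comm (hC : Stmt_CUE) (v w : Zk X 1) :
    opE hC v * opE hC w = opE hC w * opE hC v := by
  refine LinearMap.ext fun m => ?_
  refine ind (p := fun m => (opE hC v * opE hC w) m = (opE hC w * opE hC v) m)
    (fun α hα => ?_) m
  rw [Module.End.mul_apply, Module.End.mul_apply, opE_cl, opE_cl, opE_cl, opE_cl]
  exact cl_eq _ _ _ ((hC X w.1 v.1 (LinearMap.mem_ker.mp w.2) (LinearMap.mem_ker.mp v.2)).2.2 α hα)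

/-- the functional on cohomology -/
def psi (T : TCh X) (hT : tbd T = 0) : M0 X →ₗ[F2] F2 :=
  Submodule.liftQ _ ((tpl T).comp (Cl X).subtype) (by
    intro α hα
    obtain ⟨β, hβ⟩ : (α : TCo X) ∈ Ex X := hα
    rw [LinearMap.mem_ker]
    show tpair (α : TCo X) T = 0
    have h1 : tcobd β = (α : TCo X) := hβ
    rw [← h1, tpair_tcobd, hT, map_zero])

theorem psi_cl (T : TCh X) (hT : tbd T = 0) (α : TCo X) (h : IsClosedCo α) :
    psi T hT (cl α h) = tpair α T := rfl

theorem closed_oneCo : IsClosedCo (oneCo : TCo X) := by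
  intro z
  induction z using Finsupp.induction_linear with
  | zero => simp
  | add x y hx hy => rw [map_add, map_add, hx, hy, add_zero]
  | single s r =>
    have h : tbd (Finsupp.single s r) = r • bdS s := by
      unfold tbd
      rw [Finsupp.linearCombination_single]
    rw [h, map_smul]
    have h2 : tpair oneCo (bdS s) = 0 := by
      rcases s with ⟨_ | k, σ⟩
      · exact map_zero _
      · show tpair oneCo (∑ i : Fin (k + 2), Finsupp.single ⟨k, σ.comp (face i)⟩ 1) = 0
        rw [map_sum]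
        simp only [tpair_single', one_mul]
        rcases k with _ | k
        · show ∑ i : Fin 2, (1 : F2) = 0
          decide
        · exact Finset.sum_eq_zero fun i _ => rfl
    rw [h2, smul_zero]

theorem closed_cupL (hC : Stmt_CUE) (l : List (Zk X 1)) {α : TCo X} (h : IsClosedCo α) :
    IsClosedCo (cupL α (l.map Subtype.val)) := by
  induction l with
  | nil => exact h
  | cons v l ih => exact closed_cupE hC v ih

section main

variable (hC : Stmt_CUE) {S : Type} [CommRing S] (φ : S →+* Module.End F2 (M0 X))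
  (a : Zk X 1 → S) (ha : ∀ z, φ (a z) = opE hC z)

include ha in
theorem prod_cl (l : List (Zk X 1)) (α : TCo X) (h : IsClosedCo α) :
    φ ((l.map a).prod) (cl α h) = cl (cupL α (l.map Subtype.val)) (closed_cupL hC l h) := by
  induction l with
  | nil =>
    show φ 1 (cl α h) = cl α h
    rw [map_one]
    rfl
  | cons v l ih =>
    rw [List.map_cons, List.prod_cons, map_mul, Module.End.mul_apply, ih, ha, opE_cl]
    rfl

/-- the ideal of the elements killed by the functional -/
def II (T : TCh X) (hT : tbd T = 0) : Ideal S where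
  carrier := {b | ∀ m, psi T hT (φ b m) = 0}
  zero_mem' := fun m => by rw [map_zero, LinearMap.zero_apply, map_zero]
  add_mem' {b c} hb hc := fun m => by
    rw [map_add, LinearMap.add_apply, map_add]
    rw [show psi T hT (φ b m) = 0 from hb m, show psi T hT (φ c m) = 0 from hc m, add_zero]
  smul_mem' c {b} hb := fun m => by
    rw [smul_eq_mul, mul_comm, map_mul, Module.End.mul_apply]
    exact hb _

include ha in
theorem mem_II (T : TCh X) (hT : tbd T = 0) (l : List (Zk X 1))
    (h : ∀ α, IsClosedCo α → tpair (cupL α (l.map Subtype.val)) T = 0) :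
    (l.map a).prod ∈ II φ T hT := by
  intro m
  refine ind (p := fun m => psi T hT (φ (l.map a).prod m) = 0) (fun α hα => ?_) m
  rw [prod_cl hC φ a ha l α hα, psi_cl]
  exact h α hα

end main

end EVAx

open EVAx in
/-- EVA, from CUE and the ring identity EVAR. -/
theorem EVA (hC : Stmt_CUE)
    (hR : ∀ (R : Type) [CommRing R], (2 : R) = 0 → ∀ x y1 y2 y3 y s : R, s ^ 3 = 0 →
      (x + s) ^ 2 = 0 → y1 ^ 2 = 0 → y2 * (y2 + y1) = 0 → y3 * (y3 + x) = 0 →
      y * (y + y3) * (y + y2) * (y + x + y1 + y2 + y3) = 0 →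
      ∀ c : Fin 7 → R, c = ![0, y1, x, y, y + y3, y + y2, y + x + y1 + y2 + y3] →
      (∑ i, ∑ j ∈ Finset.Iic i, c i * c j) ^ 3 *
        (∑ i, ∑ j ∈ Finset.Iic i, (c i * c j ^ 2 + c i ^ 2 * c j)) =
      s ^ 2 * (x + s) * y1 * y2 * y3 * y * (y + y3) * (y + y2)) : Stmt_EVA := by
  intro X _ v hv T hT r1 r2 r3 r4 r5 r6 top
  obtain ⟨S, _, φ, a, ha, hφ⟩ := exists_comm (Z := Zk X 1) (opE hC) (opE_comm hC)
  have hadd : ∀ z w, a (z + w) = a z + a w := by
    intro z w
    apply hφ
    rw [map_add, ha, ha, ha, opE_add]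
  have hzero : a 0 = 0 := by
    have := hadd 0 0
    rw [add_zero] at this
    exact left_eq_add.mp this
  have h2 : (2 : S) = 0 := by
    apply hφ
    rw [map_zero, map_ofNat]
    have e2 : (2 : Module.End F2 (M0 X)) = 1 + 1 := one_add_one_eq_two.symm
    rw [e2]
    refine LinearMap.ext fun m => ?_
    rw [LinearMap.zero_apply, LinearMap.add_apply, Module.End.one_apply, ← two_smul F2 m,
      show (2 : F2) = 0 by decide, zero_smul]
  obtain ⟨z, hz⟩ : ∃ z : Fin 6 → Zk X 1, ∀ i, (z i).1 = v i :=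
    ⟨fun i => ⟨v i, LinearMap.mem_ker.mpr (hv i)⟩, fun i => rfl⟩
  have q1 : (a (z 5)) * (a (z 5) * (a (z 5) * 1)) ∈ II φ T hT :=
    mem_II hC φ a ha T hT [z 5, z 5, z 5] (by
      intro α hα
      have := r1 α hα
      rw [← hz] at this
      exact this)
  have q2 : (a (z 0 + z 5)) * (a (z 0 + z 5) * 1) ∈ II φ T hT :=
    mem_II hC φ a ha T hT [z 0 + z 5, z 0 + z 5] (by
      intro α hα
      have := r2 α hα
      rw [← hz 0, ← hz 5] at this
      exact this)
  have q3 : (a (z 1)) * (a (z 1) * 1) ∈ II φ T hT :=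
    mem_II hC φ a ha T hT [z 1, z 1] (by
      intro α hα
      have := r3 α hα
      rw [← hz] at this
      exact this)
  have q4 : (a (z 2)) * (a (z 2 + z 1) * 1) ∈ II φ T hT :=
    mem_II hC φ a ha T hT [z 2, z 2 + z 1] (by
      intro α hα
      have := r4 α hα
      rw [← hz 1, ← hz 2] at this
      exact this)
  have q5 : (a (z 3)) * (a (z 3 + z 0) * 1) ∈ II φ T hT :=
    mem_II hC φ a ha T hT [z 3, z 3 + z 0] (by
      intro α hα
      have := r5 α hα
      rw [← hz 0, ← hz 3] at this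
      exact this)
  have q6 : (a (z 4)) * (a (z 4 + z 3) * (a (z 4 + z 2) * (a (z 4 + z 0 + z 1 + z 2 + z 3) * 1)))
      ∈ II φ T hT :=
    mem_II hC φ a ha T hT [z 4, z 4 + z 3, z 4 + z 2, z 4 + z 0 + z 1 + z 2 + z 3] (by
      intro α hα
      have := r6 α hα
      rw [← hz 0, ← hz 1, ← hz 2, ← hz 3, ← hz 4] at this
      exact this)
  obtain ⟨c, hc⟩ : ∃ c : Fin 7 → S, c = ![0, a (z 1), a (z 0), a (z 4), a (z 4) + a (z 3),
      a (z 4) + a (z 2), a (z 4) + a (z 0) + a (z 1) + a (z 2) + a (z 3)] := ⟨_, rfl⟩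
  -- the ring identity modulo the ideal
  have key := hR (S ⧸ II φ T hT) (by
      have := congrArg (Ideal.Quotient.mk (II φ T hT)) h2
      rwa [map_ofNat, map_zero] at this)
    (Ideal.Quotient.mk _ (a (z 0))) (Ideal.Quotient.mk _ (a (z 1)))
    (Ideal.Quotient.mk _ (a (z 2))) (Ideal.Quotient.mk _ (a (z 3)))
    (Ideal.Quotient.mk _ (a (z 4))) (Ideal.Quotient.mk _ (a (z 5)))
    (by
      rw [← map_pow, Ideal.Quotient.eq_zero_iff_mem]
      have e : a (z 5) ^ 3 = (a (z 5)) * (a (z 5) * (a (z 5) * 1)) := by ring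
      rw [e]
      exact q1)
    (by
      rw [← map_add, ← map_pow, Ideal.Quotient.eq_zero_iff_mem]
      have e : (a (z 0) + a (z 5)) ^ 2 = (a (z 0 + z 5)) * (a (z 0 + z 5) * 1) := by
        rw [hadd]
        ring
      rw [e]
      exact q2)
    (by
      rw [← map_pow, Ideal.Quotient.eq_zero_iff_mem]
      have e : a (z 1) ^ 2 = (a (z 1)) * (a (z 1) * 1) := by ring
      rw [e]
      exact q3)
    (by
      rw [← map_add, ← map_mul, Ideal.Quotient.eq_zero_iff_mem]
      have e : a (z 2) * (a (z 2) + a (z 1)) = (a (z 2)) * (a (z 2 + z 1) * 1) := by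
        rw [hadd]
        ring
      rw [e]
      exact q4)
    (by
      rw [← map_add, ← map_mul, Ideal.Quotient.eq_zero_iff_mem]
      have e : a (z 3) * (a (z 3) + a (z 0)) = (a (z 3)) * (a (z 3 + z 0) * 1) := by
        rw [hadd]
        ring
      rw [e]
      exact q5)
    (by
      simp only [← map_add, ← map_mul]
      rw [Ideal.Quotient.eq_zero_iff_mem]
      have e : a (z 4) * (a (z 4) + a (z 3)) * (a (z 4) + a (z 2)) *
          (a (z 4) + a (z 0) + a (z 1) + a (z 2) + a (z 3)) =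
          (a (z 4)) * (a (z 4 + z 3) * (a (z 4 + z 2) *
            (a (z 4 + z 0 + z 1 + z 2 + z 3) * 1))) := by
        simp only [hadd]
        ring
      rw [e]
      exact q6)
    (fun i => Ideal.Quotient.mk _ (c i)) (by
      rw [hc]
      funext i
      fin_cases i <;> simp)
  -- back to the ring
  have key2 : (∑ i, ∑ j ∈ Finset.Iic i, c i * c j) ^ 3 *
        (∑ i, ∑ j ∈ Finset.Iic i, (c i * c j ^ 2 + c i ^ 2 * c j)) -
      a (z 5) ^ 2 * (a (z 0) + a (z 5)) * a (z 1) * a (z 2) * a (z 3) * a (z 4) *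
        (a (z 4) + a (z 3)) * (a (z 4) + a (z 2)) ∈ II φ T hT := by
    rw [← Ideal.Quotient.eq_zero_iff_mem, map_sub, sub_eq_zero]
    simp only [map_mul, map_pow, map_sum, map_add]
    exact key
  -- evaluation on the unit
  have hev : ∀ l : List (Zk X 1), psi T hT (φ (l.map a).prod (cl oneCo closed_oneCo)) =
      tpair (cupL oneCo (l.map Subtype.val)) T := by
    intro l
    rw [prod_cl hC φ a ha l oneCo closed_oneCo, psi_cl]
  obtain ⟨ev, hevd⟩ : ∃ ev : S →+ F2, ∀ b, ev b = psi T hT (φ b (cl oneCo closed_oneCo)) :=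
    ⟨{ toFun := fun b => psi T hT (φ b (cl oneCo closed_oneCo))
       map_zero' := by rw [map_zero, LinearMap.zero_apply, map_zero]
       map_add' := fun b c => by rw [map_add, LinearMap.add_apply, map_add] }, fun b => rfl⟩
  have hev' : ∀ l : List (Zk X 1), ev (l.map a).prod =
      tpair (cupL oneCo (l.map Subtype.val)) T := fun l => (hevd _).trans (hev l)
  obtain ⟨zz, hzz⟩ : ∃ zz : Fin 7 → Zk X 1, zz = ![0, z 1, z 0, z 4, z 4 + z 3, z 4 + z 2,
    z 4 + z 0 + z 1 + z 2 + z 3] := ⟨_, rfl⟩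
  have hzc : ∀ i, a (zz i) = c i := by
    intro i
    rw [hzz, hc]
    fin_cases i <;> simp [hzero, hadd]
  have hzv : ∀ i, (zz i).1 = vv7 v i := by
    intro i
    rw [hzz]
    unfold vv7
    fin_cases i <;> simp [hz]
  have hPP : tpair (PPw (vv7 v)) T = ev ((∑ i, ∑ j ∈ Finset.Iic i, c i * c j) ^ 3 *
        (∑ i, ∑ j ∈ Finset.Iic i, (c i * c j ^ 2 + c i ^ 2 * c j))) := by
    rw [← expand c]
    simp only [map_sum]
    show tpl T (PPw (vv7 v)) = _
    unfold PPw
    simp only [map_sum]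
    refine Finset.sum_congr rfl fun i₁ _ => Finset.sum_congr rfl fun j₁ _ => ?_
    refine Finset.sum_congr rfl fun i₂ _ => Finset.sum_congr rfl fun j₂ _ => ?_
    refine Finset.sum_congr rfl fun i₃ _ => Finset.sum_congr rfl fun j₃ _ => ?_
    refine Finset.sum_congr rfl fun i₄ _ => Finset.sum_congr rfl fun j₄ _ => ?_
    have hlist : ∀ l : List (Fin 7), tpl T (cupL oneCo (l.map (vv7 v))) =
        ev ((l.map c).prod) := by
      intro l
      have e1 : l.map c = (l.map zz).map a := by
        rw [List.map_map]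
        exact List.map_congr_left fun i _ => (hzc i).symm
      have e2 : l.map (vv7 v) = (l.map zz).map Subtype.val := by
        rw [List.map_map]
        exact List.map_congr_left fun i _ => (hzv i).symm
      rw [e1, e2]
      exact (hev' (l.map zz)).symm
    rw [map_add, map_add]
    exact congrArg₂ (· + ·) (hlist [i₄, j₄, j₄, i₃, j₃, i₂, j₂, i₁, j₁])
      (hlist [i₄, i₄, j₄, i₃, j₃, i₂, j₂, i₁, j₁])
  have htop : ev (a (z 5) ^ 2 * (a (z 0) + a (z 5)) * a (z 1) * a (z 2) * a (z 3) * a (z 4) *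
        (a (z 4) + a (z 3)) * (a (z 4) + a (z 2))) = 1 := by
    have e := hev' [z 5, z 5, z 0 + z 5, z 1, z 2, z 3, z 4, z 4 + z 3, z 4 + z 2]
    have e1 : ([z 5, z 5, z 0 + z 5, z 1, z 2, z 3, z 4, z 4 + z 3, z 4 + z 2].map a).prod =
        a (z 5) ^ 2 * (a (z 0) + a (z 5)) * a (z 1) * a (z 2) * a (z 3) * a (z 4) *
        (a (z 4) + a (z 3)) * (a (z 4) + a (z 2)) := by
      simp only [List.map_cons, List.map_nil, List.prod_cons, List.prod_nil, hadd]
      ring
    rw [← e1, e]
    rw [← hz 0, ← hz 1, ← hz 2, ← hz 3, ← hz 4, ← hz 5] at top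
    exact top
  have hkill : ev ((∑ i, ∑ j ∈ Finset.Iic i, c i * c j) ^ 3 *
        (∑ i, ∑ j ∈ Finset.Iic i, (c i * c j ^ 2 + c i ^ 2 * c j)) -
      a (z 5) ^ 2 * (a (z 0) + a (z 5)) * a (z 1) * a (z 2) * a (z 3) * a (z 4) *
        (a (z 4) + a (z 3)) * (a (z 4) + a (z 2))) = 0 := by
    rw [hevd]
    exact key2 _
  rw [map_sub, htop, sub_eq_zero] at hkill
  rw [hPP, hkill]

end TC
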