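import Mathlib

/-!
# Block CYC: EVAR, the algebraic evaluation of the characteristic number
-/

namespace TC

namespace EVAR

variable {R : Type} [CommRing R]

theorem sum7 (f : Fin 7 → Fin 7 → R) : ∑ i : Fin 7, ∑ j ∈ Finset.Iic i, f i j =
    f 0 0 + (f 1 0 + f 1 1) + (f 2 0 + f 2 1 + f 2 2) + (f 3 0 + f 3 1 + f 3 2 + f 3 3) +
      (f 4 0 + f 4 1 + f 4 2 + f 4 3 + f 4 4) + (f 5 0 + f 5 1 + f 5 2 + f 5 3 + f 5 4 + f 5 5) +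
      (f 6 0 + f 6 1 + f 6 2 + f 6 3 + f 6 4 + f 6 5 + f 6 6) := by
  have h : ∀ i : Fin 7, Finset.Iic i = Finset.univ.filter (fun j => j ≤ i) := by
    intro i
    ext j
    simp
  have e0 : Finset.Iic (0 : Fin 7) = {0} := by decide
  have e1 : Finset.Iic (1 : Fin 7) = {0, 1} := by decide
  have e2 : Finset.Iic (2 : Fin 7) = {0, 1, 2} := by decide
  have e3 : Finset.Iic (3 : Fin 7) = {0, 1, 2, 3} := by decide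
  have e4 : Finset.Iic (4 : Fin 7) = {0, 1, 2, 3, 4} := by decide
  have e5 : Finset.Iic (5 : Fin 7) = {0, 1, 2, 3, 4, 5} := by decide
  have e6 : Finset.Iic (6 : Fin 7) = {0, 1, 2, 3, 4, 5, 6} := by decide
  rw [Fin.sum_univ_seven, e0, e1, e2, e3, e4, e5, e6]
  simp only [Finset.sum_insert, Finset.sum_singleton, Finset.mem_insert, Finset.mem_singleton,
    Fin.reduceEq, or_self, not_false_eq_true]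
  ring

variable (h2 : (2 : R) = 0) (x y1 y2 y3 y s : R) (r1 : s ^ 3 = 0) (r2 : (x + s) ^ 2 = 0)
  (r3 : y1 ^ 2 = 0) (r4 : y2 * (y2 + y1) = 0) (r5 : y3 * (y3 + x) = 0)
  (r6 : y * (y + y3) * (y + y2) * (y + x + y1 + y2 + y3) = 0)

include h2 r1 r2 r3 r4 r5 r6 in
theorem w2 :
    0 * 0 + (y1 * 0 + y1 * y1) + (x * 0 + x * y1 + x * x) + (y * 0 + y * y1 + y * x + y * y) + ((y +
      y3) * 0 + (y + y3) * y1 + (y + y3) * x + (y + y3) * y + (y + y3) * (y + y3)) + ((y + y2) *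
      0 + (y + y2) * y1 + (y + y2) * x + (y + y2) * y + (y + y2) * (y + y3) + (y + y2) * (y +
      y2)) + ((y + x + y1 + y2 + y3) * 0 + (y + x + y1 + y2 + y3) * y1 + (y + x + y1 + y2 + y3)
      * x + (y + x + y1 + y2 + y3) * y + (y + x + y1 + y2 + y3) * (y + y3) + (y + x + y1 + y2 +
      y3) * (y + y2) + (y + x + y1 + y2 + y3) * (y + x + y1 + y2 + y3)) =
      y*x + y*y1 +
      y3*y2 + y3*y1 + y2*x + x*y1 + s^2 := by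
  linear_combination (5*y^2 + 5*y*y3 + 5*y*y2 + 4*y*x + 4*y*y1 + y3^2 + 2*y3*y2 + 2*y3*x + 2*y3*y1
    + y2^2 + 2*y2*x + 2*y2*y1 + x^2 + 2*x*y1 - x*s + y1^2 - s^2) * h2 + (1) * r2 + (1) * r3 +
    (1) * r4 + (1) * r5

include h2 r1 r2 r3 r4 r5 r6 in
theorem w3 :
    (0 * 0 ^ 2 + 0 ^ 2 * 0) + ((y1 * 0 ^ 2 + y1 ^ 2 * 0) + (y1 * y1 ^ 2 + y1 ^ 2 * y1)) + ((x * 0 ^
      2 + x ^ 2 * 0) + (x * y1 ^ 2 + x ^ 2 * y1) + (x * x ^ 2 + x ^ 2 * x)) + ((y * 0 ^ 2 + y ^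
      2 * 0) + (y * y1 ^ 2 + y ^ 2 * y1) + (y * x ^ 2 + y ^ 2 * x) + (y * y ^ 2 + y ^ 2 * y)) +
      (((y + y3) * 0 ^ 2 + (y + y3) ^ 2 * 0) + ((y + y3) * y1 ^ 2 + (y + y3) ^ 2 * y1) + ((y +
      y3) * x ^ 2 + (y + y3) ^ 2 * x) + ((y + y3) * y ^ 2 + (y + y3) ^ 2 * y) + ((y + y3) * (y +
      y3) ^ 2 + (y + y3) ^ 2 * (y + y3))) + (((y + y2) * 0 ^ 2 + (y + y2) ^ 2 * 0) + ((y + y2) *
      y1 ^ 2 + (y + y2) ^ 2 * y1) + ((y + y2) * x ^ 2 + (y + y2) ^ 2 * x) + ((y + y2) * y ^ 2 +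
      (y + y2) ^ 2 * y) + ((y + y2) * (y + y3) ^ 2 + (y + y2) ^ 2 * (y + y3)) + ((y + y2) * (y +
      y2) ^ 2 + (y + y2) ^ 2 * (y + y2))) + (((y + x + y1 + y2 + y3) * 0 ^ 2 + (y + x + y1 + y2
      + y3) ^ 2 * 0) + ((y + x + y1 + y2 + y3) * y1 ^ 2 + (y + x + y1 + y2 + y3) ^ 2 * y1) + ((y
      + x + y1 + y2 + y3) * x ^ 2 + (y + x + y1 + y2 + y3) ^ 2 * x) + ((y + x + y1 + y2 + y3) *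
      y ^ 2 + (y + x + y1 + y2 + y3) ^ 2 * y) + ((y + x + y1 + y2 + y3) * (y + y3) ^ 2 + (y + x
      + y1 + y2 + y3) ^ 2 * (y + y3)) + ((y + x + y1 + y2 + y3) * (y + y2) ^ 2 + (y + x + y1 +
      y2 + y3) ^ 2 * (y + y2)) + ((y + x + y1 + y2 + y3) * (y + x + y1 + y2 + y3) ^ 2 + (y + x +
      y1 + y2 + y3) ^ 2 * (y + x + y1 + y2 + y3))) =
      y^2*x + y^2*y1 + y*s^2 + y3*y2*x +
      y3*y2*y1 + y3*x*y1 + y2*x*y1 + y2*s^2 + y1*s^2 := by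
  linear_combination (10*y^3 + 15*y^2*y3 + 15*y^2*y2 + 9*y^2*x + 9*y^2*y1 + 11*y*y3^2 + 15*y*y3*y2
    + 13*y*y3*x + 13*y*y3*y1 + 11*y*y2^2 + 13*y*y2*x + 13*y*y2*y1 + 7*y*x^2 + 11*y*x*y1 - y*x*s
    + 7*y*y1^2 - y*s^2 + 3*y3^3 + 5*y3^2*y2 + 5*y3^2*x + 5*y3^2*y1 + 5*y3*y2^2 + 8*y3*y2*x +
    8*y3*y2*y1 + 5*y3*x^2 + 8*y3*x*y1 + 5*y3*y1^2 + 3*y2^3 + 5*y2^2*x + 5*y2^2*y1 + 5*y2*x^2 +
    8*y2*x*y1 - y2*x*s + 5*y2*y1^2 - y2*s^2 + 3*x^3 + 5*x^2*y1 + 5*x*y1^2 - x*y1*s + 3*y1^3 -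
    y1*s^2) * h2 + (y + y2 + y1) * r2 + (y + y3 + x) * r3 + (y3 + x + y1) * r4 + (y2 + x + y1) *
    r5

include h2 r1 r2 r3 r4 r5 r6 in
theorem w4 :
    (y*x + y*y1 + y3*y2 + y3*y1 + y2*x + x*y1 + s^2) ^ 2 =
      y^2*s^2 + y3*y2*x*y1 + y2*y1*s^2 := by
  linear_combination (y^2*x*y1 - y^2*x*s - y^2*s^2 + y*y3*y2*x + y*y3*y2*y1 + y*y3*x*y1 +
    y*y3*y1^2 + y*y2*x^2 + y*y2*x*y1 + y*x^2*y1 + y*x*y1^2 + y*x*s^2 + y*y1*s^2 + y3*y2^2*x +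
    y3*y2*x*y1 + y3*y2*s^2 + y3*x*y1^2 + y3*y1*s^2 - y2^2*x*s - y2^2*s^2 + y2*x^2*y1 + y2*x*s^2
    - y2*y1*s^2 - x*y1^2*s + x*y1*s^2 - y1^2*s^2) * h2 + (s) * r1 + (y^2 + y2^2 + y1^2) * r2 +
    (y^2 + y3^2 + s^2) * r3 + (y3^2 + s^2) * r4 + (y2*y1) * r5

include h2 r1 r2 r3 r4 r5 r6 in
theorem w6 :
    (y*x + y*y1 + y3*y2 + y3*y1 + y2*x + x*y1 + s^2) * (y^2*s^2 + y3*y2*x*y1 + y2*y1*s^2) =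
     
      y^3*x*s^2 + y^3*y1*s^2 + y^2*y3*y2*s^2 + y^2*y3*y1*s^2 + y^2*y2*x*s^2 + y^2*x*y1*s^2 +
      y*y3*y2*y1*s^2 + y*y2*x*y1*s^2 + y3*y2*x*y1*s^2 := by
  linear_combination (-y*y3*y2*x*y1*s - y*y3*y2*y1*s^2 - y3*y2^2*x*y1*s - y3*y2*x*y1^2*s) * h2 +
    (y^2*s + y2*y1*s) * r1 + (y*y3*y2*y1 + y3*y2^2*y1 + y3*y2*y1^2) * r2 + (y*y3*y2*x +
    y*y2*s^2) * r3 + (y3^2*x*y1 + x*y1*s^2) * r4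

include h2 r1 r2 r3 r4 r5 r6 in
theorem w9 :
    (y^3*x*s^2 + y^3*y1*s^2 + y^2*y3*y2*s^2 + y^2*y3*y1*s^2 + y^2*y2*x*s^2 + y^2*x*y1*s^2 +
      y*y3*y2*y1*s^2 + y*y2*x*y1*s^2 + y3*y2*x*y1*s^2) * (y^2*x + y^2*y1 + y*s^2 + y3*y2*x +
      y3*y2*y1 + y3*x*y1 + y2*x*y1 + y2*s^2 + y1*s^2) =
      y^3*y3*y2*x*y1*s^2 := by
  linear_combination (y^5*x*y1*s^2 - y^5*x*s^3 - y^5*s^4 - y^4*y2*x*s^3 - y^4*y2*s^4 -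
    y^4*x*y1*s^3 - y^3*y3^2*y2*x*s^2 - y^3*y3^2*y2*y1*s^2 - y^3*y3^2*x*y1*s^2 -
    y^3*y3*y2^2*x*s^2 - y^3*y3*y2^2*y1*s^2 - 2*y^3*y3*y2*x*y1*s^2 - y^3*y2^2*x*y1*s^2 -
    y^3*y2*x*y1*s^3 + y^3*y2*x*s^4 + y^3*x*y1*s^4 - y^2*y3^3*y2*x*s^2 - y^2*y3^3*y2*y1*s^2 -
    y^2*y3^3*x*y1*s^2 - y^2*y3^2*y2^2*x*s^2 - y^2*y3^2*y2^2*y1*s^2 - y^2*y3^2*y2*x^2*s^2 -
    3*y^2*y3^2*y2*x*y1*s^2 - y^2*y3^2*x^2*y1*s^2 - y^2*y3*y2^3*x*s^2 - y^2*y3*y2^3*y1*s^2 -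
    3*y^2*y3*y2^2*x*y1*s^2 - y^2*y3*y2^2*y1^2*s^2 + y^2*y3*y2*y1*s^4 - y^2*y3*x*y1^2*s^3 -
    y^2*y2^3*x*y1*s^2 - y^2*y2^2*x*y1^2*s^2 - y^2*y2*x*y1^2*s^3 + y^2*y2*x*y1*s^4 -
    y^2*y2*y1^2*s^4 - y*y3^3*y2^2*x*s^2 - y*y3^3*y2^2*y1*s^2 - y*y3^3*y2*x*y1*s^2 -
    y*y3^3*y2*y1^2*s^2 - y*y3^2*y2^3*x*s^2 - y*y3^2*y2^3*y1*s^2 - y*y3^2*y2^2*x^2*s^2 -
    2*y*y3^2*y2^2*x*y1*s^2 - y*y3^2*y2^2*x*s^3 - y*y3^2*y2^2*y1^2*s^2 - y*y3^2*y2^2*s^4 -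
    y*y3^2*y2*x^2*y1*s^2 - y*y3^2*y2*x*y1*s^3 - y*y3^2*y2*y1*s^4 - y*y3*y2^3*x*y1*s^2 -
    y*y3*y2*x*y1^2*s^3 - y*y2^2*x*y1^2*s^3 - y*y2^2*y1^2*s^4 - y3^2*y2^2*x*y1*s^3 -
    y3^2*y2^2*y1*s^4 - y3^2*y2*x*y1^2*s^3 - y3^2*y2*y1^2*s^4 - y3*y2^2*x*y1^2*s^3 -
    y3*y2^2*y1^2*s^4) * h2 + (y^5*s + y^4*y2*s + y^4*x*s + y^3*y3*y2*s + y^3*y3*y1*s +
    y^3*y1^2*s + y^2*y3*y2^2*s + y^2*y3*y2*y1*s + y^2*y2^2*x*s + y^2*y2*x*y1*s + y^2*y2*y1^2*s +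
    y^2*x*y1^2*s + y*y3^2*y2^2*s + y*y3^2*y2*y1*s + y*y3*y2^2*y1*s + y*y3*y2*x*y1*s +
    y*y2^2*x*y1*s + y*y2^2*y1^2*s + y*y2*x*y1^2*s + y3^2*y2^2*y1*s + y3^2*y2*y1^2*s +
    y3*y2^2*x*y1*s + y3*y2^2*y1^2*s + y3*y2*x*y1^2*s) * r1 + (y^5*s^2 + y^4*y2*s^2 + y^4*y1*s^2
    + y^3*y2*y1*s^2 + y^2*y3*y1^2*s^2 + y^2*y2*y1^2*s^2 + y*y3^2*y2^2*s^2 + y*y3^2*y2*y1*s^2 +
    y*y3*y2*y1^2*s^2 + y*y2^2*y1^2*s^2 + y3^2*y2^2*y1*s^2 + y3^2*y2*y1^2*s^2 + y3*y2^2*y1^2*s^2)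
    * r2 + (y^5*s^2 + y^4*y3*s^2 + y^4*x*s^2 + y^3*y3*y2*s^2 + y^3*y2*x*s^2 + y*y3^3*y2*s^2 +
    y*y3^2*y2^2*s^2 + y3^2*y2^2*x*s^2) * r3 + (y^2*y3*y2*x*s^2 + y^2*y3*y2*y1*s^2 +
    y^2*y3*x*y1*s^2 + y^2*y2*x*y1*s^2 + y*y3^3*x*s^2 + y*y3^3*y1*s^2 + y*y3^2*y2*x*s^2 +
    y*y3^2*y2*y1*s^2 + y*y3*y2*x*y1*s^2) * r4 + (y^2*y3*y2*x*s^2 + y^2*y3*y2*y1*s^2 +
    y^2*y3*x*y1*s^2 + y^2*y2*x*y1*s^2) * r5 + (y3*y2*x*s^2 + y3*y2*y1*s^2 + y3*x*y1*s^2 +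
    y2*x*y1*s^2) * r6

include h2 r1 r2 r3 r4 r5 r6 in
theorem t9 :
    s ^ 2 * (x + s) * y1 * y2 * y3 * y * (y + y3) * (y + y2) =
      y^3*y3*y2*x*y1*s^2 := by
  linear_combination (-y^2*y3*y2*x^2*y1*s^2 - y^2*y3*y2*x*y1^2*s^2 - y^2*y3*y2*x*y1*s^3 -
    y^2*y3*y2*y1*s^4 - y*y3^2*y2*x*y1^2*s^2) * h2 + (y^3*y3*y2*y1 + y^2*y3^2*y2*y1 +
    y^2*y3*y2^2*y1 + y^2*y3*y2*y1*s + y*y3^2*y2^2*y1) * r1 + (y^2*y3*y2*y1*s^2) * r2 +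
    (y^2*y3*y2*x*s^2 + y*y3^2*y2*x*s^2) * r3 + (y^2*y3*x*y1*s^2 + y*y3^2*x*y1*s^2) * r4 +
    (y^2*y2*x*y1*s^2) * r5


end EVAR

/-- EVAR: the algebraic evaluation of the characteristic number, with the classes as a vector. -/
theorem EVAR' {R : Type} [CommRing R] (h2 : (2 : R) = 0) (x y1 y2 y3 y s : R) (r1 : s ^ 3 = 0)
    (r2 : (x + s) ^ 2 = 0) (r3 : y1 ^ 2 = 0) (r4 : y2 * (y2 + y1) = 0) (r5 : y3 * (y3 + x) = 0)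
    (r6 : y * (y + y3) * (y + y2) * (y + x + y1 + y2 + y3) = 0) (c : Fin 7 → R)
    (hc : c = ![0, y1, x, y, y + y3, y + y2, y + x + y1 + y2 + y3]) :
    (∑ i : Fin 7, ∑ j ∈ Finset.Iic i, c i * c j) ^ 3 *
        (∑ i : Fin 7, ∑ j ∈ Finset.Iic i, (c i * c j ^ 2 + c i ^ 2 * c j)) =
      s ^ 2 * (x + s) * y1 * y2 * y3 * y * (y + y3) * (y + y2) := by
  have c0 : c 0 = 0 := by rw [hc]; rfl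
  have c1 : c 1 = y1 := by rw [hc]; rfl
  have c2 : c 2 = x := by rw [hc]; rfl
  have c3 : c 3 = y := by rw [hc]; rfl
  have c4 : c 4 = y + y3 := by rw [hc]; rfl
  have c5 : c 5 = y + y2 := by rw [hc]; rfl
  have c6 : c 6 = y + x + y1 + y2 + y3 := by rw [hc]; rfl
  rw [EVAR.sum7, EVAR.sum7, c0, c1, c2, c3, c4, c5, c6]
  have a2 := EVAR.w2 h2 x y1 y2 y3 y s r1 r2 r3 r4 r5 r6
  have a3 := EVAR.w3 h2 x y1 y2 y3 y s r1 r2 r3 r4 r5 r6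
  have a4 := EVAR.w4 h2 x y1 y2 y3 y s r1 r2 r3 r4 r5 r6
  have a6 := EVAR.w6 h2 x y1 y2 y3 y s r1 r2 r3 r4 r5 r6
  have a9 := EVAR.w9 h2 x y1 y2 y3 y s r1 r2 r3 r4 r5 r6
  have t9 := EVAR.t9 h2 x y1 y2 y3 y s r1 r2 r3 r4 r5 r6
  rw [a2, a3, pow_succ', a4, a6, a9, t9]

/-- EVAR: the algebraic evaluation of the characteristic number. -/
theorem EVAR {R : Type} [CommRing R] (h2 : (2 : R) = 0) (x y1 y2 y3 y s : R) (r1 : s ^ 3 = 0)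
    (r2 : (x + s) ^ 2 = 0) (r3 : y1 ^ 2 = 0) (r4 : y2 * (y2 + y1) = 0) (r5 : y3 * (y3 + x) = 0)
    (r6 : y * (y + y3) * (y + y2) * (y + x + y1 + y2 + y3) = 0) :
    (∑ i : Fin 7, ∑ j ∈ Finset.Iic i,
        (![0, y1, x, y, y + y3, y + y2, y + x + y1 + y2 + y3] : Fin 7 → R) i *
          (![0, y1, x, y, y + y3, y + y2, y + x + y1 + y2 + y3] : Fin 7 → R) j) ^ 3 *
        (∑ i : Fin 7, ∑ j ∈ Finset.Iic i,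
          ((![0, y1, x, y, y + y3, y + y2, y + x + y1 + y2 + y3] : Fin 7 → R) i *
            (![0, y1, x, y, y + y3, y + y2, y + x + y1 + y2 + y3] : Fin 7 → R) j ^ 2 +
          (![0, y1, x, y, y + y3, y + y2, y + x + y1 + y2 + y3] : Fin 7 → R) i ^ 2 *
            (![0, y1, x, y, y + y3, y + y2, y + x + y1 + y2 + y3] : Fin 7 → R) j)) =
      s ^ 2 * (x + s) * y1 * y2 * y3 * y * (y + y3) * (y + y2) :=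
  EVAR' h2 x y1 y2 y3 y s r1 r2 r3 r4 r5 r6 _ rfl

end TC
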