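import Pool.Agent.TC.Cyc.Stmts2

/-!
# Block CYC, module FNDE: a closed cochain of the total space which detects the fibres
-/

set_option autoImplicit false

open scoped Topology

noncomputable section

namespace TC

namespace FNDE

section general

variable {X Y W : Type} [TopologicalSpace X] [TopologicalSpace Y] [TopologicalSpace W]

theorem tmap_single (f : C(X, Y)) (s : SSx X) (a : F2) :
    tmap f (Finsupp.single s a) = Finsupp.single (mapS f s) a := by
  simp [tmap, Finsupp.mapDomain_single]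

theorem tmap_tmap (g : C(Y, W)) (f : C(X, Y)) (z : TCh X) :
    tmap g (tmap f z) = tmap (g.comp f) z := by
  induction z using Finsupp.induction_linear with
  | zero => simp
  | add x y hx hy => rw [map_add, map_add, map_add, hx, hy]
  | single s r => rw [tmap_single, tmap_single, tmap_single]; rfl

theorem tmap_id (z : TCh X) : tmap (ContinuousMap.id X) z = z := by
  induction z using Finsupp.induction_linear with
  | zero => simp
  | add x y hx hy => rw [map_add, hx, hy]
  | single s r => rw [tmap_single]; rfl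

theorem tpair_single (α : TCo X) (s : SSx X) (a : F2) :
    tpair α (Finsupp.single s a) = a * α s := by
  simp [tpair, Finsupp.linearCombination_single]

theorem tpair_one_tmap (f : C(X, Y)) (z : TCh X) : tpair oneCo (tmap f z) = tpair oneCo z := by
  induction z using Finsupp.induction_linear with
  | zero => simp
  | add x y hx hy => rw [map_add, map_add, map_add, hx, hy]
  | single s r => rw [tmap_single, tpair_single, tpair_single]; rfl

theorem tbd_single (s : SSx X) (a : F2) : tbd (Finsupp.single s a) = a • bdS s := by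
  simp [tbd, Finsupp.linearCombination_single]

theorem bdS_mapS (f : C(X, Y)) (s : SSx X) : bdS (mapS f s) = tmap f (bdS s) := by
  rcases s with ⟨_ | k, σ⟩
  · show (0 : TCh Y) = tmap f 0
    rw [map_zero]
  · show ∑ i : Fin (k + 2), (Finsupp.single (⟨k, (f.comp σ).comp (face i)⟩ : SSx Y) 1 : TCh Y) =
      tmap f (∑ i : Fin (k + 2), (Finsupp.single (⟨k, σ.comp (face i)⟩ : SSx X) 1 : TCh X))
    rw [map_sum]
    refine Finset.sum_congr rfl fun i _ => ?_
    rw [tmap_single]
    rfl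

theorem tbd_tmap (f : C(X, Y)) (z : TCh X) : tbd (tmap f z) = tmap f (tbd z) := by
  induction z using Finsupp.induction_linear with
  | zero => simp
  | add x y hx hy => rw [map_add, map_add, map_add, map_add, hx, hy]
  | single s r => rw [tmap_single, tbd_single, tbd_single, map_smul, bdS_mapS]

theorem mem_tmap (f : C(X, Y)) (z : TCh X) {s : SSx Y} (hs : s ∈ (tmap f z).support) :
    ∃ s' ∈ z.support, mapS f s' = s := by
  classical
  have h := Finsupp.mapDomain_support (f := mapS f) (s := z) hs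
  exact Finset.mem_image.1 h

theorem closed_one : IsClosedCo (oneCo : TCo X) := by
  intro z
  induction z using Finsupp.induction_linear with
  | zero => simp
  | add x y hx hy => rw [map_add, map_add, hx, hy, add_zero]
  | single s r =>
    rw [tbd_single, map_smul]
    rcases s with ⟨_ | k, σ⟩
    · show r • tpair oneCo (0 : TCh X) = 0
      rw [map_zero, smul_zero]
    · show r • tpair oneCo (∑ i : Fin (k + 2),
        (Finsupp.single (⟨k, σ.comp (face i)⟩ : SSx X) 1 : TCh X)) = 0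
      rw [map_sum]
      simp only [tpair_single, oneCo]
      rcases k with _ | k
      · simp
        right
        exact z2_one_add_one
      · simp

theorem closed_cupL (hC : Stmt_CUE) (l : List (Coch X 1)) (h : ∀ v ∈ l, cobd v = 0) :
    IsClosedCo (cupL (oneCo : TCo X) l) := by
  induction l with
  | nil => exact closed_one
  | cons v l ih =>
    show IsClosedCo (cupE (cupL oneCo l) v)
    refine (hC X v v (h v (by simp)) (h v (by simp))).1 _ (ih fun w hw => h w ?_)
    exact List.mem_cons_of_mem _ hw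

end general

/-- The point simplex. -/
def i0 : TCh (Simp 0) := Finsupp.single ⟨0, ContinuousMap.id _⟩ 1

theorem tbd_i0 : tbd i0 = 0 := by
  rw [i0, tbd_single]
  show (1 : F2) • (0 : TCh (Simp 0)) = 0
  rw [smul_zero]

/-- The first projection of `X × Simp 0`. -/
def pr (X : Type) [TopologicalSpace X] : C(X × Simp 0, X) := ⟨Prod.fst, continuous_fst⟩

section nat

variable {X Y : Type} [TopologicalSpace X] [TopologicalSpace Y]

theorem pr_cross (h : Stmt_CRSC) (f : C(X, Y)) (a : TCh X) :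
    tmap (pr Y) (cross (tmap f a) i0) = tmap f (tmap (pr X) (cross a i0)) := by
  have h1 := (h X (Simp 0) a i0).1 Y (Simp 0) f (ContinuousMap.id _)
  rw [tmap_id] at h1
  rw [← h1, tmap_tmap, tmap_tmap]
  rfl

end nat

/-- The new mirror system. -/
def sys (hB : Stmt_CRSB) (hC : Stmt_CRSC) (S : MirrorSys Mh (Fin 12) 7) :
    MirrorSys Mh (Fin 12) 7 where
  c I := tmap (pr Mh) (cross (S.c I) i0)
  bdc I := by
    rw [tbd_tmap, hB, tbd_i0, map_zero, add_zero, S.bdc, map_sum, LinearMap.sum_apply, map_sum]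
  fix I i hi s hs t := by
    obtain ⟨s', hs', rfl⟩ := mem_tmap _ _ hs
    obtain ⟨s₁, hs₁, s₂, hs₂, -, h2⟩ := (hC Mh (Simp 0) (S.c I) i0).2.1 s' hs'
    obtain ⟨t₁, t₂, h3⟩ := h2 t
    have h4 : (mapS (pr Mh) s').2 t = s₁.2 t₁ := by
      show (s'.2 t).1 = s₁.2 t₁
      rw [h3]
    rw [h4]
    exact S.fix I i hi s₁ hs₁ t₁
  deg I s hs := by
    obtain ⟨s', hs', rfl⟩ := mem_tmap _ _ hs
    obtain ⟨s₁, hs₁, s₂, hs₂, h1, -⟩ := (hC Mh (Simp 0) (S.c I) i0).2.1 s' hs'
    have h5 : s₂ = ⟨0, ContinuousMap.id _⟩ := by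
      have := Finsupp.support_single_subset hs₂
      simpa using this
    have h6 := S.deg I s₁ hs₁
    show s'.1 + I.card = 7
    rw [h1, h5]
    exact h6

theorem sys_full (hB : Stmt_CRSB) (hC : Stmt_CRSC) (S : MirrorSys Mh (Fin 12) 7)
    (I : Finset (Fin 12)) :
    (sys hB hC S).full I = tmap (pr Mh) (cross (S.full I) i0) := by
  unfold MirrorSys.full
  rw [map_sum, LinearMap.sum_apply, map_sum]
  refine Finset.sum_congr rfl fun g _ => ?_
  exact (pr_cross hC (⟨fun z : Mh => g +ᵥ z, continuous_const_vadd g⟩ : C(Mh, Mh)) (S.c I)).symm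

theorem sys_desc (hB : Stmt_CRSB) (hC : Stmt_CRSC) (hS : Stmt_DSUM) (hD : Stmt_DEC)
    (hq : IsAddQuotientCoveringMap qMc H5) (S : MirrorSys Mh (Fin 12) 7) (z : TCh Mq)
    (hz : IsDesc qMc (S.full ∅) z) :
    IsDesc qMc ((sys hB hC S).full ∅) (tmap (pr Mq) (cross z i0)) := by
  obtain ⟨c, h1, h2, -⟩ := hD Mh Mq H5 qMc hq _ z hz
  have h3 := hS Mh Mq H5 qMc hq (tmap (pr Mh) (cross c i0))
  rw [sys_full, h1, h2, pr_cross hC]
  rw [map_sum, LinearMap.sum_apply, map_sum]
  have h4 : ∑ h : H5, tmap (pr Mh) (cross (tact h c) i0) =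
      ∑ h : H5, tact h (tmap (pr Mh) (cross c i0)) :=
    Finset.sum_congr rfl fun h _ =>
      pr_cross hC (⟨fun z : Mh => h +ᵥ z, continuous_const_vadd h⟩ : C(Mh, Mh)) c
  rw [h4]
  exact h3

/-- The label of `Mh` given by a label of `Mh × S²` and a point of `S²`. -/
def labB (lab : ZZ → H6) (b : S2) (z : Mh) : H5 := fun k => lab (z, b) k.castSucc

/-- The inclusion `H5 → H6`. -/
def inc6 (h : H5) : H6 := ![h 0, h 1, h 2, h 3, h 4, 0]

theorem inc6_castSucc (h : H5) (k : Fin 5) : inc6 h k.castSucc = h k := by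
  fin_cases k <;> rfl

theorem chi_inc6 (h : H5) : chi12' (inc6 h) = chi12 h := by
  funext i
  fin_cases i <;> simp [chi12', chi12, inc6]

theorem labB_label {lab : ZZ → H6} (hl : IsLabel lab) (b : S2) : IsLabel (labB lab b) := by
  intro h z
  have h1 : inc6 h +ᵥ ((z, b) : ZZ) = (h +ᵥ z, b) := by
    rw [vadd6_eq]
    show (chi12' (inc6 h) +ᵥ z, if inc6 h 5 = 0 then b else -b) = _
    rw [chi_inc6]
    have h5 : inc6 h 5 = 0 := rfl
    rw [if_pos h5]
    rfl
  funext k
  show lab (h +ᵥ z, b) k.castSucc = h k + lab (z, b) k.castSucc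
  rw [← h1, hl]
  show inc6 h k.castSucc + _ = _
  rw [inc6_castSucc]

/-- The inclusion of the fibre. -/
def iota (b : S2) : C(Mq, EE) := totC.comp ((ContinuousMap.id Mq).prodMk (ContinuousMap.const _ b))

theorem edge (hE : Stmt_EDGE) (hL : Stmt_LIFTA) (hq : IsAddQuotientCoveringMap qMc H5)
    (hQ : QE_main) {lab : ZZ → H6} (hl : IsLabel lab) (b : S2) (τ : C(Simp 1, Mq)) (k : Fin 5) :
    edgeLab qE lab ((iota b).comp τ) k.castSucc = edgeLab qMc (labB lab b) τ k := by
  obtain ⟨τ', rfl⟩ := hL Mh Mq H5 qMc hq 1 τ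
  rw [hE Mh Mq H5 qMc hq _ (labB_label hl b) τ']
  have h1 := hE ZZ EE H6 qEc hQ lab hl (τ'.prodMk (ContinuousMap.const _ b))
  have h2 : qEc.comp (τ'.prodMk (ContinuousMap.const _ b)) = (iota b).comp (qMc.comp τ') := rfl
  rw [h2] at h1
  have h3 : edgeLab qE lab ((iota b).comp (qMc.comp τ')) =
      edgeLab qEc lab ((iota b).comp (qMc.comp τ')) := rfl
  rw [h3, h1]
  rfl

theorem pull_vch (hE : Stmt_EDGE) (hL : Stmt_LIFTA) (hq : IsAddQuotientCoveringMap qMc H5)
    (hQ : QE_main) {lab : ZZ → H6} (hl : IsLabel lab) (b : S2) :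
    (([ev6 0, ev6 1, ev6 2, ev6 3, ev6 4, ev6 4 + ev6 3, ev6 4 + ev6 2].map (vch qE lab)).map
      (pull (iota b))) =
    [ev5 0, ev5 1, ev5 2, ev5 3, ev5 4, ev5 4 + ev5 3, ev5 4 + ev5 2].map
      (vch qMc (labB lab b)) := by
  have h := edge hE hL hq hQ hl b
  have e0 := fun τ => h τ 0
  have e1 := fun τ => h τ 1
  have e2 := fun τ => h τ 2
  have e3 := fun τ => h τ 3
  have e4 := fun τ => h τ 4
  have key : ∀ (χ : H6 →+ ZMod 2) (χ' : H5 →+ ZMod 2),
      (∀ τ, χ (edgeLab qE lab ((iota b).comp τ)) = χ' (edgeLab qMc (labB lab b) τ)) →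
      pull (iota b) (vch qE lab χ) = vch qMc (labB lab b) χ' := by
    intro χ χ' h
    funext τ
    exact h τ
  simp only [List.map_cons, List.map_nil]
  rw [key (ev6 0) (ev5 0) e0, key (ev6 1) (ev5 1) e1, key (ev6 2) (ev5 2) e2,
    key (ev6 3) (ev5 3) e3, key (ev6 4) (ev5 4) e4,
    key (ev6 4 + ev6 3) (ev5 4 + ev5 3) (fun τ => by
      rw [AddMonoidHom.add_apply, AddMonoidHom.add_apply]
      exact congrArg₂ (· + ·) (e4 τ) (e3 τ)),
    key (ev6 4 + ev6 2) (ev5 4 + ev5 2) (fun τ => by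
      rw [AddMonoidHom.add_apply, AddMonoidHom.add_apply]
      exact congrArg₂ (· + ·) (e4 τ) (e2 τ))]

theorem simp0_eq (t : Simp 0) : t = vtx 0 := by
  apply Subtype.ext
  funext i
  have h1 := t.2.2
  have h2 := (vtx (0 : Fin 1) : Simp 0).2.2
  have h3 : ∀ f : Fin (0 + 1) → ℝ, ∑ j, f j = f 0 := fun f => Fin.sum_univ_one f
  rw [h3] at h1 h2
  have h4 : i = 0 := Fin.fin_one_eq_zero i
  subst h4
  exact h1.trans h2.symm

theorem cross_point (hC : Stmt_CRSC) (b : C(Simp 0, S2)) (z : TCh Mq) :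
    tmap totC (cross z (Finsupp.single ⟨0, b⟩ 1)) =
      tmap (iota (b (vtx 0))) (tmap (pr Mq) (cross z i0)) := by
  have h1 := (hC Mq (Simp 0) z i0).1 Mq S2 (ContinuousMap.id _) b
  rw [tmap_id] at h1
  have h2 : tmap b i0 = Finsupp.single ⟨0, b⟩ 1 := by
    rw [i0, tmap_single]
    rfl
  rw [h2] at h1
  rw [← h1, tmap_tmap, tmap_tmap]
  congr 2
  ext1 ⟨m, t⟩
  show totC (m, b t) = totC (m, b (vtx 0))
  rw [simp0_eq t]

end FNDE

open FNDE in
/-- FNDE: a closed cochain of the total space which detects the fibres. -/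
theorem FNDE (h1 : Stmt_PULC) (h2 : Stmt_VALM) (h3 : Stmt_EDGE) (h4 : Stmt_LIFTA)
    (h5 : Stmt_LAB) (h6 : Stmt_CRSB) (h7 : Stmt_CRSC) (h8 : Stmt_DSUM) (h9 : Stmt_DEC)
    (h10 : Stmt_VCL) (h11 : Stmt_CUE) : Stmt_FNDE := by
  intro hq hQ S hS z hz
  obtain ⟨lab, hl⟩ := h5 ZZ EE H6 qEc hQ
  refine ⟨cupL oneCo ([ev6 0, ev6 1, ev6 2, ev6 3, ev6 4, ev6 4 + ev6 3, ev6 4 + ev6 2].map
    (vch qE lab)), ?_, fun b => ?_⟩
  · apply closed_cupL h11
    intro v hv
    rw [List.mem_map] at hv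
    obtain ⟨χ, -, rfl⟩ := hv
    exact h10 ZZ EE H6 qEc hQ lab hl χ
  · rw [cross_point h7, h1, pull_vch h3 h4 hq hQ hl]
    apply h2 hq (sys h6 h7 S) _ _ (sys_desc h6 h7 h8 h9 hq S z hz) _ (labB_label hl _)
    show tpair oneCo (tmap (pr Mh) (cross (S.c ItopM) i0)) = 1
    rw [tpair_one_tmap, (h7 Mh (Simp 0) (S.c ItopM) i0).2.2, hS, i0, tpair_single]
    simp [oneCo]

end TC
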