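import Pool.Agent.TC.Cyc.Stmts2

/-!
# Block CYC: chains of fixed degree
-/

set_option autoImplicit false

open scoped Topology

noncomputable section

namespace TC

namespace Grd

variable {X Y : Type} [TopologicalSpace X] [TopologicalSpace Y]

theorem prj_single_same (k : ℕ) (σ : C(Simp k, X)) (c : F2) :
    prj k (Finsupp.single (⟨k, σ⟩ : SSx X) c) = Finsupp.single σ c := by
  rw [prj, Finsupp.linearCombination_single]
  simp

theorem prj_single_ne (k : ℕ) (s : SSx X) (c : F2) (h : s.1 ≠ k) :
    prj k (Finsupp.single s c) = 0 := by
  rw [prj, Finsupp.linearCombination_single]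
  simp [h]

theorem incl_single (k : ℕ) (σ : C(Simp k, X)) (c : F2) :
    incl k (Finsupp.single σ c) = Finsupp.single (⟨k, σ⟩ : SSx X) c := by
  rw [incl]
  exact Finsupp.mapDomain_single

theorem tmap_single (f : C(X, Y)) (s : SSx X) (c : F2) :
    tmap f (Finsupp.single s c) = Finsupp.single (mapS f s) c := by
  rw [tmap]
  exact Finsupp.mapDomain_single

theorem cmap_single {k : ℕ} (f : C(X, Y)) (σ : C(Simp k, X)) (c : F2) :
    cmap f (Finsupp.single σ c) = Finsupp.single (f.comp σ) c := by
  rw [cmap]
  exact Finsupp.mapDomain_single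

theorem tbd_single_succ (k : ℕ) (σ : C(Simp (k + 1), X)) (c : F2) :
    tbd (Finsupp.single (⟨k + 1, σ⟩ : SSx X) c) =
      ∑ i : Fin (k + 2), Finsupp.single (⟨k, σ.comp (face i)⟩ : SSx X) c := by
  rw [tbd, Finsupp.linearCombination_single, bdS, Finset.smul_sum]
  refine Finset.sum_congr rfl fun i _ => ?_
  rw [Finsupp.smul_single, smul_eq_mul, mul_one]

theorem tbd_single_zero (σ : C(Simp 0, X)) (c : F2) :
    tbd (Finsupp.single (⟨0, σ⟩ : SSx X) c) = 0 := by
  rw [tbd, Finsupp.linearCombination_single, bdS, smul_zero]

theorem bd_single {k : ℕ} (σ : C(Simp (k + 1), X)) (c : F2) :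
    bd (Finsupp.single σ c) = ∑ i : Fin (k + 2), Finsupp.single (σ.comp (face i)) c := by
  rw [bd, LinearMap.sum_apply]
  refine Finset.sum_congr rfl fun i _ => ?_
  exact Finsupp.mapDomain_single

/-- Induction for total chains of degree `k`. -/
theorem deg_induction (k : ℕ) (P : TCh X → Prop) (h0 : P 0)
    (hadd : ∀ a b, P a → P b → P (a + b))
    (hs : ∀ (σ : C(Simp k, X)) (c : F2), P (Finsupp.single (⟨k, σ⟩ : SSx X) c)) :
    ∀ z : TCh X, (∀ s ∈ z.support, s.1 = k) → P z := by
  intro z hz
  rw [← Finsupp.sum_single z, Finsupp.sum]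
  refine Finset.sum_induction _ P hadd h0 fun s hs' => ?_
  obtain ⟨k', σ⟩ := s
  obtain rfl : k' = k := hz _ hs'
  exact hs σ _

end Grd

open Grd in
theorem GRD : Stmt_GRD := by
  intro X Y _ _
  have h2 : ∀ (k : ℕ) (z : Chain X k), prj k (incl k z) = z := by
    intro k z
    induction z using Finsupp.induction_linear with
    | zero => simp
    | add a b ha hb => rw [map_add, map_add, ha, hb]
    | single σ c => rw [incl_single, prj_single_same]
  refine ⟨?_, h2, ?_, ?_, ?_, ?_, ?_, ?_⟩
  · intro k
    refine deg_induction k _ (by simp) ?_ ?_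
    · intro a b ha hb
      rw [map_add, map_add, ha, hb]
    · intro σ c
      rw [prj_single_same, incl_single]
  · intro k
    refine deg_induction (k + 1) _ (by simp) ?_ ?_
    · intro a b ha hb
      rw [map_add, map_add, map_add, map_add, ha, hb]
    · intro σ c
      rw [prj_single_same, bd_single, tbd_single_succ, map_sum]
      refine Finset.sum_congr rfl fun i _ => ?_
      rw [prj_single_same]
  · intro k f z
    induction z using Finsupp.induction_linear with
    | zero => simp
    | add a b ha hb => rw [map_add, map_add, map_add, map_add, ha, hb]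
    | single s c =>
      rw [tmap_single]
      obtain ⟨k', σ⟩ := s
      by_cases h : k' = k
      · subst h
        rw [prj_single_same, cmap_single]
        exact prj_single_same k' (f.comp σ) c
      · have h3 : prj k (Finsupp.single (⟨k', σ⟩ : SSx X) c) = 0 := prj_single_ne k _ c h
        have h4 : prj k (Finsupp.single (mapS f (⟨k', σ⟩ : SSx X)) c) = 0 :=
          prj_single_ne k _ c h
        rw [h3, h4, map_zero]
  · intro k f z
    induction z using Finsupp.induction_linear with
    | zero => simp
    | add a b ha hb => rw [map_add, map_add, map_add, map_add, ha, hb]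
    | single σ c =>
      rw [incl_single, tmap_single, cmap_single, incl_single]
      rfl
  · intro k z w h
    rw [← h2 k z, ← h2 k w, h]
  · refine deg_induction 0 _ (by simp) ?_ ?_
    · intro a b ha hb
      rw [map_add, ha, hb, add_zero]
    · intro σ c
      exact tbd_single_zero σ c
  · intro k
    refine deg_induction (k + 1) _ (by simp) ?_ ?_
    · intro a b ha hb s hs
      rw [map_add] at hs
      classical
      rcases Finset.mem_union.1 (Finsupp.support_add hs) with h | h
      · exact ha s h
      · exact hb s h
    · intro σ c s hs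
      rw [tbd_single_succ] at hs
      classical
      obtain ⟨i, -, hi⟩ := Finset.mem_biUnion.1 (Finsupp.support_finsetSum hs)
      have := Finsupp.support_single_subset hi
      rw [Finset.mem_singleton] at this
      rw [this]

end TC
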