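import Pool.Agent.TC.Cyc.Stmts2

/-!
# Block CYC, module LAB: equivariant labels exist
-/

set_option autoImplicit false

open scoped Topology

namespace TC

theorem LAB : Stmt_LAB := by
  classical
  intro Z E _ _ A _ _ q hq
  -- the action is free
  have hfree : ∀ (g : A) (z : Z), g +ᵥ z = z → g = 0 := by
    intro g z hgz
    obtain ⟨U, hU, hU2⟩ := hq.disjoint z
    exact hU2 g ⟨z, ⟨z, mem_of_mem_nhds hU, hgz⟩, mem_of_mem_nhds hU⟩
  -- representatives
  have hrep : ∀ z : Z, ∃ h : A, h +ᵥ (Classical.choose (⟨z, rfl⟩ : ∃ y, q y = q z)) = z := by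
    intro z
    have h1 : q (Classical.choose (⟨z, rfl⟩ : ∃ y, q y = q z)) = q z :=
      Classical.choose_spec (⟨z, rfl⟩ : ∃ y, q y = q z)
    exact hq.apply_eq_iff_mem_orbit.mp h1.symm
  choose lab hlab using hrep
  refine ⟨lab, ?_⟩
  intro h z
  have hq1 : q (h +ᵥ z) = q z := hq.apply_eq_iff_mem_orbit.mpr ⟨h, rfl⟩
  have hr : Classical.choose (⟨h +ᵥ z, rfl⟩ : ∃ y, q y = q (h +ᵥ z)) =
      Classical.choose (⟨z, rfl⟩ : ∃ y, q y = q z) := by
    congr 1
    funext y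
    rw [hq1]
  have h1 := hlab (h +ᵥ z)
  rw [hr] at h1
  have h2 := hlab z
  set r := Classical.choose (⟨z, rfl⟩ : ∃ y, q y = q z) with hrdef
  have h3 : (lab (h +ᵥ z)) +ᵥ r = (h + lab z) +ᵥ r := by
    rw [h1, add_vadd, h2]
  have h4 : (-(h + lab z) + lab (h +ᵥ z)) +ᵥ r = r := by
    rw [add_vadd, h3, neg_vadd_vadd]
  have h5 := hfree _ _ h4
  have h6 : lab (h +ᵥ z) = h + lab z := by
    rw [neg_add_eq_zero] at h5
    exact h5.symm
  exact h6

end TC
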