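import Pool.Agent.TC.Cyc.Stmts2

/-!
# Block CYC: iterated capping (module LCAP)
-/

set_option autoImplicit false

open scoped Topology

noncomputable section

namespace TC

/-- Iterated cup products with cocycles preserve closed cochains. -/
theorem LCAP_closed (hcue : Stmt_CUE) {X : Type} [TopologicalSpace X] (l : List (Coch X 1))
    (hl : ∀ v ∈ l, cobd v = 0) (α : TCo X) (hα : IsClosedCo α) : IsClosedCo (cupL α l) := by
  induction l with
  | nil => exact hα
  | cons v l ih =>
    have hv : cobd v = 0 := hl v (by simp)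
    exact (hcue X v v hv hv).1 _ (ih fun x hx => hl x (List.mem_cons_of_mem _ hx))

/-- LCAP: iterated capping. -/
theorem LCAP (hsysc : Stmt_SYSC) (hsysf : Stmt_SYSF) (hdex : Stmt_DEX) (hdun : Stmt_DUN)
    (hcue : Stmt_CUE) (hvcl : Stmt_VCL) : Stmt_LCAP := by
  intro Z _ J _ _ _ _ d S E _ A _ _ _ X hX q hq lab hlab χ hχ hχ1 l
  have htact : ∀ (h : A) (z : TCh Z), tact h z = tact (X h) z := by
    intro h z
    have he : (⟨fun z : Z => h +ᵥ z, continuous_const_vadd h⟩ : C(Z, Z)) =
        ⟨fun z : Z => X h +ᵥ z, continuous_const_vadd (X h)⟩ := by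
      ext z
      exact hX h z
    show tmap _ z = tmap _ z
    rw [he]
  induction l with
  | nil =>
    intro I _ _ w u hw hu α _
    have hI : I ∪ ([] : List J).toFinset = I := by simp
    rw [hI] at hu
    have hwu : w = u := hdun Z E A q hq _ w u hw hu
    subst hwu
    rfl
  | cons j l ih =>
    intro I hnd hmem w u hw hu α hα
    have hjl : j ∉ l := (List.nodup_cons.1 hnd).1
    have hnl : l.Nodup := (List.nodup_cons.1 hnd).2
    have hjI : j ∉ I := hmem j (by simp)
    obtain ⟨u₁, hu₁⟩ := hdex Z E A q hq (S.full (insert j I)) (fun h => by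
      rw [htact]
      exact (hsysf Z J d S (insert j I)).1 (X h))
    have hcl : IsClosedCo (cupL α (l.map fun j => vch q lab (χ j))) := by
      refine LCAP_closed hcue _ ?_ α hα
      intro v hv
      obtain ⟨i, -, rfl⟩ := List.mem_map.1 hv
      exact hvcl Z E A q hq lab hlab (χ i)
    have h1 := hsysc Z J d S E A X hX q hq lab hlab I j hjI (χ j) (hχ j) (hχ1 j) w u₁ hw hu₁ _ hcl
    have hu' : IsDesc q (S.full (insert j I ∪ l.toFinset)) u := by
      have : insert j I ∪ l.toFinset = I ∪ (j :: l).toFinset := by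
        rw [List.toFinset_cons, Finset.insert_union, Finset.union_insert]
      rw [this]
      exact hu
    have h2 := ih (insert j I) hnl (fun i hi => by
      rw [Finset.mem_insert, not_or]
      exact ⟨fun h => hjl (h ▸ hi), hmem i (List.mem_cons_of_mem _ hi)⟩) u₁ u hu₁ hu' α hα
    rw [← h2, ← h1]
    rfl

end TC
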