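import Pool.Agent.TC.Cyc.Stmts2

/-!
# Block CYC, module LCHN: identities of list chains
-/

set_option autoImplicit false

open scoped Topology

noncomputable section

namespace TC

namespace LCHN

section lists

variable {K K' : Type}

theorem f2_add_self {A : Type} [AddCommGroup A] [Module F2 A] (x : A) : x + x = 0 := by
  have h : ((1 : F2) + 1) • x = 0 := by
    have : (1 : F2) + 1 = 0 := z2_one_add_one
    rw [this, zero_smul]
  rwa [add_smul, one_smul] at h

theorem lbd_single (l : List K) : lbd (Finsupp.single l 1) = lbdS l := by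
  rw [lbd, Finsupp.linearCombination_single, one_smul]

theorem lcone_single (b : K) (l : List K) :
    lcone b (Finsupp.single l 1) = Finsupp.single (b :: l) 1 := by
  rw [lcone, Finsupp.lmapDomain_apply, Finsupp.mapDomain_single]

theorem lmapC_single (f : K → K') (l : List K) :
    lmapC f (Finsupp.single l 1) = Finsupp.single (l.map f) 1 := by
  rw [lmapC, Finsupp.lmapDomain_apply, Finsupp.mapDomain_single]

theorem lbdS_cons (b : K) (l : List K) :
    lbdS (b :: l) = Finsupp.single l 1 + lcone b (lbdS l) := by
  unfold lbdS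
  rw [List.length_cons, Finset.sum_range_succ', map_sum, add_comm]
  congr 1
  refine Finset.sum_congr rfl fun i _ => ?_
  rw [lcone_single, List.eraseIdx_cons_succ]

theorem ext_single {M : Type} [AddCommGroup M] [Module F2 M] {A : Type}
    (f g : (A →₀ F2) →ₗ[F2] M) (h : ∀ a, f (Finsupp.single a 1) = g (Finsupp.single a 1)) :
    f = g := by
  refine Finsupp.lhom_ext' fun a => LinearMap.ext_ring ?_
  simpa using h a

theorem lbd_lcone (b : K) (c : LCh K) : lbd (lcone b c) = c + lcone b (lbd c) := by
  have : lbd ∘ₗ lcone b = LinearMap.id + lcone b ∘ₗ lbd := by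
    refine ext_single _ _ fun l => ?_
    rw [LinearMap.comp_apply, LinearMap.add_apply, LinearMap.comp_apply, LinearMap.id_apply,
      lcone_single, lbd_single, lbd_single, lbdS_cons]
  exact LinearMap.congr_fun this c

theorem lbd_lbdS (l : List K) : lbd (lbdS l) = 0 := by
  induction l with
  | nil => simp [lbdS]
  | cons b l ih =>
    rw [lbdS_cons, map_add, lbd_lcone, ih, map_zero, add_zero, lbd_single, f2_add_self]

theorem lbd_lbd (c : LCh K) : lbd (lbd c) = 0 := by
  have : (lbd : LCh K →ₗ[F2] LCh K) ∘ₗ lbd = 0 := by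
    refine ext_single _ _ fun l => ?_
    rw [LinearMap.comp_apply, lbd_single, lbd_lbdS, LinearMap.zero_apply]
  exact LinearMap.congr_fun this c

theorem lbd_lmapC (f : K → K') (c : LCh K) : lbd (lmapC f c) = lmapC f (lbd c) := by
  have : lbd ∘ₗ lmapC f = lmapC f ∘ₗ lbd := by
    refine ext_single _ _ fun l => ?_
    rw [LinearMap.comp_apply, LinearMap.comp_apply, lmapC_single, lbd_single, lbd_single]
    unfold lbdS
    rw [map_sum, List.length_map]
    refine Finset.sum_congr rfl fun i _ => ?_
    rw [lmapC_single, List.eraseIdx_map]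
  exact LinearMap.congr_fun this c

variable [TopologicalSpace K] [Cvx K]

theorem realS_of_length (l : List K) (k : ℕ) (h : l.length = k + 1) :
    realS l = Finsupp.single ⟨k, Cvx.comb (fun i : Fin (k + 1) => l.get (i.cast h.symm))⟩ 1 := by
  cases l with
  | nil => simp at h
  | cons a l =>
    have hk : l.length = k := by simpa using h
    subst hk
    rfl

theorem lreal_single (l : List K) : lreal (Finsupp.single l 1) = realS l := by
  rw [lreal, Finsupp.linearCombination_single, one_smul]

theorem tbd_single {X : Type} [TopologicalSpace X] (s : SSx X) :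
    tbd (Finsupp.single s 1) = bdS s := by
  rw [tbd, Finsupp.linearCombination_single, one_smul]

theorem tbd_realS (l : List K) : tbd (realS l) = lreal (lbdS l) := by
  rcases hl : l.length with _ | _ | k
  · rw [List.length_eq_zero_iff] at hl
    subst hl
    simp [lbdS, realS]
  · rw [List.length_eq_one_iff] at hl
    obtain ⟨a, rfl⟩ := hl
    have h1 : tbd (realS [a]) = 0 := by
      rw [realS, tbd_single]
      rfl
    have h2 : lbdS [a] = Finsupp.single ([] : List K) 1 := by
      simp [lbdS]
    rw [h1, h2, lreal_single]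
    rfl
  · rw [realS_of_length l (k + 1) hl, tbd_single]
    have hb : lbdS l = ∑ i : Fin (k + 2), Finsupp.single (l.eraseIdx i) 1 := by
      unfold lbdS
      rw [hl, Finset.sum_range]
    rw [hb, map_sum]
    show ∑ i : Fin (k + 2), _ = _
    refine Finset.sum_congr rfl fun i _ => ?_
    rw [lreal_single]
    have hlen : (l.eraseIdx i).length = k + 1 := by
      rw [List.length_eraseIdx_of_lt (by rw [hl]; exact i.2), hl]
      rfl
    rw [realS_of_length _ k hlen]
    congr 2
    show (Cvx.comb _).comp (face i) = _
    have hf : face i = smap (Fin.succAbove i) := rfl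
    rw [hf, Cvx.comb_smap]
    congr 1
    funext j
    simp only [Function.comp_apply, List.get_eq_getElem, Fin.val_cast, List.getElem_eraseIdx]
    by_cases hj : (j : ℕ) < (i : ℕ)
    · rw [dif_pos hj]
      congr 1
      rw [Fin.succAbove_of_castSucc_lt _ _ (by simpa [Fin.lt_def] using hj)]
      rfl
    · rw [dif_neg hj]
      congr 1
      rw [Fin.succAbove_of_le_castSucc _ _ (by simpa [Fin.le_def] using hj)]
      rfl

theorem tbd_lreal (c : LCh K) : tbd (lreal c) = lreal (lbd c) := by
  have : (tbd : TCh K →ₗ[F2] TCh K) ∘ₗ lreal = lreal ∘ₗ lbd := by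
    refine ext_single _ _ fun l => ?_
    rw [LinearMap.comp_apply, LinearMap.comp_apply, lreal_single, lbd_single, tbd_realS]
  exact LinearMap.congr_fun this c

theorem supp_lreal (c : LCh K) (s : SSx K) (hs : s ∈ (lreal c).support) :
    ∃ l ∈ c.support, ∃ h : l.length = s.1 + 1,
      s.2 = Cvx.comb (fun i : Fin (s.1 + 1) => l.get (i.cast h.symm)) := by
  classical
  rw [lreal, Finsupp.linearCombination_apply, Finsupp.sum] at hs
  have h1 := Finsupp.support_finsetSum hs
  obtain ⟨l, hl, hs'⟩ := Finset.mem_biUnion.mp h1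
  refine ⟨l, hl, ?_⟩
  have hs2 : s ∈ (realS l).support := Finsupp.support_smul hs'
  have hcase : l = [] ∨ ∃ k, l.length = k + 1 := by
    rcases l with _ | ⟨a, l⟩
    · exact Or.inl rfl
    · exact Or.inr ⟨l.length, rfl⟩
  rcases hcase with rfl | ⟨k, hlen⟩
  · simp [realS] at hs2
  · rw [realS_of_length l k hlen] at hs2
    have h3 := Finsupp.support_single_subset hs2
    rw [Finset.mem_singleton] at h3
    subst h3
    exact ⟨hlen, rfl⟩

end lists

end LCHN

/-- LCHN: identities of list chains. -/
theorem LCHN : Stmt_LCHN := fun _ =>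
  ⟨LCHN.lbd_lcone, LCHN.lbd_lbd, fun _ => LCHN.lbd_lmapC, fun c => LCHN.tbd_lreal c,
    fun c s hs => LCHN.supp_lreal c s hs⟩

end TC
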