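import Pool.Agent.TC.Cyc.Stmts2

/-!
# Block CYC, module LIFTA: lifting of singular simplices
-/

set_option autoImplicit false

open scoped Topology unitInterval

noncomputable section

namespace TC

/-- The straight line contraction of the simplex to its first vertex. -/
def conSimp (k : ℕ) : C(I × Simp k, Simp k) where
  toFun p := ⟨(1 - (p.1 : ℝ)) • ((vtx 0 : Simp k) : Fin (k + 1) → ℝ) +
      (p.1 : ℝ) • ((p.2 : Simp k) : Fin (k + 1) → ℝ),
    convex_stdSimplex ℝ (Fin (k + 1)) (vtx 0 : Simp k).2 p.2.2 (by linarith [p.1.2.2]) p.1.2.1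
      (by ring)⟩
  continuous_toFun := by
    refine Continuous.subtype_mk ?_ _
    fun_prop

theorem LIFTA : Stmt_LIFTA := by
  intro Z E _ _ A _ _ q hq k sg
  have cov : IsCoveringMap q := hq.isCoveringMap
  obtain ⟨e, he⟩ := hq.surjective (sg (vtx 0))
  have h0 : ∀ a : Simp k, conSimp k (0, a) = vtx 0 := by
    intro a
    apply Subtype.ext
    simp [conSimp]
    rfl
  have h1 : ∀ a : Simp k, conSimp k (1, a) = a := by
    intro a
    apply Subtype.ext
    simp [conSimp]
    rfl
  let H : C(I × Simp k, E) := sg.comp (conSimp k)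
  have H0 : ∀ a, H (0, a) = q ((ContinuousMap.const (Simp k) e) a) := by
    intro a
    change sg (conSimp k (0, a)) = q e
    rw [h0, he]
  let L := cov.liftHomotopy H (ContinuousMap.const (Simp k) e) H0
  have hL := cov.liftHomotopy_lifts H (ContinuousMap.const (Simp k) e) H0
  refine ⟨L.comp ⟨fun a => ((1 : I), a), by fun_prop⟩, ?_⟩
  ext a
  have := congr_fun hL ((1 : I), a)
  change q (L (1, a)) = sg a
  change q (L (1, a)) = sg (conSimp k (1, a)) at this
  rw [this, h1]

end TC
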