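import Pool.Agent.TC.Cyc.Stmts2

/-!
# Block CYC, module LIFTB: two lifts of a simplex differ by a group element
-/

set_option autoImplicit false

open scoped Topology

namespace TC

theorem LIFTB : Stmt_LIFTB := by
  intro Z E _ _ A _ _ q hq k σ τ hστ
  have hpt : ∀ t, q (σ t) = q (τ t) := fun t => DFunLike.congr_fun hστ t
  obtain ⟨h, hh⟩ : ∃ h : A, h +ᵥ σ (vtx 0) = τ (vtx 0) := by
    have h1 : τ (vtx 0) ∈ AddAction.orbit A (σ (vtx 0)) :=
      hq.apply_eq_iff_mem_orbit.mp (hpt (vtx 0)).symm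
    exact h1
  refine ⟨h, ?_⟩
  have hcov : IsCoveringMap q := hq.isCoveringMap
  have := hq.toContinuousConstVAdd
  have hc : Continuous fun t => h +ᵥ σ t := (continuous_const_vadd h).comp σ.continuous
  have hcomp : (q ∘ fun t => h +ᵥ σ t) = q ∘ τ := by
    funext t
    have h1 : q (h +ᵥ σ t) = q (σ t) := hq.apply_eq_iff_mem_orbit.mpr ⟨h, rfl⟩
    show q (h +ᵥ σ t) = q (τ t)
    rw [h1, hpt t]
  have heq := hcov.eq_of_comp_eq hc τ.continuous hcomp (vtx 0) hh
  intro t
  exact (congrFun heq t).symm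

end TC
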