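import Pool.Agent.TC.Cyc.Stmts2

/-!
# Block CYC, modules LNAT and SYSP: affine maps, and the mirror system of a polytope
-/

set_option autoImplicit false
set_option linter.unusedSectionVars false

open scoped Topology

noncomputable section

namespace TC

namespace LnatAux

variable {X Y : Type} [TopologicalSpace X] [TopologicalSpace Y]

theorem tmap_single (f : C(X, Y)) (s : SSx X) (a : F2) :
    tmap f (Finsupp.single s a) = Finsupp.single (mapS f s) a := by
  simp [tmap, Finsupp.lmapDomain_apply, Finsupp.mapDomain_single]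

theorem tbd_single (s : SSx X) (a : F2) : tbd (Finsupp.single s a) = a • bdS s := by
  simp [tbd, Finsupp.linearCombination_single]

theorem bdS_mapS (f : C(X, Y)) (s : SSx X) : bdS (mapS f s) = tmap f (bdS s) := by
  obtain ⟨k, σ⟩ := s
  cases k with
  | zero =>
    show (0 : TCh Y) = tmap f 0
    rw [map_zero]
  | succ k =>
    show ∑ i : Fin (k + 2), Finsupp.single (⟨k, (f.comp σ).comp (face i)⟩ : SSx Y) (1 : F2) =
      tmap f (∑ i : Fin (k + 2), Finsupp.single (⟨k, σ.comp (face i)⟩ : SSx X) (1 : F2))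
    rw [map_sum]
    refine Finset.sum_congr rfl fun i _ => ?_
    rw [tmap_single]
    rfl

theorem tbd_tmap (f : C(X, Y)) (z : TCh X) : tbd (tmap f z) = tmap f (tbd z) := by
  induction z using Finsupp.induction_linear with
  | zero => simp
  | add a b ha hb => rw [map_add, map_add, map_add, map_add, ha, hb]
  | single s a => rw [tmap_single, tbd_single, tbd_single, bdS_mapS, map_smul]

theorem mem_support_tmap {f : C(X, Y)} {z : TCh X} {s : SSx Y} (hs : s ∈ (tmap f z).support) :
    ∃ s' ∈ z.support, mapS f s' = s := by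
  classical
  have h1 : s ∈ (Finsupp.mapDomain (mapS f) z).support := hs
  have h2 := Finsupp.mapDomain_support h1
  rw [Finset.mem_image] at h2
  exact h2

theorem realS_eq {K : Type} [TopologicalSpace K] [Cvx K] (l : List K) (k : ℕ)
    (h : l.length = k + 1) :
    realS l = Finsupp.single ⟨k, Cvx.comb (fun i : Fin (k + 1) => l.get (i.cast h.symm))⟩ 1 := by
  cases l with
  | nil => simp at h
  | cons a l =>
    have h' : l.length = k := by simpa using h
    subst h'
    rfl

end LnatAux

theorem LNAT : Stmt_LNAT := by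
  intro K K' _ _ _ _ f hf c
  induction c using Finsupp.induction_linear with
  | zero => simp
  | add a b ha hb => rw [map_add, map_add, map_add, map_add, ha, hb]
  | single l a =>
    have h1 : ∀ (L : Type) [TopologicalSpace L] [Cvx L] (m : List L) (a : F2),
        lreal (Finsupp.single m a) = a • realS m := by
      intro L _ _ m a
      simp [lreal, Finsupp.linearCombination_single]
    have h2 : lmapC f (Finsupp.single l a) = Finsupp.single (l.map f) a := by
      simp [lmapC, Finsupp.lmapDomain_apply, Finsupp.mapDomain_single]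
    rw [h2, h1, h1, map_smul]
    congr 1
    cases l with
    | nil =>
      show tmap f 0 = 0
      rw [map_zero]
    | cons b l =>
      rw [LnatAux.realS_eq (b :: l) l.length (by simp),
        LnatAux.realS_eq ((b :: l).map f) l.length (by simp), LnatAux.tmap_single]
      congr 1
      show (⟨l.length, f.comp _⟩ : SSx K') = _
      rw [hf]
      congr 2
      funext i
      simp only [List.get_eq_getElem, List.getElem_map, Fin.val_cast]

namespace SyspAux

variable {K A J : Type} [TopologicalSpace K] [Fintype A] [DecidableEq A] [Fintype J]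
  [DecidableEq J]

/-- The faces which have exactly the colours `I`. -/
def fil (col : A → J) (I : Finset J) : Finset (Finset A) :=
  Finset.univ.filter (fun σ : Finset A => σ.image col = I ∧ σ.card = I.card)

theorem mem_fil {col : A → J} {I : Finset J} {σ : Finset A} :
    σ ∈ fil col I ↔ σ.image col = I ∧ σ.card = I.card := by
  simp [fil]

theorem injOn {col : A → J} {I : Finset J} {σ : Finset A} (h : σ ∈ fil col I) :
    Set.InjOn col σ := by
  rw [mem_fil] at h
  refine Finset.card_image_iff.1 ?_
  rw [h.1, h.2]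

theorem insert_mem {col : A → J} {I : Finset J} {σ : Finset A} {a : A} (h : σ ∈ fil col I)
    (ha : col a ∉ I) : a ∉ σ ∧ insert a σ ∈ fil col (insert (col a) I) := by
  rw [mem_fil] at h
  have h1 : a ∉ σ := fun h' => ha (h.1 ▸ Finset.mem_image_of_mem col h')
  refine ⟨h1, mem_fil.2 ⟨?_, ?_⟩⟩
  · rw [Finset.image_insert, h.1]
  · rw [Finset.card_insert_of_notMem h1, Finset.card_insert_of_notMem ha, h.2]

theorem erase_mem {col : A → J} {I : Finset J} {τ : Finset A} {i : J} (hi : i ∉ I)
    (h : τ ∈ fil col (insert i I)) : ∃ a ∈ τ, col a = i ∧ τ.erase a ∈ fil col I := by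
  have hinj := injOn h
  rw [mem_fil] at h
  have h1 : i ∈ τ.image col := by
    rw [h.1]
    exact Finset.mem_insert_self _ _
  obtain ⟨a, ha, rfl⟩ := Finset.mem_image.1 h1
  refine ⟨a, ha, rfl, mem_fil.2 ⟨?_, ?_⟩⟩
  · ext j
    constructor
    · intro hj
      obtain ⟨b, hb, rfl⟩ := Finset.mem_image.1 hj
      rw [Finset.mem_erase] at hb
      have h2 : col b ∈ insert (col a) I := h.1 ▸ Finset.mem_image_of_mem col hb.2
      rcases Finset.mem_insert.1 h2 with h3 | h3
      · exact absurd (hinj hb.2 ha h3) hb.1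
      · exact h3
    · intro hj
      have h2 : j ∈ τ.image col := by
        rw [h.1]
        exact Finset.mem_insert_of_mem hj
      obtain ⟨b, hb, rfl⟩ := Finset.mem_image.1 h2
      refine Finset.mem_image_of_mem col (Finset.mem_erase.2 ⟨?_, hb⟩)
      rintro rfl
      exact hi hj
  · rw [Finset.card_erase_of_mem ha, h.2, Finset.card_insert_of_notMem hi]
    rfl

/-- The chains of the mirror system. -/
def cc {Z : Type} [TopologicalSpace Z] (κ : C(K, Z)) (P : Finset A → TCh K) (col : A → J)
    (I : Finset J) : TCh Z := ∑ σ ∈ fil col I, tmap κ (P σ)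

theorem mem_support_cc {Z : Type} [TopologicalSpace Z] {κ : C(K, Z)} {P : Finset A → TCh K}
    {col : A → J} {I : Finset J} {s : SSx Z} (hs : s ∈ (cc κ P col I).support) :
    ∃ σ ∈ fil col I, ∃ s' ∈ (P σ).support, mapS κ s' = s := by
  classical
  have h1 := Finsupp.support_finsetSum hs
  rw [Finset.mem_biUnion] at h1
  obtain ⟨σ, hσ, h2⟩ := h1
  exact ⟨σ, hσ, LnatAux.mem_support_tmap h2⟩

theorem tbd_cc {Z : Type} [TopologicalSpace Z] (κ : C(K, Z)) (P : Finset A → TCh K)
    (hbd : ∀ σ, tbd (P σ) = ∑ a ∈ σᶜ, P (insert a σ)) (col : A → J)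
    (hcol : ∀ σ, ∀ a ∈ σ, ∀ a' ∈ σ, a ≠ a' → col a = col a' → P σ = 0) (I : Finset J) :
    tbd (cc κ P col I) = ∑ i ∈ Iᶜ, cc κ P col (insert i I) := by
  have e1 : tbd (cc κ P col I) = ∑ σ ∈ fil col I,
      ∑ a ∈ Finset.univ.filter (fun a => col a ∉ I), tmap κ (P (insert a σ)) := by
    unfold cc
    rw [map_sum]
    refine Finset.sum_congr rfl fun σ hσ => ?_
    rw [LnatAux.tbd_tmap, hbd, map_sum]
    symm
    refine Finset.sum_subset ?_ ?_
    · intro a ha
      rw [Finset.mem_filter] at ha
      rw [Finset.mem_compl]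
      exact (insert_mem hσ ha.2).1
    · intro a ha hna
      rw [Finset.mem_compl] at ha
      have h1 : col a ∈ I := by
        by_contra h
        exact hna (Finset.mem_filter.2 ⟨Finset.mem_univ _, h⟩)
      rw [← (mem_fil.1 hσ).1] at h1
      obtain ⟨b, hb, hab⟩ := Finset.mem_image.1 h1
      rw [hcol (insert a σ) a (Finset.mem_insert_self _ _) b (Finset.mem_insert_of_mem hb) ?_
        hab.symm, map_zero]
      rintro rfl
      exact ha hb
  rw [e1]
  unfold cc
  rw [Finset.sum_sigma', Finset.sum_sigma']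
  refine Finset.sum_bij (fun x _ => ⟨col x.2, insert x.2 x.1⟩) ?_ ?_ ?_ ?_
  · rintro ⟨σ, a⟩ h
    simp only [Finset.mem_sigma, Finset.mem_filter, Finset.mem_univ, true_and] at h
    simp only [Finset.mem_sigma, Finset.mem_compl]
    exact ⟨h.2, (insert_mem h.1 h.2).2⟩
  · rintro ⟨σ, a⟩ h ⟨σ', a'⟩ h' heq
    simp only [Finset.mem_sigma, Finset.mem_filter, Finset.mem_univ, true_and] at h h'
    simp only [Sigma.mk.injEq, heq_eq_eq] at heq
    have h1 := (insert_mem h.1 h.2).1
    have h2 := (insert_mem h'.1 h'.2).1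
    have h3 : a = a' := by
      have h4 : a ∈ insert a' σ' := heq.2 ▸ Finset.mem_insert_self a σ
      rcases Finset.mem_insert.1 h4 with h5 | h5
      · exact h5
      · exact absurd ((mem_fil.1 h'.1).1 ▸ Finset.mem_image_of_mem col h5) h.2
    subst h3
    have h6 : σ = σ' := by
      rw [← Finset.erase_insert h1, heq.2, Finset.erase_insert h2]
    subst h6
    rfl
  · rintro ⟨i, τ⟩ h
    simp only [Finset.mem_sigma, Finset.mem_compl] at h
    obtain ⟨a, ha, rfl, h1⟩ := erase_mem h.1 h.2
    refine ⟨⟨τ.erase a, a⟩, ?_, ?_⟩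
    · simp only [Finset.mem_sigma, Finset.mem_filter, Finset.mem_univ, true_and]
      exact ⟨h1, h.1⟩
    · simp only [Finset.insert_erase ha]
  · rintro ⟨σ, a⟩ _
    rfl

end SyspAux

theorem SYSP : Stmt_SYSP := by
  intro K _ A _ _ d F P hbd hdeg hF Z _ J _ _ _ _ κ col hcol hfix
  refine ⟨{ c := SyspAux.cc κ P col, bdc := ?_, fix := ?_, deg := ?_ }, fun I => rfl⟩
  · exact SyspAux.tbd_cc κ P hbd col hcol
  · intro I i hi s hs t
    obtain ⟨σ, hσ, s', hs', rfl⟩ := SyspAux.mem_support_cc hs
    rw [← (SyspAux.mem_fil.1 hσ).1] at hi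
    obtain ⟨a, ha, rfl⟩ := Finset.mem_image.1 hi
    exact hfix a _ (hF σ s' hs' a ha t)
  · intro I s hs
    obtain ⟨σ, hσ, s', hs', rfl⟩ := SyspAux.mem_support_cc hs
    rw [← (SyspAux.mem_fil.1 hσ).2]
    exact hdeg σ s' hs'

end TC
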