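import Pool.Agent.TC.Cyc.Stmts2

/-!
# Block CYC, module MAPS: the image of a mirror system under an equivariant map
-/

set_option autoImplicit false

open scoped Topology

namespace TC

namespace MAPSaux

variable {X Y W : Type} [TopologicalSpace X] [TopologicalSpace Y] [TopologicalSpace W]

theorem tmap_single (f : C(X, Y)) (s : SSx X) (a : F2) :
    tmap f (Finsupp.single s a) = Finsupp.single (mapS f s) a := by
  unfold tmap
  rw [Finsupp.lmapDomain_apply, Finsupp.mapDomain_single]

theorem tbd_single (s : SSx X) (a : F2) : tbd (Finsupp.single s a) = a • bdS s := by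
  unfold tbd
  rw [Finsupp.linearCombination_single]

theorem bdS_mapS (f : C(X, Y)) (s : SSx X) : bdS (mapS f s) = tmap f (bdS s) := by
  obtain ⟨k, σ⟩ := s
  cases k with
  | zero => exact (map_zero (tmap f)).symm
  | succ k =>
    change ∑ i : Fin (k + 2), Finsupp.single (⟨k, (f.comp σ).comp (face i)⟩ : SSx Y) (1 : F2) =
      tmap f (∑ i : Fin (k + 2), Finsupp.single (⟨k, σ.comp (face i)⟩ : SSx X) (1 : F2))
    rw [map_sum]
    refine Finset.sum_congr rfl fun i _ => ?_
    rw [tmap_single]
    rfl

theorem tbd_tmap (f : C(X, Y)) (z : TCh X) : tbd (tmap f z) = tmap f (tbd z) := by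
  induction z using Finsupp.induction_linear with
  | zero => simp
  | add x y hx hy => rw [map_add, map_add, map_add, map_add, hx, hy]
  | single s a => rw [tmap_single, tbd_single, tbd_single, map_smul, bdS_mapS]

theorem tmap_tmap (f : C(X, Y)) (g : C(Y, W)) (z : TCh X) :
    tmap g (tmap f z) = tmap (g.comp f) z := by
  induction z using Finsupp.induction_linear with
  | zero => simp
  | add x y hx hy => rw [map_add, map_add, map_add, hx, hy]
  | single s a =>
    rw [tmap_single, tmap_single, tmap_single]
    rfl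

theorem mem_supp (f : C(X, Y)) (z : TCh X) (s : SSx Y) (hs : s ∈ (tmap f z).support) :
    ∃ s₀ ∈ z.support, mapS f s₀ = s := by
  classical
  unfold tmap at hs
  rw [Finsupp.lmapDomain_apply] at hs
  have h := Finsupp.mapDomain_support hs
  exact Finset.mem_image.mp h

theorem map_symm_compl {J J' : Type} [Fintype J] [DecidableEq J] [Fintype J'] [DecidableEq J']
    (e : J ≃ J') (I : Finset J') :
    (I.map e.symm.toEmbedding)ᶜ = Iᶜ.map e.symm.toEmbedding := by
  ext i
  simp only [Finset.mem_compl, Finset.mem_map_equiv]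

theorem map_map_symm {J J' : Type} (e : J ≃ J') (I : Finset J) :
    (I.map e.toEmbedding).map e.symm.toEmbedding = I := by
  ext i
  simp only [Finset.mem_map_equiv, Equiv.symm_symm, Equiv.symm_apply_apply]

theorem single_comp {J J' : Type} [DecidableEq J] [DecidableEq J'] (e : J ≃ J') (i : J') :
    (Pi.single i 1 : J' → ZMod 2) ∘ e = Pi.single (e.symm i) 1 := by
  funext j
  simp only [Function.comp_apply, Pi.single_apply]
  congr 1
  exact propext (Equiv.eq_symm_apply e).symm

end MAPSaux

open MAPSaux in
theorem MAPS : Stmt_MAPS := by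
  intro Z Z' _ _ J J' _ _ _ _ _ _ _ _ e f hf d S
  let c' : Finset J' → TCh Z' := fun I => tmap f (S.c (I.map e.symm.toEmbedding))
  have hc' : ∀ I : Finset J, c' (I.map e.toEmbedding) = tmap f (S.c I) := by
    intro I
    change tmap f (S.c ((I.map e.toEmbedding).map e.symm.toEmbedding)) = _
    rw [map_map_symm]
  refine ⟨⟨c', ?_, ?_, ?_⟩, hc', ?_⟩
  · intro I
    change tbd (tmap f (S.c (I.map e.symm.toEmbedding))) =
      ∑ i ∈ Iᶜ, tmap f (S.c ((insert i I).map e.symm.toEmbedding))
    rw [tbd_tmap, S.bdc, map_sum, map_symm_compl, Finset.sum_map]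
    refine Finset.sum_congr rfl fun i _ => ?_
    rw [Finset.map_insert]
  · intro I i hi s hs t
    obtain ⟨s₀, hs₀, rfl⟩ := mem_supp f _ s hs
    change (Pi.single i 1 : J' → ZMod 2) +ᵥ f (s₀.2 t) = f (s₀.2 t)
    rw [← hf, single_comp]
    rw [S.fix (I.map e.symm.toEmbedding) (e.symm i)
      (Finset.mem_map_of_mem e.symm.toEmbedding hi) s₀ hs₀ t]
  · intro I s hs
    obtain ⟨s₀, hs₀, rfl⟩ := mem_supp f _ s hs
    have h := S.deg _ s₀ hs₀
    rw [Finset.card_map] at h
    exact h
  · intro I
    unfold MirrorSys.full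
    change ∑ g ∈ Finset.univ.filter (fun g : J' → ZMod 2 => ∀ i ∈ I.map e.toEmbedding, g i = 0),
      tact g (c' (I.map e.toEmbedding)) = _
    rw [hc', map_sum]
    refine Finset.sum_bij (fun g _ => g ∘ e) ?_ ?_ ?_ ?_
    · intro g hg
      rw [Finset.mem_filter] at hg ⊢
      refine ⟨Finset.mem_univ _, fun i hi => ?_⟩
      exact hg.2 (e i) (Finset.mem_map_of_mem e.toEmbedding hi)
    · intro g _ g' _ h
      funext i
      have h1 := congrFun h (e.symm i)
      simpa using h1
    · intro g hg
      rw [Finset.mem_filter] at hg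
      refine ⟨g ∘ e.symm, ?_, ?_⟩
      · rw [Finset.mem_filter]
        refine ⟨Finset.mem_univ _, fun i hi => ?_⟩
        rw [Finset.mem_map_equiv] at hi
        exact hg.2 _ hi
      · funext i
        simp
    · intro g _
      unfold tact
      rw [tmap_tmap, tmap_tmap]
      refine congrArg (fun t : C(Z, Z') => tmap t (S.c I)) ?_
      apply ContinuousMap.ext
      intro z
      exact (hf g z).symm

end TC
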