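import Pool.Agent.TC.Cyc.Stmts2

/-!
# Block CYC, module POLY: the chains of the faces of a polytope
-/

set_option autoImplicit false

open scoped Topology

noncomputable section

namespace TC

section poly

variable {K A : Type} [Fintype A] [DecidableEq A] (fc : Finset A → Prop) [DecidablePred fc]
  (b : Finset A → K)

/-- The list chain of a face of dimension `k`. -/
def plG : ℕ → Finset A → LCh K
  | 0, σ => if fc σ then lcone (b σ) (Finsupp.single [] 1) else 0
  | k + 1, σ => if fc σ then lcone (b σ) (∑ a ∈ σᶜ, plG k (insert a σ)) else 0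

theorem plG_not {k : ℕ} {σ : Finset A} (h : ¬ fc σ) : plG fc b k σ = 0 := by
  cases k <;> simp [plG, h]

theorem plG_lcone_supp (x : K) (c : LCh K) (l : List K) (hl : l ∈ (lcone x c).support) :
    ∃ l' ∈ c.support, l = x :: l' := by
  classical
  have h := Finsupp.mapDomain_support (f := fun l : List K => x :: l) (s := c) hl
  rw [Finset.mem_image] at h
  obtain ⟨l', h1, h2⟩ := h
  exact ⟨l', h1, h2.symm⟩

theorem plG_sum_supp {ι : Type} (s : Finset ι) (f : ι → LCh K) (l : List K)
    (hl : l ∈ (∑ i ∈ s, f i).support) : ∃ i ∈ s, l ∈ (f i).support := by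
  classical
  have h := Finsupp.support_finsetSum (s := s) (f := f) hl
  simpa using h

theorem plG_len (k : ℕ) : ∀ (σ : Finset A) (l : List K), l ∈ (plG fc b k σ).support →
    l.length = k + 1 := by
  induction k with
  | zero =>
    intro σ l hl
    by_cases h : fc σ
    · rw [plG, if_pos h] at hl
      obtain ⟨l', h1, rfl⟩ := plG_lcone_supp _ _ _ hl
      have := Finsupp.support_single_subset h1
      rw [Finset.mem_singleton] at this
      subst this
      rfl
    · rw [plG_not fc b h] at hl
      simp at hl
  | succ k ih =>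
    intro σ l hl
    by_cases h : fc σ
    · rw [plG, if_pos h] at hl
      obtain ⟨l', h1, rfl⟩ := plG_lcone_supp _ _ _ hl
      obtain ⟨a, _, h2⟩ := plG_sum_supp _ _ _ h1
      have := ih _ _ h2
      simp [this]
    · rw [plG_not fc b h] at hl
      simp at hl

theorem plG_mem (F : A → Set K) (hb : ∀ σ, fc σ → ∀ a ∈ σ, b σ ∈ F a) (k : ℕ) :
    ∀ (σ : Finset A) (l : List K), l ∈ (plG fc b k σ).support → ∀ x ∈ l, ∀ a ∈ σ, x ∈ F a := by
  induction k with
  | zero =>
    intro σ l hl x hx a ha
    by_cases h : fc σ
    · rw [plG, if_pos h] at hl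
      obtain ⟨l', h1, rfl⟩ := plG_lcone_supp _ _ _ hl
      have := Finsupp.support_single_subset h1
      rw [Finset.mem_singleton] at this
      subst this
      rw [List.mem_singleton] at hx
      subst hx
      exact hb σ h a ha
    · rw [plG_not fc b h] at hl
      simp at hl
  | succ k ih =>
    intro σ l hl x hx a ha
    by_cases h : fc σ
    · rw [plG, if_pos h] at hl
      obtain ⟨l', h1, rfl⟩ := plG_lcone_supp _ _ _ hl
      obtain ⟨a', _, h2⟩ := plG_sum_supp _ _ _ h1
      rcases List.mem_cons.1 hx with rfl | hx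
      · exact hb σ h a ha
      · exact ih _ _ h2 x hx a (Finset.mem_insert_of_mem ha)
    · rw [plG_not fc b h] at hl
      simp at hl

theorem plG_add_self {M : Type} [AddCommGroup M] [Module F2 M] (x : M) : x + x = 0 := by
  have h : (2 : F2) • x = x + x := by rw [two_smul]
  rw [← h]
  have : (2 : F2) = 0 := by decide
  rw [this, zero_smul]

theorem plG_nsmul_even {M : Type} [AddCommGroup M] [Module F2 M] (n : ℕ) (hn : Even n) (x : M) :
    n • x = 0 := by
  obtain ⟨m, rfl⟩ := hn
  rw [← two_mul, mul_comm, mul_smul, two_smul, plG_add_self, smul_zero]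

theorem plG_pair_sum {M : Type} [AddCommGroup M] [Module F2 M] (f : Finset A → M) (σ : Finset A) :
    ∑ a ∈ σᶜ, ∑ a' ∈ (insert a σ)ᶜ, f (insert a' (insert a σ)) = 0 := by
  rw [Finset.sum_sigma' σᶜ (fun a => (insert a σ)ᶜ)
    (fun a a' => f (insert a' (insert a σ)))]
  refine Finset.sum_involution (fun p _ => ⟨p.2, p.1⟩) ?_ ?_ ?_ ?_
  · rintro ⟨a, a'⟩ _
    simp only
    rw [Finset.insert_comm a' a σ]
    exact plG_add_self _
  · rintro ⟨a, a'⟩ hp _ heq
    simp only [Finset.mem_sigma, Finset.mem_compl, Finset.mem_insert, not_or] at hp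
    simp only [Sigma.mk.injEq] at heq
    exact hp.2.1 heq.1
  · rintro ⟨a, a'⟩ hp
    simp only [Finset.mem_sigma, Finset.mem_compl, Finset.mem_insert, not_or] at hp ⊢
    exact ⟨hp.2.2, fun h => hp.2.1 h.symm, hp.1⟩
  · rintro ⟨a, a'⟩ _
    rfl

theorem plG_lbd_nil : lbd (Finsupp.single ([] : List K) (1 : F2)) = 0 := by
  rw [lbd, Finsupp.linearCombination_single]
  simp [lbdS]

theorem plG_bd (h1 : ∀ (b : K) (c : LCh K), lbd (lcone b c) = c + lcone b (lbd c))
    (hdown : ∀ σ τ, σ ⊆ τ → fc τ → fc σ) (d : ℕ)
    (heven : ∀ σ, fc σ → σ.card + 1 = d →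
      Even (Finset.univ.filter fun a => a ∉ σ ∧ fc (insert a σ)).card) (k : ℕ) :
    ∀ σ : Finset A, σ.card + (k + 1) = d →
      lbd (plG fc b (k + 1) σ) = ∑ a ∈ σᶜ, plG fc b k (insert a σ) := by
  induction k with
  | zero =>
    intro σ hc
    by_cases h : fc σ
    · rw [plG, if_pos h, h1]
      have : lbd (∑ a ∈ σᶜ, plG fc b 0 (insert a σ)) = 0 := by
        rw [map_sum]
        have e : ∀ a ∈ σᶜ, lbd (plG fc b 0 (insert a σ)) =
            if fc (insert a σ) then Finsupp.single ([] : List K) (1 : F2) else 0 := by
          intro a _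
          by_cases h' : fc (insert a σ)
          · rw [plG, if_pos h', if_pos h', h1, plG_lbd_nil, map_zero, add_zero]
          · rw [plG, if_neg h', if_neg h', map_zero]
        rw [Finset.sum_congr rfl e, ← Finset.sum_filter, Finset.sum_const]
        apply plG_nsmul_even
        have := heven σ h (by omega)
        convert this using 2
        ext a
        simp
      rw [this, map_zero, add_zero]
    · rw [plG_not fc b h, map_zero]
      symm
      refine Finset.sum_eq_zero fun a _ => plG_not fc b fun h' => h ?_
      exact hdown _ _ (Finset.subset_insert a σ) h'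
  | succ k ih =>
    intro σ hc
    by_cases h : fc σ
    · rw [plG, if_pos h, h1]
      have : lbd (∑ a ∈ σᶜ, plG fc b (k + 1) (insert a σ)) = 0 := by
        rw [map_sum]
        have e : ∀ a ∈ σᶜ, lbd (plG fc b (k + 1) (insert a σ)) =
            ∑ a' ∈ (insert a σ)ᶜ, plG fc b k (insert a' (insert a σ)) := by
          intro a ha
          apply ih
          rw [Finset.card_insert_of_notMem (Finset.mem_compl.1 ha)]
          omega
        rw [Finset.sum_congr rfl e]
        exact plG_pair_sum _ σ
      rw [this, map_zero, add_zero]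
    · rw [plG_not fc b h, map_zero]
      symm
      refine Finset.sum_eq_zero fun a _ => plG_not fc b fun h' => h ?_
      exact hdown _ _ (Finset.subset_insert a σ) h'

end poly

theorem POLY (hLCHN : Stmt_LCHN) : Stmt_POLY := by
  intro K _ _ A _ _ fc _ d b F hdown hcard heven hF hb
  obtain ⟨h1, h2, h3, h4, h5⟩ := hLCHN K
  have hbd := plG_bd fc b h1 hdown d heven
  refine ⟨fun σ => lreal (plG fc b (d - σ.card) σ), ?_, ?_, ?_, ?_, ?_⟩
  · intro σ
    simp only
    rw [h4]
    by_cases hlt : σ.card < d
    · obtain ⟨k, hk⟩ : ∃ k, σ.card + (k + 1) = d := ⟨d - σ.card - 1, by omega⟩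
      have e : d - σ.card = k + 1 := by omega
      rw [e, hbd k σ hk, map_sum]
      refine Finset.sum_congr rfl fun a ha => ?_
      rw [Finset.card_insert_of_notMem (Finset.mem_compl.1 ha)]
      have e' : d - (σ.card + 1) = k := by omega
      rw [e']
    · have hz : ∑ a ∈ σᶜ, lreal (plG fc b (d - (insert a σ).card) (insert a σ)) = 0 := by
        refine Finset.sum_eq_zero fun a ha => ?_
        rw [plG_not fc b, map_zero]
        intro h'
        have := hcard _ h'
        rw [Finset.card_insert_of_notMem (Finset.mem_compl.1 ha)] at this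
        omega
      rw [hz]
      have e : d - σ.card = 0 := by omega
      rw [e]
      by_cases h : fc σ
      · rw [plG, if_pos h, h1, plG_lbd_nil, map_zero, add_zero, lreal,
          Finsupp.linearCombination_single]
        simp [realS]
      · rw [plG_not fc b h, map_zero, map_zero]
  · intro σ s hs
    simp only at hs
    obtain ⟨l, hl, h, _⟩ := h5 _ s hs
    have hlen := plG_len fc b _ _ _ hl
    have hfc : fc σ := by
      by_contra hn
      rw [plG_not fc b hn] at hl
      simp at hl
    have := hcard σ hfc
    omega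
  · intro σ s hs a ha t
    simp only at hs
    obtain ⟨l, hl, h, hs2⟩ := h5 _ s hs
    rw [hs2]
    apply hF
    intro i
    exact plG_mem fc b F hb _ _ _ hl _ (List.get_mem _ _) a ha
  · intro σ h
    simp only
    rw [plG_not fc b h, map_zero]
  · intro σ h hc
    simp only
    have e : d - σ.card = 0 := by omega
    rw [e, plG, if_pos h]
    have e2 : lcone (b σ) (Finsupp.single [] 1) = Finsupp.single [b σ] (1 : F2) := by
      rw [lcone, Finsupp.lmapDomain_apply, Finsupp.mapDomain_single]
    rw [e2, lreal, Finsupp.linearCombination_single, one_smul, realS, tpair,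
      Finsupp.linearCombination_single, one_smul]
    simp [oneCo]

end TC
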