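import Pool.Agent.TC.Cyc.Stmts2

/-!
# Block CYC, module PULC: pull back of cup products and the value on the fibre
-/

set_option autoImplicit false

open scoped Topology

noncomputable section

namespace TC

theorem cupL_pull {X Y : Type} [TopologicalSpace X] [TopologicalSpace Y] (f : C(X, Y))
    (l : List (Coch Y 1)) (s : SSx X) :
    cupL oneCo l (mapS f s) = cupL oneCo (l.map (pull f)) s := by
  induction l generalizing s with
  | nil => rfl
  | cons v l ih =>
    obtain ⟨k, σ⟩ := s
    cases k with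
    | zero => rfl
    | succ k =>
      have h := ih ⟨k, σ.comp (face (Fin.last (k + 1)))⟩
      change cupL oneCo l ⟨k, f.comp (σ.comp (face (Fin.last (k + 1))))⟩ * _ =
        cupL oneCo (l.map (pull f)) ⟨k, σ.comp (face (Fin.last (k + 1)))⟩ * _
      rw [← h]
      rfl

theorem tpair_tmap {X Y : Type} [TopologicalSpace X] [TopologicalSpace Y] (f : C(X, Y))
    (α : TCo Y) (z : TCh X) : tpair α (tmap f z) = tpair (fun s => α (mapS f s)) z := by
  induction z using Finsupp.induction_linear with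
  | zero => simp
  | add x y hx hy => rw [map_add, map_add, map_add, hx, hy]
  | single σ a => simp [tpair, tmap, Finsupp.mapDomain_single, Finsupp.linearCombination_single]

theorem PULC : Stmt_PULC := by
  intro X Y _ _ f l z
  rw [tpair_tmap]
  congr 2
  funext s
  exact cupL_pull f l s

theorem isClosedCo_oneCo {X : Type} [TopologicalSpace X] : IsClosedCo (oneCo (X := X)) := by
  intro z
  induction z using Finsupp.induction_linear with
  | zero => simp
  | add x y hx hy => rw [map_add, map_add, hx, hy, add_zero]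
  | single s a =>
    obtain ⟨k, σ⟩ := s
    have h : tbd (Finsupp.single (⟨k, σ⟩ : SSx X) a) = a • bdS ⟨k, σ⟩ := by
      simp [tbd, Finsupp.linearCombination_single]
    rw [h, map_smul]
    suffices h2 : tpair oneCo (bdS (⟨k, σ⟩ : SSx X)) = 0 by rw [h2, smul_zero]
    cases k with
    | zero => simp [bdS]
    | succ k =>
      simp only [bdS, map_sum]
      have h3 : ∀ i : Fin (k + 2), tpair oneCo
          (Finsupp.single (⟨k, σ.comp (face i)⟩ : SSx X) 1) = if k = 0 then 1 else 0 := by
        intro i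
        simp [tpair, Finsupp.linearCombination_single, oneCo]
      simp only [h3]
      rcases Nat.eq_zero_or_pos k with rfl | hk
      · simp
        decide
      · have : k ≠ 0 := by omega
        simp [this]

theorem VALM (hLCAP : Stmt_LCAP) (hSYST : Stmt_SYST) : Stmt_VALM := by
  intro hq S hS z hz lab hlab
  let χ : Fin 12 → (H5 →+ ZMod 2) := fun j => (Pi.evalAddMonoidHom (fun _ => ZMod 2) j).comp chi12
  have hact : ∀ (h : H5) (w : Mh), h +ᵥ w = chi12 h +ᵥ w := fun h w => rfl
  have hu : IsDesc qMc (S.full ItopM) (tmap qMc (S.c ItopM)) := by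
    refine hSYST Mh (Fin 12) 7 S Mq H5 chi12 hact qMc hq ItopM ?_
    intro g _
    refine ⟨![g 1, g 3, g 5 + g 3, g 7 + g 1, g 11 + g 5 + g 7], ?_, ?_⟩
    · intro j hj
      have h2 : (2 : ZMod 2) = 0 := by decide
      fin_cases j <;> simp [ItopM] at hj <;> simp [chi12] <;> ring_nf <;> simp [h2]
    · intro h hh
      have e1 : h 0 = g 1 := hh 1 (by decide)
      have e3 : h 1 = g 3 := hh 3 (by decide)
      have e5 : h 2 + h 1 = g 5 := hh 5 (by decide)
      have e7 : h 3 + h 0 = g 7 := hh 7 (by decide)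
      have e11 : h 4 + h 0 + h 1 + h 2 + h 3 = g 11 := hh 11 (by decide)
      rw [← e1, ← e3, ← e5, ← e7, ← e11]
      funext i
      generalize ha : h 0 = a
      generalize hb : h 1 = b
      generalize hc : h 2 = c
      generalize hd : h 3 = d
      generalize he : h 4 = e
      fin_cases i <;> simp [ha, hb, hc, hd, he] <;> clear ha hb hc hd he <;> revert a b c d e <;>
        decide
  have hun : (∅ : Finset (Fin 12)) ∪ ([0, 2, 4, 6, 8, 9, 10] : List (Fin 12)).toFinset = ItopM := by
    decide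
  have key := hLCAP Mh (Fin 12) 7 S Mq H5 chi12 hact qMc hq lab hlab χ (fun j h => rfl)
    (by
      have : ∀ j : Fin 12, ∃ h₀ : H5, chi12 h₀ j = 1 := by
        intro j
        fin_cases j
        · exact ⟨![1, 0, 0, 0, 0], rfl⟩
        · exact ⟨![1, 0, 0, 0, 0], rfl⟩
        · exact ⟨![0, 1, 0, 0, 0], rfl⟩
        · exact ⟨![0, 1, 0, 0, 0], rfl⟩
        · exact ⟨![0, 0, 1, 0, 0], rfl⟩
        · exact ⟨![0, 0, 1, 0, 0], rfl⟩
        · exact ⟨![0, 0, 0, 1, 0], rfl⟩
        · exact ⟨![0, 0, 0, 1, 0], rfl⟩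
        · exact ⟨![0, 0, 0, 0, 1], rfl⟩
        · exact ⟨![0, 0, 0, 0, 1], rfl⟩
        · exact ⟨![0, 0, 0, 0, 1], rfl⟩
        · exact ⟨![0, 0, 0, 0, 1], rfl⟩
      exact this)
    [0, 2, 4, 6, 8, 9, 10] ∅ (by decide) (by simp) z (tmap qMc (S.c ItopM)) hz
    (by rw [hun]; exact hu) oneCo isClosedCo_oneCo
  have hone : tpair oneCo (tmap qMc (S.c ItopM)) = 1 := by
    rw [tpair_tmap]
    exact hS
  rw [hone] at key
  rw [← key]
  have c0 : χ 0 = ev5 0 := rfl
  have c2 : χ 2 = ev5 1 := rfl
  have c4 : χ 4 = ev5 2 := rfl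
  have c6 : χ 6 = ev5 3 := rfl
  have c8 : χ 8 = ev5 4 := rfl
  have c9 : χ 9 = ev5 4 + ev5 3 := rfl
  have c10 : χ 10 = ev5 4 + ev5 2 := rfl
  simp only [List.map_cons, List.map_nil, c0, c2, c4, c6, c8, c9, c10]

end TC
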