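import Pool.Agent.TC.Cyc.Stmts2

/-!
# Block CYC, module RELS: the characteristic number of the total cycle
-/

set_option autoImplicit false

open scoped Topology

noncomputable section

namespace TC

namespace RelsM

/-! ### Total chains -/

section total

variable {X Y : Type} [TopologicalSpace X] [TopologicalSpace Y]

theorem tpair_single (α : TCo X) (s : SSx X) (a : F2) :
    tpair α (Finsupp.single s a) = a * α s := by
  simp [tpair, Finsupp.linearCombination_single]

theorem tmap_single (f : C(X, Y)) (s : SSx X) (a : F2) :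
    tmap f (Finsupp.single s a) = Finsupp.single (mapS f s) a := by
  simp [tmap, Finsupp.mapDomain_single]

theorem tpair_oneCo_tmap (f : C(X, Y)) (z : TCh X) :
    tpair oneCo (tmap f z) = tpair oneCo z := by
  induction z using Finsupp.induction_linear with
  | zero => simp
  | add x y hx hy => rw [map_add, map_add, map_add, hx, hy]
  | single s a => rw [tmap_single, tpair_single, tpair_single]; rfl

theorem tbd_single (s : SSx X) (a : F2) : tbd (Finsupp.single s a) = a • bdS s := by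
  simp [tbd, Finsupp.linearCombination_single]

theorem tpair_oneCo_bdS (s : SSx X) : tpair oneCo (bdS s) = 0 := by
  obtain ⟨k, σ⟩ := s
  cases k with
  | zero => exact map_zero _
  | succ k =>
    show tpair oneCo (∑ i : Fin (k + 2), Finsupp.single ⟨k, σ.comp (face i)⟩ 1) = 0
    rw [map_sum]
    simp only [tpair_single, one_mul]
    cases k with
    | zero =>
      show ∑ _i : Fin 2, (1 : F2) = 0
      decide
    | succ k =>
      refine Finset.sum_eq_zero fun i _ => ?_
      simp [oneCo]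

theorem closed_oneCo : IsClosedCo (oneCo : TCo X) := by
  intro z
  induction z using Finsupp.induction_linear with
  | zero => simp
  | add x y hx hy => rw [map_add, map_add, hx, hy, add_zero]
  | single s a => rw [tbd_single, map_smul, tpair_oneCo_bdS, smul_zero]

end total

/-! ### The characters -/

/-- The characters of the 15 sign coordinates. -/
def chiX (j : Fin 12 ⊕ Fin 3) : H6 →+ ZMod 2 :=
  (Pi.evalAddMonoidHom (fun _ => ZMod 2) j).comp X6

theorem chiX_apply (j : Fin 12 ⊕ Fin 3) (h : H6) : chiX j h = X6 h j := rfl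

theorem chiX_surj (j : Fin 12 ⊕ Fin 3) : ∃ h₀, chiX j h₀ = 1 := by
  rcases j with j | j
  · fin_cases j
    · exact ⟨Pi.single 0 1, by decide⟩
    · exact ⟨Pi.single 0 1, by decide⟩
    · exact ⟨Pi.single 1 1, by decide⟩
    · exact ⟨Pi.single 1 1, by decide⟩
    · exact ⟨Pi.single 2 1, by decide⟩
    · exact ⟨Pi.single 2 1, by decide⟩
    · exact ⟨Pi.single 3 1, by decide⟩
    · exact ⟨Pi.single 3 1, by decide⟩
    · exact ⟨Pi.single 4 1, by decide⟩
    · exact ⟨Pi.single 4 1, by decide⟩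
    · exact ⟨Pi.single 4 1, by decide⟩
    · exact ⟨Pi.single 4 1, by decide⟩
  · exact ⟨Pi.single 5 1, rfl⟩

/-! ### The actions -/

theorem vadd_X6 (h : H6) (z : ZZ) : h +ᵥ z = X6 h +ᵥ z := by
  rw [vadd_prod_eq, vadd6_eq]
  refine Prod.ext rfl ?_
  show (if h 5 = 0 then z.2 else -z.2) = (fun _ : Fin 3 => h 5) +ᵥ z.2
  apply Subtype.ext
  ext i
  rw [vaddS2_apply]
  rcases z2_cases (h 5) with h5 | h5 <;> rw [h5] <;> simp [sg]

theorem vadd_inl (k : Fin 12) (z : ZZ) :
    ((Pi.single (Sum.inl k) 1 : Fin 12 ⊕ Fin 3 → ZMod 2) +ᵥ z).1 =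
      (Pi.single k 1 : Fin 12 → ZMod 2) +ᵥ z.1 := by
  rw [vadd_prod_eq]
  have e : (fun j => (Pi.single (Sum.inl k) 1 : Fin 12 ⊕ Fin 3 → ZMod 2) (Sum.inl j)) =
      Pi.single k 1 := by
    funext j
    by_cases h : j = k
    · subst h; simp
    · rw [Pi.single_eq_of_ne h, Pi.single_eq_of_ne (by simpa using h)]
  rw [e]

theorem vadd_inr (k : Fin 3) (z : ZZ) :
    ((Pi.single (Sum.inr k) 1 : Fin 12 ⊕ Fin 3 → ZMod 2) +ᵥ z).2 =
      (Pi.single k 1 : Fin 3 → ZMod 2) +ᵥ z.2 := by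
  rw [vadd_prod_eq]
  have e : (fun j => (Pi.single (Sum.inr k) 1 : Fin 12 ⊕ Fin 3 → ZMod 2) (Sum.inr j)) =
      Pi.single k 1 := by
    funext j
    by_cases h : j = k
    · subst h; simp
    · rw [Pi.single_eq_of_ne h, Pi.single_eq_of_ne (by simpa using h)]
  rw [e]

theorem sg_one : sg 1 = -1 := by simp [sg]

theorem fix_inr {k : Fin 3} {z : ZZ}
    (h : (Pi.single (Sum.inr k) 1 : Fin 12 ⊕ Fin 3 → ZMod 2) +ᵥ z = z) : z.2.1 k = 0 := by
  have h1 := vadd_inr k z
  rw [h] at h1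
  have h2 : z.2.1 k = ((Pi.single k 1 : Fin 3 → ZMod 2) +ᵥ z.2).1 k := by rw [← h1]
  rw [vaddS2_apply, Pi.single_eq_same, sg_one] at h2
  linarith

theorem fix_re {k : Fin 12} {z : ZZ} (j : Fin 8) (hk : reS (Pi.single k 1) j = 1)
    (h : (Pi.single (Sum.inl k) 1 : Fin 12 ⊕ Fin 3 → ZMod 2) +ᵥ z = z) :
    ((z.1.1 j : Circle) : ℂ).re = 0 := by
  have h1 := vadd_inl k z
  rw [h] at h1
  have h2 : z.1.1 j = ((Pi.single k 1 : Fin 12 → ZMod 2) +ᵥ z.1).1 j := by rw [← h1]
  rw [vadd12_apply] at h2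
  have h3 := congrArg (fun c : Circle => (c : ℂ).re) h2
  simp only [flipC_re, hk, sg_one] at h3
  linarith

theorem fix_im {k : Fin 12} {z : ZZ} (j : Fin 8) (hk : imS (Pi.single k 1) j = 1)
    (h : (Pi.single (Sum.inl k) 1 : Fin 12 ⊕ Fin 3 → ZMod 2) +ᵥ z = z) :
    ((z.1.1 j : Circle) : ℂ).im = 0 := by
  have h1 := vadd_inl k z
  rw [h] at h1
  have h2 : z.1.1 j = ((Pi.single k 1 : Fin 12 → ZMod 2) +ᵥ z.1).1 j := by rw [← h1]
  rw [vadd12_apply] at h2
  have h3 := congrArg (fun c : Circle => (c : ℂ).im) h2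
  simp only [flipC_im, hk, sg_one] at h3
  linarith

theorem circle_sq (z : Circle) : (z : ℂ).re * (z : ℂ).re + (z : ℂ).im * (z : ℂ).im = 1 := by
  have := Circle.normSq_coe z
  rwa [Complex.normSq_apply] at this

/-! ### The empty fixed sets -/

/-- No point is fixed by all the sign changes of the list. -/
def NoFix (l : List (Fin 12 ⊕ Fin 3)) : Prop :=
  ∀ z : ZZ, ∃ i ∈ l, (Pi.single i 1 : Fin 12 ⊕ Fin 3 → ZMod 2) +ᵥ z ≠ z

theorem noFix_sphere : NoFix [Sum.inr 0, Sum.inr 1, Sum.inr 2] := by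
  intro z
  by_contra hcon
  push Not at hcon
  have h0 := fix_inr (hcon (Sum.inr 0) (by simp))
  have h1 := fix_inr (hcon (Sum.inr 1) (by simp))
  have h2 := fix_inr (hcon (Sum.inr 2) (by simp))
  have hn := z.2.2
  rw [mem_sphere_zero_iff_norm, EuclideanSpace.norm_eq, Fin.sum_univ_three, h0, h1, h2] at hn
  simp at hn

theorem noFix_circle (a b : Fin 12) (j : Fin 8) (ha : reS (Pi.single a 1) j = 1)
    (hb : imS (Pi.single b 1) j = 1) : NoFix [Sum.inl a, Sum.inl b] := by
  intro z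
  by_contra hcon
  push Not at hcon
  have h0 := fix_re j ha (hcon (Sum.inl a) (by simp))
  have h1 := fix_im j hb (hcon (Sum.inl b) (by simp))
  have h2 := circle_sq (z.1.1 j)
  rw [h0, h1] at h2
  norm_num at h2

theorem noFix_level : NoFix [Sum.inl 8, Sum.inl 9, Sum.inl 10, Sum.inl 11] := by
  intro z
  by_contra hcon
  push Not at hcon
  have h4 := fix_im 4 (by decide) (hcon (Sum.inl 8) (by simp))
  have h5 := fix_im 5 (by decide) (hcon (Sum.inl 9) (by simp))
  have h6 := fix_im 6 (by decide) (hcon (Sum.inl 10) (by simp))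
  have h7 := fix_im 7 (by decide) (hcon (Sum.inl 11) (by simp))
  have key : ∀ c : Circle, (c : ℂ).im = 0 → (c : ℂ).re = 1 ∨ (c : ℂ).re = -1 := by
    intro c hc
    have := circle_sq c
    rw [hc, mul_zero, add_zero] at this
    exact mul_self_eq_one_iff.mp this
  have hl : levelF z.1.1 = 2 := z.1.2
  unfold levelF at hl
  rcases key _ h4 with e4 | e4 <;> rcases key _ h5 with e5 | e5 <;>
    rcases key _ h6 with e6 | e6 <;> rcases key _ h7 with e7 | e7 <;>
    rw [e4, e5, e6, e7] at hl <;> norm_num at hl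

/-! ### The top coordinates -/

theorem top_eq : (∅ ∪ ([Sum.inr 0, Sum.inr 1, Sum.inl 0, Sum.inl 2, Sum.inl 4, Sum.inl 6,
    Sum.inl 8, Sum.inl 9, Sum.inl 10] : List (Fin 12 ⊕ Fin 3)).toFinset) =
    ItopM.disjSum ({0, 1} : Finset (Fin 3)) := by
  decide

theorem z2a : ∀ a b : ZMod 2, a + b + b = a := by decide

theorem z2b : ∀ a b c d e f : ZMod 2,
    (f + (a + b) + c + (d + c) + (e + (a + b))) + (a + b) + c + (d + c) + (e + (a + b)) = f := by
  decide

theorem z2c : ∀ a b c : ZMod 2, (a + b) + ((b + c) + c) = a := by decide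

theorem z2d : ∀ a b c d e f : ZMod 2,
    (e + a + b + c + d) + ((a + f) + f) + b + ((c + b) + b) + ((d + a) + ((a + f) + f)) = e := by
  decide

theorem top_unique (g : Fin 12 ⊕ Fin 3 → ZMod 2) :
    ∃! h : H6, ∀ j ∉ ItopM.disjSum ({0, 1} : Finset (Fin 3)), X6 h j = g j := by
  refine ⟨![g (Sum.inl 1) + g (Sum.inr 2), g (Sum.inl 3), g (Sum.inl 5) + g (Sum.inl 3),
    g (Sum.inl 7) + (g (Sum.inl 1) + g (Sum.inr 2)),
    g (Sum.inl 11) + (g (Sum.inl 1) + g (Sum.inr 2)) + g (Sum.inl 3) +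
      (g (Sum.inl 5) + g (Sum.inl 3)) + (g (Sum.inl 7) + (g (Sum.inl 1) + g (Sum.inr 2))),
    g (Sum.inr 2)], ?_, ?_⟩
  · intro j hj
    rcases j with j | j
    · fin_cases j
      · exact absurd (by decide) hj
      · exact z2a _ _
      · exact absurd (by decide) hj
      · rfl
      · exact absurd (by decide) hj
      · exact z2a _ _
      · exact absurd (by decide) hj
      · exact z2a _ _
      · exact absurd (by decide) hj
      · exact absurd (by decide) hj
      · exact absurd (by decide) hj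
      · exact z2b _ _ _ _ _ _
    · fin_cases j
      · exact absurd (by decide) hj
      · exact absurd (by decide) hj
      · rfl
  · intro h hh
    have e1 : h 0 + h 5 = g (Sum.inl 1) := hh (Sum.inl 1) (by decide)
    have e3 : h 1 = g (Sum.inl 3) := hh (Sum.inl 3) (by decide)
    have e5 : h 2 + h 1 = g (Sum.inl 5) := hh (Sum.inl 5) (by decide)
    have e7 : h 3 + h 0 = g (Sum.inl 7) := hh (Sum.inl 7) (by decide)
    have e11 : h 4 + h 0 + h 1 + h 2 + h 3 = g (Sum.inl 11) := hh (Sum.inl 11) (by decide)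
    have er : h 5 = g (Sum.inr 2) := hh (Sum.inr 2) (by decide)
    rw [← e1, ← e3, ← e5, ← e7, ← e11, ← er]
    funext k
    fin_cases k
    · exact (z2a _ _).symm
    · rfl
    · exact (z2a _ _).symm
    · exact (z2c _ _ _).symm
    · exact (z2d _ _ _ _ _ _).symm
    · rfl

/-! ### The characters of the lists -/

section vch

variable {E : Type} [TopologicalSpace E] (q : ZZ → E) (lab : ZZ → H6)

theorem vch_add (χ χ' : H6 →+ ZMod 2) : vch q lab (χ + χ') = vch q lab χ + vch q lab χ' := rfl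

theorem chi_inr (j : Fin 3) : chiX (Sum.inr j) = ev6 5 := rfl

theorem chi_0 : chiX (Sum.inl 0) = ev6 0 + ev6 5 := rfl

theorem chi_1 : chiX (Sum.inl 1) = ev6 0 + ev6 5 := rfl

theorem chi_2 : chiX (Sum.inl 2) = ev6 1 := rfl

theorem chi_3 : chiX (Sum.inl 3) = ev6 1 := rfl

theorem chi_4 : chiX (Sum.inl 4) = ev6 2 := rfl

theorem chi_5 : chiX (Sum.inl 5) = ev6 2 + ev6 1 := rfl

theorem chi_6 : chiX (Sum.inl 6) = ev6 3 := rfl

theorem chi_7 : chiX (Sum.inl 7) = ev6 3 + ev6 0 := rfl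

theorem chi_8 : chiX (Sum.inl 8) = ev6 4 := rfl

theorem chi_9 : chiX (Sum.inl 9) = ev6 4 + ev6 3 := rfl

theorem chi_10 : chiX (Sum.inl 10) = ev6 4 + ev6 2 := rfl

theorem chi_11 : chiX (Sum.inl 11) = ev6 4 + ev6 0 + ev6 1 + ev6 2 + ev6 3 := rfl

theorem vv7_eq : (fun i => vch q lab (chr i)) = vv7 (fun k => vch q lab (ev6 k)) := by
  funext i
  fin_cases i <;> rfl

end vch

end RelsM

open RelsM in
/-- The characteristic number of the total cycle. -/
theorem RELS (hLCAP : Stmt_LCAP) (hEMPT : Stmt_EMPT) (hSYST : Stmt_SYST) (hEVA : Stmt_EVA)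
    (hVCL : Stmt_VCL) : Stmt_RELS := by
  intro hQE S hS w hw hbw lab hlab
  have hq : IsAddQuotientCoveringMap (qEc : ZZ → EE) H6 := hQE
  have hcap := hLCAP ZZ (Fin 12 ⊕ Fin 3) 9 S EE H6 X6 vadd_X6 qEc hq lab hlab chiX
    (fun _ _ => rfl) chiX_surj
  -- relations
  have hrel : ∀ l : List (Fin 12 ⊕ Fin 3), l.Nodup → NoFix l → ∀ α : TCo EE, IsClosedCo α →
      tpair (cupL α (l.map fun j => vch qEc lab (chiX j))) w = 0 := by
    intro l hl hfix α hα
    have hu : IsDesc qEc (S.full (∅ ∪ l.toFinset)) (0 : TCh EE) := by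
      have h0 := (hEMPT ZZ (Fin 12 ⊕ Fin 3) 9 S (∅ ∪ l.toFinset) (fun z => by
        obtain ⟨i, hi, hz⟩ := hfix z
        exact ⟨i, by simpa using hi, hz⟩)).2
      rw [h0]
      intro s
      rfl
    rw [hcap l ∅ hl (fun i _ => by simp) w 0 hw hu α hα, map_zero]
  have htop : tpair (cupL oneCo (([Sum.inr 0, Sum.inr 1, Sum.inl 0, Sum.inl 2, Sum.inl 4,
      Sum.inl 6, Sum.inl 8, Sum.inl 9, Sum.inl 10] : List (Fin 12 ⊕ Fin 3)).map
        fun j => vch qEc lab (chiX j))) w = 1 := by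
    have hu : IsDesc qEc (S.full (∅ ∪ ([Sum.inr 0, Sum.inr 1, Sum.inl 0, Sum.inl 2, Sum.inl 4,
        Sum.inl 6, Sum.inl 8, Sum.inl 9, Sum.inl 10] : List (Fin 12 ⊕ Fin 3)).toFinset))
        (tmap qEc (S.c (ItopM.disjSum ({0, 1} : Finset (Fin 3))))) := by
      rw [top_eq]
      exact hSYST ZZ (Fin 12 ⊕ Fin 3) 9 S EE H6 X6 vadd_X6 qEc hq _ (fun g _ => top_unique g)
    rw [hcap _ ∅ (by decide) (fun i _ => by simp) w _ hw hu oneCo closed_oneCo,
      tpair_oneCo_tmap, hS]
  have hv : ∀ k, cobd (vch qEc lab (ev6 k)) = 0 := fun k =>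
    hVCL ZZ EE H6 qEc hq lab hlab (ev6 k)
  have key := hEVA EE (fun k => vch qEc lab (ev6 k)) hv w hbw
    (fun α hα => hrel [Sum.inr 0, Sum.inr 1, Sum.inr 2] (by decide) noFix_sphere α hα)
    (fun α hα => hrel [Sum.inl 0, Sum.inl 1] (by decide)
      (noFix_circle 0 1 0 (by decide) (by decide)) α hα)
    (fun α hα => hrel [Sum.inl 2, Sum.inl 3] (by decide)
      (noFix_circle 2 3 1 (by decide) (by decide)) α hα)
    (fun α hα => hrel [Sum.inl 4, Sum.inl 5] (by decide)
      (noFix_circle 4 5 2 (by decide) (by decide)) α hα)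
    (fun α hα => hrel [Sum.inl 6, Sum.inl 7] (by decide)
      (noFix_circle 6 7 3 (by decide) (by decide)) α hα)
    (fun α hα => hrel [Sum.inl 8, Sum.inl 9, Sum.inl 10, Sum.inl 11] (by decide)
      noFix_level α hα)
    htop
  have e : (fun i => vch qE lab (chr i)) = vv7 (fun k => vch qEc lab (ev6 k)) := vv7_eq qE lab
  rw [e]
  exact key

end TC
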