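import Pool.Agent.TC.Cyc.Stmts2

/-!
# The coverings `S² → ℝP²` and `Mh × S² → E`
-/

set_option autoImplicit false

open scoped Manifold ContDiff
open Topology

noncomputable section

namespace TC

theorem RPC_sep (b : S2) : ∃ V ∈ 𝓝 b, ∀ y ∈ V, -y ∉ V := by
  have hb : b ≠ -b := ne_neg_of_mem_unit_sphere ℝ b
  obtain ⟨V1, V2, h1, h2, hb1, hb2, hd⟩ := t2_separation hb
  refine ⟨V1 ∩ (fun x => -x) ⁻¹' V2, ?_, ?_⟩
  · refine Filter.inter_mem (h1.mem_nhds hb1) ?_
    exact (continuous_neg.continuousAt).preimage_mem_nhds (h2.mem_nhds hb2)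
  · rintro y ⟨-, hy2⟩ ⟨hy3, -⟩
    exact Set.disjoint_left.1 hd hy3 hy2

theorem RPC : Stmt_RPC := by
  refine { toIsQuotientMap := isQuotientMap_quotient_mk'
           toContinuousConstVAdd := inferInstance
           apply_eq_iff_mem_orbit := ?_
           disjoint := ?_ }
  · intro e₁ e₂
    constructor
    · intro h
      rcases (Quotient.exact h : antiRel e₁ e₂) with h | h
      · exact ⟨0, by rw [h]; exact zero_vadd _ _⟩
      · exact ⟨1, by
          show (1 : ZMod 2) +ᵥ e₂ = e₁
          rw [vadd1_eq, h, neg_neg]⟩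
    · rintro ⟨g, hg⟩
      have hg' : g +ᵥ e₂ = e₁ := hg
      apply Quotient.sound
      show antiRel e₁ e₂
      rcases z2_cases g with rfl | rfl
      · rw [zero_vadd] at hg'
        exact Or.inl hg'
      · rw [vadd1_eq] at hg'
        exact Or.inr (by rw [← hg', neg_neg])
  · intro e
    obtain ⟨V, hV, hV'⟩ := RPC_sep e
    refine ⟨V, hV, fun g => ?_⟩
    rintro ⟨x, ⟨y, hy, hyx⟩, hx⟩
    rcases z2_cases g with rfl | rfl
    · rfl
    · exfalso
      have h1 : (1 : ZMod 2) +ᵥ y = x := hyx
      rw [vadd1_eq] at h1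
      exact hV' y hy (by rw [h1]; exact hx)

/-- The first five coordinates. -/
def r65 (g : H6) : H5 := ![g 0, g 1, g 2, g 3, g 4]

/-- The element with given coordinates. -/
def i56 (h : H5) (s : ZMod 2) : H6 := ![h 0, h 1, h 2, h 3, h 4, s]

theorem chi12'_zero {g : H6} (hg : g 5 = 0) : chi12' g = chi12 (r65 g) := by
  funext i
  fin_cases i <;> simp [chi12', chi12, r65, hg]

theorem chi12'_i56 (h : H5) : chi12' (i56 h 0) = chi12 h := by
  funext i
  fin_cases i <;> simp [chi12', chi12, i56]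

theorem chi12'_one {g : H6} (hg : g 5 = 1) :
    chi12' g = chi12' (i56 0 1) + chi12 (r65 g) := by
  funext i
  fin_cases i <;> simp [chi12', chi12, r65, i56, hg] <;> ring

theorem chi12'_i56_one (h : H5) : chi12' (i56 h 1) = chi12' (i56 0 1) + chi12 h := by
  funext i
  fin_cases i <;> simp [chi12', chi12, i56] <;> ring

theorem rotM_one_eq (z : Mh) : rotM 1 z = chi12' (i56 0 1) +ᵥ z := by
  apply Subtype.ext
  funext i
  by_cases hi : i = 0
  · subst hi
    rw [rotM_zero', vadd12_apply]
    have h1 : reS (chi12' (i56 0 1)) 0 = 1 := by simp [reS, chi12', i56]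
    have h2 : imS (chi12' (i56 0 1)) 0 = 1 := by simp [imS, chi12', i56]
    have h3 : Circle.exp (Real.pi * 1) = -1 := by
      apply Circle.ext
      rw [Circle.coe_exp, mul_one, Complex.exp_pi_mul_I]
      simp
    rw [h1, h2, h3]
    simp [flipC, z2_one_add_one]
  · rw [rotM_ne _ _ _ hi, vadd12_apply]
    have h1 : reS (chi12' (i56 0 1)) i = 0 := by
      fin_cases i <;> simp [reS, chi12', i56] at hi ⊢
    have h2 : imS (chi12' (i56 0 1)) i = 0 := by
      fin_cases i <;> simp [imS, chi12', i56] at hi ⊢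
    rw [h1, h2, flipC_zero]

theorem rotM_one_rotM_one (z : Mh) : rotM 1 (rotM 1 z) = z := by
  apply Subtype.ext
  funext i
  by_cases hi : i = 0
  · subst hi
    rw [rotM_zero', rotM_zero', ← mul_assoc, ← Circle.exp_add]
    have : Circle.exp (Real.pi * 1 + Real.pi * 1) = 1 := by
      rw [mul_one, ← two_mul]
      exact Circle.exp_two_pi
    rw [this, one_mul]
  · rw [rotM_ne _ _ _ hi, rotM_ne _ _ _ hi]

theorem isOpenMap_qM : IsOpenMap qM := isOpenMap_quotient_mk'_add

theorem isQuotientMap_qE : IsQuotientMap qE := by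
  have h1 : IsQuotientMap (Prod.map qM (id : S2 → S2)) := by
    refine (isOpenMap_qM.prodMap IsOpenMap.id).isQuotientMap ?_ ?_
    · exact (continuous_quotient_mk' : Continuous qM).prodMap continuous_id
    · exact (Quotient.mk_surjective : Function.Surjective qM).prodMap Function.surjective_id
  have h2 : IsQuotientMap (Tot.mk (actM 1) actM_one_invol) := isQuotientMap_quotient_mk'
  exact h2.comp h1

theorem QEM (h : IsAddQuotientCoveringMap qM H5) : QE_main := by
  refine { toIsQuotientMap := isQuotientMap_qE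
           toContinuousConstVAdd := inferInstance
           apply_eq_iff_mem_orbit := ?_
           disjoint := ?_ }
  · intro z z'
    constructor
    · intro hz
      rcases (Quotient.exact hz : totRel (actM 1) (qM z.1, z.2) (qM z'.1, z'.2)) with h1 | h1
      · have h2 : qM z.1 = qM z'.1 := (Prod.ext_iff.1 h1).1.symm
        have h3 : z'.2 = z.2 := (Prod.ext_iff.1 h1).2
        obtain ⟨k, hk⟩ := qM_eq_iff.1 h2
        refine ⟨i56 k 0, ?_⟩
        show i56 k 0 +ᵥ z' = z
        rw [vadd6_eq, chi12'_i56]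
        refine Prod.ext hk ?_
        have h4 : (i56 k 0) 5 = 0 := by simp [i56]
        simp only [h4, if_true]
        exact h3
      · obtain ⟨h2, h3⟩ := h1
        have h2' : qM z'.1 = qM (rotM 1 z.1) := h2
        have h3' : z'.2 = -z.2 := h3
        obtain ⟨k, hk⟩ := qM_eq_iff.1 h2'.symm
        refine ⟨i56 k 1, ?_⟩
        show i56 k 1 +ᵥ z' = z
        rw [vadd6_eq, chi12'_i56_one]
        refine Prod.ext ?_ ?_
        · show (chi12' (i56 0 1) + chi12 k) +ᵥ z'.1 = z.1
          rw [add_vadd, ← rotM_one_eq, ← vadd5_eq, hk, rotM_one_rotM_one]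
        · have h4 : (i56 k 1) 5 = 1 := by simp [i56]
          simp only [h4, one_ne_zero, if_false]
          rw [h3', neg_neg]
    · rintro ⟨g, hg⟩
      have hg' : g +ᵥ z' = z := hg
      rw [vadd6_eq] at hg'
      apply Quotient.sound
      show totRel (actM 1) (qM z.1, z.2) (qM z'.1, z'.2)
      rcases z2_cases (g 5) with h5 | h5
      · left
        have h1 : chi12' g +ᵥ z'.1 = z.1 := congrArg Prod.fst hg'
        have h2 : (if g 5 = 0 then z'.2 else -z'.2) = z.2 := congrArg Prod.snd hg'
        rw [h5, if_pos rfl] at h2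
        rw [chi12'_zero h5, ← vadd5_eq] at h1
        rw [← h1, qM_vadd, h2]
      · right
        have h1 : chi12' g +ᵥ z'.1 = z.1 := congrArg Prod.fst hg'
        have h2 : (if g 5 = 0 then z'.2 else -z'.2) = z.2 := congrArg Prod.snd hg'
        rw [h5, if_neg one_ne_zero] at h2
        rw [chi12'_one h5, add_vadd, ← vadd5_eq, ← rotM_one_eq] at h1
        refine ⟨?_, ?_⟩
        · show qM z'.1 = actM 1 (qM z.1)
          rw [actM_mk, ← h1, rotM_one_rotM_one, qM_vadd]
        · show z'.2 = -z.2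
          rw [← h2, neg_neg]
  · intro z
    obtain ⟨W, hW, hW'⟩ := h.disjoint z.1
    obtain ⟨V, hV, hV'⟩ := RPC_sep z.2
    refine ⟨W ×ˢ V, prod_mem_nhds hW hV, fun g => ?_⟩
    rintro ⟨x, ⟨y, hy, hyx⟩, hx⟩
    have h0 : g +ᵥ y = x := hyx
    rw [vadd6_eq] at h0
    have h1 : chi12' g +ᵥ y.1 = x.1 := congrArg Prod.fst h0
    have h2 : (if g 5 = 0 then y.2 else -y.2) = x.2 := congrArg Prod.snd h0
    rcases z2_cases (g 5) with h5 | h5
    · rw [chi12'_zero h5, ← vadd5_eq] at h1
      have h3 : r65 g = 0 := hW' (r65 g) ⟨x.1, ⟨y.1, hy.1, h1⟩, hx.1⟩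
      funext i
      have h4 : ∀ j : Fin 5, r65 g j = 0 := fun j => by rw [h3]; rfl
      fin_cases i
      · exact h4 0
      · exact h4 1
      · exact h4 2
      · exact h4 3
      · exact h4 4
      · exact h5
    · exfalso
      rw [h5, if_neg one_ne_zero] at h2
      exact hV' y.2 hy.2 (by rw [h2]; exact hx.2)

end TC
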