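import Pool.Agent.TC.Cyc.Stmts2

/-!
# Block CYC, module SYS1: the mirror systems of the circle and of the sphere
-/

set_option autoImplicit false

open scoped Topology

noncomputable section

namespace TC

namespace SYS1

/-- The augmentation is preserved by maps. -/
theorem tpair_one_tmap {X Y : Type} [TopologicalSpace X] [TopologicalSpace Y] (f : C(X, Y))
    (z : TCh X) : tpair oneCo (tmap f z) = tpair oneCo z := by
  unfold tpair tmap
  rw [Finsupp.lmapDomain_apply, Finsupp.linearCombination_mapDomain]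
  rfl

/-- The faces of the simplex. -/
def FF (n : ℕ) (a : Fin (n + 1)) : Set (Simp n) := {t | t.1 a = 0}

/-- A vertex of a face. -/
def bb (n : ℕ) (σ : Finset (Fin (n + 1))) : Simp n :=
  if h : ∃ j, j ∉ σ then vtx h.choose else vtx 0

theorem bb_mem (n : ℕ) (σ : Finset (Fin (n + 1))) (hσ : σ ≠ Finset.univ) (a : Fin (n + 1))
    (ha : a ∈ σ) : bb n σ ∈ FF n a := by
  have h : ∃ j, j ∉ σ := by
    by_contra hcon
    push Not at hcon
    exact hσ (Finset.eq_univ_iff_forall.mpr hcon)
  have hj := h.choose_spec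
  have hne : a ≠ h.choose := fun he => hj (he ▸ ha)
  unfold bb
  rw [dif_pos h]
  show (stdSimplex.vertex (S := ℝ) h.choose).1 a = 0
  exact Pi.single_eq_of_ne hne _

theorem comb_mem (n : ℕ) (a : Fin (n + 1)) (k : ℕ) (v : Fin (k + 1) → Simp n)
    (hv : ∀ i, v i ∈ FF n a) (t : Simp k) : Cvx.comb v t ∈ FF n a := by
  show (∑ i, t.1 i • (v i).1) a = 0
  rw [Finset.sum_apply]
  apply Finset.sum_eq_zero
  intro i _
  have : (v i).1 a = 0 := hv i
  rw [Pi.smul_apply, this, smul_zero]

/-- The chains of the faces of the simplex, mapped to `Z`. -/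
theorem sys (hP : Stmt_POLY) (hS : Stmt_SYSP) (n : ℕ) (Z : Type) [TopologicalSpace Z]
    [AddAction (Fin (n + 1) → ZMod 2) Z] [ContinuousConstVAdd (Fin (n + 1) → ZMod 2) Z]
    (κ : C(Simp n, Z))
    (hκ : ∀ a, ∀ x : Simp n, x.1 a = 0 →
      (Pi.single a 1 : Fin (n + 1) → ZMod 2) +ᵥ κ x = κ x) :
    ∃ S : MirrorSys Z (Fin (n + 1)) n, ∀ I : Finset (Fin (n + 1)), I.card = n →
      tpair oneCo (S.c I) = 1 := by
  obtain ⟨P, h1, h2, h3, -, h5⟩ := hP (Simp n) (Fin (n + 1)) (fun σ => σ ≠ Finset.univ) n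
    (bb n) (FF n)
    (by
      intro σ τ hστ hτ hσ
      apply hτ
      rw [hσ] at hστ
      exact Finset.univ_subset_iff.mp hστ)
    (by
      intro σ hσ
      obtain ⟨j, hj⟩ : ∃ j, j ∉ σ := by
        by_contra hcon
        push Not at hcon
        exact hσ (Finset.eq_univ_iff_forall.mpr hcon)
      have := Finset.card_lt_univ_of_notMem hj
      rw [Fintype.card_fin] at this
      omega)
    (by
      intro σ hσ hc
      have he : (Finset.univ.filter fun a => a ∉ σ ∧ (insert a σ) ≠ Finset.univ) = σᶜ := by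
        ext a
        rw [Finset.mem_filter, Finset.mem_compl]
        refine ⟨fun h => h.2.1, fun h => ⟨Finset.mem_univ a, h, ?_⟩⟩
        intro hu
        have h6 := congrArg Finset.card hu
        rw [Finset.card_insert_of_notMem h, Finset.card_univ, Fintype.card_fin] at h6
        omega
      have hcard : (σᶜ).card = 2 := by
        rw [Finset.card_compl, Fintype.card_fin]
        omega
      rw [he, hcard]
      exact even_two)
    (fun a k v hv t => comb_mem n a k v hv t)
    (fun σ hσ a ha => bb_mem n σ hσ a ha)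
  obtain ⟨S, hSc⟩ := hS (Simp n) (Fin (n + 1)) n (FF n) P h1 h2 h3 Z (Fin (n + 1)) κ id
    (by
      intro σ a _ a' _ hne heq
      exact absurd heq hne)
    (fun a x hx => hκ a x hx)
  refine ⟨S, ?_⟩
  intro I hI
  rw [hSc I, Finset.sum_eq_single I]
  · rw [tpair_one_tmap]
    apply h5 I _ hI
    intro hu
    have := congrArg Finset.card hu
    rw [Finset.card_univ, Fintype.card_fin] at this
    omega
  · intro σ hσ hne
    rw [Finset.mem_filter] at hσ
    exact absurd (by rw [← hσ.2.1, Finset.image_id]) hne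
  · intro hI'
    exact absurd (by
      rw [Finset.mem_filter]
      exact ⟨Finset.mem_univ _, by rw [Finset.image_id], rfl⟩) hI'

/-- The quarter of the circle, as a function. -/
def k1f (t : Simp 1) : Circle := ⟨(⟨Real.sqrt (t.1 0), Real.sqrt (t.1 1)⟩ : ℂ), by
    refine mem_sphere_zero_iff_norm.mpr ?_
    rw [Complex.norm_eq_sqrt_sq_add_sq, Real.sq_sqrt (t.2.1 0), Real.sq_sqrt (t.2.1 1)]
    have := t.2.2
    rw [Fin.sum_univ_two] at this
    rw [this, Real.sqrt_one]⟩

/-- A sign change fixes the points with vanishing coordinate. -/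
theorem flipC_fix (a : Fin 2) (z : Circle) (h0 : a = 0 → (z : ℂ).re = 0)
    (h1 : a = 1 → (z : ℂ).im = 0) :
    flipC ((Pi.single a 1 : Fin 2 → ZMod 2) 0) ((Pi.single a 1 : Fin 2 → ZMod 2) 1) z = z := by
  fin_cases a
  · apply circle_ext
    · rw [flipC_re, h0 rfl, mul_zero]
    · rw [flipC_im]
      simp [sg]
  · apply circle_ext
    · rw [flipC_re]
      simp [sg]
    · rw [flipC_im, h1 rfl, mul_zero]

/-- The quarter of the circle. -/
def k1 : C(Simp 1, CC) where
  toFun t := k1f t
  continuous_toFun := by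
    refine Continuous.subtype_mk ?_ _
    have h0 : Continuous fun t : Simp 1 => Real.sqrt (t.1 0) :=
      Real.continuous_sqrt.comp ((continuous_apply 0).comp continuous_subtype_val)
    have h1 : Continuous fun t : Simp 1 => Real.sqrt (t.1 1) :=
      Real.continuous_sqrt.comp ((continuous_apply 1).comp continuous_subtype_val)
    exact Complex.equivRealProdCLM.symm.continuous.comp (h0.prodMk h1)

/-- The octant of the sphere. -/
def k2 : C(Simp 2, S2) where
  toFun t := ⟨WithLp.toLp 2 fun i => Real.sqrt (t.1 i), by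
    rw [mem_sphere_zero_iff_norm, EuclideanSpace.norm_eq]
    have h : ∀ i : Fin 3, ‖(WithLp.toLp 2 fun i => Real.sqrt (t.1 i) :
        EuclideanSpace ℝ (Fin 3)) i‖ ^ 2 = t.1 i := by
      intro i
      show ‖Real.sqrt (t.1 i)‖ ^ 2 = t.1 i
      rw [Real.norm_of_nonneg (Real.sqrt_nonneg _), Real.sq_sqrt (t.2.1 i)]
    rw [Finset.sum_congr rfl fun i _ => h i]
    have := t.2.2
    rw [this, Real.sqrt_one]⟩
  continuous_toFun := by
    refine Continuous.subtype_mk ?_ _
    refine (PiLp.continuous_toLp 2 _).comp ?_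
    exact continuous_pi fun i =>
      Real.continuous_sqrt.comp ((continuous_apply i).comp continuous_subtype_val)

end SYS1

theorem SYS1 (hP : Stmt_POLY) (hS : Stmt_SYSP) : Stmt_SYS1 := by
  have h := @SYS1.sys hP hS 1 CC _ (inferInstanceAs (AddAction (Fin 2 → ZMod 2) CC))
    (inferInstanceAs (ContinuousConstVAdd (Fin 2 → ZMod 2) CC)) SYS1.k1 (by
      intro a x hx
      refine SYS1.flipC_fix a (SYS1.k1f x) ?_ ?_
      · intro ha
        subst ha
        show Real.sqrt (x.1 0) = 0
        rw [hx, Real.sqrt_zero]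
      · intro ha
        subst ha
        show Real.sqrt (x.1 1) = 0
        rw [hx, Real.sqrt_zero])
  obtain ⟨S, hS⟩ := h
  exact ⟨S, hS {0} (by simp)⟩

theorem SYS2 (hP : Stmt_POLY) (hS : Stmt_SYSP) : Stmt_SYS2 := by
  have h := @SYS1.sys hP hS 2 S2 _ (inferInstanceAs (AddAction (Fin 3 → ZMod 2) S2))
    (inferInstanceAs (ContinuousConstVAdd (Fin 3 → ZMod 2) S2)) SYS1.k2 (by
      intro a x hx
      apply Subtype.ext
      ext i
      refine (vaddS2_apply (Pi.single a 1) (SYS1.k2 x) i).trans ?_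
      by_cases hi : i = a
      · subst hi
        have h1 : (SYS1.k2 x).1 i = 0 := by
          show Real.sqrt (x.1 i) = 0
          rw [hx, Real.sqrt_zero]
        rw [h1, mul_zero]
      · rw [Pi.single_eq_of_ne hi, sg_zero, one_mul])
  obtain ⟨S, hS⟩ := h
  exact ⟨S, hS {0, 1} (by decide)⟩

end TC
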