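import Pool.Agent.TC.Cyc.Stmts2

/-!
# Module CYC_SYSC: capping for mirror systems
-/

set_option autoImplicit false

open scoped Topology

noncomputable section

namespace TC

namespace SYSCm

section act

variable {Z : Type} [TopologicalSpace Z] {A : Type} [AddCommGroup A] [AddAction A Z]
  [ContinuousConstVAdd A Z]

theorem tact_single (h : A) (s : SSx Z) (a : F2) :
    tact h (Finsupp.single s a) =
      Finsupp.single (mapS ⟨fun z => h +ᵥ z, continuous_const_vadd h⟩ s) a := by
  simp [tact, tmap, Finsupp.mapDomain_single]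

theorem tact_add (g h : A) (z : TCh Z) : tact (g + h) z = tact g (tact h z) := by
  induction z using Finsupp.induction_linear with
  | zero => simp
  | add x y hx hy => rw [map_add, map_add, map_add, hx, hy]
  | single s a =>
    rw [tact_single, tact_single, tact_single]
    congr 1
    obtain ⟨k, σ⟩ := s
    unfold mapS
    congr 1
    ext1 t
    exact add_vadd g h (σ t)

theorem tact_fixed (h : A) (z : TCh Z) (hz : ∀ s ∈ z.support, ∀ t, h +ᵥ s.2 t = s.2 t) :
    tact h z = z := by
  show Finsupp.mapDomain (mapS ⟨fun z => h +ᵥ z, continuous_const_vadd h⟩) z = z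
  have e : Finsupp.mapDomain (mapS ⟨fun z => h +ᵥ z, continuous_const_vadd h⟩) z =
      Finsupp.mapDomain id z := by
    refine Finsupp.mapDomain_congr fun s hs => ?_
    obtain ⟨k, σ⟩ := s
    show (⟨k, _⟩ : SSx Z) = ⟨k, σ⟩
    congr 1
    ext1 t
    exact hz _ hs t
  rw [e, Finsupp.mapDomain_id]

end act

section sys

variable {Z : Type} [TopologicalSpace Z] {J : Type} [Fintype J] [DecidableEq J]
  [AddAction (J → ZMod 2) Z] [ContinuousConstVAdd (J → ZMod 2) Z] {d : ℕ}

theorem fix_of (S : MirrorSys Z J d) (I : Finset J) (g : J → ZMod 2) (hg : ∀ j, j ∉ I → g j = 0) :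
    tact g (S.c I) = S.c I := by
  refine tact_fixed g _ fun s hs t => ?_
  have h1 : g ∈ AddAction.stabilizer (J → ZMod 2) (s.2 t) := by
    have e : g = ∑ j, Pi.single j (g j) := (Finset.univ_sum_single g).symm
    rw [e]
    refine AddSubgroup.sum_mem _ fun j _ => ?_
    by_cases hj : j ∈ I
    · rcases z2_cases (g j) with h | h
      · rw [h, Pi.single_zero]
        exact zero_mem _
      · rw [h]
        exact AddAction.mem_stabilizer_iff.2 (S.fix I j hj s hs t)
    · rw [hg j hj, Pi.single_zero]
      exact zero_mem _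
  exact AddAction.mem_stabilizer_iff.1 h1

/-- The part of `h` outside `I`. -/
def off (I : Finset J) (h : J → ZMod 2) : J → ZMod 2 := fun j => if j ∈ I then 0 else h j

/-- The part of `h` in `I`. -/
def onI (I : Finset J) (h : J → ZMod 2) : J → ZMod 2 := fun j => if j ∈ I then h j else 0

theorem off_add_onI (I : Finset J) (h : J → ZMod 2) : off I h + onI I h = h := by
  funext j
  simp only [Pi.add_apply, off, onI]
  split_ifs <;> simp

theorem tact_c (S : MirrorSys Z J d) (I : Finset J) (h g : J → ZMod 2) :
    tact h (tact g (S.c I)) = tact (g + off I h) (S.c I) := by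
  have e : h + g = (g + off I h) + onI I h := by
    rw [add_assoc, off_add_onI, add_comm]
  rw [← tact_add, e, tact_add, fix_of S I (onI I h)]
  intro j hj
  simp [onI, hj]

/-- The half of `full I`. -/
def half (S : MirrorSys Z J d) (I : Finset J) (i : J) : TCh Z :=
  ∑ g ∈ Finset.univ.filter (fun g : J → ZMod 2 => ∀ j ∈ insert i I, g j = 0), tact g (S.c I)

theorem add_self (x : TCh Z) : x + x = 0 := by
  ext s
  exact CharTwo.add_self_eq_zero _

theorem fadd_self (g : J → ZMod 2) : g + g = 0 := by
  funext j
  exact CharTwo.add_self_eq_zero _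

theorem half_inv (S : MirrorSys Z J d) (I : Finset J) (i : J) (hi : i ∉ I) (h : J → ZMod 2)
    (hh : h i = 0) : tact h (half S I i) = half S I i := by
  unfold half
  rw [map_sum]
  simp_rw [tact_c]
  have ho : ∀ j ∈ insert i I, off I h j = 0 := by
    intro j hj
    unfold off
    rcases Finset.mem_insert.1 hj with rfl | hj
    · rw [if_neg hi, hh]
    · rw [if_pos hj]
  refine Finset.sum_nbij' (fun g => g + off I h) (fun g => g + off I h) ?_ ?_ ?_ ?_ ?_
  · intro g hg
    simp only [Finset.mem_filter, Finset.mem_univ, true_and] at hg ⊢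
    intro j hj
    rw [Pi.add_apply, hg j hj, ho j hj, add_zero]
  · intro g hg
    simp only [Finset.mem_filter, Finset.mem_univ, true_and] at hg ⊢
    intro j hj
    rw [Pi.add_apply, hg j hj, ho j hj, add_zero]
  · intro g _
    show g + off I h + off I h = g
    rw [add_assoc, fadd_self, add_zero]
  · intro g _
    show g + off I h + off I h = g
    rw [add_assoc, fadd_self, add_zero]
  · intro g _
    rfl

theorem half_add (S : MirrorSys Z J d) (I : Finset J) (i : J) (hi : i ∉ I) (h : J → ZMod 2)
    (hh : h i = 1) : half S I i + tact h (half S I i) = S.full I := by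
  unfold half MirrorSys.full
  rw [map_sum]
  simp_rw [tact_c]
  have ho : ∀ j ∈ I, off I h j = 0 := by
    intro j hj
    unfold off
    rw [if_pos hj]
  have hoi : off I h i = 1 := by
    unfold off
    rw [if_neg hi, hh]
  have e1 : ∑ g ∈ Finset.univ.filter (fun g : J → ZMod 2 => ∀ j ∈ insert i I, g j = 0),
      tact (g + off I h) (S.c I) =
      ∑ g ∈ Finset.univ.filter (fun g : J → ZMod 2 => (∀ j ∈ I, g j = 0) ∧ g i = 1),
      tact g (S.c I) := by
    refine Finset.sum_nbij' (fun g => g + off I h) (fun g => g + off I h) ?_ ?_ ?_ ?_ ?_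
    · intro g hg
      simp only [Finset.mem_filter, Finset.mem_univ, true_and] at hg ⊢
      refine ⟨fun j hj => ?_, ?_⟩
      · rw [Pi.add_apply, hg j (Finset.mem_insert_of_mem hj), ho j hj, add_zero]
      · rw [Pi.add_apply, hg i (Finset.mem_insert_self _ _), hoi, zero_add]
    · intro g hg
      simp only [Finset.mem_filter, Finset.mem_univ, true_and] at hg ⊢
      intro j hj
      rcases Finset.mem_insert.1 hj with rfl | hj
      · rw [Pi.add_apply, hg.2, hoi]
        decide
      · rw [Pi.add_apply, hg.1 j hj, ho j hj, add_zero]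
    · intro g _
      show g + off I h + off I h = g
      rw [add_assoc, fadd_self, add_zero]
    · intro g _
      show g + off I h + off I h = g
      rw [add_assoc, fadd_self, add_zero]
    · intro g _
      rfl
  rw [e1, ← Finset.sum_union]
  · refine Finset.sum_congr ?_ fun _ _ => rfl
    ext g
    simp only [Finset.mem_union, Finset.mem_filter, Finset.mem_univ, true_and,
      Finset.mem_insert, forall_eq_or_imp]
    constructor
    · rintro (⟨_, h2⟩ | ⟨h2, _⟩) <;> exact h2
    · intro h2
      rcases z2_cases (g i) with h3 | h3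
      · exact Or.inl ⟨h3, h2⟩
      · exact Or.inr ⟨h2, h3⟩
  · rw [Finset.disjoint_left]
    intro g hg hg'
    simp only [Finset.mem_filter, Finset.mem_univ, true_and, Finset.mem_insert,
      forall_eq_or_imp] at hg hg'
    rw [hg.1] at hg'
    exact absurd hg'.2 (by decide)

theorem tbd_half (hTBB : Stmt_TBB) (S : MirrorSys Z J d) (I : Finset J) (i : J) (hi : i ∉ I) :
    tbd (half S I i) = S.full (insert i I) := by
  have hnat : ∀ (g : J → ZMod 2) (z : TCh Z), tbd (tact g z) = tact g (tbd z) := fun g z =>
    (hTBB Z Z).2.1 _ z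
  unfold half
  rw [map_sum]
  simp_rw [hnat, S.bdc, map_sum]
  rw [Finset.sum_comm]
  rw [Finset.sum_eq_single_of_mem i (Finset.mem_compl.2 hi)]
  · rfl
  · intro j hj hji
    rw [Finset.mem_compl] at hj
    refine Finset.sum_involution (fun g _ => g + Pi.single j 1) ?_ ?_ ?_ ?_
    · intro g _
      have e : tact (g + Pi.single j 1) (S.c (insert j I)) = tact g (S.c (insert j I)) := by
        rw [tact_add, fix_of S (insert j I) (Pi.single j 1)]
        intro j' hj'
        have : j' ≠ j := fun h => hj' (h ▸ Finset.mem_insert_self _ _)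
        simp [this]
      rw [e]
      exact add_self _
    · intro g _ _ h
      have h1 := congrFun h j
      simp at h1
    · intro g hg
      simp only [Finset.mem_filter, Finset.mem_univ, true_and] at hg ⊢
      intro j' hj'
      have : j' ≠ j := by
        rintro rfl
        rcases Finset.mem_insert.1 hj' with h | h
        · exact hji h
        · exact hj h
      rw [Pi.add_apply, hg j' hj']
      simp [this]
    · intro g _
      show g + Pi.single j 1 + Pi.single j 1 = g
      rw [add_assoc, fadd_self, add_zero]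

end sys

end SYSCm

open SYSCm in
theorem SYSC (hTBB : Stmt_TBB) (hDUN : Stmt_DUN) (hDBD : Stmt_DBD) (hCAP : Stmt_CAP)
    (hSYSF : Stmt_SYSF) : Stmt_SYSC := by
  intro Z _ J _ _ _ _ d S E _ A _ _ _ X hX q hq lab hlab I i hi χ hχ hχ1 w u hw hu α hα
  obtain ⟨h₀, hh₀⟩ := hχ1
  have hact : ∀ (h : A) (z : TCh Z), tact h z = tact (X h) z := by
    intro h z
    have e : (⟨fun z => h +ᵥ z, continuous_const_vadd h⟩ : C(Z, Z)) =
        ⟨fun z => X h +ᵥ z, continuous_const_vadd (X h)⟩ := by
      ext1 z
      exact hX h z
    unfold tact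
    rw [e]
  have hbw : tbd w = 0 := by
    have h1 := hDBD Z E A q hq _ _ hw
    rw [(hSYSF Z J d S I).2] at h1
    exact hDUN Z E A q hq 0 _ _ h1 (fun s => rfl)
  refine hCAP Z E A q hq lab hlab χ h₀ hh₀ (S.full I) (half S I i) w u hw hbw ?_ ?_ ?_ α hα
  · intro h hh
    rw [hact]
    exact half_inv S I i hi _ (by rw [← hχ, hh])
  · rw [hact]
    exact half_add S I i hi _ (by rw [← hχ, hh₀])
  · rw [tbd_half hTBB S I i hi]
    exact hu

end TC
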