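import Pool.Agent.TC.Cyc.Stmts2

/-!
# Block CYC: modules SYSF and EMPT (the invariant chain of a mirror system)
-/

set_option autoImplicit false

open scoped Topology

noncomputable section

namespace TC

namespace MSYSF

variable {X Y W : Type} [TopologicalSpace X] [TopologicalSpace Y] [TopologicalSpace W]

theorem tmap_single (f : C(X, Y)) (s : SSx X) (a : F2) :
    tmap f (Finsupp.single s a) = Finsupp.single (mapS f s) a := by
  simp [tmap, Finsupp.mapDomain_single]

theorem tmap_comp (g : C(Y, W)) (f : C(X, Y)) (z : TCh X) :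
    tmap g (tmap f z) = tmap (g.comp f) z := by
  induction z using Finsupp.induction_linear with
  | zero => simp
  | add a b ha hb => simp [ha, hb]
  | single s a =>
    rw [tmap_single, tmap_single, tmap_single]
    rfl

theorem tbd_single (s : SSx X) : tbd (Finsupp.single s 1) = bdS s := by
  simp [tbd]

theorem tbd_tmap (f : C(X, Y)) (z : TCh X) : tbd (tmap f z) = tmap f (tbd z) := by
  induction z using Finsupp.induction_linear with
  | zero => simp
  | add a b ha hb => simp [ha, hb]
  | single s a =>
    have h : (Finsupp.single s a : TCh X) = a • Finsupp.single s 1 := by simp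
    rw [h, map_smul, map_smul, map_smul, map_smul]
    congr 1
    rw [tmap_single, tbd_single, tbd_single]
    obtain ⟨k, σ⟩ := s
    cases k with
    | zero =>
      show bdS ⟨0, _⟩ = tmap f (bdS ⟨0, _⟩)
      simp [bdS]
    | succ k =>
      show bdS ⟨k + 1, f.comp σ⟩ = tmap f (bdS ⟨k + 1, σ⟩)
      simp only [bdS, map_sum, tmap_single]
      rfl

theorem add_self (z : TCh X) : z + z = 0 := by
  have h : (2 : F2) = 0 := rfl
  rw [← two_smul F2, h, zero_smul]

section act

variable {A : Type} [AddCommGroup A] [AddAction A X] [ContinuousConstVAdd A X]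

theorem tact_add (g h : A) (z : TCh X) : tact (g + h) z = tact g (tact h z) := by
  unfold tact
  rw [tmap_comp]
  congr 1
  congr 1
  ext x
  exact add_vadd g h x

theorem tact_fix (g : A) (z : TCh X) (h : ∀ s ∈ z.support, ∀ t, g +ᵥ s.2 t = s.2 t) :
    tact g z = z := by
  unfold tact tmap
  rw [Finsupp.lmapDomain_apply]
  rw [Finsupp.mapDomain_congr (g := id), Finsupp.mapDomain_id]
  intro s hs
  obtain ⟨k, σ⟩ := s
  unfold mapS
  congr 1
  ext t
  exact h _ hs t

theorem tbd_tact (g : A) (z : TCh X) : tbd (tact g z) = tact g (tbd z) := tbd_tmap _ _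

end act

section sys

variable {Z : Type} [TopologicalSpace Z] {J : Type} [Fintype J] [DecidableEq J]
  [AddAction (J → ZMod 2) Z] [ContinuousConstVAdd (J → ZMod 2) Z] {d : ℕ}

/-- A sign change supported in `I` acts trivially on `c I`. -/
theorem tact_supp (S : MirrorSys Z J d) (I : Finset J) (g : J → ZMod 2) (hg : ∀ j ∉ I, g j = 0) :
    tact g (S.c I) = S.c I := by
  refine tact_fix g _ fun s hs t => ?_
  have h : g ∈ AddAction.stabilizer (J → ZMod 2) (s.2 t) := by
    rw [← Finset.univ_sum_single g]
    refine sum_mem fun i _ => ?_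
    by_cases hi : i ∈ I
    · rcases z2_cases (g i) with h0 | h1
      · rw [h0, Pi.single_zero]
        exact zero_mem _
      · rw [h1]
        exact S.fix I i hi s hs t
    · rw [hg i hi, Pi.single_zero]
      exact zero_mem _
  exact h

theorem full_inv (S : MirrorSys Z J d) (I : Finset J) (g : J → ZMod 2) :
    tact g (S.full I) = S.full I := by
  classical
  unfold MirrorSys.full
  rw [map_sum]
  let g₁ : J → ZMod 2 := fun j => if j ∈ I then 0 else g j
  let g₂ : J → ZMod 2 := fun j => if j ∈ I then g j else 0
  have hg : g = g₁ + g₂ := by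
    funext j
    by_cases h : j ∈ I <;> simp [g₁, g₂, h]
  have h₂ : tact g₂ (S.c I) = S.c I := tact_supp S I g₂ fun j hj => by simp [g₂, hj]
  refine Finset.sum_equiv (Equiv.addLeft g₁) ?_ ?_
  · intro h
    simp only [Finset.mem_filter, Finset.mem_univ, true_and, Equiv.coe_addLeft, Pi.add_apply]
    refine forall₂_congr fun i hi => ?_
    simp [g₁, hi]
  · intro h _
    show tact g (tact h (S.c I)) = tact (g₁ + h) (S.c I)
    rw [← tact_add, hg, add_right_comm, tact_add, h₂]

theorem full_bd (S : MirrorSys Z J d) (I : Finset J) : tbd (S.full I) = 0 := by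
  classical
  unfold MirrorSys.full
  rw [map_sum]
  have h1 : ∀ g : J → ZMod 2, tbd (tact g (S.c I)) = ∑ i ∈ Iᶜ, tact g (S.c (insert i I)) := by
    intro g
    rw [tbd_tact, S.bdc I, map_sum]
  rw [Finset.sum_congr rfl fun g _ => h1 g, Finset.sum_comm]
  refine Finset.sum_eq_zero fun i hi => ?_
  have hiI : i ∉ I := Finset.mem_compl.mp hi
  have hfix : tact (Pi.single i 1 : J → ZMod 2) (S.c (insert i I)) = S.c (insert i I) := by
    refine tact_supp S _ _ fun j hj => ?_
    have : j ≠ i := fun h => hj (h ▸ Finset.mem_insert_self i I)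
    simp [this]
  refine Finset.sum_involution (fun g _ => g + Pi.single i 1) ?_ ?_ ?_ ?_
  · intro g _
    rw [tact_add, hfix, add_self]
  · intro g _ _ h
    have h2 := congrFun h i
    simp at h2
  · intro g hg
    simp only [Finset.mem_filter, Finset.mem_univ, true_and] at hg ⊢
    intro j hj
    have : j ≠ i := fun h => hiI (h ▸ hj)
    simp [this, hg j hj]
  · intro g _
    funext j
    by_cases h : j = i
    · subst h
      simp [add_assoc, z2_one_add_one]
    · simp [h]

end sys

end MSYSF

open MSYSF in
theorem SYSF : Stmt_SYSF := by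
  intro Z _ J _ _ _ _ d S I
  exact ⟨fun g => full_inv S I g, full_bd S I⟩

open MSYSF in
theorem EMPT : Stmt_EMPT := by
  intro Z _ J _ _ _ _ d S I h
  have h0 : S.c I = 0 := by
    rw [← Finsupp.support_eq_empty, Finset.eq_empty_iff_forall_notMem]
    intro s hs
    obtain ⟨i, hi, hne⟩ := h (s.2 (vtx 0))
    exact hne (S.fix I i hi s hs (vtx 0))
  refine ⟨h0, ?_⟩
  unfold MirrorSys.full
  simp [h0]

end TC
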