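import Pool.Agent.TC.Cyc.Stmts2

/-!
# Block CYC, module SYSM: the mirror system of `Mh`
-/

set_option autoImplicit false

open scoped Topology

noncomputable section

namespace TC

namespace SYSMod

/-- The index set of the product. -/
abbrev JJ : Type := (((Fin 2 ⊕ Fin 2) ⊕ Fin 2) ⊕ Fin 2) ⊕ Fin 4

/-- The order of the coordinates. -/
def eFun : JJ → Fin 12 :=
  Sum.elim (Sum.elim (Sum.elim (Sum.elim ![0, 1] ![2, 3]) ![4, 5]) ![6, 7]) ![8, 9, 10, 11]

theorem eFun_bij : Function.Bijective eFun := by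
  unfold eFun
  decide

/-- The order of the coordinates, as an equivalence. -/
def eM : JJ ≃ Fin 12 := Equiv.ofBijective eFun eFun_bij

theorem eM_apply (j : JJ) : eM j = eFun j := rfl

/-- The product of the factors. -/
abbrev ZP : Type := (((CC × CC) × CC) × CC) × YY

/-- The coordinates of a point of the product. -/
def fFun (z : ZP) : Fin 8 → Circle :=
  ![z.1.1.1.1, z.1.1.1.2, z.1.1.2, z.1.2, z.2.1 0, z.2.1 1, z.2.1 2, z.2.1 3]

theorem continuous_YY (i : Fin 4) : Continuous fun y : YY => (y.1 i : Circle) :=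
  (continuous_apply i).comp (continuous_subtype_val (X := Fin 4 → Circle)
    (p := fun z => (2 - (z 0 : ℂ).re - (z 1 : ℂ).re) * (2 - (z 2 : ℂ).re - (z 3 : ℂ).re) = 2))

theorem continuous_fFun : Continuous fFun := by
  refine continuous_pi fun i => ?_
  fin_cases i
  · exact ((continuous_fst.comp continuous_fst).comp continuous_fst).comp continuous_fst
  · exact ((continuous_snd.comp continuous_fst).comp continuous_fst).comp continuous_fst
  · exact (continuous_snd.comp continuous_fst).comp continuous_fst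
  · exact continuous_snd.comp continuous_fst
  · exact (continuous_YY 0).comp continuous_snd
  · exact (continuous_YY 1).comp continuous_snd
  · exact (continuous_YY 2).comp continuous_snd
  · exact (continuous_YY 3).comp continuous_snd

/-- The map of the product to `Mh`. -/
def fM : C(ZP, Mh) :=
  ⟨fun z => ⟨fFun z, z.2.2⟩, Continuous.subtype_mk continuous_fFun _⟩

theorem fM_equiv (g : Fin 12 → ZMod 2) (z : ZP) : fM ((g ∘ eM) +ᵥ z) = g +ᵥ fM z := by
  apply Subtype.ext
  funext i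
  rw [vadd12_apply]
  fin_cases i <;> rfl

theorem tpair_tmap {X Y : Type} [TopologicalSpace X] [TopologicalSpace Y] (f : C(X, Y))
    (z : TCh X) : tpair oneCo (tmap f z) = tpair oneCo z := by
  induction z using Finsupp.induction_linear with
  | zero => simp
  | add x y hx hy => rw [map_add, map_add, map_add, hx, hy]
  | single s a =>
    have h1 : tmap f (Finsupp.single s a) = Finsupp.single (mapS f s) a := by
      simp [tmap, Finsupp.mapDomain_single]
    rw [h1]
    simp only [tpair, Finsupp.linearCombination_single]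
    rfl

theorem ItopM_eq :
    (((((({0} : Finset (Fin 2)).disjSum ({0} : Finset (Fin 2))).disjSum
      ({0} : Finset (Fin 2))).disjSum ({0} : Finset (Fin 2))).disjSum
        ({0, 1, 2} : Finset (Fin 4))).map eM.toEmbedding) = ItopM := by
  ext i
  simp only [Finset.mem_map, ItopM]
  constructor
  · rintro ⟨j, hj, rfl⟩
    have h : ∀ j : JJ, j ∈ ((((({0} : Finset (Fin 2)).disjSum ({0} : Finset (Fin 2))).disjSum
      ({0} : Finset (Fin 2))).disjSum ({0} : Finset (Fin 2))).disjSum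
        ({0, 1, 2} : Finset (Fin 4))) → eFun j ∈ ({0, 2, 4, 6, 8, 9, 10} : Finset (Fin 12)) := by
      unfold eFun
      decide
    exact h j hj
  · intro hi
    have h : ∀ i : Fin 12, i ∈ ({0, 2, 4, 6, 8, 9, 10} : Finset (Fin 12)) → ∃ j : JJ,
        j ∈ ((((({0} : Finset (Fin 2)).disjSum ({0} : Finset (Fin 2))).disjSum
      ({0} : Finset (Fin 2))).disjSum ({0} : Finset (Fin 2))).disjSum
        ({0, 1, 2} : Finset (Fin 4))) ∧ eFun j = i := by
      unfold eFun
      decide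
    exact h i hi

end SYSMod

open SYSMod in
theorem SYSM (h1 : Stmt_SYS1) (h2 : Stmt_SYSY) (h3 : Stmt_PROD) (h4 : Stmt_MAPS)
    (h5 : Stmt_CRSC) : Stmt_SYSM := by
  obtain ⟨S, hS⟩ := h1
  obtain ⟨SY, hSY⟩ := h2
  obtain ⟨P2, hP2, -⟩ := h3 CC CC (Fin 2) (Fin 2) 1 1 S S
  obtain ⟨P3, hP3, -⟩ := h3 (CC × CC) CC (Fin 2 ⊕ Fin 2) (Fin 2) (1 + 1) 1 P2 S
  obtain ⟨P4, hP4, -⟩ := h3 ((CC × CC) × CC) CC ((Fin 2 ⊕ Fin 2) ⊕ Fin 2) (Fin 2) (1 + 1 + 1) 1
    P3 S
  obtain ⟨P5, hP5, -⟩ := h3 (((CC × CC) × CC) × CC) YY (((Fin 2 ⊕ Fin 2) ⊕ Fin 2) ⊕ Fin 2) (Fin 4)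
    (1 + 1 + 1 + 1) 3 P4 SY
  obtain ⟨T, hT, -⟩ := h4 ZP Mh JJ (Fin 12) eM fM fM_equiv (1 + 1 + 1 + 1 + 3) P5
  refine ⟨T, ?_⟩
  rw [← ItopM_eq, hT, tpair_tmap, hP5, (h5 _ _ _ _).2.2, hP4, (h5 _ _ _ _).2.2, hP3,
    (h5 _ _ _ _).2.2, hP2, (h5 _ _ _ _).2.2, hS, hSY]
  simp

end TC
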