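import Pool.Agent.TC.Cyc.Stmts2

/-!
# Block CYC, module SYST: the descent of `full I` when the group is a complement
-/

set_option autoImplicit false

open scoped Topology

noncomputable section

namespace TC

namespace SYSTaux

variable {Z : Type} [TopologicalSpace Z]

/-- The translate only depends on the action. -/
theorem tact_congr {A B : Type} [AddGroup A] [AddAction A Z] [ContinuousConstVAdd A Z]
    [AddGroup B] [AddAction B Z] [ContinuousConstVAdd B Z] (a : A) (b : B)
    (h : ∀ z : Z, a +ᵥ z = b +ᵥ z) (c : TCh Z) : tact a c = tact b c := by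
  have : (⟨fun z : Z => a +ᵥ z, continuous_const_vadd a⟩ : C(Z, Z))
      = ⟨fun z : Z => b +ᵥ z, continuous_const_vadd b⟩ := by
    ext z; exact h z
  show tmap _ c = tmap _ c
  rw [this]

/-- A translation which fixes all the simplices of a chain fixes the chain. -/
theorem tact_fix {A : Type} [AddGroup A] [AddAction A Z] [ContinuousConstVAdd A Z] (a : A)
    (c : TCh Z) (h : ∀ s ∈ c.support, ∀ t, a +ᵥ s.2 t = s.2 t) : tact a c = c := by
  show Finsupp.mapDomain (mapS _) c = c
  conv_rhs => rw [← Finsupp.mapDomain_id (v := c)]
  refine Finsupp.mapDomain_congr fun s hs => ?_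
  rw [id]
  obtain ⟨k, σ⟩ := s
  unfold mapS
  congr 1
  ext t
  exact h _ hs t

/-- Composition of translations. -/
theorem tact_add {A : Type} [AddGroup A] [AddAction A Z] [ContinuousConstVAdd A Z] (a b : A)
    (c : TCh Z) : tact (a + b) c = tact a (tact b c) := by
  show Finsupp.mapDomain (mapS _) c = Finsupp.mapDomain (mapS _) (Finsupp.mapDomain (mapS _) c)
  rw [← Finsupp.mapDomain_comp]
  congr 1
  funext s
  obtain ⟨k, σ⟩ := s
  show (⟨k, _⟩ : SSx Z) = ⟨k, _⟩
  congr 1
  ext t
  exact add_vadd a b (σ t)

variable {J : Type} [Fintype J] [DecidableEq J] [AddAction (J → ZMod 2) Z]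

/-- Sign changes supported in `I` fix what the basic sign changes fix. -/
theorem fix_of_single (I : Finset J) (z : Z)
    (h : ∀ i ∈ I, (Pi.single i 1 : J → ZMod 2) +ᵥ z = z) (g : J → ZMod 2)
    (hg : ∀ j, j ∉ I → g j = 0) : g +ᵥ z = z := by
  have key : ∀ K : Finset J, K ⊆ I → (∑ i ∈ K, (Pi.single i (g i) : J → ZMod 2)) +ᵥ z = z := by
    intro K
    induction K using Finset.induction_on with
    | empty => intro _; rw [Finset.sum_empty, zero_vadd]
    | insert i K hi ih =>
      intro hK
      rw [Finset.sum_insert hi, add_vadd, ih fun j hj => hK (Finset.mem_insert_of_mem hj)]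
      rcases z2_cases (g i) with h0 | h1
      · rw [h0, Pi.single_zero, zero_vadd]
      · rw [h1]
        exact h i (hK (Finset.mem_insert_self i K))
  have e : g = ∑ i ∈ I, (Pi.single i (g i) : J → ZMod 2) := by
    funext j
    rw [Finset.sum_apply]
    by_cases hj : j ∈ I
    · rw [Finset.sum_eq_single_of_mem j hj fun b _ hb => Pi.single_eq_of_ne (Ne.symm hb) _,
        Pi.single_eq_same]
    · rw [hg j hj]
      symm
      refine Finset.sum_eq_zero fun i hi => ?_
      have hji : j ≠ i := fun h => hj (by rw [h]; exact hi)
      exact Pi.single_eq_of_ne hji _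
  rw [e]
  exact key I (Finset.Subset.refl I)

end SYSTaux

open SYSTaux in
/-- SYST: if the group is a complement of the sign changes in `I`, then the descent of `full I` is
the image of `c I`. -/
theorem SYST (h1 : Stmt_DSUM) : Stmt_SYST := by
  intro Z _ J _ _ _ _ d S E _ A _ _ _ _ X hX q hq I hI
  have hsum : S.full I = ∑ h : A, tact h (S.c I) := by
    unfold MirrorSys.full
    symm
    refine Finset.sum_bij (fun h _ => fun j => if j ∈ I then 0 else X h j) ?_ ?_ ?_ ?_
    · intro h _
      rw [Finset.mem_filter]
      exact ⟨Finset.mem_univ _, fun i hi => if_pos hi⟩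
    · intro h₁ _ h₂ _ he
      have hz : ∀ i ∈ I, (fun j => if j ∈ I then 0 else X h₂ j : J → ZMod 2) i = 0 :=
        fun i hi => if_pos hi
      refine (hI _ hz).unique (fun j hj => ?_) (fun j hj => ?_)
      · have := congrFun he j
        simp only [if_neg hj] at this
        rw [this]
        exact (if_neg hj).symm
      · exact (if_neg hj).symm
    · intro g hg
      obtain ⟨h, hh, -⟩ := hI g (Finset.mem_filter.mp hg).2
      refine ⟨h, Finset.mem_univ _, ?_⟩
      funext j
      by_cases hj : j ∈ I
      · show (if j ∈ I then 0 else X h j) = g j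
        rw [if_pos hj, (Finset.mem_filter.mp hg).2 j hj]
      · show (if j ∈ I then 0 else X h j) = g j
        rw [if_neg hj, hh j hj]
    · intro h _
      have e1 : tact h (S.c I) = tact (X h) (S.c I) := tact_congr _ _ (hX h) _
      have e2 : X h = (fun j => if j ∈ I then 0 else X h j)
          + (fun j => if j ∈ I then X h j else 0) := by
        funext j
        show X h j = (if j ∈ I then 0 else X h j) + (if j ∈ I then X h j else 0)
        by_cases hj : j ∈ I
        · rw [if_pos hj, if_pos hj, zero_add]
        · rw [if_neg hj, if_neg hj, add_zero]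
      rw [e1]
      conv_lhs => rw [e2]
      rw [tact_add]
      congr 1
      refine tact_fix _ _ fun s hs t => ?_
      refine fix_of_single I _ (fun i hi => S.fix I i hi s hs t) _ fun j hj => ?_
      exact if_neg hj
  rw [hsum]
  exact h1 Z E A q hq (S.c I)

end TC
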