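import Pool.Agent.TC.Cyc.Stmts2

/-!
# Block CYC, module SYSY: the mirror system of the hypersurface `Y`

The system comes from a polytope in three-space with eight facets.
-/

set_option autoImplicit false

open scoped Topology

noncomputable section

namespace TC

namespace SYSYm

/-! ### Combinatorics of the polytope -/

/-- Facets that do not meet. -/
def nadj : Fin 8 → Fin 8 → Bool
  | 0, 4 | 4, 0 | 1, 5 | 5, 1 | 2, 6 | 6, 2 | 3, 7 | 7, 3 => true
  | 0, 1 | 1, 0 | 2, 3 | 3, 2 | 4, 6 | 6, 4 | 4, 7 | 7, 4 | 5, 6 | 6, 5 | 5, 7 | 7, 5 => true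
  | _, _ => false

/-- The faces. -/
abbrev fc8 (σ : Finset (Fin 8)) : Prop := ∀ a ∈ σ, ∀ b ∈ σ, nadj a b = false

/-- The vertices as sets of facets. -/
def tri : Fin 12 → Finset (Fin 8) :=
  ![{0, 5, 2}, {4, 1, 2}, {4, 5, 2}, {0, 5, 3}, {4, 1, 3}, {4, 5, 3}, {0, 2, 7}, {1, 2, 7},
    {0, 3, 6}, {1, 3, 6}, {0, 6, 7}, {1, 6, 7}]

/-- The vertices, times four. -/
def vz : Fin 12 → Fin 3 → ℤ :=
  ![![0, 4, -4], ![4, 0, -4], ![4, 4, -4], ![0, 4, 4], ![4, 0, 4], ![4, 4, 4], ![0, 2, -4],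
    ![2, 0, -4], ![0, 2, 4], ![2, 0, 4], ![0, 1, 0], ![1, 0, 0]]

/-- Constant terms of the equations of the facets. -/
def cz : Fin 8 → ℤ := ![0, 0, 1, 1, 1, 1, -1, -1]

/-- Linear terms of the equations of the facets. -/
def mz : Fin 8 → Fin 3 → ℤ :=
  ![![1, 0, 0], ![0, 1, 0], ![0, 0, 1], ![0, 0, -1], ![-1, 0, 0], ![0, -1, 0], ![4, 4, -1],
    ![4, 4, 1]]

/-- A vertex of a face. -/
def idx (σ : Finset (Fin 8)) : Fin 12 :=
  ((List.finRange 12).find? (fun t => decide (σ ⊆ tri t))).getD 0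

/-- The colours. -/
def col8 : Fin 8 → Fin 4 := ![0, 1, 2, 3, 0, 1, 2, 3]

theorem c1 : ∀ σ : Finset (Fin 8), fc8 σ → σ.card ≤ 3 := by decide +kernel

theorem c2 : ∀ σ : Finset (Fin 8), fc8 σ → σ.card + 1 = 3 →
    Even (Finset.univ.filter fun a => a ∉ σ ∧ fc8 (insert a σ)).card := by decide +kernel

theorem c3 : ∀ σ : Finset (Fin 8), fc8 σ → ∀ a ∈ σ,
    4 * cz a + (mz a 0 * vz (idx σ) 0 + mz a 1 * vz (idx σ) 1 + mz a 2 * vz (idx σ) 2) = 0 := by
  decide +kernel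

theorem c4 : ∀ (a : Fin 8) (t : Fin 12),
    0 ≤ 4 * cz a + (mz a 0 * vz t 0 + mz a 1 * vz t 1 + mz a 2 * vz t 2) := by
  decide +kernel

theorem c5 : ∀ a b : Fin 8, a ≠ b → col8 a = col8 b → nadj a b = true := by decide +kernel

theorem c6 : (∑ σ ∈ Finset.univ.filter (fun σ : Finset (Fin 8) =>
    σ.image col8 = {0, 1, 2} ∧ σ.card = 3), if fc8 σ then (1 : F2) else 0) = 1 := by
  decide +kernel

/-! ### The polytope -/

/-- The equations of the facets. -/
def ell (a : Fin 8) (x : Fin 3 → ℝ) : ℝ :=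
  (cz a : ℝ) + ((mz a 0 : ℝ) * x 0 + (mz a 1 : ℝ) * x 1 + (mz a 2 : ℝ) * x 2)

theorem ell_sum (a : Fin 8) {n : ℕ} (t : Fin n → ℝ) (ht : ∑ i, t i = 1)
    (v : Fin n → Fin 3 → ℝ) : ell a (∑ i, t i • v i) = ∑ i, t i * ell a (v i) := by
  have h : ∀ j : Fin 3, (∑ i, t i • v i) j = ∑ i, t i * v i j := by
    intro j
    rw [Finset.sum_apply]
    rfl
  unfold ell
  rw [h, h, h]
  simp only [mul_add, Finset.sum_add_distrib]
  rw [← Finset.sum_mul, ht, one_mul, Finset.mul_sum, Finset.mul_sum, Finset.mul_sum]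
  congr 1
  congr 1
  · congr 1
    · exact Finset.sum_congr rfl fun i _ => by ring
    · exact Finset.sum_congr rfl fun i _ => by ring
  · exact Finset.sum_congr rfl fun i _ => by ring

/-- The polytope. -/
def P8 : Set (Fin 3 → ℝ) := {x | ∀ a, 0 ≤ ell a x}

theorem convex_P8 : Convex ℝ P8 := by
  intro x hx y hy s t hs ht hst a
  have h : ell a (s • x + t • y) = s * ell a x + t * ell a y := by
    have e := ell_sum a ![s, t] (by simpa using hst) ![x, y]
    simpa using e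
  rw [h]
  exact add_nonneg (mul_nonneg hs (hx a)) (mul_nonneg ht (hy a))

instance : Cvx P8 := Cvx.ofConvex P8 convex_P8

/-- The facets. -/
def Fct (a : Fin 8) : Set P8 := {x | ell a x.1 = 0}

theorem comb_mem (a : Fin 8) (k : ℕ) (v : Fin (k + 1) → P8) (hv : ∀ i, v i ∈ Fct a) (t) :
    Cvx.comb v t ∈ Fct a := by
  show ell a (∑ i, t.1 i • (v i).1) = 0
  rw [ell_sum a t.1 t.2.2 fun i => (v i).1]
  refine Finset.sum_eq_zero fun i _ => ?_
  have h : ell a (v i).1 = 0 := hv i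
  rw [h, mul_zero]

/-- The vertices. -/
def vert (t : Fin 12) : Fin 3 → ℝ := fun j => (vz t j : ℝ) / 4

theorem ell_vert (a : Fin 8) (t : Fin 12) : 4 * ell a (vert t) =
    ((4 * cz a + (mz a 0 * vz t 0 + mz a 1 * vz t 1 + mz a 2 * vz t 2) : ℤ) : ℝ) := by
  unfold ell vert
  push_cast
  ring

theorem vert_mem (t : Fin 12) : vert t ∈ P8 := by
  intro a
  have h1 := ell_vert a t
  have h2 : (0 : ℝ) ≤ ((4 * cz a + (mz a 0 * vz t 0 + mz a 1 * vz t 1 + mz a 2 * vz t 2) : ℤ) :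
      ℝ) := by exact_mod_cast c4 a t
  linarith

/-- The base points. -/
def base (σ : Finset (Fin 8)) : P8 := ⟨vert (idx σ), vert_mem _⟩

theorem base_mem (σ : Finset (Fin 8)) (hσ : fc8 σ) (a : Fin 8) (ha : a ∈ σ) :
    base σ ∈ Fct a := by
  show ell a (vert (idx σ)) = 0
  have h1 := ell_vert a (idx σ)
  rw [c3 σ hσ a ha] at h1
  simpa using h1

theorem ells (x : Fin 3 → ℝ) : ell 0 x = x 0 ∧ ell 1 x = x 1 ∧ ell 2 x = 1 + x 2 ∧
    ell 3 x = 1 - x 2 ∧ ell 4 x = 1 - x 0 ∧ ell 5 x = 1 - x 1 ∧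
    ell 6 x = 4 * (x 0 + x 1) - (1 + x 2) ∧ ell 7 x = 4 * (x 0 + x 1) - (1 - x 2) := by
  refine ⟨?_, ?_, ?_, ?_, ?_, ?_, ?_, ?_⟩ <;>
    simp [ell, cz, mz] <;> ring

theorem pos_P8 (x : P8) : 0 < x.1 0 + x.1 1 := by
  obtain ⟨-, -, -, -, -, -, h6, h7⟩ := ells x.1
  have e6 := x.2 6
  have e7 := x.2 7
  rw [h6] at e6
  rw [h7] at e7
  linarith

/-! ### The map to `Y` -/

/-- The four coordinates. -/
def av (x : Fin 3 → ℝ) : Fin 4 → ℝ :=
  ![x 0, x 1, (1 + x 2) / (4 * (x 0 + x 1)), (1 - x 2) / (4 * (x 0 + x 1))]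

theorem av_mem (x : P8) (i : Fin 4) : 0 ≤ av x.1 i ∧ av x.1 i ≤ 1 := by
  obtain ⟨h0, h1, h2, h3, h4, h5, h6, h7⟩ := ells x.1
  have e0 := x.2 0
  have e1 := x.2 1
  have e2 := x.2 2
  have e3 := x.2 3
  have e4 := x.2 4
  have e5 := x.2 5
  have e6 := x.2 6
  have e7 := x.2 7
  rw [h0] at e0
  rw [h1] at e1
  rw [h2] at e2
  rw [h3] at e3
  rw [h4] at e4
  rw [h5] at e5
  rw [h6] at e6
  rw [h7] at e7
  have hp := pos_P8 x
  fin_cases i
  · show 0 ≤ x.1 0 ∧ x.1 0 ≤ 1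
    constructor <;> linarith
  · show 0 ≤ x.1 1 ∧ x.1 1 ≤ 1
    constructor <;> linarith
  · show 0 ≤ (1 + x.1 2) / (4 * (x.1 0 + x.1 1)) ∧ (1 + x.1 2) / (4 * (x.1 0 + x.1 1)) ≤ 1
    refine ⟨by positivity, ?_⟩
    rw [div_le_one (by positivity)]
    linarith
  · show 0 ≤ (1 - x.1 2) / (4 * (x.1 0 + x.1 1)) ∧ (1 - x.1 2) / (4 * (x.1 0 + x.1 1)) ≤ 1
    refine ⟨by positivity, ?_⟩
    rw [div_le_one (by positivity)]
    linarith

/-- The point of the circle with real part `1 - 2 a`. -/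
def pt (a : ℝ) : Circle := Circle.exp (Real.arccos (1 - 2 * a))

theorem pt_re {a : ℝ} (h0 : 0 ≤ a) (h1 : a ≤ 1) : ((pt a : Circle) : ℂ).re = 1 - 2 * a := by
  rw [pt, Circle.coe_exp, Complex.exp_ofReal_mul_I_re, Real.cos_arccos (by linarith)
    (by linarith)]

theorem pt_im (a : ℝ) : ((pt a : Circle) : ℂ).im = Real.sqrt (1 - (1 - 2 * a) ^ 2) := by
  rw [pt, Circle.coe_exp, Complex.exp_ofReal_mul_I_im, Real.sin_arccos]

theorem continuous_pt : Continuous pt :=
  Circle.exp.continuous.comp (Real.continuous_arccos.comp (by fun_prop))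

/-- The map to the surface factor. -/
def kap : C(P8, YY) where
  toFun x := ⟨fun i => pt (av x.1 i), by
    rw [pt_re (av_mem x 0).1 (av_mem x 0).2, pt_re (av_mem x 1).1 (av_mem x 1).2,
      pt_re (av_mem x 2).1 (av_mem x 2).2, pt_re (av_mem x 3).1 (av_mem x 3).2]
    show (2 - (1 - 2 * x.1 0) - (1 - 2 * x.1 1)) *
      (2 - (1 - 2 * ((1 + x.1 2) / (4 * (x.1 0 + x.1 1)))) -
        (1 - 2 * ((1 - x.1 2) / (4 * (x.1 0 + x.1 1))))) = 2
    have hp := (pos_P8 x).ne'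
    field_simp
    ring⟩
  continuous_toFun := by
    refine Continuous.subtype_mk ?_ _
    refine continuous_pi fun i => continuous_pt.comp ?_
    have c0 : Continuous fun x : P8 => x.1 0 := (continuous_apply 0).comp continuous_subtype_val
    have c1 : Continuous fun x : P8 => x.1 1 := (continuous_apply 1).comp continuous_subtype_val
    have c2 : Continuous fun x : P8 => x.1 2 := (continuous_apply 2).comp continuous_subtype_val
    have c3 : Continuous fun x : P8 => 4 * (x.1 0 + x.1 1) := continuous_const.mul (c0.add c1)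
    have c4 : ∀ x : P8, 4 * (x.1 0 + x.1 1) ≠ 0 := fun x => by
      have := pos_P8 x
      positivity
    fin_cases i
    · exact c0
    · exact c1
    · exact (continuous_const.add c2).div c3 c4
    · exact (continuous_const.sub c2).div c3 c4

theorem flip_pt {a : ℝ} (h : a = 0 ∨ a = 1) : flipC 0 1 (pt a) = pt a := by
  have him : ((pt a : Circle) : ℂ).im = 0 := by
    rw [pt_im]
    rcases h with rfl | rfl <;> norm_num
  apply Circle.ext
  apply Complex.ext
  · rw [flipC_re, sg_zero, one_mul]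
  · rw [flipC_im, him, mul_zero]

theorem av_facet (a : Fin 8) (x : P8) (hx : x ∈ Fct a) :
    av x.1 (col8 a) = 0 ∨ av x.1 (col8 a) = 1 := by
  have h : ell a x.1 = 0 := hx
  obtain ⟨h0, h1, h2, h3, h4, h5, h6, h7⟩ := ells x.1
  have hp := (pos_P8 x).ne'
  fin_cases a
  · left
    show x.1 0 = 0
    rw [← h0]; exact h
  · left
    show x.1 1 = 0
    rw [← h1]; exact h
  · left
    show (1 + x.1 2) / (4 * (x.1 0 + x.1 1)) = 0
    rw [← h2]
    have h' : ell 2 x.1 = 0 := h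
    rw [h', zero_div]
  · left
    show (1 - x.1 2) / (4 * (x.1 0 + x.1 1)) = 0
    rw [← h3]
    have h' : ell 3 x.1 = 0 := h
    rw [h', zero_div]
  · right
    show x.1 0 = 1
    have h' : ell 4 x.1 = 0 := h
    rw [h4] at h'
    linarith
  · right
    show x.1 1 = 1
    have h' : ell 5 x.1 = 0 := h
    rw [h5] at h'
    linarith
  · right
    show (1 + x.1 2) / (4 * (x.1 0 + x.1 1)) = 1
    have h' : ell 6 x.1 = 0 := h
    rw [h6] at h'
    rw [div_eq_one_iff_eq (by positivity)]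
    linarith
  · right
    show (1 - x.1 2) / (4 * (x.1 0 + x.1 1)) = 1
    have h' : ell 7 x.1 = 0 := h
    rw [h7] at h'
    rw [div_eq_one_iff_eq (by positivity)]
    linarith

theorem kap_fix (a : Fin 8) (x : P8) (hx : x ∈ Fct a) :
    (Pi.single (col8 a) 1 : Fin 4 → ZMod 2) +ᵥ kap x = kap x := by
  apply Subtype.ext
  funext i
  rw [vaddYY_apply]
  show flipC 0 ((Pi.single (col8 a) 1 : Fin 4 → ZMod 2) i) (pt (av x.1 i)) = pt (av x.1 i)
  by_cases hi : i = col8 a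
  · subst hi
    rw [Pi.single_eq_same]
    exact flip_pt (av_facet a x hx)
  · rw [Pi.single_eq_of_ne hi, flipC_zero]

theorem tpair_tmap {X Y : Type} [TopologicalSpace X] [TopologicalSpace Y] (f : C(X, Y))
    (z : TCh X) : tpair oneCo (tmap f z) = tpair oneCo z := by
  induction z using Finsupp.induction_linear with
  | zero => simp
  | add a b ha hb => rw [map_add, map_add, map_add, ha, hb]
  | single s c =>
    have h1 : tmap f (Finsupp.single s c) = Finsupp.single (mapS f s) c := by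
      unfold tmap
      rw [Finsupp.lmapDomain_apply, Finsupp.mapDomain_single]
    rw [h1]
    unfold tpair
    rw [Finsupp.linearCombination_single, Finsupp.linearCombination_single]
    rfl

end SYSYm

open SYSYm in
theorem SYSY (h1 : Stmt_POLY) (h2 : Stmt_SYSP) : Stmt_SYSY := by
  obtain ⟨P, hP1, hP2, hP3, hP4, hP5⟩ := h1 P8 (Fin 8) fc8 3 base Fct
    (fun σ τ hst hτ a ha b hb => hτ a (hst ha) b (hst hb)) c1 c2
    (fun a k v hv t => comb_mem a k v hv t)
    (fun σ hσ a ha => base_mem σ hσ a ha)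
  obtain ⟨S, hS⟩ := h2 P8 (Fin 8) 3 Fct P hP1 hP2 hP3 YY (Fin 4) kap col8
    (by
      intro σ a ha a' ha' hne hcol
      apply hP4
      intro hfc
      have e1 := hfc a ha a' ha'
      rw [c5 a a' hne hcol] at e1
      exact Bool.noConfusion e1)
    (fun a x hx => kap_fix a x hx)
  refine ⟨S, ?_⟩
  rw [hS {0, 1, 2}, map_sum]
  have hcard : ({0, 1, 2} : Finset (Fin 4)).card = 3 := rfl
  rw [hcard]
  rw [← c6]
  refine Finset.sum_congr rfl fun σ hσ => ?_
  rw [Finset.mem_filter] at hσ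
  rw [tpair_tmap]
  by_cases hfc : fc8 σ
  · rw [if_pos hfc]
    exact hP5 σ hfc hσ.2.2
  · rw [if_neg hfc, hP4 σ hfc, map_zero]

end TC
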