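import Pool.Agent.TC.Cyc.Stmts2

/-!
# Block CYC, module TBB: identities of total chains
-/

set_option autoImplicit false

open scoped Topology

noncomputable section

namespace TC

section

variable {X Y : Type} [TopologicalSpace X] [TopologicalSpace Y]

theorem tbd_single' (s : SSx X) (a : F2) : tbd (Finsupp.single s a) = a • bdS s := by
  rw [tbd, Finsupp.linearCombination_single]

theorem tmap_single' (f : C(X, Y)) (s : SSx X) (a : F2) :
    tmap f (Finsupp.single s a) = Finsupp.single (mapS f s) a := by
  rw [tmap, Finsupp.lmapDomain_apply, Finsupp.mapDomain_single]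

theorem tpair_single' (α : TCo X) (s : SSx X) (a : F2) :
    tpair α (Finsupp.single s a) = a * α s := by
  rw [tpair, Finsupp.linearCombination_single, smul_eq_mul]

theorem incl_single' (k : ℕ) (σ : C(Simp k, X)) (a : F2) :
    incl k (Finsupp.single σ a) = Finsupp.single (⟨k, σ⟩ : SSx X) a := by
  rw [incl, Finsupp.lmapDomain_apply, Finsupp.mapDomain_single]

theorem bdS_succ' (k : ℕ) (σ : C(Simp (k + 1), X)) :
    bdS (⟨k + 1, σ⟩ : SSx X) =
      ∑ i : Fin (k + 2), Finsupp.single (⟨k, σ.comp (face i)⟩ : SSx X) 1 := rfl

theorem bdS_zero' (σ : C(Simp 0, X)) : bdS (⟨0, σ⟩ : SSx X) = 0 := rfl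

theorem face_comp_face' {k : ℕ} (i : Fin (k + 3)) (j : Fin (k + 2)) :
    (face i).comp (face j) =
      (face (i.succAbove j)).comp (face (j.predAbove i)) := by
  ext1 t
  show stdSimplex.map i.succAbove (stdSimplex.map j.succAbove t) =
    stdSimplex.map (i.succAbove j).succAbove (stdSimplex.map (j.predAbove i).succAbove t)
  rw [stdSimplex.map_comp_apply, stdSimplex.map_comp_apply]
  have h : (i.succAbove ∘ j.succAbove) =
      ((i.succAbove j).succAbove ∘ (j.predAbove i).succAbove) := by
    funext l
    exact (Fin.succAbove_succAbove_succAbove_predAbove i j l).symm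
  rw [h]

theorem tbd_bdS' (s : SSx X) : tbd (bdS s) = 0 := by
  obtain ⟨n, σ⟩ := s
  cases n with
  | zero => rw [bdS_zero', map_zero]
  | succ n =>
    cases n with
    | zero =>
      rw [bdS_succ', map_sum]
      refine Finset.sum_eq_zero fun i _ => ?_
      rw [tbd_single', bdS_zero', smul_zero]
    | succ k =>
      rw [bdS_succ', map_sum]
      have h : ∀ i : Fin (k + 3), tbd (Finsupp.single (⟨k + 1, σ.comp (face i)⟩ : SSx X) 1) =
          ∑ j : Fin (k + 2), Finsupp.single
            (⟨k, (σ.comp (face i)).comp (face j)⟩ : SSx X) (1 : F2) := by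
        intro i
        rw [tbd_single', one_smul, bdS_succ']
      rw [Finset.sum_congr rfl fun i _ => h i]
      rw [← Finset.sum_product' (s := (Finset.univ : Finset (Fin (k + 3))))
        (t := (Finset.univ : Finset (Fin (k + 2))))
        (f := fun i j => Finsupp.single
            (⟨k, (σ.comp (face i)).comp (face j)⟩ : SSx X) (1 : F2))]
      refine Finset.sum_involution (fun p _ => (p.1.succAbove p.2, p.2.predAbove p.1)) ?_ ?_ ?_ ?_
      · rintro ⟨i, j⟩ _
        show Finsupp.single (⟨k, (σ.comp (face i)).comp (face j)⟩ : SSx X) (1 : F2) +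
          Finsupp.single (⟨k, (σ.comp (face (i.succAbove j))).comp
            (face (j.predAbove i))⟩ : SSx X) (1 : F2) = 0
        have h2 : (σ.comp (face (i.succAbove j))).comp (face (j.predAbove i)) =
            (σ.comp (face i)).comp (face j) := by
          rw [ContinuousMap.comp_assoc, ContinuousMap.comp_assoc, ← face_comp_face']
        rw [h2, ← Finsupp.single_add]
        have h3 : (1 : F2) + 1 = 0 := by decide
        rw [h3, Finsupp.single_zero]
      · rintro ⟨i, j⟩ _ _ heq
        exact Fin.succAbove_ne i j (congrArg Prod.fst heq)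
      · rintro ⟨i, j⟩ _
        simp
      · rintro ⟨i, j⟩ _
        refine Prod.ext ?_ ?_
        · exact Fin.succAbove_succAbove_predAbove i j
        · exact Fin.predAbove_predAbove_succAbove i j

theorem tmap_bdS' (f : C(X, Y)) (s : SSx X) : tmap f (bdS s) = bdS (mapS f s) := by
  obtain ⟨n, σ⟩ := s
  cases n with
  | zero => rw [bdS_zero', map_zero]; rfl
  | succ k =>
    rw [bdS_succ', map_sum]
    show _ = ∑ i : Fin (k + 2), Finsupp.single (⟨k, (f.comp σ).comp (face i)⟩ : SSx Y) 1
    refine Finset.sum_congr rfl fun i _ => ?_
    rw [tmap_single']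
    rfl

theorem ext_same' (k : ℕ) (c : Coch X k) (σ : C(Simp k, X)) :
    ext k c (⟨k, σ⟩ : SSx X) = c σ := by
  simp [ext]

theorem ext_ne' (k n : ℕ) (c : Coch X k) (σ : C(Simp n, X)) (h : n ≠ k) :
    ext k c (⟨n, σ⟩ : SSx X) = 0 := by
  simp [ext, h]

theorem tpair_bdS_ext' (k : ℕ) (c : Coch X k) (hc : cobd c = 0) (s : SSx X) :
    tpair (ext k c) (bdS s) = 0 := by
  obtain ⟨n, σ⟩ := s
  cases n with
  | zero => rw [bdS_zero', map_zero]
  | succ n =>
    rw [bdS_succ', map_sum]
    by_cases h : n = k
    · subst h
      have h1 : cobd c σ = 0 := by rw [hc]; rfl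
      have h2 : cobd c σ = ∑ i : Fin (n + 2), c (σ.comp (face i)) := rfl
      rw [h2] at h1
      rw [← h1]
      refine Finset.sum_congr rfl fun i _ => ?_
      rw [tpair_single', one_mul, ext_same']
    · refine Finset.sum_eq_zero fun i _ => ?_
      rw [tpair_single', one_mul, ext_ne' k n c _ h]

end

theorem TBB : Stmt_TBB := by
  intro X Y _ _
  refine ⟨?_, ?_, ?_, ?_, ?_, ?_⟩
  · intro z
    induction z using Finsupp.induction_linear with
    | zero => simp
    | add x y hx hy => rw [map_add, map_add, hx, hy, add_zero]
    | single s a => rw [tbd_single', map_smul, tbd_bdS', smul_zero]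
  · intro f z
    induction z using Finsupp.induction_linear with
    | zero => simp
    | add x y hx hy => rw [map_add, map_add, map_add, map_add, hx, hy]
    | single s a => rw [tmap_single', tbd_single', tbd_single', map_smul, tmap_bdS']
  · intro k z
    induction z using Finsupp.induction_linear with
    | zero => simp
    | add x y hx hy => rw [map_add, map_add, map_add, map_add, hx, hy]
    | single σ a =>
      rw [incl_single', tbd_single', bd_single, bdS_succ', map_sum, Finset.smul_sum]
      refine Finset.sum_congr rfl fun i _ => ?_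
      rw [incl_single', Finsupp.smul_single, smul_eq_mul, mul_one]
  · intro k c z
    induction z using Finsupp.induction_linear with
    | zero => simp
    | add x y hx hy => rw [map_add, map_add, map_add, hx, hy]
    | single σ a => rw [incl_single', tpair_single', pair_single, ext_same']
  · intro k c hc z
    induction z using Finsupp.induction_linear with
    | zero => simp
    | add x y hx hy => rw [map_add, map_add, hx, hy, add_zero]
    | single s a => rw [tbd_single', map_smul, tpair_bdS_ext' k c hc, smul_zero]
  · intro α z
    induction z using Finsupp.induction_linear with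
    | zero => simp
    | add x y hx hy => rw [map_add, map_add, map_add, hx, hy]
    | single s a =>
      rw [tbd_single', tpair_single', map_smul, smul_eq_mul]
      rfl

end TC
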