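import Pool.Agent.TC.Cyc.Stmts2

/-!
# Block CYC, module TRF: the fibre transfer
-/

set_option autoImplicit false

open scoped Topology

noncomputable section

namespace TC

namespace TRFaux

section general

variable {X Y W : Type} [TopologicalSpace X] [TopologicalSpace Y] [TopologicalSpace W]

theorem tmap_single (f : C(X, Y)) (s : SSx X) (a : F2) :
    tmap f (Finsupp.single s a) = Finsupp.single (mapS f s) a := by
  simp [tmap, Finsupp.mapDomain_single]

theorem tmap_comp (g : C(Y, W)) (f : C(X, Y)) (z : TCh X) :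
    tmap g (tmap f z) = tmap (g.comp f) z := by
  induction z using Finsupp.induction_linear with
  | zero => simp
  | add x y hx hy => rw [map_add, map_add, map_add, hx, hy]
  | single s a => rw [tmap_single, tmap_single, tmap_single]; rfl

theorem tmap_id (z : TCh X) : tmap (ContinuousMap.id X) z = z := by
  induction z using Finsupp.induction_linear with
  | zero => simp
  | add x y hx hy => rw [map_add, hx, hy]
  | single s a => rw [tmap_single]; rfl

theorem mem_support_tmap (f : C(X, Y)) (z : TCh X) (s : SSx Y) (hs : s ∈ (tmap f z).support) :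
    ∃ s' ∈ z.support, mapS f s' = s := by
  classical
  have h1 := Finsupp.mapDomain_support (f := mapS f) (s := z) hs
  exact Finset.mem_image.mp h1

theorem exists_of_sum_ne {ι : Type} (F : Finset ι) (f : ι → TCh X) (s : SSx X)
    (h : (∑ i ∈ F, f i) s ≠ 0) : ∃ i ∈ F, f i s ≠ 0 := by
  rw [Finsupp.finsetSum_apply] at h
  exact Finset.exists_ne_zero_of_sum_ne_zero h

theorem deg_tmap (f : C(X, Y)) (z : TCh X) (k : ℕ) (h : ∀ s ∈ z.support, s.1 = k) :
    ∀ s ∈ (tmap f z).support, s.1 = k := by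
  intro s hs
  obtain ⟨s', h1, rfl⟩ := mem_support_tmap f z s hs
  exact h s' h1

theorem mapS_invol (g : C(X, X)) (hg : ∀ x, g (g x) = x) (s : SSx X) :
    mapS g (mapS g s) = s := by
  obtain ⟨k, σ⟩ := s
  have h : g.comp (g.comp σ) = σ := by
    ext t
    exact hg _
  show (⟨k, g.comp (g.comp σ)⟩ : SSx X) = ⟨k, σ⟩
  rw [h]

theorem tmap_invol_apply (g : C(X, X)) (hg : ∀ x, g (g x) = x) (z : TCh X) (s : SSx X) :
    tmap g z s = z (mapS g s) := by
  classical
  induction z using Finsupp.induction_linear with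
  | zero => simp
  | add x y hx hy => rw [map_add, Finsupp.add_apply, Finsupp.add_apply, hx, hy]
  | single r a =>
    rw [tmap_single, Finsupp.single_apply, Finsupp.single_apply]
    refine if_congr ⟨fun h => ?_, fun h => ?_⟩ rfl rfl
    · rw [← h, mapS_invol g hg]
    · rw [h, mapS_invol g hg]

theorem deg_full {Z : Type} [TopologicalSpace Z] {J : Type} [Fintype J] [DecidableEq J]
    [AddAction (J → ZMod 2) Z] [ContinuousConstVAdd (J → ZMod 2) Z] {d : ℕ}
    (S : MirrorSys Z J d) (I : Finset J) (s : SSx Z) (h : S.full I s ≠ 0) :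
    s.1 + I.card = d := by
  obtain ⟨g, -, hg⟩ := exists_of_sum_ne _ _ _ h
  obtain ⟨s', h3, h4⟩ := mem_support_tmap _ _ _ (Finsupp.mem_support_iff.mpr hg)
  have h5 := S.deg I s' h3
  rw [← h5]
  congr 1
  exact (congrArg Sigma.fst h4).symm

end general

/-! ### The concrete maps -/

/-- The half turn of `M`. -/
def gM : C(Mq, Mq) := ⟨actM 1, by
  apply Continuous.quotient_map'
  refine Continuous.subtype_mk ?_ _
  exact continuous_subtype_val.update 0
    (continuous_const.mul ((continuous_apply 0).comp continuous_subtype_val))⟩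

theorem gM_invol (m : Mq) : gM (gM m) = m := actM_one_invol m

/-- The sign change of the coordinate `z₀`. -/
def e0 : Fin 12 → ZMod 2 := ![1, 1, 0, 0, 0, 0, 0, 0, 0, 0, 0, 0]

theorem e0_vadd (w : Mh) : e0 +ᵥ w = rotM 1 w := by
  apply Subtype.ext
  funext i
  rw [vadd12_apply]
  by_cases hi : i = 0
  · subst hi
    rw [rotM_zero']
    have h1 : reS e0 0 = 1 := by simp [reS, e0]
    have h2 : imS e0 0 = 1 := by simp [imS, e0]
    rw [h1, h2, mul_one]
    have h3 : (Circle.exp Real.pi : Circle) = -1 := by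
      apply Circle.ext
      simp
    rw [h3]
    simp [flipC, z2_one_add_one]
  · rw [rotM_ne _ _ _ hi]
    have h1 : reS e0 i = 0 := by
      fin_cases i <;> simp [reS, e0] at hi ⊢
    have h2 : imS e0 i = 0 := by
      fin_cases i <;> simp [imS, e0] at hi ⊢
    rw [h1, h2, flipC_zero]

theorem tmap_gM (hDUN : Stmt_DUN) (hSYSF : Stmt_SYSF) (hq : IsAddQuotientCoveringMap qMc H5)
    (S : MirrorSys Mh (Fin 12) 7) (z : TCh Mq) (hz : IsDesc qMc (S.full ∅) z) :
    tmap gM z = z := by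
  apply hDUN Mh Mq H5 qMc hq (S.full ∅) _ _ _ hz
  intro s
  rw [tmap_invol_apply gM gM_invol]
  let G : C(Mh, Mh) := ⟨fun w => e0 +ᵥ w, continuous_const_vadd e0⟩
  have hG : ∀ w, G (G w) = w := by
    intro w
    show e0 +ᵥ (e0 +ᵥ w) = w
    rw [← add_vadd]
    have h : e0 + e0 = 0 := by
      funext i
      exact CharTwo.add_self_eq_zero _
    rw [h, zero_vadd]
  have h1 : mapS gM (mapS qMc s) = mapS qMc (mapS G s) := by
    obtain ⟨k, σ⟩ := s
    have h : gM.comp (qMc.comp σ) = qMc.comp (G.comp σ) := by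
      ext t
      show actM 1 (qM (σ t)) = qM (e0 +ᵥ σ t)
      rw [e0_vadd, actM_mk]
    show (⟨k, gM.comp (qMc.comp σ)⟩ : SSx Mq) = ⟨k, qMc.comp (G.comp σ)⟩
    rw [h]
  rw [h1, hz, ← tmap_invol_apply G hG]
  exact DFunLike.congr_fun ((hSYSF Mh (Fin 12) 7 S ∅).1 e0) s

theorem deg_z (hL : Stmt_LIFTA) (hq : IsAddQuotientCoveringMap qMc H5)
    (S : MirrorSys Mh (Fin 12) 7) (z : TCh Mq) (hz : IsDesc qMc (S.full ∅) z) :
    ∀ s ∈ z.support, s.1 = 7 := by
  rintro ⟨k, τ⟩ hs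
  obtain ⟨τ', rfl⟩ := hL Mh Mq H5 qMc hq k τ
  have h1 : z (mapS qMc ⟨k, τ'⟩) = S.full ∅ ⟨k, τ'⟩ := hz _
  have h2 : S.full ∅ ⟨k, τ'⟩ ≠ 0 := by
    rw [← h1]
    exact Finsupp.mem_support_iff.mp hs
  have h5 := deg_full S ∅ _ h2
  rwa [Finset.card_empty, add_zero] at h5

/-- The bundle projection. -/
abbrev prE : C(EE, RP2) := Tot.proj (actM 1) actM_one_invol

/-- The trivialisation of the pull back along `σ` given by a lift of `σ`. -/
def psi {j : ℕ} (s : C(Simp j, S2)) (σ : C(Simp j, RP2)) (h : qRc.comp s = σ) :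
    C(Mq × Simp j, PB prE σ) :=
  ⟨fun p => ⟨(p.2, totC (p.1, s p.2)), by
    rw [← h]
    rfl⟩, by
    refine Continuous.subtype_mk ?_ _
    fun_prop⟩

/-- The basic chain. -/
def bch (z : TCh Mq) (j : ℕ) : TCh (Mq × Simp j) :=
  cross z (Finsupp.single ⟨j, ContinuousMap.id (Simp j)⟩ 1)

/-- The total chain over `σ`. -/
def Tc (z : TCh Mq) {j : ℕ} (s : C(Simp j, S2)) (σ : C(Simp j, RP2)) (h : qRc.comp s = σ) :
    TCh (PB prE σ) := tmap (psi s σ h) (bch z j)

theorem deg_bch (hC : Stmt_CRSC) (z : TCh Mq) (hz : ∀ s ∈ z.support, s.1 = 7) (j : ℕ) :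
    ∀ s ∈ (bch z j).support, s.1 = 6 + 1 + j := by
  intro s hs
  obtain ⟨s₁, h1, s₂, h2, h3, -⟩ := (hC Mq (Simp j) z
    (Finsupp.single ⟨j, ContinuousMap.id (Simp j)⟩ 1)).2.1 s hs
  have h4 := Finsupp.support_single_subset h2
  rw [Finset.mem_singleton] at h4
  rw [h3, hz s₁ h1, h4]

theorem tot_neg (m : Mq) (b : S2) : totC (m, -b) = totC (gM m, b) := by
  apply Quotient.sound
  refine Or.inr ⟨rfl, ?_⟩
  show b = - -b
  rw [neg_neg]

/-- Independence of the lift. -/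
theorem Tc_indep (hLB : Stmt_LIFTB) (hR : Stmt_RPC) (hC : Stmt_CRSC) (z : TCh Mq)
    (hz : tmap gM z = z) {j : ℕ} (s s' : C(Simp j, S2)) (σ : C(Simp j, RP2))
    (h : qRc.comp s = σ) (h' : qRc.comp s' = σ) : Tc z s σ h = Tc z s' σ h' := by
  obtain ⟨a, ha⟩ := hLB S2 RP2 (ZMod 2) qRc hR j s s' (h.trans h'.symm)
  rcases z2_cases a with rfl | rfl
  · have : s = s' := by
      ext1 t
      rw [ha, zero_vadd]
    subst this
    rfl
  · have h1 : psi s' σ h' = (psi s σ h).comp (gM.prodMap (ContinuousMap.id (Simp j))) := by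
      ext1 p
      apply Subtype.ext
      show (p.2, totC (p.1, s' p.2)) = (p.2, totC (gM p.1, s p.2))
      rw [ha, vadd1_eq, tot_neg]
    have h2 := (hC Mq (Simp j) z (Finsupp.single ⟨j, ContinuousMap.id (Simp j)⟩ 1)).1 Mq (Simp j)
      gM (ContinuousMap.id (Simp j))
    rw [hz, tmap_id] at h2
    rw [Tc, Tc, h1, ← tmap_comp, bch, h2]

theorem Tc_toE (hC : Stmt_CRSC) (z : TCh Mq) {j : ℕ} (s : C(Simp j, S2)) (σ : C(Simp j, RP2))
    (h : qRc.comp s = σ) : tmap (PB.toE prE σ) (Tc z s σ h) =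
      tmap totC (cross z (Finsupp.single ⟨j, s⟩ 1)) := by
  have h1 : (PB.toE prE σ).comp (psi s σ h) =
      totC.comp ((ContinuousMap.id Mq).prodMap s) := rfl
  have h2 := (hC Mq (Simp j) z (Finsupp.single ⟨j, ContinuousMap.id (Simp j)⟩ 1)).1 Mq S2
    (ContinuousMap.id Mq) s
  rw [tmap_id, tmap_single] at h2
  rw [Tc, tmap_comp, h1, ← tmap_comp, bch, h2]
  rfl

theorem Tc_bd (hTBB : Stmt_TBB) (hB : Stmt_CRSB) (hC : Stmt_CRSC) (z : TCh Mq) (hz : tbd z = 0)
    {j : ℕ} (s : C(Simp (j + 1), S2)) (σ : C(Simp (j + 1), RP2)) (h : qRc.comp s = σ) :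
    tbd (Tc z s σ h) = ∑ i, tmap (PB.face prE σ i) (Tc z (s.comp (face i)) (σ.comp (face i))
      (by rw [← h]; rfl)) := by
  have h0 : tbd (Finsupp.single (⟨j + 1, ContinuousMap.id (Simp (j + 1))⟩ :
      SSx (Simp (j + 1))) (1 : F2)) =
      ∑ i : Fin (j + 2), Finsupp.single (⟨j, face i⟩ : SSx (Simp (j + 1))) 1 := by
    rw [tbd, Finsupp.linearCombination_single, one_smul]
    rfl
  rw [Tc, (hTBB _ _).2.1, bch, hB, hz, map_zero, LinearMap.zero_apply, zero_add, h0, map_sum,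
    map_sum]
  refine Finset.sum_congr rfl fun i _ => ?_
  have h2 := (hC Mq (Simp j) z (Finsupp.single ⟨j, ContinuousMap.id (Simp j)⟩ 1)).1 Mq
    (Simp (j + 1)) (ContinuousMap.id Mq) (face i)
  rw [tmap_id, tmap_single] at h2
  have h3 : (mapS (face i) ⟨j, ContinuousMap.id (Simp j)⟩ : SSx (Simp (j + 1))) =
      ⟨j, face i⟩ := rfl
  rw [h3] at h2
  rw [← h2, tmap_comp, Tc, bch, tmap_comp]
  rfl

theorem Tc_bd0 (hTBB : Stmt_TBB) (hB : Stmt_CRSB) (z : TCh Mq) (hz : tbd z = 0)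
    (s : C(Simp 0, S2)) (σ : C(Simp 0, RP2)) (h : qRc.comp s = σ) :
    tbd (Tc z s σ h) = 0 := by
  have h0 : tbd (Finsupp.single (⟨0, ContinuousMap.id (Simp 0)⟩ : SSx (Simp 0)) (1 : F2)) =
      0 := by
    rw [tbd, Finsupp.linearCombination_single, one_smul]
    rfl
  rw [Tc, (hTBB _ _).2.1, bch, hB, hz, map_zero, LinearMap.zero_apply, h0, map_zero, add_zero,
    map_zero]

end TRFaux

open TRFaux

theorem TRF (hFNDE : Stmt_FNDE) (hGRD : Stmt_GRD) (hLA : Stmt_LIFTA) (hLB : Stmt_LIFTB)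
    (hB : Stmt_CRSB) (hC : Stmt_CRSC) (hR : Stmt_RPC) (hDUN : Stmt_DUN) (hSYSF : Stmt_SYSF)
    (hDBD : Stmt_DBD) (hTBB : Stmt_TBB) : Stmt_TRF := by
  intro hq hQE S hS z hz
  have hdeg := deg_z hLA hq S z hz
  have hg := tmap_gM hDUN hSYSF hq S z hz
  have hbz : tbd z = 0 := by
    have h1 := hDBD Mh Mq H5 qMc hq _ _ hz
    rw [(hSYSF Mh (Fin 12) 7 S ∅).2] at h1
    exact hDUN Mh Mq H5 qMc hq 0 _ _ h1 (fun s => rfl)
  choose lift hlift using fun (j : ℕ) (σ : C(Simp j, RP2)) => hLA S2 RP2 (ZMod 2) qRc hR j σ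
  have hdT : ∀ {j : ℕ} (s : C(Simp j, S2)) (σ : C(Simp j, RP2)) (h : qRc.comp s = σ),
      ∀ r ∈ (Tc z s σ h).support, r.1 = 6 + 1 + j := fun s σ h =>
    deg_tmap _ _ _ (deg_bch hC z hdeg _)
  obtain ⟨α, hα, hα1⟩ := hFNDE hq hQE S hS z hz
  let T : FibreTransfer 6 prE :=
    { chain := fun {j} σ => prj (6 + 1 + j) (Tc z (lift j σ) σ (hlift j σ))
      bd_chain := by
        intro j σ
        have h1 := (hGRD (PB prE σ) (PB prE σ)).2.2.1 (6 + 1 + j)
          (Tc z (lift (j + 1) σ) σ (hlift (j + 1) σ)) (hdT _ _ _)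
        refine Eq.trans h1 ?_
        rw [Tc_bd hTBB hB hC z hbz, map_sum]
        refine Finset.sum_congr rfl fun i _ => ?_
        rw [(hGRD (PB prE (σ.comp (face i))) (PB prE σ)).2.2.2.1]
        congr 2
        exact Tc_indep hLB hR hC z hg _ _ _ _ _
      bd_zero := by
        intro σ
        have h1 := (hGRD (PB prE σ) (PB prE σ)).2.2.1 6
          (Tc z (lift 0 σ) σ (hlift 0 σ)) (hdT _ _ _)
        refine Eq.trans h1 ?_
        rw [Tc_bd0 hTBB hB z hbz, map_zero]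
      fund := by
        rintro σ ⟨u, hu⟩
        have h1 := hα1 (lift 0 σ)
        have h2 : incl (6 + 1 + 0) (prj (6 + 1 + 0) (Tc z (lift 0 σ) σ (hlift 0 σ))) =
            Tc z (lift 0 σ) σ (hlift 0 σ) :=
          (hGRD (PB prE σ) (PB prE σ)).1 _ _ (hdT _ _ _)
        have h3 : incl (6 + 1) (bd (k := 6 + 1) u) = tbd (incl (6 + 1 + 1) u) :=
          ((hTBB (PB prE σ) (PB prE σ)).2.2.1 (6 + 1) u).symm
        rw [← Tc_toE hC z (lift 0 σ) σ (hlift 0 σ), ← h2] at h1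
        have h4 : incl (6 + 1 + 0) (prj (6 + 1 + 0) (Tc z (lift 0 σ) σ (hlift 0 σ))) =
            tbd (incl (6 + 1 + 1) u) := by
          rw [← h3]
          exact congrArg (incl (6 + 1)) hu.symm
        rw [h4, ← (hTBB _ _).2.1, hα] at h1
        exact zero_ne_one h1 }
  refine ⟨T, ?_⟩
  intro j σ
  rw [← (hGRD (PB prE (qRc.comp σ)) EE).2.2.2.2.1]
  have h1 : incl (6 + 1 + j) (T.chain (qRc.comp σ)) =
      Tc z (lift j (qRc.comp σ)) (qRc.comp σ) (hlift j (qRc.comp σ)) :=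
    (hGRD (PB prE (qRc.comp σ)) EE).1 _ _ (hdT _ _ _)
  rw [h1, Tc_indep hLB hR hC z hg (lift j (qRc.comp σ)) σ (qRc.comp σ) (hlift j (qRc.comp σ)) rfl,
    Tc_toE hC]

end TC
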