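import Pool.Agent.TC.Cyc.M_EVALM
import Pool.Agent.TC.Cyc.M_RELS
import Pool.Agent.TC.Cyc.M_TRF
import Pool.Agent.TC.Cyc.M_SYSM
import Pool.Agent.TC.Cyc.M_SYSY
import Pool.Agent.TC.Cyc.M_SYS1
import Pool.Agent.TC.Cyc.M_DESE
import Pool.Agent.TC.Cyc.M_EVA
import Pool.Agent.TC.Cyc.M_CRSB
import Pool.Agent.TC.Cyc.M_CRSA
import Pool.Agent.TC.Cyc.M_POLY
import Pool.Agent.TC.Cyc.M_LNAT
import Pool.Agent.TC.Cyc.M_LCHN
import Pool.Agent.TC.Cyc.M_PROD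
import Pool.Agent.TC.Cyc.M_MAPS
import Pool.Agent.TC.Cyc.M_SYST
import Pool.Agent.TC.Cyc.M_SYSC
import Pool.Agent.TC.Cyc.M_SYSF
import Pool.Agent.TC.Cyc.M_LCAP
import Pool.Agent.TC.Cyc.M_PULC
import Pool.Agent.TC.Cyc.M_FNDE
import Pool.Agent.TC.Cyc.M_RPC
import Pool.Agent.TC.Cyc.M_GRD
import Pool.Agent.TC.Cyc.M_TBB
import Pool.Agent.TC.Cyc.M_CUE
import Pool.Agent.TC.Cyc.M_DEX
import Pool.Agent.TC.Cyc.M_DBD
import Pool.Agent.TC.Cyc.M_CAP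
import Pool.Agent.TC.Cyc.M_EDGE
import Pool.Agent.TC.Cyc.M_LAB
import Pool.Agent.TC.Cyc.M_LIFTA
import Pool.Agent.TC.Cyc.M_LIFTB
import Pool.Agent.TC.Cyc.M_EVAR

/-!
# Block CYC: assembly
-/

set_option autoImplicit false

open scoped Manifold ContDiff Topology

namespace TC

/-- The block CYC, given the module BIG. -/
theorem eval_of_big (hBIG : Stmt_BIG) (hM : IsAddQuotientCoveringMap qM H5) :
    QE_main ∧ EVAL_main := by
  have hB := LIFTB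
  have hA := LIFTA
  have hEDGE := EDGE hB
  have hVCL := VCL hA hEDGE
  have hDEX := DEX hA hB
  have hDUN := DUN hA
  have hDEC := DEC hA hB
  have hDBD := DBD hA hB
  have hDSUM := DSUM hB
  have hCAP := CAP hA hB hEDGE
  have hSYSC := SYSC TBB hDUN hDBD hCAP SYSF
  have hSYST := SYST hDSUM
  have hLCAP := LCAP hSYSC SYSF hDEX hDUN CUE hVCL
  have hPOLY := POLY LCHN
  have hCRSA := CRSA LCHN
  have hCRSB := CRSB hCRSA LNAT LCHN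
  have hCRSC := CRSC hCRSA LCHN
  have hPROD := PROD hCRSB hCRSC
  have hSYS1 := SYS1 hPOLY SYSP
  have hSYS2 := SYS2 hPOLY SYSP
  have hSYSY := SYSY hPOLY SYSP
  have hSYSM := SYSM hSYS1 hSYSY hPROD MAPS hCRSC
  have hVALM := VALM hLCAP hSYST
  have hFNDE := FNDE PULC hVALM hEDGE hA LAB hCRSB hCRSC hDSUM hDEC hVCL CUE
  have hTRF := TRF hFNDE GRD hA hB hCRSB hCRSC RPC hDUN SYSF hDBD TBB
  have hDESE := DESE hDEC hDSUM hCRSC SYSF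
  have hEVA : Stmt_EVA := EVA CUE fun R _ h2 x y1 y2 y3 y s r1 r2 r3 r4 r5 r6 c hc =>
    EVAR' h2 x y1 y2 y3 y s r1 r2 r3 r4 r5 r6 c hc
  have hRELS := RELS hLCAP EMPT hSYST hEVA hVCL
  have hEVAL := EVAL hSYSM hSYS2 hPROD hCRSC hTRF hDESE hRELS hBIG hVCL RPC hDEX hDEC hDUN hDBD
    SYSF GRD TBB
  have hQE := QEM hM
  exact ⟨hQE, hEVAL hM hQE⟩

end TC
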