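import Pool.Agent.TC.Iface

/-!
# Block CYC: definitions (total chains, descent, capping, mirror systems, polytope systems)
-/

set_option autoImplicit false

open scoped Topology

noncomputable section

namespace TC

section total

variable {X Y : Type} [TopologicalSpace X] [TopologicalSpace Y]

/-- All singular simplices of `X`. -/
abbrev SSx (X : Type) [TopologicalSpace X] := Σ k : ℕ, C(Simp k, X)

/-- Total singular chains. -/
abbrev TCh (X : Type) [TopologicalSpace X] := SSx X →₀ F2

/-- Total singular cochains. -/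
abbrev TCo (X : Type) [TopologicalSpace X] := SSx X → F2

/-- The boundary of a singular simplex. -/
def bdS : SSx X → TCh X
  | ⟨0, _⟩ => 0
  | ⟨k + 1, σ⟩ => ∑ i : Fin (k + 2), Finsupp.single ⟨k, σ.comp (face i)⟩ 1

/-- The total boundary. -/
def tbd : TCh X →ₗ[F2] TCh X := Finsupp.linearCombination F2 bdS

/-- The image of a singular simplex. -/
def mapS (f : C(X, Y)) (s : SSx X) : SSx Y := ⟨s.1, f.comp s.2⟩

/-- The image of a total chain. -/
def tmap (f : C(X, Y)) : TCh X →ₗ[F2] TCh Y := Finsupp.lmapDomain F2 F2 (mapS f)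

/-- The value of a total cochain on a total chain. -/
def tpair (α : TCo X) : TCh X →ₗ[F2] F2 := Finsupp.linearCombination F2 α

/-- Closed total cochains. -/
def IsClosedCo (α : TCo X) : Prop := ∀ z : TCh X, tpair α (tbd z) = 0

/-- The total coboundary. -/
def tcobd (α : TCo X) : TCo X := fun s => tpair α (bdS s)

/-- Chains of degree `k` as total chains. -/
def incl (k : ℕ) : Chain X k →ₗ[F2] TCh X :=
  Finsupp.lmapDomain F2 F2 (fun σ : C(Simp k, X) => (⟨k, σ⟩ : SSx X))

/-- A cochain of degree `k` as a total cochain. -/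
def ext (k : ℕ) (c : Coch X k) : TCo X := fun s => if h : s.1 = k then c (h ▸ s.2) else 0

/-- `α ∪ v` for a `1`-cochain `v`: `v` is evaluated on the last edge. -/
def cupE (α : TCo X) (v : Coch X 1) : TCo X
  | ⟨0, _⟩ => 0
  | ⟨k + 1, σ⟩ => α ⟨k, σ.comp (face (Fin.last (k + 1)))⟩ *
      v (res (m := 1) σ ![(Fin.last k).castSucc, Fin.last (k + 1)])

/-- The unit cochain (`1` on all `0`-simplices). -/
def oneCo : TCo X := fun s => if s.1 = 0 then 1 else 0

end total

section descent

variable {Z E : Type} [TopologicalSpace Z] [TopologicalSpace E]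

/-- The chain `w` of `E` is the descent of the chain `w'` of `Z` (it is the chain whose transfer
is `w'`). -/
def IsDesc (q : C(Z, E)) (w' : TCh Z) (w : TCh E) : Prop := ∀ s : SSx Z, w (mapS q s) = w' s

/-- The action of a group element on chains. -/
def tact {A : Type} [AddGroup A] [AddAction A Z] [ContinuousConstVAdd A Z] (h : A) :
    TCh Z →ₗ[F2] TCh Z := tmap ⟨fun z => h +ᵥ z, continuous_const_vadd h⟩

end descent

section mirror

/-- A mirror system of chains of dimension `d` in a space `Z` on which the group of sign changes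
`J → ℤ/2` acts: chains `c I` of dimension `d - |I|` fixed by the sign changes in `I`, with boundary
the sum of the `c (insert i I)`, `i ∉ I`. -/
structure MirrorSys (Z : Type) [TopologicalSpace Z] (J : Type) [Fintype J] [DecidableEq J]
    [AddAction (J → ZMod 2) Z] (d : ℕ) where
  c : Finset J → TCh Z
  bdc : ∀ I, tbd (c I) = ∑ i ∈ Iᶜ, c (insert i I)
  fix : ∀ I, ∀ i ∈ I, ∀ s ∈ (c I).support, ∀ t, (Pi.single i 1 : J → ZMod 2) +ᵥ s.2 t = s.2 t
  deg : ∀ I, ∀ s ∈ (c I).support, s.1 + I.card = d

variable {Z : Type} [TopologicalSpace Z] {J : Type} [Fintype J] [DecidableEq J]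
  [AddAction (J → ZMod 2) Z] [ContinuousConstVAdd (J → ZMod 2) Z] {d : ℕ}

/-- The invariant chain `∑ g · c I`, the sum over all sign changes supported outside `I`. -/
def MirrorSys.full (S : MirrorSys Z J d) (I : Finset J) : TCh Z :=
  ∑ g ∈ Finset.univ.filter (fun g : J → ZMod 2 => ∀ i ∈ I, g i = 0), tact g (S.c I)

end mirror

end TC
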