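import Pool.Agent.TC.Cyc.Defs

/-!
# Block CYC: definitions, part 2 (convex spaces, list chains, cross product, the systems)
-/

set_option autoImplicit false

open scoped Topology

noncomputable section

namespace TC

/-! ### Convex spaces -/

/-- A space with affine simplices. -/
class Cvx (K : Type) [TopologicalSpace K] where
  comb : ∀ {k : ℕ}, (Fin (k + 1) → K) → C(Simp k, K)
  comb_smap : ∀ {m k : ℕ} (θ : Fin (m + 1) → Fin (k + 1)) (v : Fin (k + 1) → K),
    (comb v).comp (smap θ) = comb (v ∘ θ)
  comb_vtx : ∀ {k : ℕ} (v : Fin (k + 1) → K) (i : Fin (k + 1)), comb v (vtx i) = v i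

section ofConvex

variable {V : Type} [AddCommGroup V] [Module ℝ V] [TopologicalSpace V] [IsTopologicalAddGroup V]
  [ContinuousSMul ℝ V]

/-- The affine simplices of a convex set. -/
@[reducible] def Cvx.ofConvex (S : Set V) (hS : Convex ℝ S) : Cvx S where
  comb {k} v := ⟨fun t => ⟨∑ i, t.1 i • (v i).1,
      hS.sum_mem (fun i _ => t.2.1 i) t.2.2 (fun i _ => (v i).2)⟩, by
    refine Continuous.subtype_mk ?_ _
    refine continuous_finsetSum _ fun i _ => ?_
    exact ((continuous_apply i).comp continuous_subtype_val).smul continuous_const⟩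
  comb_smap {m k} θ v := by
    ext t
    show ∑ i, (stdSimplex.map θ t).1 i • (v i).1 = ∑ j, t.1 j • (v (θ j)).1
    have h : ∀ i, (stdSimplex.map θ t).1 i = ∑ j, if θ j = i then t.1 j else 0 := by
      intro i
      have : (stdSimplex.map θ t).1 i = FunOnFinite.linearMap ℝ ℝ θ t.1 i := rfl
      rw [this, FunOnFinite.linearMap_apply_apply]
      rw [Finset.sum_filter]
    simp only [h, Finset.sum_smul]
    rw [Finset.sum_comm]
    refine Finset.sum_congr rfl fun j _ => ?_
    rw [Finset.sum_eq_single (θ j)]
    · simp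
    · intro b _ hb
      simp [Ne.symm hb]
    · simp
  comb_vtx {k} v i := by
    apply Subtype.ext
    show ∑ j, (stdSimplex.vertex i : Simp k).1 j • (v j).1 = (v i).1
    rw [Finset.sum_eq_single i]
    · simp
    · intro b _ hb
      simp [Pi.single_eq_of_ne hb]
    · simp

end ofConvex

instance (p : ℕ) : Cvx (Simp p) := Cvx.ofConvex _ (convex_stdSimplex ℝ (Fin (p + 1)))

instance {K K' : Type} [TopologicalSpace K] [TopologicalSpace K'] [Cvx K] [Cvx K'] :
    Cvx (K × K') where
  comb v := (Cvx.comb fun i => (v i).1).prodMk (Cvx.comb fun i => (v i).2)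
  comb_smap θ v := by
    ext1 t
    have h1 := DFunLike.congr_fun (Cvx.comb_smap θ fun i => (v i).1) t
    have h2 := DFunLike.congr_fun (Cvx.comb_smap θ fun i => (v i).2) t
    exact Prod.ext h1 h2
  comb_vtx v i := Prod.ext (Cvx.comb_vtx _ i) (Cvx.comb_vtx _ i)

/-! ### List chains -/

section lists

variable {K K' : Type}

/-- Augmented simplicial chains: formal sums of lists of points. -/
abbrev LCh (K : Type) := List K →₀ F2

/-- The boundary of a list. -/
def lbdS (l : List K) : LCh K := ∑ i ∈ Finset.range l.length, Finsupp.single (l.eraseIdx i) 1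

/-- The boundary of a list chain. -/
def lbd : LCh K →ₗ[F2] LCh K := Finsupp.linearCombination F2 lbdS

/-- The cone with vertex `b`. -/
def lcone (b : K) : LCh K →ₗ[F2] LCh K := Finsupp.lmapDomain F2 F2 (fun l => b :: l)

/-- The image of a list chain. -/
def lmapC (f : K → K') : LCh K →ₗ[F2] LCh K' := Finsupp.lmapDomain F2 F2 (List.map f)

variable [TopologicalSpace K] [Cvx K]

/-- The affine simplex of a non-empty list (`0` for the empty list). -/
def realS : List K → TCh K
  | [] => 0
  | a :: l => Finsupp.single ⟨l.length, Cvx.comb (fun i : Fin (l.length + 1) => (a :: l).get i)⟩ 1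

/-- The realisation of list chains by affine singular simplices. -/
def lreal : LCh K →ₗ[F2] TCh K := Finsupp.linearCombination F2 realS

end lists

/-! ### The cross product -/

/-- The list chain of `Simp p × Simp q` used in the cross product. -/
def eL : (p q : ℕ) → LCh (Simp p × Simp q)
  | 0, 0 => Finsupp.single [(vtx 0, vtx 0)] 1
  | p + 1, 0 => lcone (vtx 0, vtx 0) (∑ i, lmapC (fun x => (face i x.1, x.2)) (eL p 0))
  | 0, q + 1 => lcone (vtx 0, vtx 0) (∑ i, lmapC (fun x => (x.1, face i x.2)) (eL 0 q))
  | p + 1, q + 1 => lcone (vtx 0, vtx 0)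
      (∑ i, lmapC (fun x => (face i x.1, x.2)) (eL p (q + 1)) +
        ∑ i, lmapC (fun x => (x.1, face i x.2)) (eL (p + 1) q))

section cross

variable {X Y : Type} [TopologicalSpace X] [TopologicalSpace Y]

/-- The cross product of two singular simplices. -/
def crossS (s : SSx X) (t : SSx Y) : TCh (X × Y) :=
  tmap (s.2.prodMap t.2) (lreal (eL s.1 t.1))

/-- The cross product of singular chains. -/
def cross : TCh X →ₗ[F2] TCh Y →ₗ[F2] TCh (X × Y) :=
  Finsupp.linearCombination F2 (fun s => Finsupp.linearCombination F2 (crossS s))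

end cross

/-! ### Products of actions -/

instance {X Y J J' : Type} [AddAction (J → ZMod 2) X] [AddAction (J' → ZMod 2) Y] :
    AddAction (J ⊕ J' → ZMod 2) (X × Y) where
  vadd g z := ((fun j => g (Sum.inl j)) +ᵥ z.1, (fun j => g (Sum.inr j)) +ᵥ z.2)
  zero_vadd z := Prod.ext (zero_vadd _ z.1) (zero_vadd _ z.2)
  add_vadd g h z := Prod.ext
    (add_vadd (fun j => g (Sum.inl j)) (fun j => h (Sum.inl j)) z.1)
    (add_vadd (fun j => g (Sum.inr j)) (fun j => h (Sum.inr j)) z.2)

theorem vadd_prod_eq {X Y J J' : Type} [AddAction (J → ZMod 2) X] [AddAction (J' → ZMod 2) Y]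
    (g : J ⊕ J' → ZMod 2) (z : X × Y) :
    g +ᵥ z = ((fun j => g (Sum.inl j)) +ᵥ z.1, (fun j => g (Sum.inr j)) +ᵥ z.2) := rfl

instance {X Y J J' : Type} [TopologicalSpace X] [TopologicalSpace Y]
    [AddAction (J → ZMod 2) X] [AddAction (J' → ZMod 2) Y]
    [ContinuousConstVAdd (J → ZMod 2) X] [ContinuousConstVAdd (J' → ZMod 2) Y] :
    ContinuousConstVAdd (J ⊕ J' → ZMod 2) (X × Y) where
  continuous_const_vadd g :=
    ((continuous_const_vadd fun j => g (Sum.inl j)).comp continuous_fst).prodMk
      ((continuous_const_vadd fun j => g (Sum.inr j)).comp continuous_snd)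

/-! ### The concrete factors -/

/-- The circle, with the signs of the real and the imaginary part. -/
def CC : Type := Circle

instance : TopologicalSpace CC := inferInstanceAs (TopologicalSpace Circle)

instance : AddAction (Fin 2 → ZMod 2) CC where
  vadd g z := (flipC (g 0) (g 1) (z : Circle) : Circle)
  zero_vadd z := flipC_zero z
  add_vadd _ _ z := flipC_add _ _ _ _ z

instance : ContinuousConstVAdd (Fin 2 → ZMod 2) CC where
  continuous_const_vadd _ := continuous_flipC _ _

theorem vaddCC_eq (g : Fin 2 → ZMod 2) (z : CC) : g +ᵥ z = (flipC (g 0) (g 1) z : Circle) := rfl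

/-- The surface factor `Y`. -/
def YY : Type := {z : Fin 4 → Circle //
  (2 - (z 0 : ℂ).re - (z 1 : ℂ).re) * (2 - (z 2 : ℂ).re - (z 3 : ℂ).re) = 2}

instance : TopologicalSpace YY := inferInstanceAs (TopologicalSpace {z : Fin 4 → Circle //
  (2 - (z 0 : ℂ).re - (z 1 : ℂ).re) * (2 - (z 2 : ℂ).re - (z 3 : ℂ).re) = 2})

instance : AddAction (Fin 4 → ZMod 2) YY where
  vadd g z := ⟨fun i => flipC 0 (g i) (z.1 i), by
    simp only [flipC_re, sg_zero, one_mul]
    exact z.2⟩
  zero_vadd z := Subtype.ext (funext fun i => flipC_zero _)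
  add_vadd g h z := Subtype.ext (funext fun i => by
    show flipC 0 (g i + h i) (z.1 i) = flipC 0 (g i) (flipC 0 (h i) (z.1 i))
    rw [← flipC_add, zero_add])

theorem vaddYY_apply (g : Fin 4 → ZMod 2) (z : YY) (i : Fin 4) :
    (g +ᵥ z).1 i = flipC 0 (g i) (z.1 i) := rfl

instance : ContinuousConstVAdd (Fin 4 → ZMod 2) YY where
  continuous_const_vadd g := by
    refine Continuous.subtype_mk ?_ _
    exact continuous_pi fun i => (continuous_flipC _ _).comp
      ((continuous_apply i).comp continuous_subtype_val)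

/-- Sign changes of the coordinates of the sphere. -/
def flip3 (g : Fin 3 → ZMod 2) (b : EuclideanSpace ℝ (Fin 3)) : EuclideanSpace ℝ (Fin 3) :=
  WithLp.toLp 2 (fun i => sg (g i) * b i)

instance : AddAction (Fin 3 → ZMod 2) S2 where
  vadd g z := ⟨flip3 g z.1, by
    have h := z.2
    rw [mem_sphere_zero_iff_norm] at h ⊢
    rw [EuclideanSpace.norm_eq] at h ⊢
    rw [← h]
    congr 1
    refine Finset.sum_congr rfl fun i _ => ?_
    show ‖sg (g i) * z.1 i‖ ^ 2 = _
    rcases z2_cases (g i) with h | h <;> simp [h, sg]⟩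
  zero_vadd z := Subtype.ext (by
    show flip3 0 z.1 = z.1
    ext i
    simp [flip3, sg])
  add_vadd g h z := Subtype.ext (by
    show flip3 (g + h) z.1 = flip3 g (flip3 h z.1)
    ext i
    simp [flip3, sg_add, mul_assoc])

theorem vaddS2_apply (g : Fin 3 → ZMod 2) (z : S2) (i : Fin 3) :
    (g +ᵥ z).1 i = sg (g i) * z.1 i := rfl

instance : ContinuousConstVAdd (Fin 3 → ZMod 2) S2 where
  continuous_const_vadd g := by
    refine Continuous.subtype_mk ?_ _
    unfold flip3
    fun_prop

/-! ### The concrete coverings -/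

/-- The group `ℤ/2` acts on the sphere by the antipodal map. -/
instance : AddAction (ZMod 2) S2 where
  vadd s b := if s = 0 then b else -b
  zero_vadd b := by
    show (if (0 : ZMod 2) = 0 then b else -b) = b
    simp
  add_vadd s t b := by
    show (if s + t = 0 then b else -b) = if s = 0 then (if t = 0 then b else -b) else
      -(if t = 0 then b else -b)
    rcases z2_cases s with rfl | rfl <;> rcases z2_cases t with rfl | rfl <;>
      simp [z2_one_add_one]

theorem vadd1_eq (b : S2) : (1 : ZMod 2) +ᵥ b = -b := by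
  show (if (1 : ZMod 2) = 0 then b else -b) = -b
  simp

instance : ContinuousConstVAdd (ZMod 2) S2 where
  continuous_const_vadd s := by
    show Continuous fun b : S2 => if s = 0 then b else -b
    split_ifs
    · exact continuous_id
    · exact continuous_neg

instance : ContinuousConstVAdd H6 ZZ where
  continuous_const_vadd h := by
    show Continuous fun z : ZZ => (chi12' h +ᵥ z.1, if h 5 = 0 then z.2 else -z.2)
    refine ((continuous_const_vadd (chi12' h)).comp continuous_fst).prodMk ?_
    split_ifs
    · exact continuous_snd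
    · exact continuous_neg.comp continuous_snd

/-- The projection `Mh → Mq` as a continuous map. -/
def qMc : C(Mh, Mq) := ⟨qM, continuous_quotient_mk'⟩

/-- The projection `S² → ℝP²` as a continuous map. -/
def qRc : C(S2, RP2) := ⟨RP2.mk, continuous_quotient_mk'⟩

/-- The projection `M × S² → E` as a continuous map. -/
def totC : C(Mq × S2, EE) := ⟨Tot.mk _ _, continuous_quotient_mk'⟩

/-- The projection `Mh × S² → E` as a continuous map. -/
def qEc : C(ZZ, EE) := totC.comp (qMc.prodMap (ContinuousMap.id S2))

theorem qEc_coe : (qEc : ZZ → EE) = qE := rfl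

/-- The homomorphism of `H6` to the sign changes of the 15 coordinates of `Mh × S²`. -/
def X6 : H6 →+ (Fin 12 ⊕ Fin 3 → ZMod 2) where
  toFun h := Sum.elim (chi12' h) (fun _ => h 5)
  map_zero' := by
    funext j
    rcases j with j | j <;> simp
  map_add' a b := by
    funext j
    rcases j with j | j <;> simp

/-- The `k`-th coordinate of `H6`. -/
def ev6 (k : Fin 6) : H6 →+ ZMod 2 := Pi.evalAddMonoidHom (fun _ => ZMod 2) k

/-- The `k`-th coordinate of `H5`. -/
def ev5 (k : Fin 5) : H5 →+ ZMod 2 := Pi.evalAddMonoidHom (fun _ => ZMod 2) k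

/-- The part of degree `k` of a total chain. -/
def prj {X : Type} [TopologicalSpace X] (k : ℕ) : TCh X →ₗ[F2] Chain X k :=
  Finsupp.linearCombination F2
    (fun s : SSx X => if h : s.1 = k then Finsupp.single (h ▸ s.2) 1 else 0)

/-- The coordinates used for the value on the top monomial. -/
def ItopM : Finset (Fin 12) := {0, 2, 4, 6, 8, 9, 10}

end TC
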