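import Pool.Agent.TC.Cyc.Stmts2
import Pool.Agent.TC.Cup

/-!
# Block CYC, module BIG: `bigC` of `omegaC` is a sum of words up to exact cochains
-/

set_option autoImplicit false

open scoped Topology

noncomputable section

namespace TC

namespace BIGM

open CUP

variable {X : Type} [TopologicalSpace X]

/-! ### Cup products of `1`-cocycles -/

/-- the cocycle relation for `1`-cochains -/
theorem coc1 {v : Coch X 1} (hv : cobd v = 0) {k : ℕ} (σ : C(Simp k, X)) (a b c : ℕ) :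
    ed v σ a c = ed v σ a b + ed v σ b c := by
  set g : ℕ → ℕ := fun t => if t = 0 then a else if t = 1 then b else c with hg
  have h := congrFun hv (nres σ 2 g)
  rw [cobd_one] at h
  rw [nres_nres _ _ _ (fun i hi => by unfold skip; split_ifs <;> omega),
    nres_nres _ _ _ (fun i hi => by unfold skip; split_ifs <;> omega),
    nres_nres _ _ _ (fun i hi => by unfold skip; split_ifs <;> omega),
    ed_of v, ed_of v, ed_of v] at h
  have h2 : ed v σ b c + ed v σ a c + ed v σ a b = 0 := h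
  revert h2
  generalize ed v σ a c = x
  generalize ed v σ b c = y
  generalize ed v σ a b = z
  revert x y z
  decide

/-- the `2`-cochain `v ∪ w` -/
def c2 (v w : Coch X 1) : Coch X 2 := cup (p := 1) (q := 1) (n := 2) rfl v w

theorem tr_c2 (v w : Coch X 1) {k : ℕ} (σ : C(Simp k, X)) (a b c : ℕ) :
    tr (c2 v w) σ a b c = ed v σ a b * ed w σ b c := by
  unfold tr c2 cup
  rw [nres_nres _ _ _ (fun i hi => by show i ≤ 2; omega),
    nres_nres _ _ _ (fun i hi => by omega), ed_of v, ed_of w]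
  rfl

theorem c2_cocycle {v w : Coch X 1} (hv : cobd v = 0) (hw : cobd w = 0) :
    cobd (c2 v w) = 0 := by
  unfold c2
  rw [leibniz (p := 1) (q := 1) (n := 2) rfl rfl rfl, hv, hw, cup_zero_left, cup_zero_right,
    add_zero]

theorem self_nres {k : ℕ} (σ : C(Simp k, X)) : nres σ k id = σ := by
  have h1 : nres σ k id = res σ id := nres_res σ _ _ fun i => by
    have := i.2
    show min (i : ℕ) k = i
    omega
  rw [h1]
  unfold res smap
  ext x
  show σ (stdSimplex.map id x) = σ x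
  rw [stdSimplex.map_id_apply]

/-- the `3`-cochain `v v w + v w w` -/
def w3 (v w : Coch X 1) : Coch X 3 := fun τ =>
  ed v τ 0 1 * ed v τ 1 2 * ed w τ 2 3 + ed v τ 0 1 * ed w τ 1 2 * ed w τ 2 3

theorem bock_c2 {v w : Coch X 1} (hv : cobd v = 0) (hw : cobd w = 0) :
    bock (c2 v w) = w3 v w := by
  funext τ
  rw [show bock (c2 v w) τ = bock (c2 v w) (nres τ 3 id) from
    congrArg _ (self_nres τ).symm, bock_tr (c2_cocycle hv hw)]
  simp only [tr_c2, id]
  rw [coc1 hw τ 1 2 3, coc1 hv τ 0 1 2]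
  unfold w3
  generalize ed v τ 0 1 = a
  generalize ed v τ 1 2 = b
  generalize ed w τ 1 2 = c
  generalize ed w τ 2 3 = d
  revert a b c d
  decide

/-! ### The Bockstein cochain of a sum -/

theorem add_finite : ∀ a b c a' b' c' : F2,
    (b + b') * ((a + b + c) + (a' + b' + c')) + (c + c') * (a + a') =
      (b * (a + b + c) + c * a) + (b' * (a' + b' + c') + c' * a') +
        ((a + b + c) * (a' + b' + c') + c * c' + b * b' + a * a') := by
  decide

theorem bock_add {W W' : Coch X 2} (hW : cobd W = 0) (hW' : cobd W' = 0) :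
    bock (W + W') = bock W + bock W' + cobd (fun τ => W τ * W' τ) := by
  have hWW : cobd (W + W') = 0 := by rw [map_add, hW, hW', add_zero]
  funext σ
  rw [Pi.add_apply, Pi.add_apply, cobd_two]
  have e0 : σ = nres σ 3 id := (self_nres σ).symm
  rw [show bock (W + W') σ = bock (W + W') (nres σ 3 id) from congrArg _ e0,
    show bock W σ = bock W (nres σ 3 id) from congrArg _ e0,
    show bock W' σ = bock W' (nres σ 3 id) from congrArg _ e0,
    bock_tr hWW, bock_tr hW, bock_tr hW', tr_of W, tr_of W, tr_of W, tr_of W, tr_of W', tr_of W',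
    tr_of W', tr_of W']
  simp only [tr_add]
  have e := coc hW σ 0 1 2 3
  have e' := coc hW' σ 0 1 2 3
  show (tr W σ 0 1 3 + tr W' σ 0 1 3) * (tr W σ 1 2 3 + tr W' σ 1 2 3) +
      (tr W σ 0 2 3 + tr W' σ 0 2 3) * (tr W σ 0 1 2 + tr W' σ 0 1 2) =
    tr W σ 0 1 3 * tr W σ 1 2 3 + tr W σ 0 2 3 * tr W σ 0 1 2 +
      (tr W' σ 0 1 3 * tr W' σ 1 2 3 + tr W' σ 0 2 3 * tr W' σ 0 1 2) +
      (tr W σ 1 2 3 * tr W' σ 1 2 3 + tr W σ 0 2 3 * tr W' σ 0 2 3 +
        tr W σ 0 1 3 * tr W' σ 0 1 3 + tr W σ 0 1 2 * tr W' σ 0 1 2)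
  have h3 : ∀ a b c d : F2, a + b + c + d = 0 → a = d + c + b := by decide
  rw [h3 _ _ _ _ e, h3 _ _ _ _ e']
  exact add_finite _ _ _ _ _ _

theorem bock_sum {ι : Type} (s : Finset ι) (W : ι → Coch X 2) (hW : ∀ i ∈ s, cobd (W i) = 0) :
    ∃ C : Coch X 2, bock (∑ i ∈ s, W i) = (∑ i ∈ s, bock (W i)) + cobd C := by
  classical
  induction s using Finset.induction_on with
  | empty =>
    refine ⟨0, ?_⟩
    rw [Finset.sum_empty, Finset.sum_empty, map_zero, add_zero]
    funext τ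
    unfold bock
    simp
  | insert i s hi ih =>
    obtain ⟨C, hC⟩ := ih fun j hj => hW j (Finset.mem_insert_of_mem hj)
    have h1 : cobd (∑ j ∈ s, W j) = 0 := by
      rw [map_sum]
      exact Finset.sum_eq_zero fun j hj => hW j (Finset.mem_insert_of_mem hj)
    have h2 := bock_add (hW i (Finset.mem_insert_self _ _)) h1
    refine ⟨C + fun τ => W i τ * (∑ j ∈ s, W j) τ, ?_⟩
    rw [Finset.sum_insert hi, Finset.sum_insert hi, h2, hC, map_add]
    abel

/-! ### The cube times a `3`-cochain -/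

/-- `W ∪ W ∪ W ∪ B` -/
def cub (W : Coch X 2) (B : Coch X 3) : Coch X 9 :=
  cup (p := 6) (q := 3) (n := 9) rfl (cup (p := 4) (q := 2) (n := 6) rfl
    (cup (p := 2) (q := 2) (n := 4) rfl W W) W) B

theorem cub_cobd {W : Coch X 2} (hW : cobd W = 0) (C : Coch X 2) :
    ∃ γ : Coch X 8, cub W (cobd C) = cobd γ := by
  refine ⟨cup (p := 6) (q := 2) (n := 8) rfl (cup (p := 4) (q := 2) (n := 6) rfl
    (cup (p := 2) (q := 2) (n := 4) rfl W W) W) C, ?_⟩
  rw [leibniz (p := 6) (q := 2) (n := 8) rfl rfl rfl,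
    leibniz (p := 4) (q := 2) (n := 6) rfl rfl rfl,
    leibniz (p := 2) (q := 2) (n := 4) rfl rfl rfl, hW]
  simp only [cup_zero_left, cup_zero_right, add_zero, zero_add]
  rfl

theorem cub_add (W : Coch X 2) (B B' : Coch X 3) : cub W (B + B') = cub W B + cub W B' := by
  unfold cub
  rw [cup_add_right]

theorem cub_apply (W : Coch X 2) (B : Coch X 3) (σ : C(Simp 9, X)) :
    cub W B σ = tr W σ 0 1 2 * tr W σ 2 3 4 * tr W σ 4 5 6 * B (nres σ 3 fun t => 6 + t) := by
  have h0 : nres (nres σ 6 id) 4 id = nres σ 4 id := by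
    rw [nres_nres _ _ _ (fun i hi => by show i ≤ 6; omega)]
    rfl
  show W (nres (nres (nres σ 6 id) 4 id) 2 id) *
      W (nres (nres (nres σ 6 id) 4 id) 2 fun t => 2 + t) *
      W (nres (nres σ 6 id) 2 fun t => 4 + t) * B (nres σ 3 fun t => 6 + t) = _
  rw [h0, nres_nres _ _ _ (fun i hi => by show i ≤ 4; omega),
    nres_nres _ _ _ (fun i hi => by omega), nres_nres _ _ _ (fun i hi => by omega),
    tr_of W, tr_of W, tr_of W]
  rfl

/-! ### Double sums -/

/-- the sum over the pairs `j ≤ i` -/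
def S (f : Fin 7 → Fin 7 → F2) : F2 := ∑ i : Fin 7, ∑ j ∈ Finset.Iic i, f i j

theorem S_mul (f : Fin 7 → Fin 7 → F2) (c : F2) : S f * c = S fun i j => f i j * c := by
  unfold S
  rw [Finset.sum_mul]
  refine Finset.sum_congr rfl fun i _ => ?_
  rw [Finset.sum_mul]

theorem mul_S (f : Fin 7 → Fin 7 → F2) (c : F2) : c * S f = S fun i j => c * f i j := by
  unfold S
  rw [Finset.mul_sum]
  refine Finset.sum_congr rfl fun i _ => ?_
  rw [Finset.mul_sum]

theorem S_congr {f g : Fin 7 → Fin 7 → F2} (h : ∀ i j, f i j = g i j) : S f = S g := by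
  unfold S
  exact Finset.sum_congr rfl fun i _ => Finset.sum_congr rfl fun j _ => h i j

theorem S_eq (f : Fin 7 → Fin 7 → F2) :
    (∑ i : Fin 7, ∑ j : Fin 7, if j ≤ i then f i j else 0) = S f := by
  unfold S
  refine Finset.sum_congr rfl fun i _ => ?_
  rw [← Finset.sum_filter]
  refine Finset.sum_congr ?_ fun _ _ => rfl
  ext j
  simp

/-- the index set -/
def idx : Finset (Fin 7 × Fin 7) := Finset.univ.filter fun p => p.2 ≤ p.1

theorem idx_sum (f : Fin 7 → Fin 7 → F2) : (∑ p ∈ idx, f p.1 p.2) = S f := by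
  rw [← S_eq]
  unfold idx
  rw [Finset.sum_filter, Fintype.sum_prod_type]

theorem S_expand (f₁ f₂ f₃ f₄ : Fin 7 → Fin 7 → F2) :
    S f₁ * S f₂ * S f₃ * S f₄ = S fun i₁ j₁ => S fun i₂ j₂ => S fun i₃ j₃ => S fun i₄ j₄ =>
      f₁ i₁ j₁ * (f₂ i₂ j₂ * (f₃ i₃ j₃ * f₄ i₄ j₄)) := by
  have h34 : S f₃ * S f₄ = S fun i₃ j₃ => S fun i₄ j₄ => f₃ i₃ j₃ * f₄ i₄ j₄ := by
    rw [S_mul]
    exact S_congr fun i j => mul_S _ _
  have h234 : S f₂ * (S f₃ * S f₄) = S fun i₂ j₂ => S fun i₃ j₃ => S fun i₄ j₄ =>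
      f₂ i₂ j₂ * (f₃ i₃ j₃ * f₄ i₄ j₄) := by
    rw [h34, S_mul]
    refine S_congr fun i j => ?_
    rw [mul_S]
    exact S_congr fun i' j' => mul_S _ _
  rw [mul_assoc, mul_assoc, h234, S_mul]
  refine S_congr fun i j => ?_
  rw [mul_S]
  refine S_congr fun i' j' => ?_
  rw [mul_S]
  exact S_congr fun i' j' => mul_S _ _

/-! ### Words -/

theorem cupE_nres (α : TCo X) (v : Coch X 1) {N : ℕ} (σ : C(Simp N, X)) (k : ℕ) :
    cupE α v ⟨k + 1, nres σ (k + 1) id⟩ = α ⟨k, nres σ k id⟩ * ed v σ k (k + 1) := by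
  show α ⟨k, (nres σ (k + 1) id).comp (face (Fin.last (k + 1)))⟩ *
      v (res (m := 1) (nres σ (k + 1) id) ![(Fin.last k).castSucc, Fin.last (k + 1)]) = _
  have h1 : (nres σ (k + 1) id).comp (face (Fin.last (k + 1))) = nres σ k id := by
    rw [comp_face, nres_nres _ _ _ (fun i hi => by unfold skip; split_ifs <;> omega)]
    refine nres_congr σ fun i hi => ?_
    show skip ((Fin.last (k + 1) : Fin (k + 2)) : ℕ) i = i
    unfold skip
    rw [if_pos (by rw [Fin.val_last]; omega)]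
  have h2 : res (m := 1) (nres σ (k + 1) id) ![(Fin.last k).castSucc, Fin.last (k + 1)] =
      nres σ 1 fun t => if t = 0 then k else k + 1 := by
    have h3 : nres (nres σ (k + 1) id) 1 (fun t => if t = 0 then k else k + 1) =
        res (m := 1) (nres σ (k + 1) id) ![(Fin.last k).castSucc, Fin.last (k + 1)] := by
      refine nres_res _ _ _ fun i => ?_
      fin_cases i
      · show min (if 0 = 0 then k else k + 1) (k + 1) = k
        simp
      · show min (if 1 = 0 then k else k + 1) (k + 1) = k + 1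
        simp
    rw [← h3, nres_nres _ _ _ (fun i hi => by split_ifs <;> omega)]
    rfl
  rw [h1, h2]
  rfl

theorem word (σ : C(Simp 9, X)) (a0 a1 a2 a3 a4 a5 a6 a7 a8 : Coch X 1) :
    cupL oneCo [a8, a7, a6, a5, a4, a3, a2, a1, a0] ⟨9, σ⟩ =
      ed a0 σ 0 1 * ed a1 σ 1 2 * ed a2 σ 2 3 * ed a3 σ 3 4 * ed a4 σ 4 5 * ed a5 σ 5 6 *
        ed a6 σ 6 7 * ed a7 σ 7 8 * ed a8 σ 8 9 := by
  have h : (⟨9, σ⟩ : SSx X) = ⟨8 + 1, nres σ (8 + 1) id⟩ := by
    rw [self_nres]
  rw [h]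
  simp only [cupL]
  rw [cupE_nres _ _ σ 8, cupE_nres _ _ σ 7, cupE_nres _ _ σ 6, cupE_nres _ _ σ 5,
    cupE_nres _ _ σ 4, cupE_nres _ _ σ 3, cupE_nres _ _ σ 2, cupE_nres _ _ σ 1,
    cupE_nres _ _ σ 0]
  have h1 : (oneCo : TCo X) ⟨0, nres σ 0 id⟩ = 1 := by
    unfold oneCo
    simp
  rw [h1, one_mul]

/-! ### The cocycle `ω` -/

/-- the cocycle `ω` as a sum of cup products -/
def om (v : Fin 7 → Coch X 1) : Coch X 2 := ∑ p ∈ idx, c2 (v p.2) (v p.1)

theorem om_cocycle {v : Fin 7 → Coch X 1} (hv : ∀ i, cobd (v i) = 0) : cobd (om v) = 0 := by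
  unfold om
  rw [map_sum]
  exact Finset.sum_eq_zero fun p _ => c2_cocycle (hv _) (hv _)

theorem tr_om (v : Fin 7 → Coch X 1) {k : ℕ} (σ : C(Simp k, X)) (a b c : ℕ) :
    tr (om v) σ a b c = S fun i j => ed (v j) σ a b * ed (v i) σ b c := by
  unfold om tr
  rw [Finset.sum_apply, ← idx_sum]
  exact Finset.sum_congr rfl fun p _ => tr_c2 _ _ σ a b c

/-- the words in `Sq¹ ω` -/
def bm (v : Fin 7 → Coch X 1) : Coch X 3 := ∑ p ∈ idx, w3 (v p.2) (v p.1)

theorem w3_nres (v w : Coch X 1) (σ : C(Simp 9, X)) :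
    w3 v w (nres σ 3 fun t => 6 + t) =
      ed v σ 6 7 * ed v σ 7 8 * ed w σ 8 9 + ed v σ 6 7 * ed w σ 7 8 * ed w σ 8 9 := by
  have h : ∀ (u : Coch X 1) (a b : ℕ), a ≤ 3 → b ≤ 3 →
      ed u (nres σ 3 fun t => 6 + t) a b = ed u σ (6 + a) (6 + b) := by
    intro u a b ha hb
    unfold ed
    rw [nres_nres _ _ _ (fun i hi => by split_ifs <;> omega)]
    congr 1
    refine nres_congr σ fun t ht => ?_
    show 6 + (if t = 0 then a else b) = if t = 0 then 6 + a else 6 + b
    split_ifs <;> rfl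
  unfold w3
  rw [h v 0 1 (by omega) (by omega), h v 1 2 (by omega) (by omega),
    h w 2 3 (by omega) (by omega), h w 1 2 (by omega) (by omega)]

theorem bm_apply (v : Fin 7 → Coch X 1) (σ : C(Simp 9, X)) :
    bm v (nres σ 3 fun t => 6 + t) = S fun i j =>
      ed (v j) σ 6 7 * ed (v j) σ 7 8 * ed (v i) σ 8 9 +
        ed (v j) σ 6 7 * ed (v i) σ 7 8 * ed (v i) σ 8 9 := by
  unfold bm
  rw [Finset.sum_apply, ← idx_sum]
  exact Finset.sum_congr rfl fun p _ => w3_nres _ _ σ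

theorem PPw_apply (v : Fin 7 → Coch X 1) (σ : C(Simp 9, X)) :
    PPw v ⟨9, σ⟩ = cub (om v) (bm v) σ := by
  rw [cub_apply, tr_om, tr_om, tr_om, bm_apply, S_expand]
  unfold PPw S
  simp only [Finset.sum_apply, Pi.add_apply, word]
  refine Finset.sum_congr rfl fun i₁ _ => Finset.sum_congr rfl fun j₁ _ =>
    Finset.sum_congr rfl fun i₂ _ => Finset.sum_congr rfl fun j₂ _ =>
    Finset.sum_congr rfl fun i₃ _ => Finset.sum_congr rfl fun j₃ _ =>
    Finset.sum_congr rfl fun i₄ _ => Finset.sum_congr rfl fun j₄ _ => ?_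
  ring

theorem tpair_incl (α : TCo X) (k : ℕ) (T : Chain X k) :
    tpair α (incl k T) = pair (fun σ => α ⟨k, σ⟩) T := by
  induction T using Finsupp.induction_linear with
  | zero => simp
  | add x y hx hy => rw [map_add, map_add, map_add, hx, hy]
  | single σ a =>
    rw [pair_single]
    unfold incl tpair
    simp [Finsupp.mapDomain_single, Finsupp.linearCombination_single]

theorem pair_big (v : Fin 7 → Coch X 1) (hvc : ∀ i, cobd (v i) = 0) (T : Chain X 9)
    (hT : bd T = 0) : pair (bigC (om v)) T = tpair (PPw v) (incl 9 T) := by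
  have homc : cobd (om v) = 0 := om_cocycle hvc
  obtain ⟨C, hC⟩ := bock_sum idx (fun p => c2 (v p.2) (v p.1))
    fun p _ => c2_cocycle (hvc _) (hvc _)
  have hbm : (∑ p ∈ idx, bock (c2 (v p.2) (v p.1))) = bm v :=
    Finset.sum_congr rfl fun p _ => bock_c2 (hvc _) (hvc _)
  have hbock : bock (om v) = bm v + cobd C := by
    rw [← hbm]
    exact hC
  obtain ⟨γ, hγ⟩ := cub_cobd homc C
  have hbig : bigC (om v) = cub (om v) (bm v) + cobd γ := by
    have h1 : bigC (om v) = cub (om v) (bock (om v)) := bigC_eq (om v)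
    rw [h1, hbock, cub_add, hγ]
  have hf : (fun σ : C(Simp 9, X) => PPw v ⟨9, σ⟩) = cub (om v) (bm v) :=
    funext fun σ => PPw_apply v σ
  have h2 : tpair (PPw v) (incl 9 T) = pair (cub (om v) (bm v)) T := by
    rw [tpair_incl, hf]
  rw [h2, hbig, pair_add_left, pair_cobd, hT, map_zero, add_zero]

theorem om_apply (v : Fin 7 → Coch X 1) (σ : C(Simp 2, X)) :
    om v σ = ∑ i : Fin 7, ∑ j : Fin 7, if j ≤ i then ed (v j) σ 0 1 * ed (v i) σ 1 2 else 0 := by
  have h1 : om v σ = tr (om v) σ 0 1 2 := by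
    have h2 : om v (nres σ 2 id) = tr (om v) σ 0 1 2 := tr_of (om v) σ id
    rw [← h2, self_nres]
  rw [h1, tr_om, ← S_eq]

theorem res01 (σ : C(Simp 2, X)) :
    res (m := 1) σ ![0, 1] = nres σ 1 fun t => if t = 0 then 0 else 1 := by
  refine (nres_res σ _ _ fun i => ?_).symm
  fin_cases i <;> rfl

theorem res12 (σ : C(Simp 2, X)) :
    res (m := 1) σ ![1, 2] = nres σ 1 fun t => if t = 0 then 1 else 2 := by
  refine (nres_res σ _ _ fun i => ?_).symm
  fin_cases i <;> rfl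

end BIGM

open CUP BIGM in
theorem BIG : Stmt_BIG := by
  intro Z E _ _ A _ q lab χ hcoc T hT
  have hom : omegaC q lab χ = om fun i => vch q lab (χ i) := by
    funext σ
    rw [om_apply]
    unfold omegaC
    refine Finset.sum_congr rfl fun i _ => Finset.sum_congr rfl fun j _ => ?_
    rw [res01, res12]
    rfl
  rw [hom]
  exact pair_big (fun i => vch q lab (χ i)) (fun i => hcoc (χ i)) T hT

end TC
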