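import Pool.Agent.TC.Cyc.Stmts2

set_option autoImplicit false

open scoped Topology

noncomputable section

namespace TC

namespace CAPx

section graded

variable {X : Type} [TopologicalSpace X]

theorem mk_inj (k : ℕ) : Function.Injective (fun σ : C(Simp k, X) => (⟨k, σ⟩ : SSx X)) := by
  intro a b h
  simpa using h

/-- the part of degree `k` -/
def gp (k : ℕ) (z : TCh X) : Chain X k :=
  Finsupp.comapDomain (fun σ : C(Simp k, X) => (⟨k, σ⟩ : SSx X)) z (mk_inj k).injOn

theorem gp_apply (k : ℕ) (z : TCh X) (σ : C(Simp k, X)) : gp k z σ = z ⟨k, σ⟩ := rfl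

theorem gp_add (k : ℕ) (z w : TCh X) : gp k (z + w) = gp k z + gp k w := by
  ext σ; simp [gp_apply]

theorem gp_zero (k : ℕ) : gp k (0 : TCh X) = 0 := by
  ext σ; simp [gp_apply]

theorem gp_single (k : ℕ) (σ : C(Simp k, X)) (a : F2) :
    gp k (Finsupp.single ⟨k, σ⟩ a) = Finsupp.single σ a := by
  classical
  ext τ
  rw [gp_apply, Finsupp.single_apply, Finsupp.single_apply]
  congr 1
  simp

theorem gp_single_ne (k j : ℕ) (hjk : j ≠ k) (σ : C(Simp j, X)) (a : F2) :
    gp k (Finsupp.single ⟨j, σ⟩ a) = 0 := by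
  classical
  ext τ
  rw [gp_apply, Finsupp.single_apply, if_neg]
  · rfl
  · intro h
    exact hjk (congrArg Sigma.fst h)

theorem gp_tbd (k : ℕ) (z : TCh X) : gp k (tbd z) = bd (gp (k + 1) z) := by
  induction z using Finsupp.induction_linear with
  | zero => simp [gp_zero]
  | add x y hx hy => rw [map_add, gp_add, gp_add, map_add, hx, hy]
  | single s a =>
    obtain ⟨j, σ⟩ := s
    have hgs : ∀ (ι : Type) (S : Finset ι) (f : ι → TCh X), gp k (∑ i ∈ S, f i) =
        ∑ i ∈ S, gp k (f i) := by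
      intro ι S f
      exact map_sum (AddMonoidHom.mk' (gp (X := X) k) (gp_add k)) f S
    by_cases hj : j = k + 1
    · subst hj
      rw [gp_single, bd_single]
      have : tbd (Finsupp.single ⟨k + 1, σ⟩ a) =
          ∑ i : Fin (k + 2), Finsupp.single (⟨k, σ.comp (face i)⟩ : SSx X) a := by
        rw [tbd, Finsupp.linearCombination_single]
        show a • ∑ i : Fin (k + 2), Finsupp.single (⟨k, σ.comp (face i)⟩ : SSx X) 1 = _
        rw [Finset.smul_sum]
        refine Finset.sum_congr rfl fun i _ => ?_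
        rw [Finsupp.smul_single, smul_eq_mul, mul_one]
      rw [this, hgs]
      exact Finset.sum_congr rfl fun i _ => gp_single k _ a
    · rw [gp_single_ne (k + 1) j hj, map_zero]
      have : tbd (Finsupp.single ⟨j, σ⟩ a) = a • bdS ⟨j, σ⟩ := by
        rw [tbd, Finsupp.linearCombination_single]
      rw [this]
      cases j with
      | zero =>
        show gp k (a • (0 : TCh X)) = 0
        rw [smul_zero, gp_zero]
      | succ j =>
        show gp k (a • ∑ i : Fin (j + 2), Finsupp.single (⟨j, σ.comp (face i)⟩ : SSx X) 1) = 0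
        rw [Finset.smul_sum, hgs]
        refine Finset.sum_eq_zero fun i _ => ?_
        rw [Finsupp.smul_single, smul_eq_mul, mul_one]
        exact gp_single_ne k j (fun h => hj (by rw [h])) _ _

theorem tpair_gp (α : TCo X) (z : TCh X) : ∃ N, ∀ n ≥ N,
    tpair α z = ∑ k ∈ Finset.range n, pair (fun σ => α ⟨k, σ⟩) (gp k z) := by
  induction z using Finsupp.induction_linear with
  | zero => exact ⟨0, fun n _ => by simp [gp_zero]⟩
  | add x y hx hy =>
    obtain ⟨N, hN⟩ := hx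
    obtain ⟨M, hM⟩ := hy
    refine ⟨max N M, fun n hn => ?_⟩
    rw [map_add, hN n (le_trans (le_max_left _ _) hn), hM n (le_trans (le_max_right _ _) hn),
      ← Finset.sum_add_distrib]
    refine Finset.sum_congr rfl fun k _ => ?_
    rw [gp_add, map_add]
  | single s a =>
    obtain ⟨j, σ⟩ := s
    refine ⟨j + 1, fun n hn => ?_⟩
    rw [Finset.sum_eq_single j]
    · rw [gp_single, pair_single, tpair, Finsupp.linearCombination_single, smul_eq_mul]
    · intro k _ hk
      rw [gp_single_ne k j (Ne.symm hk), map_zero]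
    · intro h
      exact absurd (Finset.mem_range.2 (by omega)) h

/-- the coefficients of the image of a chain -/
theorem mapDomain_eq_finsum {ι κ : Type} (f : ι → κ) (x : ι →₀ F2) (r : κ) :
    Finsupp.mapDomain f x r = ∑ᶠ s ∈ {s | f s = r}, x s := by
  classical
  rw [Finsupp.mapDomain, Finsupp.sum_apply, Finsupp.sum]
  have h1 : (∑ᶠ s ∈ {s | f s = r}, x s) = ∑ᶠ s, if f s = r then x s else 0 := by
    refine finsum_congr fun s => ?_
    by_cases h : f s = r <;> simp [h]
  rw [h1, finsum_eq_sum_of_support_subset (s := x.support)]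
  · refine Finset.sum_congr rfl fun s _ => ?_
    rw [Finsupp.single_apply]
  · intro s hs
    rw [Function.mem_support] at hs
    rw [Finset.mem_coe, Finsupp.mem_support_iff]
    intro h
    apply hs
    rw [h, ite_self]

end graded

section cover

variable {Z E : Type} [TopologicalSpace Z] [TopologicalSpace E] {A : Type}
  [AddCommGroup A] [AddAction A Z] [ContinuousConstVAdd A Z] {q : C(Z, E)}

/-- translate of a simplex -/
def tr (h : A) {k : ℕ} (τ : C(Simp k, Z)) : C(Simp k, Z) :=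
  (⟨fun z => h +ᵥ z, continuous_const_vadd h⟩ : C(Z, Z)).comp τ

theorem q_tr (hq : IsAddQuotientCoveringMap q A) (h : A) {k : ℕ} (τ : C(Simp k, Z)) :
    q.comp (tr h τ) = q.comp τ := by
  ext t
  exact hq.apply_eq_iff_mem_orbit.2 ⟨h, rfl⟩

theorem bijOn (hA : Stmt_LIFTA) (hB : Stmt_LIFTB) (hq : IsAddQuotientCoveringMap q A) {k : ℕ}
    (i : Fin (k + 2)) (τ₀ : C(Simp k, Z)) :
    Set.BijOn (fun τ : C(Simp (k + 1), Z) => q.comp τ) {τ | τ.comp (face i) = τ₀}
      {σ | σ.comp (face i) = q.comp τ₀} := by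
  refine ⟨fun τ hτ => ?_, fun τ hτ τ' hτ' h => ?_, fun σ hσ => ?_⟩
  · show (q.comp τ).comp (face i) = q.comp τ₀
    rw [ContinuousMap.comp_assoc]
    rw [show τ.comp (face i) = τ₀ from hτ]
  · obtain ⟨h, hh⟩ := hB Z E A q hq _ τ τ' h
    have h0 : h = 0 := by
      have e1 : τ' (face i (vtx 0)) = h +ᵥ τ (face i (vtx 0)) := hh _
      have e2 : τ (face i (vtx 0)) = τ₀ (vtx 0) := DFunLike.congr_fun (show τ.comp (face i) = τ₀ from hτ) _
      have e3 : τ' (face i (vtx 0)) = τ₀ (vtx 0) := DFunLike.congr_fun (show τ'.comp (face i) = τ₀ from hτ') _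
      rw [e2, e3] at e1
      obtain ⟨U, hU, hU'⟩ := hq.disjoint (τ₀ (vtx 0))
      apply hU' h
      refine ⟨τ₀ (vtx 0), ⟨τ₀ (vtx 0), mem_of_mem_nhds hU, e1.symm⟩, mem_of_mem_nhds hU⟩
    ext t
    rw [hh t, h0, zero_vadd]
  · obtain ⟨τ, hτ⟩ := hA Z E A q hq _ σ
    obtain ⟨h, hh⟩ := hB Z E A q hq _ (τ.comp (face i)) τ₀ (by
      rw [← ContinuousMap.comp_assoc, hτ]; exact hσ)
    refine ⟨tr h τ, ?_, ?_⟩
    · ext t
      exact (hh t).symm
    · show q.comp (tr h τ) = σ
      rw [q_tr hq, hτ]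

theorem map_face_E (hA : Stmt_LIFTA) (hB : Stmt_LIFTB) (hq : IsAddQuotientCoveringMap q A)
    {k : ℕ} (i : Fin (k + 2)) (x : Chain E (k + 1)) (τ₀ : C(Simp k, Z)) :
    Finsupp.mapDomain (fun σ : C(Simp (k + 1), E) => σ.comp (face i)) x (q.comp τ₀) =
      ∑ᶠ τ ∈ {τ : C(Simp (k + 1), Z) | τ.comp (face i) = τ₀}, x (q.comp τ) := by
  rw [mapDomain_eq_finsum]
  exact (finsum_mem_eq_of_bijOn _ (bijOn hA hB hq i τ₀) fun τ _ => rfl).symm

theorem fin_supp (hA : Stmt_LIFTA) (hB : Stmt_LIFTB) (hq : IsAddQuotientCoveringMap q A)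
    {k : ℕ} (i : Fin (k + 2)) (x : Chain E (k + 1)) (τ₀ : C(Simp k, Z)) :
    ({τ : C(Simp (k + 1), Z) | τ.comp (face i) = τ₀} ∩
      Function.support fun τ => x (q.comp τ)).Finite := by
  refine Set.Finite.of_finite_image (f := fun τ : C(Simp (k + 1), Z) => q.comp τ) ?_
    ((bijOn hA hB hq i τ₀).injOn.mono Set.inter_subset_left)
  refine x.support.finite_toSet.subset ?_
  rintro _ ⟨τ, ⟨-, hτ⟩, rfl⟩
  rw [Finset.mem_coe, Finsupp.mem_support_iff]
  exact hτ

theorem bd_apply {X : Type} [TopologicalSpace X] {k : ℕ} (x : Chain X (k + 1)) (ρ : C(Simp k, X)) :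
    bd x ρ = ∑ i : Fin (k + 2),
      Finsupp.mapDomain (fun σ : C(Simp (k + 1), X) => σ.comp (face i)) x ρ := by
  rw [bd, LinearMap.sum_apply, Finsupp.finsetSum_apply]
  rfl

theorem smap_vtx {m k : ℕ} (θ : Fin (m + 1) → Fin (k + 1)) (i : Fin (m + 1)) :
    smap θ (vtx i) = vtx (θ i) := stdSimplex.map_vertex θ i

theorem face_vtx {k : ℕ} (i : Fin (k + 2)) (j : Fin (k + 1)) :
    face i (vtx j) = vtx (i.succAbove j) := smap_vtx _ _

/-- the label of the last vertex -/
def th (lab : Z → A) (χ : A →+ ZMod 2) {k : ℕ} (τ : C(Simp k, Z)) : ZMod 2 :=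
  χ (lab (τ (vtx (Fin.last k))))

theorem th_tr {lab : Z → A} (hlab : IsLabel lab) (χ : A →+ ZMod 2) {k : ℕ} (h : A)
    (τ : C(Simp k, Z)) : th lab χ (tr h τ) = χ h + th lab χ τ := by
  show χ (lab (h +ᵥ τ (vtx (Fin.last k)))) = _
  rw [hlab, map_add]
  rfl

theorem z2_add_self (a : ZMod 2) : a + a = 0 := by revert a; decide

theorem exists_lift (hA : Stmt_LIFTA) (hq : IsAddQuotientCoveringMap q A) {lab : Z → A}
    (hlab : IsLabel lab) (χ : A →+ ZMod 2) (h₀ : A) (h1 : χ h₀ = 1) {k : ℕ} (σ : C(Simp k, E)) :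
    ∃ τ : C(Simp k, Z), q.comp τ = σ ∧ th lab χ τ = 0 := by
  obtain ⟨τ, hτ⟩ := hA Z E A q hq _ σ
  rcases z2_cases (th lab χ τ) with h | h
  · exact ⟨τ, hτ, h⟩
  · refine ⟨tr h₀ τ, by rw [q_tr hq, hτ], ?_⟩
    rw [th_tr hlab, h, h1]
    decide

omit [ContinuousConstVAdd A Z] in
theorem last_edge (hq : IsAddQuotientCoveringMap q A) (hE : Stmt_EDGE) {lab : Z → A}
    (hlab : IsLabel lab) (χ : A →+ ZMod 2) {k : ℕ} (τ : C(Simp (k + 1), Z)) :
    vch q lab χ (res (m := 1) (q.comp τ) ![(Fin.last k).castSucc, Fin.last (k + 1)]) =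
      th lab χ τ + th lab χ (τ.comp (face (Fin.last (k + 1)))) := by
  show χ (edgeLab q lab (q.comp (res (m := 1) τ ![(Fin.last k).castSucc, Fin.last (k + 1)]))) = _
  rw [hE Z E A q hq lab hlab, map_sub, CharTwo.sub_eq_add]
  congr 1
  · show χ (lab (τ (smap _ (vtx 1)))) = χ (lab (τ _))
    rw [smap_vtx]
    rfl
  · show χ (lab (τ (smap _ (vtx 0)))) = χ (lab (τ (face _ _)))
    rw [smap_vtx, face_vtx, Fin.succAbove_last]
    rfl

open Classical in
theorem cap_graded (hA : Stmt_LIFTA) (hB : Stmt_LIFTB) (hE : Stmt_EDGE)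
    (hq : IsAddQuotientCoveringMap q A) {lab : Z → A} (hlab : IsLabel lab) (χ : A →+ ZMod 2)
    (h₀ : A) (h1 : χ h₀ = 1) {k : ℕ} (w' y : Chain Z (k + 1)) (w : Chain E (k + 1))
    (u : Chain E k) (hw : ∀ τ, w (q.comp τ) = w' τ)
    (hy : ∀ h, χ h = 0 → ∀ τ, y (tr h τ) = y τ) (hyw : ∀ τ, y τ + y (tr h₀ τ) = w' τ)
    (hu : ∀ τ, u (q.comp τ) = bd y τ) (α : Coch E k)
    (hα : ∀ x : Chain E (k + 1), pair α (bd x) = 0) :
    pair (fun σ : C(Simp (k + 1), E) => α (σ.comp (face (Fin.last (k + 1)))) *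
      vch q lab χ (res (m := 1) σ ![(Fin.last k).castSucc, Fin.last (k + 1)])) w = pair α u := by
  choose L hL1 hL2 using fun σ : C(Simp (k + 1), E) => exists_lift hA hq hlab χ h₀ h1 σ
  let x : Chain E (k + 1) := Finsupp.onFinset (y.support.image fun τ => q.comp τ)
    (fun σ => y (L σ)) (by
      intro σ hσ
      rw [Finset.mem_image]
      exact ⟨L σ, Finsupp.mem_support_iff.2 hσ, hL1 σ⟩)
  have X1 : ∀ τ, th lab χ τ = 0 → x (q.comp τ) = y τ := by
    intro τ hτ
    show y (L (q.comp τ)) = y τ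
    obtain ⟨h, hh⟩ := hB Z E A q hq _ (L (q.comp τ)) τ (hL1 _)
    have e : τ = tr h (L (q.comp τ)) := by ext t; exact hh t
    have e2 : χ h = 0 := by
      have := th_tr hlab χ h (L (q.comp τ))
      rw [← e, hτ, hL2, add_zero] at this
      exact this.symm
    conv_rhs => rw [e]
    exact (hy h e2 _).symm
  have X2 : ∀ τ, th lab χ τ = 1 → x (q.comp τ) = y (tr h₀ τ) := by
    intro τ hτ
    rw [← q_tr hq h₀ τ]
    refine X1 _ ?_
    rw [th_tr hlab, hτ, h1]
    decide
  let v : C(Simp (k + 1), E) → ZMod 2 := fun σ =>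
    vch q lab χ (res (m := 1) σ ![(Fin.last k).castSucc, Fin.last (k + 1)])
  let wv : Chain E (k + 1) := Finsupp.onFinset w.support (fun σ => w σ * v σ) (by
    intro σ hσ
    rw [Finsupp.mem_support_iff]
    exact left_ne_zero_of_mul hσ)
  have hsupp : ∀ (c : Chain Z (k + 1)) (S : Set C(Simp (k + 1), Z)),
      (S ∩ Function.support fun τ => c τ).Finite := fun c S =>
    c.support.finite_toSet.subset fun τ hτ => Finsupp.mem_support_iff.2 hτ.2
  have key : ∀ τ₀ : C(Simp k, Z), th lab χ τ₀ = 0 →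
      bd x (q.comp τ₀) = bd y τ₀ + Finsupp.mapDomain
        (fun σ : C(Simp (k + 1), E) => σ.comp (face (Fin.last (k + 1)))) wv (q.comp τ₀) := by
    intro τ₀ h0
    rw [bd_apply, bd_apply, Fin.sum_univ_castSucc (n := k + 1), Fin.sum_univ_castSucc (n := k + 1),
      add_assoc (G := F2)]
    congr 1
    · refine Finset.sum_congr rfl fun i _ => ?_
      rw [map_face_E hA hB hq, mapDomain_eq_finsum]
      refine finsum_mem_congr rfl fun τ hτ => X1 τ ?_
      rw [← h0]
      show χ (lab (τ _)) = χ (lab (τ₀ _))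
      rw [← (show τ.comp (face i.castSucc) = τ₀ from hτ)]
      show χ (lab (τ _)) = χ (lab (τ (face _ _)))
      rw [face_vtx, Fin.succAbove_castSucc_of_le _ _ (Fin.le_last _), Fin.succ_last]
    · rw [map_face_E hA hB hq, mapDomain_eq_finsum, map_face_E hA hB hq,
        ← finsum_mem_add_distrib' (hsupp y _) (fin_supp hA hB hq _ wv τ₀)]
      refine finsum_mem_congr rfl fun τ hτ => ?_
      have hv : v (q.comp τ) = th lab χ τ := by
        have := last_edge hq hE hlab χ τ
        rw [show τ.comp (face (Fin.last (k + 1))) = τ₀ from hτ, h0, add_zero] at this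
        exact this
      show x (q.comp τ) = y τ + w (q.comp τ) * v (q.comp τ)
      rw [hv, hw, ← hyw]
      rcases z2_cases (th lab χ τ) with h | h
      · rw [X1 τ h, h, mul_zero, add_zero]
      · rw [X2 τ h, h, mul_one, ← add_assoc, z2_add_self, zero_add]
  have key2 : bd x = u + Finsupp.mapDomain
        (fun σ : C(Simp (k + 1), E) => σ.comp (face (Fin.last (k + 1)))) wv := by
    ext ρ
    obtain ⟨τ₀, hτ, h0⟩ := exists_lift hA hq hlab χ h₀ h1 ρ
    rw [← hτ, key τ₀ h0, Finsupp.add_apply, hu]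
  have h3 := hα x
  rw [key2, map_add] at h3
  have h4 : pair α (Finsupp.mapDomain
        (fun σ : C(Simp (k + 1), E) => σ.comp (face (Fin.last (k + 1)))) wv) =
      pair (fun σ : C(Simp (k + 1), E) => α (σ.comp (face (Fin.last (k + 1)))) * v σ) w := by
    rw [pair, Finsupp.linearCombination_mapDomain, Finsupp.linearCombination_apply,
      pair, Finsupp.linearCombination_apply, Finsupp.onFinset_sum, Finsupp.sum]
    · refine Finset.sum_congr rfl fun σ _ => ?_
      show w σ * v σ * α _ = w σ * (α _ * v σ)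
      ring
    · intro σ
      exact zero_smul _ _
  rw [h4] at h3
  calc pair (fun σ : C(Simp (k + 1), E) => α (σ.comp (face (Fin.last (k + 1)))) * v σ) w
      = pair α u + (pair α u + pair (fun σ : C(Simp (k + 1), E) =>
          α (σ.comp (face (Fin.last (k + 1)))) * v σ) w) := by
        rw [← add_assoc, z2_add_self, zero_add]
    _ = pair α u := by rw [h3, add_zero]

theorem tact_inj (h : A) : Function.Injective
    (mapS (⟨fun z => h +ᵥ z, continuous_const_vadd h⟩ : C(Z, Z))) := by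
  intro s s' hs
  obtain ⟨a, σ⟩ := s
  obtain ⟨b, σ'⟩ := s'
  have hab : a = b := congrArg Sigma.fst hs
  subst hab
  have h2 : (⟨fun z => h +ᵥ z, continuous_const_vadd h⟩ : C(Z, Z)).comp σ =
    (⟨fun z => h +ᵥ z, continuous_const_vadd h⟩ : C(Z, Z)).comp σ' := eq_of_heq (Sigma.mk.inj hs).2
  have h4 : σ = σ' := by
    ext t
    have h3 : h +ᵥ σ t = h +ᵥ σ' t := DFunLike.congr_fun h2 t
    exact vadd_left_cancel h h3
  rw [h4]

theorem hmem (h : A) (c : TCh Z) {j : ℕ} (τ : C(Simp j, Z)) :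
      tact h c ⟨j, tr h τ⟩ = c ⟨j, τ⟩ := Finsupp.mapDomain_apply (tact_inj h) c ⟨j, τ⟩

theorem tbd_incl {X : Type} [TopologicalSpace X] (k : ℕ) (x : Chain X (k + 1)) :
    tbd (incl (k + 1) x) = incl k (bd x) := by
  induction x using Finsupp.induction_linear with
  | zero => simp
  | add a b ha hb => rw [map_add, map_add, map_add, map_add, ha, hb]
  | single σ a =>
    rw [bd_single, map_sum]
    have e5 : ∀ (j : ℕ) (τ : C(Simp j, X)) (b : F2),
        incl j (Finsupp.single τ b) = Finsupp.single ⟨j, τ⟩ b := by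
      intro j τ b
      exact Finsupp.mapDomain_single
    simp only [e5]
    rw [tbd, Finsupp.linearCombination_single]
    show a • ∑ i : Fin (k + 2), Finsupp.single (⟨k, σ.comp (face i)⟩ : SSx X) 1 = _
    rw [Finset.smul_sum]
    refine Finset.sum_congr rfl fun i _ => ?_
    rw [Finsupp.smul_single, smul_eq_mul, mul_one]

end cover

end CAPx

open CAPx in
theorem CAP (hA : Stmt_LIFTA) (hB : Stmt_LIFTB) (hE : Stmt_EDGE) : Stmt_CAP := by
  intro Z E _ _ A _ _ _ q hq lab hlab χ h₀ h1 w' y w u hw htw hy hyw hu α hα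
  have main : ∀ k : ℕ, pair (fun σ : C(Simp (k + 1), E) => cupE α (vch q lab χ) ⟨k + 1, σ⟩)
      (gp (k + 1) w) = pair (fun σ : C(Simp k, E) => α ⟨k, σ⟩) (gp k u) := by
    intro k
    have c1 : ∀ τ : C(Simp (k + 1), Z), gp (k + 1) w (q.comp τ) = gp (k + 1) w' τ :=
      fun τ => hw ⟨k + 1, τ⟩
    have c2 : ∀ h, χ h = 0 → ∀ τ : C(Simp (k + 1), Z),
        gp (k + 1) y (tr h τ) = gp (k + 1) y τ := by
      intro h hh τ
      have e1 := hmem h y τ
      rw [hy h hh] at e1
      exact e1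
    have c3 : ∀ τ : C(Simp (k + 1), Z),
        gp (k + 1) y τ + gp (k + 1) y (tr h₀ τ) = gp (k + 1) w' τ := by
      intro τ
      have e0 : χ (-h₀ + -h₀) = 0 := by
        rw [map_add, map_neg, h1]
        decide
      have e1 := hmem h₀ y (tr (-h₀) τ)
      have e2 : tr h₀ (tr (-h₀) τ) = τ := by
        ext t
        exact vadd_neg_vadd _ _
      rw [e2] at e1
      have e3 := hmem (-h₀ + -h₀) y (tr h₀ τ)
      rw [hy _ e0] at e3
      have e4 : tr (-h₀ + -h₀) (tr h₀ τ) = tr (-h₀) τ := by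
        ext t
        show (-h₀ + -h₀) +ᵥ (h₀ +ᵥ τ t) = -h₀ +ᵥ τ t
        rw [vadd_vadd]
        congr 1
        abel
      rw [e4] at e3
      show y ⟨k + 1, τ⟩ + y ⟨k + 1, tr h₀ τ⟩ = w' ⟨k + 1, τ⟩
      rw [← hyw, ← e3, ← e1]
      rfl
    have c4 : ∀ τ : C(Simp k, Z), gp k u (q.comp τ) = bd (gp (k + 1) y) τ := by
      intro τ
      rw [← gp_tbd]
      exact hu ⟨k, τ⟩
    have c5 : ∀ x : Chain E (k + 1), pair (fun σ : C(Simp k, E) => α ⟨k, σ⟩) (bd x) = 0 := by
      intro x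
      have := hα (incl (k + 1) x)
      rw [tbd_incl] at this
      rw [← this, tpair, incl]
      show _ = Finsupp.linearCombination F2 α (Finsupp.mapDomain _ (bd x))
      rw [Finsupp.linearCombination_mapDomain]
      rfl
    have c6 := cap_graded hA hB hE hq hlab χ h₀ h1 (gp (k + 1) w') (gp (k + 1) y) (gp (k + 1) w)
      (gp k u) c1 c2 c3 c4 (fun σ : C(Simp k, E) => α ⟨k, σ⟩) c5
    rw [← c6]
    rfl
  obtain ⟨N, hN⟩ := tpair_gp (cupE α (vch q lab χ)) w
  obtain ⟨M, hM⟩ := tpair_gp α u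
  rw [hN (max N M + 1) (by omega), hM (max N M) (le_max_right _ _), Finset.sum_range_succ']
  have h0 : pair (fun σ : C(Simp 0, E) => cupE α (vch q lab χ) ⟨0, σ⟩) (gp 0 w) = 0 := by
    have : (fun σ : C(Simp 0, E) => cupE α (vch q lab χ) ⟨0, σ⟩) = 0 := by
      funext σ
      rfl
    rw [this, pair, Finsupp.linearCombination_apply]
    simp
  rw [h0, add_zero]
  exact Finset.sum_congr rfl fun k _ => main k

end TC
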