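import Pool.Agent.TC.Cyc.Stmts2

/-!
# Block CYC, module EVALM: the assembly of the block
-/

set_option autoImplicit false

open scoped Topology

noncomputable section

namespace TC

namespace EVALM

theorem tmap_single {X Y : Type} [TopologicalSpace X] [TopologicalSpace Y] (f : C(X, Y))
    (s : SSx X) (a : F2) : tmap f (Finsupp.single s a) = Finsupp.single (mapS f s) a := by
  simp [tmap, Finsupp.mapDomain_single]

theorem tmap_support {X Y : Type} [TopologicalSpace X] [TopologicalSpace Y] (f : C(X, Y))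
    (z : TCh X) (s : SSx Y) (hs : s ∈ (tmap f z).support) : ∃ s' ∈ z.support, s = mapS f s' := by
  classical
  have h1 : (tmap f z) = Finsupp.mapDomain (mapS f) z := rfl
  rw [h1] at hs
  have h2 := Finsupp.mapDomain_support hs
  rw [Finset.mem_image] at h2
  obtain ⟨s', h3, h4⟩ := h2
  exact ⟨s', h3, h4.symm⟩

theorem tact_zero' {Z A : Type} [TopologicalSpace Z] [AddGroup A] [AddAction A Z]
    [ContinuousConstVAdd A Z] (z : TCh Z) : tact (0 : A) z = z := by
  have h1 : (⟨fun z => (0 : A) +ᵥ z, continuous_const_vadd 0⟩ : C(Z, Z)) = ContinuousMap.id Z := by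
    ext x
    exact zero_vadd A x
  unfold tact
  rw [h1]
  induction z using Finsupp.induction_linear with
  | zero => simp
  | add x y hx hy => rw [map_add, hx, hy]
  | single σ a =>
    rw [tmap_single]
    rfl

theorem full_deg {Z : Type} [TopologicalSpace Z] {J : Type} [Fintype J] [DecidableEq J]
    [AddAction (J → ZMod 2) Z] [ContinuousConstVAdd (J → ZMod 2) Z] {d : ℕ}
    (S : MirrorSys Z J d) (I : Finset J) (s : SSx Z) (hs : s ∈ (S.full I).support) :
    s.1 + I.card = d := by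
  classical
  unfold MirrorSys.full at hs
  have h1 := Finsupp.support_finsetSum hs
  rw [Finset.mem_biUnion] at h1
  obtain ⟨g, -, hg⟩ := h1
  obtain ⟨s', hs', rfl⟩ := tmap_support _ _ _ hg
  exact S.deg I s' hs'

theorem tbd_zero_of_desc (hDBD : Stmt_DBD) (hDUN : Stmt_DUN) {Z E : Type} [TopologicalSpace Z]
    [TopologicalSpace E] {A : Type} [AddCommGroup A] [AddAction A Z] (q : C(Z, E))
    (hq : IsAddQuotientCoveringMap q A) {w' : TCh Z} {w : TCh E} (h : IsDesc q w' w)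
    (h0 : tbd w' = 0) : tbd w = 0 := by
  have h1 := hDBD Z E A q hq w' w h
  rw [h0] at h1
  have h2 : IsDesc q (0 : TCh Z) (0 : TCh E) := fun s => rfl
  exact hDUN Z E A q hq 0 _ _ h1 h2

end EVALM

open EVALM in
theorem EVAL (hSYSM : Stmt_SYSM) (hSYS2 : Stmt_SYS2) (hPROD : Stmt_PROD) (hCRSC : Stmt_CRSC)
    (hTRF : Stmt_TRF) (hDESE : Stmt_DESE) (hRELS : Stmt_RELS) (hBIG : Stmt_BIG)
    (hVCL : Stmt_VCL) (hRPC : Stmt_RPC) (hDEX : Stmt_DEX) (hDEC : Stmt_DEC) (hDUN : Stmt_DUN)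
    (hDBD : Stmt_DBD) (hSYSF : Stmt_SYSF) (hGRD : Stmt_GRD) (hTBB : Stmt_TBB) : Stmt_EVAL := by
  intro hM hE
  obtain ⟨S, hS⟩ := hSYSM
  obtain ⟨S', hS'⟩ := hSYS2
  -- the cycle of the fibre
  have hinvM : ∀ h : H5, tact h (S.full ∅) = S.full ∅ := fun h =>
    (hSYSF Mh (Fin 12) 7 S ∅).1 (chi12 h)
  obtain ⟨z, hz⟩ := hDEX Mh Mq H5 qMc hM (S.full ∅) hinvM
  obtain ⟨T, hT⟩ := hTRF hM hE S hS z hz
  -- the chain of the sphere
  have hanti : (⟨fun b : S2 => (1 : ZMod 2) +ᵥ b, continuous_const_vadd 1⟩ : C(S2, S2)) =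
      ⟨fun b : S2 => (fun _ => 1 : Fin 3 → ZMod 2) +ᵥ b, continuous_const_vadd _⟩ := by
    ext1 b
    show (1 : ZMod 2) +ᵥ b = (fun _ => 1 : Fin 3 → ZMod 2) +ᵥ b
    rw [vadd1_eq]
    apply Subtype.ext
    ext i
    show -(b.1 i) = ((fun _ => 1 : Fin 3 → ZMod 2) +ᵥ b).1 i
    rw [vaddS2_apply]
    simp [sg]
  have hinv2 : ∀ h : ZMod 2, tact h (S'.full ∅) = S'.full ∅ := by
    intro h
    rcases z2_cases h with rfl | rfl
    · exact tact_zero' _
    · have h1 : tact (1 : ZMod 2) (S'.full ∅) =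
          tact (fun _ => 1 : Fin 3 → ZMod 2) (S'.full ∅) := by
        unfold tact
        rw [hanti]
      rw [h1]
      exact (hSYSF S2 (Fin 3) 2 S' ∅).1 _
  obtain ⟨w2, hw2⟩ := hDEX S2 RP2 (ZMod 2) qRc hRPC (S'.full ∅) hinv2
  obtain ⟨y, hy1, hy2, hy3⟩ := hDEC S2 RP2 (ZMod 2) qRc hRPC (S'.full ∅) w2 hw2
  have hy : y + tact (1 : ZMod 2) y = S'.full ∅ := by
    rw [hy1]
    have h1 : (Finset.univ : Finset (ZMod 2)) = {0, 1} := by decide
    rw [h1, Finset.sum_pair (by decide), tact_zero']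
  have hydeg : ∀ s ∈ y.support, s.1 = 2 := by
    intro s hs
    have h1 := full_deg S' ∅ s (hy3 s hs)
    simpa using h1
  obtain ⟨g1, g2, g3, g4, g5, g6, g7, g8⟩ := hGRD S2 RP2
  set y2 : Chain S2 2 := prj 2 y with hy2def
  have hyincl : incl 2 y2 = y := g1 2 y hydeg
  -- the cycle of the projective plane
  have hzB : bd (cmap qRc y2) = 0 := by
    obtain ⟨-, -, t3, -⟩ := hTBB RP2 RP2
    obtain ⟨-, -, -, -, -, r6, -, -⟩ := hGRD RP2 RP2
    apply r6 1
    rw [← t3 1 (cmap qRc y2), ← g5 2 qRc y2, hyincl, ← hy2, map_zero]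
    exact tbd_zero_of_desc hDBD hDUN qRc hRPC hw2 (hSYSF S2 (Fin 3) 2 S' ∅).2
  refine ⟨T, cmap qRc y2, hzB, ?_⟩
  intro lab hlab
  -- the total cycle
  have hdesc0 := hDESE hM hE S S' z hz y hy
  obtain ⟨P, hPc, hPf⟩ := hPROD Mh S2 (Fin 12) (Fin 3) 7 2 S S'
  have hPf0 : P.full ∅ = cross (S.full ∅) (S'.full ∅) := by
    have h1 := hPf ∅ ∅
    rwa [Finset.empty_disjSum, Finset.map_empty] at h1
  have hqE : IsAddQuotientCoveringMap qEc H6 := hE
  set w : TCh EE := tmap totC (cross z y) with hw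
  have hdesc : IsDesc qEc (P.full ∅) w := by
    rw [hPf0]
    exact hdesc0
  have hbw : tbd w = 0 := tbd_zero_of_desc hDBD hDUN qEc hqE hdesc
    (hSYSF ZZ (Fin 12 ⊕ Fin 3) (7 + 2) P ∅).2
  have hPtop : tpair oneCo (P.c (ItopM.disjSum {0, 1})) = 1 := by
    rw [hPc, (hCRSC Mh S2 (S.c ItopM) (S'.c {0, 1})).2.2, hS, hS', one_mul]
  have hwdeg : ∀ s ∈ w.support, s.1 = 9 := by
    intro s hs
    obtain ⟨c9, -, hc2, hc3⟩ := hDEC ZZ EE H6 qEc hqE (P.full ∅) w hdesc
    rw [hc2] at hs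
    obtain ⟨s', hs', rfl⟩ := tmap_support _ _ _ hs
    have h1 := full_deg P ∅ s' (hc3 s' hs')
    show s'.1 = 9
    simpa using h1
  obtain ⟨e1, e2, e3, e4, e5, e6, e7, e8⟩ := hGRD EE EE
  set w9 : Chain EE 9 := prj 9 w with hw9
  have hwincl : incl 9 w9 = w := e1 9 w hwdeg
  have hbw9 : bd w9 = 0 := by
    have h1 := e3 8 w hwdeg
    rw [hw9, h1, hbw, map_zero]
  -- evaluation
  set c : Coch EE 9 := bigC (omegaC qE lab chr) with hc
  obtain ⟨-, -, -, t4, -⟩ := hTBB EE EE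
  have key : ∀ u : Chain S2 2, pair (T.coch (j := 2) c) (cmap qRc u) =
      tpair (ext 9 c) (tmap totC (cross z (incl 2 u))) := by
    intro u
    induction u using Finsupp.induction_linear with
    | zero => simp
    | add x y hx hy => simp only [map_add, hx, hy]
    | single σ a =>
      have h1 : (incl 2 (Finsupp.single σ a) : TCh S2) = a • Finsupp.single ⟨2, σ⟩ 1 := by
        simp [incl, Finsupp.mapDomain_single]
      rw [cmap_single, pair_single, h1, map_smul, map_smul, map_smul, ← hT 2 σ, smul_eq_mul]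
      congr 1
      exact (t4 9 c _).symm
  rw [key y2, hyincl, ← hw, ← hwincl, t4 9 c w9]
  have hb := hBIG ZZ EE H6 qE lab chr (fun χ' => hVCL ZZ EE H6 qEc hqE lab hlab χ') w9 hbw9
  rw [hc, hb, hwincl]
  exact hRELS hE P hPtop w hdesc hbw lab hlab

end TC
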