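import Pool.Agent.TC.Cyc.Stmts2

/-!
# The product of mirror systems
-/

set_option autoImplicit false

open scoped Topology

noncomputable section

namespace TC

section prod

variable {X Y : Type} [TopologicalSpace X] [TopologicalSpace Y] {J J' : Type}
  [Fintype J] [DecidableEq J] [Fintype J'] [DecidableEq J']

theorem prod_compl (K : Finset (J ⊕ J')) : Kᶜ = (K.toLeftᶜ).disjSum (K.toRightᶜ) := by
  ext i
  rcases i with i | i <;> simp

variable [AddAction (J → ZMod 2) X] [ContinuousConstVAdd (J → ZMod 2) X]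
  [AddAction (J' → ZMod 2) Y] [ContinuousConstVAdd (J' → ZMod 2) Y]

omit [Fintype J] [DecidableEq J] [Fintype J'] [DecidableEq J'] in
theorem prod_tact (hC : Stmt_CRSC) (g : J ⊕ J' → ZMod 2) (a : TCh X) (b : TCh Y) :
    tact g (cross a b) =
      cross (tact (fun j => g (Sum.inl j)) a) (tact (fun j => g (Sum.inr j)) b) := by
  unfold tact
  rw [← (hC X Y a b).1 X Y]
  rfl

/-- The product of two mirror systems. -/
def prodSys (hB : Stmt_CRSB) (hC : Stmt_CRSC) {d d' : ℕ} (S : MirrorSys X J d)
    (S' : MirrorSys Y J' d') : MirrorSys (X × Y) (J ⊕ J') (d + d') where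
  c K := cross (S.c K.toLeft) (S'.c K.toRight)
  bdc K := by
    rw [hB, S.bdc, S'.bdc, prod_compl, Finset.sum_disjSum, map_sum, map_sum,
      LinearMap.sum_apply]
    congr 1
    · refine Finset.sum_congr rfl fun i _ => ?_
      rw [Finset.toLeft_insert_inl, Finset.toRight_insert_inl]
    · refine Finset.sum_congr rfl fun i _ => ?_
      rw [Finset.toLeft_insert_inr, Finset.toRight_insert_inr]
  fix K i hi s hs t := by
    obtain ⟨s₁, hs₁, s₂, hs₂, -, h⟩ := (hC X Y _ _).2.1 s hs
    obtain ⟨t₁, t₂, ht⟩ := h t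
    rw [ht, vadd_prod_eq]
    rcases i with i | i
    · have e1 : (fun j : J => (Pi.single (Sum.inl i) 1 : J ⊕ J' → ZMod 2) (Sum.inl j)) =
          Pi.single i 1 := by
        funext j
        by_cases hj : j = i
        · subst hj
          simp
        · simp [hj]
      have e2 : (fun j : J' => (Pi.single (Sum.inl i) 1 : J ⊕ J' → ZMod 2) (Sum.inr j)) = 0 := by
        funext j
        simp
      rw [e1, e2, zero_vadd, S.fix K.toLeft i (Finset.mem_toLeft.2 hi) s₁ hs₁ t₁]
    · have e1 : (fun j : J' => (Pi.single (Sum.inr i) 1 : J ⊕ J' → ZMod 2) (Sum.inr j)) =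
          Pi.single i 1 := by
        funext j
        by_cases hj : j = i
        · subst hj
          simp
        · simp [hj]
      have e2 : (fun j : J => (Pi.single (Sum.inr i) 1 : J ⊕ J' → ZMod 2) (Sum.inl j)) = 0 := by
        funext j
        simp
      rw [e1, e2, zero_vadd, S'.fix K.toRight i (Finset.mem_toRight.2 hi) s₂ hs₂ t₂]
  deg K s hs := by
    obtain ⟨s₁, hs₁, s₂, hs₂, h, -⟩ := (hC X Y _ _).2.1 s hs
    have h1 := S.deg _ s₁ hs₁
    have h2 := S'.deg _ s₂ hs₂
    have h3 := Finset.card_toLeft_add_card_toRight (u := K)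
    omega

end prod

theorem PROD (hB : Stmt_CRSB) (hC : Stmt_CRSC) : Stmt_PROD := by
  intro X Y _ _ J J' _ _ _ _ _ _ _ _ d d' S S'
  refine ⟨prodSys hB hC S S', ?_, ?_⟩
  · intro I I'
    show cross (S.c (I.disjSum I').toLeft) (S'.c (I.disjSum I').toRight) = _
    rw [Finset.toLeft_disjSum, Finset.toRight_disjSum]
  · intro I I'
    have h1 : (prodSys hB hC S S').full (I.disjSum I') =
        ∑ g ∈ Finset.univ.filter (fun g : J ⊕ J' → ZMod 2 => ∀ i ∈ I.disjSum I', g i = 0),
          cross (tact (fun j => g (Sum.inl j)) (S.c I)) (tact (fun j => g (Sum.inr j)) (S'.c I')) := by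
      unfold MirrorSys.full
      refine Finset.sum_congr rfl fun g _ => ?_
      rw [← prod_tact hC]
      congr 1
      show cross (S.c (I.disjSum I').toLeft) (S'.c (I.disjSum I').toRight) = _
      rw [Finset.toLeft_disjSum, Finset.toRight_disjSum]
    rw [h1]
    unfold MirrorSys.full
    simp only [map_sum, LinearMap.sum_apply]
    rw [Finset.sum_comm, ← Finset.sum_product']
    refine Finset.sum_bij' (fun g _ => (fun j => g (Sum.inl j), fun j => g (Sum.inr j)))
      (fun p _ => Sum.elim p.1 p.2) ?_ ?_ ?_ ?_ ?_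
    · intro g hg
      simp only [Finset.mem_filter, Finset.mem_univ, true_and, Finset.mem_product] at hg ⊢
      exact ⟨fun i hi => hg _ (Finset.inl_mem_disjSum.2 hi),
        fun i hi => hg _ (Finset.inr_mem_disjSum.2 hi)⟩
    · intro p hp
      simp only [Finset.mem_filter, Finset.mem_univ, true_and, Finset.mem_product] at hp ⊢
      rintro (i | i) hi
      · exact hp.1 i (Finset.inl_mem_disjSum.1 hi)
      · exact hp.2 i (Finset.inr_mem_disjSum.1 hi)
    · intro g _
      funext i
      rcases i with i | i <;> rfl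
    · intro p _
      rfl
    · intro g _
      rfl

end TC
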