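import Pool.Agent.TC.Cyc.Defs

/-!
# Block CYC: statements of the modules (part 1: coverings, descent, capping, algebra)
-/

set_option autoImplicit false

open scoped Topology

noncomputable section

namespace TC

/-! ### Lifting -/

/-- LIFTA: singular simplices lift to quotient coverings. -/
def Stmt_LIFTA : Prop := ∀ (Z E : Type) [TopologicalSpace Z] [TopologicalSpace E] (A : Type)
  [AddCommGroup A] [AddAction A Z] (q : C(Z, E)), IsAddQuotientCoveringMap q A →
  ∀ (k : ℕ) (σ : C(Simp k, E)), ∃ σ' : C(Simp k, Z), q.comp σ' = σ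

/-- LIFTB: two lifts differ by a group element. -/
def Stmt_LIFTB : Prop := ∀ (Z E : Type) [TopologicalSpace Z] [TopologicalSpace E] (A : Type)
  [AddCommGroup A] [AddAction A Z] (q : C(Z, E)), IsAddQuotientCoveringMap q A →
  ∀ (k : ℕ) (σ τ : C(Simp k, Z)), q.comp σ = q.comp τ → ∃ h : A, ∀ t, τ t = h +ᵥ σ t

/-- EDGE: the label of the image of a path. -/
def Stmt_EDGE : Prop := ∀ (Z E : Type) [TopologicalSpace Z] [TopologicalSpace E] (A : Type)
  [AddCommGroup A] [AddAction A Z] (q : C(Z, E)), IsAddQuotientCoveringMap q A →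
  ∀ (lab : Z → A), IsLabel lab → ∀ τ : C(Simp 1, Z),
    edgeLab q lab (q.comp τ) = lab (τ (vtx 1)) - lab (τ (vtx 0))

/-- VCL: `v_χ` is a cocycle. -/
def Stmt_VCL : Prop := ∀ (Z E : Type) [TopologicalSpace Z] [TopologicalSpace E] (A : Type)
  [AddCommGroup A] [AddAction A Z] (q : C(Z, E)), IsAddQuotientCoveringMap q A →
  ∀ (lab : Z → A), IsLabel lab → ∀ χ : A →+ ZMod 2, cobd (vch q lab χ) = 0

/-! ### Total chains and descent -/

/-- TBB: `∂∂ = 0`, naturality of `∂`, and the comparison with chains of fixed degree. -/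
def Stmt_TBB : Prop := ∀ (X Y : Type) [TopologicalSpace X] [TopologicalSpace Y],
  (∀ z : TCh X, tbd (tbd z) = 0) ∧ (∀ (f : C(X, Y)) (z : TCh X), tbd (tmap f z) = tmap f (tbd z)) ∧
  (∀ (k : ℕ) (z : Chain X (k + 1)), tbd (incl (k + 1) z) = incl k (bd z)) ∧
  (∀ (k : ℕ) (c : Coch X k) (z : Chain X k), tpair (ext k c) (incl k z) = pair c z) ∧
  (∀ (k : ℕ) (c : Coch X k), cobd c = 0 → IsClosedCo (ext k c)) ∧
  (∀ (α : TCo X) (z : TCh X), tpair (tcobd α) z = tpair α (tbd z))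

/-- DEX: an invariant chain is the transfer of a chain. -/
def Stmt_DEX : Prop := ∀ (Z E : Type) [TopologicalSpace Z] [TopologicalSpace E] (A : Type)
  [AddCommGroup A] [AddAction A Z] [ContinuousConstVAdd A Z] (q : C(Z, E)),
  IsAddQuotientCoveringMap q A → ∀ w' : TCh Z, (∀ h : A, tact h w' = w') →
    ∃ w : TCh E, IsDesc q w' w

/-- DUN: uniqueness and additivity of the descent. -/
def Stmt_DUN : Prop := ∀ (Z E : Type) [TopologicalSpace Z] [TopologicalSpace E] (A : Type)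
  [AddCommGroup A] [AddAction A Z] (q : C(Z, E)), IsAddQuotientCoveringMap q A →
  ∀ (w' : TCh Z) (w₁ w₂ : TCh E), IsDesc q w' w₁ → IsDesc q w' w₂ → w₁ = w₂

/-- DBD: descent commutes with the boundary. -/
def Stmt_DBD : Prop := ∀ (Z E : Type) [TopologicalSpace Z] [TopologicalSpace E] (A : Type)
  [AddCommGroup A] [AddAction A Z] (q : C(Z, E)), IsAddQuotientCoveringMap q A →
  ∀ (w' : TCh Z) (w : TCh E), IsDesc q w' w → IsDesc q (tbd w') (tbd w)

/-- DSUM: the transfer of the image of a chain is the sum of its translates. -/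
def Stmt_DSUM : Prop := ∀ (Z E : Type) [TopologicalSpace Z] [TopologicalSpace E] (A : Type)
  [AddCommGroup A] [Fintype A] [AddAction A Z] [ContinuousConstVAdd A Z] (q : C(Z, E)),
  IsAddQuotientCoveringMap q A → ∀ c : TCh Z, IsDesc q (∑ h : A, tact h c) (tmap q c)

/-- CAP: the capping formula. -/
def Stmt_CAP : Prop := ∀ (Z E : Type) [TopologicalSpace Z] [TopologicalSpace E] (A : Type)
  [AddCommGroup A] [AddAction A Z] [ContinuousConstVAdd A Z] (q : C(Z, E)),
  IsAddQuotientCoveringMap q A → ∀ (lab : Z → A), IsLabel lab →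
  ∀ (χ : A →+ ZMod 2) (h₀ : A), χ h₀ = 1 → ∀ (w' y : TCh Z) (w u : TCh E),
    IsDesc q w' w → tbd w = 0 → (∀ h : A, χ h = 0 → tact h y = y) → y + tact h₀ y = w' →
    IsDesc q (tbd y) u → ∀ α : TCo E, IsClosedCo α →
    tpair (cupE α (vch q lab χ)) w = tpair α u

/-! ### Algebra of the operators `α ↦ α ∪ v` -/

/-- CUE: `cupE` with a cocycle preserves closed and exact cochains, and is commutative up to exact
cochains. -/
def Stmt_CUE : Prop := ∀ (X : Type) [TopologicalSpace X] (v w : Coch X 1), cobd v = 0 →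
  cobd w = 0 →
  (∀ α : TCo X, IsClosedCo α → IsClosedCo (cupE α v)) ∧
  (∀ α : TCo X, cupE (tcobd α) v = tcobd (cupE α v)) ∧
  (∀ α : TCo X, IsClosedCo α →
    cupE (cupE α v) w + cupE (cupE α w) v = tcobd (cupE α (fun τ => v τ * w τ)))

/-- Iterated cup products: the head of the list is the last factor. -/
def cupL {X : Type} [TopologicalSpace X] (α : TCo X) : List (Coch X 1) → TCo X
  | [] => α
  | v :: l => cupE (cupL α l) v

/-- The sum of words representing `(∑_{j ≤ i} χ_i χ_j)³ Sq¹(∑_{j ≤ i} χ_i χ_j)`. -/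
def PPw {X : Type} [TopologicalSpace X] (v : Fin 7 → Coch X 1) : TCo X :=
  ∑ i₁ : Fin 7, ∑ j₁ ∈ Finset.Iic i₁, ∑ i₂ : Fin 7, ∑ j₂ ∈ Finset.Iic i₂,
    ∑ i₃ : Fin 7, ∑ j₃ ∈ Finset.Iic i₃, ∑ i₄ : Fin 7, ∑ j₄ ∈ Finset.Iic i₄,
      (cupL oneCo [v i₄, v j₄, v j₄, v i₃, v j₃, v i₂, v j₂, v i₁, v j₁] +
        cupL oneCo [v i₄, v i₄, v j₄, v i₃, v j₃, v i₂, v j₂, v i₁, v j₁])

/-- The classes of the 7 lines in terms of the 6 basic classes `x, y₁, y₂, y₃, y, s`. -/
def vv7 {X : Type} [TopologicalSpace X] (v : Fin 6 → Coch X 1) : Fin 7 → Coch X 1 :=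
  ![0, v 1, v 0, v 4, v 4 + v 3, v 4 + v 2, v 4 + v 0 + v 1 + v 2 + v 3]

/-- EVA: the algebraic evaluation: if the relations of the blocks and the value on the top monomial
hold for the functional evaluation on the cycle `T`, then the characteristic number is `1`. -/
def Stmt_EVA : Prop := ∀ (X : Type) [TopologicalSpace X] (v : Fin 6 → Coch X 1)
  (_ : ∀ i, cobd (v i) = 0) (T : TCh X) (_ : tbd T = 0)
  (_ : ∀ α, IsClosedCo α → tpair (cupL α [v 5, v 5, v 5]) T = 0)
  (_ : ∀ α, IsClosedCo α → tpair (cupL α [v 0 + v 5, v 0 + v 5]) T = 0)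
  (_ : ∀ α, IsClosedCo α → tpair (cupL α [v 1, v 1]) T = 0)
  (_ : ∀ α, IsClosedCo α → tpair (cupL α [v 2, v 2 + v 1]) T = 0)
  (_ : ∀ α, IsClosedCo α → tpair (cupL α [v 3, v 3 + v 0]) T = 0)
  (_ : ∀ α, IsClosedCo α → tpair (cupL α [v 4, v 4 + v 3, v 4 + v 2,
    v 4 + v 0 + v 1 + v 2 + v 3]) T = 0)
  (_ : tpair (cupL oneCo [v 5, v 5, v 0 + v 5, v 1, v 2, v 3, v 4, v 4 + v 3, v 4 + v 2]) T = 1),
  tpair (PPw (vv7 v)) T = 1

/-- BIG: `bigC` of `omegaC` is the sum of words up to exact cochains. -/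
def Stmt_BIG : Prop := ∀ (Z E : Type) [TopologicalSpace Z] [TopologicalSpace E] (A : Type)
  [AddCommGroup A] (q : Z → E) (lab : Z → A) (χ : Fin 7 → (A →+ ZMod 2)),
  (∀ χ' : A →+ ZMod 2, cobd (vch q lab χ') = 0) →
  ∀ (T : Chain E 9), bd T = 0 →
    pair (bigC (omegaC q lab χ)) T = tpair (PPw (fun i => vch q lab (χ i))) (incl 9 T)

/-! ### Mirror systems -/

/-- SYSF: the chain `full I` is invariant and its boundary is zero (so its descent is a cycle). -/
def Stmt_SYSF : Prop := ∀ (Z : Type) [TopologicalSpace Z] (J : Type) [Fintype J] [DecidableEq J]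
  [AddAction (J → ZMod 2) Z] [ContinuousConstVAdd (J → ZMod 2) Z] (d : ℕ) (S : MirrorSys Z J d)
  (I : Finset J), (∀ g : J → ZMod 2, tact g (S.full I) = S.full I) ∧ tbd (S.full I) = 0

/-- SYSC: capping for mirror systems. -/
def Stmt_SYSC : Prop := ∀ (Z : Type) [TopologicalSpace Z] (J : Type) [Fintype J] [DecidableEq J]
  [AddAction (J → ZMod 2) Z] [ContinuousConstVAdd (J → ZMod 2) Z] (d : ℕ) (S : MirrorSys Z J d)
  (E : Type) [TopologicalSpace E] (A : Type) [AddCommGroup A] [AddAction A Z]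
  [ContinuousConstVAdd A Z] (X : A →+ (J → ZMod 2)), (∀ (h : A) (z : Z), h +ᵥ z = X h +ᵥ z) →
  ∀ (q : C(Z, E)), IsAddQuotientCoveringMap q A → ∀ (lab : Z → A), IsLabel lab →
  ∀ (I : Finset J) (i : J), i ∉ I → ∀ (χ : A →+ ZMod 2), (∀ h, χ h = X h i) →
  (∃ h₀, χ h₀ = 1) → ∀ (w u : TCh E), IsDesc q (S.full I) w → IsDesc q (S.full (insert i I)) u →
  ∀ α : TCo E, IsClosedCo α → tpair (cupE α (vch q lab χ)) w = tpair α u

/-- SYST: if the group is a complement of the sign changes in `I`, then the descent of `full I` is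
the image of `c I`. -/
def Stmt_SYST : Prop := ∀ (Z : Type) [TopologicalSpace Z] (J : Type) [Fintype J] [DecidableEq J]
  [AddAction (J → ZMod 2) Z] [ContinuousConstVAdd (J → ZMod 2) Z] (d : ℕ) (S : MirrorSys Z J d)
  (E : Type) [TopologicalSpace E] (A : Type) [AddCommGroup A] [Fintype A] [AddAction A Z]
  [ContinuousConstVAdd A Z] (X : A →+ (J → ZMod 2)), (∀ (h : A) (z : Z), h +ᵥ z = X h +ᵥ z) →
  ∀ (q : C(Z, E)), IsAddQuotientCoveringMap q A →
  ∀ (I : Finset J), (∀ g : J → ZMod 2, (∀ i ∈ I, g i = 0) → ∃! h : A, ∀ j ∉ I, X h j = g j) →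
  IsDesc q (S.full I) (tmap q (S.c I))

end TC
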