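import Pool.Agent.TC.Cyc.Defs2
import Pool.Agent.TC.Cyc.Stmts

/-!
# Block CYC: statements of the modules (part 2: polytopes, cross product, systems, transfer)
-/

set_option autoImplicit false

open scoped Topology Manifold ContDiff

noncomputable section

namespace TC

/-! ### Coverings (continued) -/

/-- LAB: equivariant labels exist. -/
def Stmt_LAB : Prop := ∀ (Z E : Type) [TopologicalSpace Z] [TopologicalSpace E] (A : Type)
  [AddCommGroup A] [AddAction A Z] (q : C(Z, E)), IsAddQuotientCoveringMap q A →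
  ∃ lab : Z → A, IsLabel lab

/-- DEC: the converse of DSUM. -/
def Stmt_DEC : Prop := ∀ (Z E : Type) [TopologicalSpace Z] [TopologicalSpace E] (A : Type)
  [AddCommGroup A] [Fintype A] [AddAction A Z] [ContinuousConstVAdd A Z] (q : C(Z, E)),
  IsAddQuotientCoveringMap q A → ∀ (w' : TCh Z) (w : TCh E), IsDesc q w' w →
    ∃ c : TCh Z, w' = ∑ h : A, tact h c ∧ w = tmap q c ∧
      ∀ s ∈ c.support, s ∈ w'.support

/-! ### Chains of fixed degree -/

/-- GRD: total chains all of whose simplices have degree `k`. -/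
def Stmt_GRD : Prop := ∀ (X Y : Type) [TopologicalSpace X] [TopologicalSpace Y],
  (∀ (k : ℕ) (z : TCh X), (∀ s ∈ z.support, s.1 = k) → incl k (prj k z) = z) ∧
  (∀ (k : ℕ) (z : Chain X k), prj k (incl k z) = z) ∧
  (∀ (k : ℕ) (z : TCh X), (∀ s ∈ z.support, s.1 = k + 1) →
    bd (prj (k + 1) z) = prj k (tbd z)) ∧
  (∀ (k : ℕ) (f : C(X, Y)) (z : TCh X), prj k (tmap f z) = cmap f (prj k z)) ∧
  (∀ (k : ℕ) (f : C(X, Y)) (z : Chain X k), tmap f (incl k z) = incl k (cmap f z)) ∧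
  (∀ (k : ℕ) (z w : Chain X k), incl k z = incl k w → z = w) ∧
  (∀ z : TCh X, (∀ s ∈ z.support, s.1 = 0) → tbd z = 0) ∧
  (∀ (k : ℕ) (z : TCh X), (∀ s ∈ z.support, s.1 = k + 1) → ∀ s ∈ (tbd z).support, s.1 = k)

/-! ### Mirror systems (continued) -/

/-- EMPT: the chains over an empty fixed set vanish. -/
def Stmt_EMPT : Prop := ∀ (Z : Type) [TopologicalSpace Z] (J : Type) [Fintype J] [DecidableEq J]
  [AddAction (J → ZMod 2) Z] [ContinuousConstVAdd (J → ZMod 2) Z] (d : ℕ) (S : MirrorSys Z J d)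
  (I : Finset J), (∀ z : Z, ∃ i ∈ I, (Pi.single i 1 : J → ZMod 2) +ᵥ z ≠ z) →
  S.c I = 0 ∧ S.full I = 0

/-- LCAP: iterated capping. -/
def Stmt_LCAP : Prop := ∀ (Z : Type) [TopologicalSpace Z] (J : Type) [Fintype J] [DecidableEq J]
  [AddAction (J → ZMod 2) Z] [ContinuousConstVAdd (J → ZMod 2) Z] (d : ℕ) (S : MirrorSys Z J d)
  (E : Type) [TopologicalSpace E] (A : Type) [AddCommGroup A] [AddAction A Z]
  [ContinuousConstVAdd A Z] (X : A →+ (J → ZMod 2)), (∀ (h : A) (z : Z), h +ᵥ z = X h +ᵥ z) →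
  ∀ (q : C(Z, E)), IsAddQuotientCoveringMap q A → ∀ (lab : Z → A), IsLabel lab →
  ∀ (χ : J → (A →+ ZMod 2)), (∀ j h, χ j h = X h j) → (∀ j, ∃ h₀, χ j h₀ = 1) →
  ∀ (l : List J) (I : Finset J), l.Nodup → (∀ i ∈ l, i ∉ I) →
  ∀ (w u : TCh E), IsDesc q (S.full I) w → IsDesc q (S.full (I ∪ l.toFinset)) u →
  ∀ α : TCo E, IsClosedCo α → tpair (cupL α (l.map fun j => vch q lab (χ j))) w = tpair α u

/-- MAPS: the image of a mirror system under an equivariant map. -/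
def Stmt_MAPS : Prop := ∀ (Z Z' : Type) [TopologicalSpace Z] [TopologicalSpace Z'] (J J' : Type)
  [Fintype J] [DecidableEq J] [Fintype J'] [DecidableEq J']
  [AddAction (J → ZMod 2) Z] [ContinuousConstVAdd (J → ZMod 2) Z]
  [AddAction (J' → ZMod 2) Z'] [ContinuousConstVAdd (J' → ZMod 2) Z']
  (e : J ≃ J') (f : C(Z, Z')), (∀ (g : J' → ZMod 2) (z : Z), f ((g ∘ e) +ᵥ z) = g +ᵥ f z) →
  ∀ (d : ℕ) (S : MirrorSys Z J d), ∃ S' : MirrorSys Z' J' d,
    (∀ I : Finset J, S'.c (I.map e.toEmbedding) = tmap f (S.c I)) ∧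
    (∀ I : Finset J, S'.full (I.map e.toEmbedding) = tmap f (S.full I))

/-- PROD: the product of mirror systems. -/
def Stmt_PROD : Prop := ∀ (X Y : Type) [TopologicalSpace X] [TopologicalSpace Y] (J J' : Type)
  [Fintype J] [DecidableEq J] [Fintype J'] [DecidableEq J']
  [AddAction (J → ZMod 2) X] [ContinuousConstVAdd (J → ZMod 2) X]
  [AddAction (J' → ZMod 2) Y] [ContinuousConstVAdd (J' → ZMod 2) Y]
  (d d' : ℕ) (S : MirrorSys X J d) (S' : MirrorSys Y J' d'),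
  ∃ P : MirrorSys (X × Y) (J ⊕ J') (d + d'),
    (∀ I I', P.c (I.disjSum I') = cross (S.c I) (S'.c I')) ∧
    (∀ I I', P.full (I.disjSum I') = cross (S.full I) (S'.full I'))

/-! ### List chains and polytopes -/

/-- LCHN: identities of list chains. -/
def Stmt_LCHN : Prop := ∀ (K : Type),
  (∀ (b : K) (c : LCh K), lbd (lcone b c) = c + lcone b (lbd c)) ∧
  (∀ c : LCh K, lbd (lbd c) = 0) ∧
  (∀ (K' : Type) (f : K → K') (c : LCh K), lbd (lmapC f c) = lmapC f (lbd c)) ∧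
  (∀ [TopologicalSpace K] [Cvx K] (c : LCh K), tbd (lreal c) = lreal (lbd c)) ∧
  (∀ [TopologicalSpace K] [Cvx K] (c : LCh K) (s : SSx K), s ∈ (lreal c).support →
    ∃ l ∈ c.support, ∃ h : l.length = s.1 + 1,
      s.2 = Cvx.comb (fun i : Fin (s.1 + 1) => l.get (i.cast h.symm)))

/-- LNAT: affine maps commute with the realisation. -/
def Stmt_LNAT : Prop := ∀ (K K' : Type) [TopologicalSpace K] [TopologicalSpace K'] [Cvx K]
  [Cvx K'] (f : C(K, K')), (∀ (k : ℕ) (v : Fin (k + 1) → K),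
    f.comp (Cvx.comb v) = Cvx.comb (fun i => f (v i))) →
  ∀ c : LCh K, tmap f (lreal c) = lreal (lmapC f c)

/-- POLY: the chains of the faces of a polytope. -/
def Stmt_POLY : Prop := ∀ (K : Type) [TopologicalSpace K] [Cvx K] (A : Type) [Fintype A]
  [DecidableEq A] (fc : Finset A → Prop) [DecidablePred fc] (d : ℕ) (b : Finset A → K)
  (F : A → Set K),
  (∀ σ τ, σ ⊆ τ → fc τ → fc σ) → (∀ σ, fc σ → σ.card ≤ d) →
  (∀ σ, fc σ → σ.card + 1 = d →
    Even (Finset.univ.filter fun a => a ∉ σ ∧ fc (insert a σ)).card) →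
  (∀ (a : A) (k : ℕ) (v : Fin (k + 1) → K), (∀ i, v i ∈ F a) → ∀ t, Cvx.comb v t ∈ F a) →
  (∀ σ, fc σ → ∀ a ∈ σ, b σ ∈ F a) →
  ∃ P : Finset A → TCh K, (∀ σ, tbd (P σ) = ∑ a ∈ σᶜ, P (insert a σ)) ∧
    (∀ σ, ∀ s ∈ (P σ).support, s.1 + σ.card = d) ∧
    (∀ σ, ∀ s ∈ (P σ).support, ∀ a ∈ σ, ∀ t, s.2 t ∈ F a) ∧
    (∀ σ, ¬ fc σ → P σ = 0) ∧
    (∀ σ, fc σ → σ.card = d → tpair oneCo (P σ) = 1)

/-- SYSP: the mirror system of a polytope with coloured facets. -/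
def Stmt_SYSP : Prop := ∀ (K : Type) [TopologicalSpace K] (A : Type) [Fintype A]
  [DecidableEq A] (d : ℕ) (F : A → Set K) (P : Finset A → TCh K),
  (∀ σ, tbd (P σ) = ∑ a ∈ σᶜ, P (insert a σ)) →
  (∀ σ, ∀ s ∈ (P σ).support, s.1 + σ.card = d) →
  (∀ σ, ∀ s ∈ (P σ).support, ∀ a ∈ σ, ∀ t, s.2 t ∈ F a) →
  ∀ (Z : Type) [TopologicalSpace Z] (J : Type) [Fintype J] [DecidableEq J]
  [AddAction (J → ZMod 2) Z] [ContinuousConstVAdd (J → ZMod 2) Z] (κ : C(K, Z)) (col : A → J),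
  (∀ σ, ∀ a ∈ σ, ∀ a' ∈ σ, a ≠ a' → col a = col a' → P σ = 0) →
  (∀ a, ∀ x ∈ F a, (Pi.single (col a) 1 : J → ZMod 2) +ᵥ κ x = κ x) →
  ∃ S : MirrorSys Z J d, ∀ I, S.c I =
    ∑ σ ∈ Finset.univ.filter (fun σ : Finset A => σ.image col = I ∧ σ.card = I.card),
      tmap κ (P σ)

/-! ### The cross product -/

/-- CRSA: the boundary of the list chains `eL`, and the lengths of the lists. -/
def Stmt_CRSA : Prop :=
  (∀ p q : ℕ, lbd (eL (p + 1) (q + 1)) =
    ∑ i, lmapC (fun x => (face i x.1, x.2)) (eL p (q + 1)) +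
      ∑ i, lmapC (fun x => (x.1, face i x.2)) (eL (p + 1) q)) ∧
  (∀ p : ℕ, lbd (eL (p + 1) 0) = ∑ i, lmapC (fun x => (face i x.1, x.2)) (eL p 0)) ∧
  (∀ q : ℕ, lbd (eL 0 (q + 1)) = ∑ i, lmapC (fun x => (x.1, face i x.2)) (eL 0 q)) ∧
  (∀ p q : ℕ, ∀ l ∈ (eL p q).support, l.length = p + q + 1)

/-- CRSB: the boundary of the cross product. -/
def Stmt_CRSB : Prop := ∀ (X Y : Type) [TopologicalSpace X] [TopologicalSpace Y]
  (a : TCh X) (b : TCh Y), tbd (cross a b) = cross (tbd a) b + cross a (tbd b)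

/-- CRSC: naturality, support and augmentation of the cross product. -/
def Stmt_CRSC : Prop := ∀ (X Y : Type) [TopologicalSpace X] [TopologicalSpace Y]
  (a : TCh X) (b : TCh Y),
  (∀ (X' Y' : Type) [TopologicalSpace X'] [TopologicalSpace Y'] (f : C(X, X')) (g : C(Y, Y')),
    tmap (f.prodMap g) (cross a b) = cross (tmap f a) (tmap g b)) ∧
  (∀ s ∈ (cross a b).support, ∃ s₁ ∈ a.support, ∃ s₂ ∈ b.support, s.1 = s₁.1 + s₂.1 ∧
    ∀ t, ∃ t₁ t₂, s.2 t = (s₁.2 t₁, s₂.2 t₂)) ∧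
  tpair oneCo (cross a b) = tpair oneCo a * tpair oneCo b

/-! ### The concrete systems -/

/-- SYS1: the circle. -/
def Stmt_SYS1 : Prop := ∃ S : MirrorSys CC (Fin 2) 1, tpair oneCo (S.c {0}) = 1

/-- SYS2: the sphere. -/
def Stmt_SYS2 : Prop := ∃ S : MirrorSys S2 (Fin 3) 2, tpair oneCo (S.c {0, 1}) = 1

/-- SYSY: the hypersurface `Y`. -/
def Stmt_SYSY : Prop := ∃ S : MirrorSys YY (Fin 4) 3, tpair oneCo (S.c {0, 1, 2}) = 1

/-- SYSM: the manifold `Mh`. -/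
def Stmt_SYSM : Prop := ∃ S : MirrorSys Mh (Fin 12) 7, tpair oneCo (S.c ItopM) = 1

/-! ### The transfer -/

/-- RPC: the projective plane. -/
def Stmt_RPC : Prop := IsAddQuotientCoveringMap qRc (ZMod 2)

/-- PULC: pull back of cup products. -/
def Stmt_PULC : Prop := ∀ (X Y : Type) [TopologicalSpace X] [TopologicalSpace Y] (f : C(X, Y))
  (l : List (Coch Y 1)) (z : TCh X),
  tpair (cupL oneCo l) (tmap f z) = tpair (cupL oneCo (l.map (pull f))) z

/-- VALM: the value on the fibre. -/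
def Stmt_VALM : Prop := IsAddQuotientCoveringMap qMc H5 →
  ∀ (S : MirrorSys Mh (Fin 12) 7), tpair oneCo (S.c ItopM) = 1 →
  ∀ (z : TCh Mq), IsDesc qMc (S.full ∅) z → ∀ lab : Mh → H5, IsLabel lab →
  tpair (cupL oneCo ([ev5 0, ev5 1, ev5 2, ev5 3, ev5 4, ev5 4 + ev5 3, ev5 4 + ev5 2].map
    (vch qMc lab))) z = 1

/-- FNDE: a closed cochain of the total space which detects the fibres. -/
def Stmt_FNDE : Prop := IsAddQuotientCoveringMap qMc H5 → QE_main →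
  ∀ (S : MirrorSys Mh (Fin 12) 7), tpair oneCo (S.c ItopM) = 1 →
  ∀ (z : TCh Mq), IsDesc qMc (S.full ∅) z →
  ∃ α : TCo EE, IsClosedCo α ∧ ∀ b : C(Simp 0, S2),
    tpair α (tmap totC (cross z (Finsupp.single ⟨0, b⟩ 1))) = 1

/-- TRF: the fibre transfer. -/
def Stmt_TRF : Prop := IsAddQuotientCoveringMap qMc H5 → QE_main →
  ∀ (S : MirrorSys Mh (Fin 12) 7), tpair oneCo (S.c ItopM) = 1 →
  ∀ (z : TCh Mq), IsDesc qMc (S.full ∅) z →
  ∃ T : FibreTransfer 6 (Tot.proj (actM 1) actM_one_invol),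
    ∀ (j : ℕ) (σ : C(Simp j, S2)),
      incl (6 + 1 + j) (cmap (PB.toE (Tot.proj (actM 1) actM_one_invol) (qRc.comp σ))
        (T.chain (qRc.comp σ))) = tmap totC (cross z (Finsupp.single ⟨j, σ⟩ 1))

/-- DESE: the total cycle. -/
def Stmt_DESE : Prop := IsAddQuotientCoveringMap qMc H5 → QE_main →
  ∀ (S : MirrorSys Mh (Fin 12) 7) (S' : MirrorSys S2 (Fin 3) 2) (z : TCh Mq),
  IsDesc qMc (S.full ∅) z → ∀ y : TCh S2, y + tact (1 : ZMod 2) y = S'.full ∅ →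
  IsDesc qEc (cross (S.full ∅) (S'.full ∅)) (tmap totC (cross z y))

/-- RELS: the characteristic number of the total cycle. -/
def Stmt_RELS : Prop := QE_main →
  ∀ (S : MirrorSys ZZ (Fin 12 ⊕ Fin 3) 9), tpair oneCo (S.c (ItopM.disjSum {0, 1})) = 1 →
  ∀ w : TCh EE, IsDesc qEc (S.full ∅) w → tbd w = 0 → ∀ lab : ZZ → H6, IsLabel lab →
  tpair (PPw (fun i => vch qE lab (chr i))) w = 1

/-- EVAL: the assembly of the block. -/
def Stmt_EVAL : Prop := IsAddQuotientCoveringMap qMc H5 → QE_main → EVAL_main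

end TC
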